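import Mathlib

/-!
# The inclusion–exclusion formula, broken off
-/

set_option autoImplicit false

namespace Pool.Agent.J6H89.SM

open Finset

/-- the alternating sum of the elementary symmetric functions of `1/p` up to the index `u` -/
noncomputable def Tb : ℕ → List ℕ → ℝ
  | 0, _ => 1
  | (_ + 1), [] => 1
  | (u + 1), (q :: A) => Tb (u + 1) A - (q : ℝ)⁻¹ * Tb u A

/-- the product of the `1 - 1/p` -/
noncomputable def Pb : List ℕ → ℝ
  | [] => 1
  | (q :: A) => Pb A * (1 - (q : ℝ)⁻¹)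

/-- the sum of the `1/p` -/
noncomputable def Sb : List ℕ → ℝ
  | [] => 0
  | (q :: A) => Sb A + (q : ℝ)⁻¹

lemma Tb_cons (u q : ℕ) (A : List ℕ) : Tb (u + 1) (q :: A) = Tb (u + 1) A - (q : ℝ)⁻¹ * Tb u A := rfl

lemma Tb_nil (u : ℕ) : Tb u [] = 1 := by cases u <;> rfl

lemma Sb_nonneg (A : List ℕ) : 0 ≤ Sb A := by
  induction A with
  | nil => exact le_rfl
  | cons q A ih =>
    unfold Sb
    have : 0 ≤ (q : ℝ)⁻¹ := by positivity
    linarith

lemma Tb_abs (u : ℕ) (A : List ℕ) : |Tb u A| ≤ Real.exp (Sb A) := by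
  induction A generalizing u with
  | nil =>
    rw [Tb_nil]
    simp [Sb]
  | cons q A ih =>
    cases u with
    | zero =>
      change |(1 : ℝ)| ≤ _
      rw [abs_one]
      exact Real.one_le_exp (Sb_nonneg _)
    | succ u =>
      rw [Tb_cons]
      have h1 := ih (u + 1)
      have h2 := ih u
      have hq : 0 ≤ (q : ℝ)⁻¹ := by positivity
      have h3 : |(q : ℝ)⁻¹ * Tb u A| ≤ (q : ℝ)⁻¹ * Real.exp (Sb A) := by
        rw [abs_mul, abs_of_nonneg hq]
        exact mul_le_mul_of_nonneg_left h2 hq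
      have h4 := abs_sub (Tb (u + 1) A) ((q : ℝ)⁻¹ * Tb u A)
      have h5 : Real.exp (Sb (q :: A)) = Real.exp (Sb A) * Real.exp ((q : ℝ)⁻¹) := by
        rw [← Real.exp_add]
        rfl
      rw [h5]
      have h6 := Real.add_one_le_exp ((q : ℝ)⁻¹)
      have h7 := Real.exp_pos (Sb A)
      nlinarith

/-- the numbers up to `k` without divisors in the list -/
def Cb (k : ℕ) (A : List ℕ) : ℕ := ((Icc 1 k).filter (fun n => ∀ p ∈ A, ¬ p ∣ n)).card

lemma Cb_cons (k q : ℕ) (A : List ℕ) (hq : q.Prime) (hA : ∀ p ∈ A, p.Prime) (hqA : q ∉ A) :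
    (Cb k (q :: A) : ℝ) = Cb k A - Cb (k / q) A := by
  classical
  have h1 : (Icc 1 k).filter (fun n => ∀ p ∈ A, ¬ p ∣ n) =
      (Icc 1 k).filter (fun n => ∀ p ∈ q :: A, ¬ p ∣ n) ∪
        ((Icc 1 (k / q)).filter (fun n => ∀ p ∈ A, ¬ p ∣ n)).image (fun m => q * m) := by
    ext n
    simp only [mem_filter, mem_Icc, List.mem_cons, mem_union, mem_image]
    constructor
    · rintro ⟨⟨h1, h2⟩, h3⟩
      by_cases hd : q ∣ n
      · right
        obtain ⟨m, rfl⟩ := hd
        refine ⟨m, ⟨⟨?_, ?_⟩, ?_⟩, rfl⟩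
        · rcases Nat.eq_zero_or_pos m with h0 | h0
          · subst h0
            omega
          · exact h0
        · rw [Nat.le_div_iff_mul_le hq.pos, mul_comm]
          exact h2
        · intro p hp hpm
          exact h3 p hp (hpm.trans (Dvd.intro_left _ rfl))
      · left
        refine ⟨⟨h1, h2⟩, ?_⟩
        rintro p (rfl | hp)
        · exact hd
        · exact h3 p hp
    · rintro (⟨⟨h1, h2⟩, h3⟩ | ⟨m, ⟨⟨h1, h2⟩, h3⟩, rfl⟩)
      · exact ⟨⟨h1, h2⟩, fun p hp => h3 p (Or.inr hp)⟩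
      · refine ⟨⟨?_, ?_⟩, ?_⟩
        · exact Nat.mul_pos hq.pos h1
        · rw [Nat.le_div_iff_mul_le hq.pos] at h2
          linarith
        · intro p hp hd
          rcases (hA p hp).dvd_mul.1 hd with h4 | h4
          · have := (Nat.prime_dvd_prime_iff_eq (hA p hp) hq).1 h4
            rw [this] at hp
            exact hqA hp
          · exact h3 p hp h4
  have h2 : Disjoint ((Icc 1 k).filter (fun n => ∀ p ∈ q :: A, ¬ p ∣ n))
      (((Icc 1 (k / q)).filter (fun n => ∀ p ∈ A, ¬ p ∣ n)).image (fun m => q * m)) := by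
    rw [disjoint_left]
    intro n hn hn2
    rw [mem_image] at hn2
    obtain ⟨m, _, rfl⟩ := hn2
    rw [mem_filter] at hn
    exact hn.2 q (by simp) (Dvd.intro _ rfl)
  have h3 : (((Icc 1 (k / q)).filter (fun n => ∀ p ∈ A, ¬ p ∣ n)).image (fun m => q * m)).card = Cb (k / q) A := by
    rw [card_image_of_injOn]
    · rfl
    · intro a _ b _ hab
      exact Nat.eq_of_mul_eq_mul_left hq.pos hab
  have h4 : Cb k A = Cb k (q :: A) + Cb (k / q) A := by
    unfold Cb at h3 ⊢
    rw [h1, card_union_of_disjoint h2, h3]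
  rw [h4]
  push_cast
  ring

/-- counting by the broken off formula -/
theorem Cb_approx (w : ℕ) (B : ℝ) (u k : ℕ) (A : List ℕ) (hA : ∀ p ∈ A, p.Prime ∧ w < p) (hnd : A.Nodup)
    (hB : Real.exp (Sb A) ≤ B) (hk : k < w ^ (u + 1)) :
    |(Cb k A : ℝ) - k * Tb u A| ≤ B * (((A.length : ℝ) + 1) ^ u - 1) := by
  induction A generalizing u k with
  | nil =>
    rw [Tb_nil]
    have : Cb k [] = k := by simp [Cb]
    rw [this]
    simp
  | cons q A ih =>
    have hq := hA q (by simp)
    have hA' : ∀ p ∈ A, p.Prime ∧ w < p := fun p hp => hA p (by simp [hp])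
    have hnd' := (List.nodup_cons.1 hnd).2
    have hqA := (List.nodup_cons.1 hnd).1
    have hqi : 0 ≤ (q : ℝ)⁻¹ := by positivity
    have hB' : Real.exp (Sb A) ≤ B := by
      refine le_trans ?_ hB
      apply Real.exp_le_exp.2
      change Sb A ≤ Sb A + (q : ℝ)⁻¹
      linarith
    have hB0 : 0 < B := lt_of_lt_of_le (Real.exp_pos _) hB
    rw [Cb_cons k q A hq.1 (fun p hp => (hA' p hp).1) hqA]
    cases u with
    | zero =>
      -- nothing is divisible
      have hkq : k / q = 0 := by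
        apply Nat.div_eq_of_lt
        simp only [zero_add, pow_one] at hk
        omega
      have h0 : Cb 0 A = 0 := by simp [Cb]
      rw [hkq, h0]
      have := ih 0 k hA' hnd' hB' hk
      simp only [pow_zero, sub_self, mul_zero] at this ⊢
      simpa [Tb] using this
    | succ u =>
      rw [Tb_cons]
      have h1 := ih (u + 1) k hA' hnd' hB' hk
      have h2 := ih u (k / q) hA' hnd' hB' (by
        rw [Nat.div_lt_iff_lt_mul hq.1.pos]
        calc k < w ^ (u + 1 + 1) := hk
          _ = w ^ (u + 1) * w := pow_succ _ _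
          _ ≤ w ^ (u + 1) * q := Nat.mul_le_mul_left _ hq.2.le)
      have h3 : |((k / q : ℕ) : ℝ) - k * (q : ℝ)⁻¹| ≤ 1 := by
        have h4 : ((k / q : ℕ) : ℝ) ≤ (k : ℝ) / q := Nat.cast_div_le
        have h5 : (k : ℝ) / q < ((k / q : ℕ) : ℝ) + 1 := by
          rw [div_lt_iff₀ (by exact_mod_cast hq.1.pos)]
          exact_mod_cast Nat.lt_succ_iff.2 le_rfl |>.trans_le (by
            have := Nat.div_add_mod k q
            have h6 := Nat.mod_lt k hq.1.pos
            nlinarith)
        rw [div_eq_mul_inv] at h4 h5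
        rw [abs_le]
        constructor <;> linarith
      have h4 : |(((k / q : ℕ) : ℝ) - k * (q : ℝ)⁻¹) * Tb u A| ≤ B := by
        rw [abs_mul]
        have h5 := (Tb_abs u A).trans hB'
        have h6 := abs_nonneg (Tb u A)
        calc |((k / q : ℕ) : ℝ) - k * (q : ℝ)⁻¹| * |Tb u A| ≤ 1 * |Tb u A| := mul_le_mul_of_nonneg_right h3 h6
          _ ≤ B := by linarith
      have e : ((Cb k A : ℝ) - Cb (k / q) A) - k * (Tb (u + 1) A - (q : ℝ)⁻¹ * Tb u A) =
          ((Cb k A : ℝ) - k * Tb (u + 1) A) - ((Cb (k / q) A : ℝ) - ((k / q : ℕ) : ℝ) * Tb u A) -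
            (((k / q : ℕ) : ℝ) - k * (q : ℝ)⁻¹) * Tb u A := by ring
      rw [e]
      have h5 : |((Cb k A : ℝ) - k * Tb (u + 1) A) - ((Cb (k / q) A : ℝ) - ((k / q : ℕ) : ℝ) * Tb u A) -
            (((k / q : ℕ) : ℝ) - k * (q : ℝ)⁻¹) * Tb u A| ≤
          B * (((A.length : ℝ) + 1) ^ (u + 1) - 1) + B * (((A.length : ℝ) + 1) ^ u - 1) + B := by
        refine (abs_sub _ _).trans ?_
        have := abs_sub ((Cb k A : ℝ) - k * Tb (u + 1) A) ((Cb (k / q) A : ℝ) - ((k / q : ℕ) : ℝ) * Tb u A)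
        linarith
      refine h5.trans ?_
      have hlen : (((q :: A).length : ℕ) : ℝ) = (A.length : ℝ) + 1 := by
        rw [List.length_cons]
        push_cast
        ring
      rw [hlen]
      obtain ⟨t, ht⟩ : ∃ t : ℝ, t = (A.length : ℝ) + 1 := ⟨_, rfl⟩
      rw [← ht]
      have ht1 : 0 ≤ t := by rw [ht]; positivity
      have h6 : t ^ (u + 1) + t ^ u ≤ (t + 1) ^ (u + 1) := by
        calc t ^ (u + 1) + t ^ u = t ^ u * (t + 1) := by ring
          _ ≤ (t + 1) ^ u * (t + 1) := by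
              apply mul_le_mul_of_nonneg_right _ (by linarith)
              exact pow_le_pow_left₀ ht1 (by linarith) u
          _ = (t + 1) ^ (u + 1) := by ring
      nlinarith

/-- the difference of the product and the alternating sum -/
theorem Tb_gap (κ m : ℝ) (hm : 0 ≤ m) (hκ : 0 ≤ κ) (u : ℕ) (A : List ℕ) (hA : ∀ p ∈ A, 2 ≤ p ∧ (p : ℝ)⁻¹ ≤ m)
    (hP : κ ≤ Pb A) :
    κ * ((max 0 (Sb A - u * m)) ^ (u + 1) / (Nat.factorial (u + 1))) ≤ (-1) ^ (u + 1) * (Pb A - Tb u A) := by
  induction A generalizing u with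
  | nil =>
    rw [Tb_nil]
    have h1 : max 0 (Sb [] - u * m) = 0 := by
      apply max_eq_left
      change 0 - (u : ℝ) * m ≤ 0
      have : 0 ≤ (u : ℝ) * m := by positivity
      linarith
    rw [h1]
    simp [Pb]
  | cons q A ih =>
    have hq := hA q (by simp)
    have hA' : ∀ p ∈ A, 2 ≤ p ∧ (p : ℝ)⁻¹ ≤ m := fun p hp => hA p (by simp [hp])
    obtain ⟨x, hx⟩ : ∃ x, x = (q : ℝ)⁻¹ := ⟨_, rfl⟩
    have hx0 : 0 ≤ x := by rw [hx]; positivity
    have hx2 : x ≤ 1 / 2 := by
      rw [hx, one_div]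
      apply inv_anti₀ (by norm_num)
      exact_mod_cast hq.1
    have hxm : x ≤ m := by rw [hx]; exact hq.2
    have hPc : Pb (q :: A) = Pb A * (1 - x) := by rw [hx]; rfl
    have hSc : Sb (q :: A) = Sb A + x := by rw [hx]; rfl
    rw [hPc] at hP ⊢
    rw [hSc]
    have hPA : κ ≤ Pb A := by
      by_contra hcon
      have h1 : Pb A < κ := not_le.1 hcon
      nlinarith
    obtain ⟨s, hs⟩ : ∃ s, s = Sb A := ⟨_, rfl⟩
    have hs0 : 0 ≤ s := by rw [hs]; exact Sb_nonneg _
    rw [← hs]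
    cases u with
    | zero =>
      have h1 := ih 0 hA' hPA
      rw [← hs] at h1
      have e0 : ∀ B : List ℕ, Tb 0 B = 1 := fun B => by cases B <;> rfl
      rw [e0] at h1 ⊢
      simp only [Nat.cast_zero, zero_mul, sub_zero, zero_add, pow_one, Nat.factorial_one, Nat.cast_one, div_one,
        neg_mul, one_mul] at h1 ⊢
      rw [max_eq_right hs0] at h1
      rw [max_eq_right (by linarith)]
      nlinarith
    | succ u =>
      have h1 := ih (u + 1) hA' hPA
      have h2 := ih u hA' hPA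
      rw [← hs] at h1 h2
      rw [Tb_cons, ← hx]
      have e : (-1 : ℝ) ^ (u + 1 + 1) * (Pb A * (1 - x) - (Tb (u + 1) A - x * Tb u A)) =
          (-1) ^ (u + 1 + 1) * (Pb A - Tb (u + 1) A) + x * ((-1) ^ (u + 1) * (Pb A - Tb u A)) := by
        ring
      rw [e]
      refine le_trans ?_ (add_le_add h1 (mul_le_mul_of_nonneg_left h2 hx0))
      push_cast
      -- convexity
      obtain ⟨a, ha⟩ : ∃ a, a = max 0 (s - ((u : ℝ) + 1) * m) := ⟨_, rfl⟩
      obtain ⟨b, hb⟩ : ∃ b, b = max 0 (s + x - ((u : ℝ) + 1) * m) := ⟨_, rfl⟩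
      obtain ⟨d, hd⟩ : ∃ d, d = max 0 (s - (u : ℝ) * m) := ⟨_, rfl⟩
      rw [← ha, ← hb, ← hd]
      have ha0 : 0 ≤ a := by rw [ha]; exact le_max_left _ _
      have hab : a ≤ b := by
        rw [ha, hb]
        exact max_le_max le_rfl (by linarith)
      have hbax : b ≤ a + x := by
        rw [ha, hb]
        apply max_le
        · have := le_max_left 0 (s - ((u : ℝ) + 1) * m)
          linarith
        · have := le_max_right 0 (s - ((u : ℝ) + 1) * m)
          linarith
      have hbd : b ≤ d := by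
        rw [hb, hd]
        exact max_le_max le_rfl (by linarith)
      have hb0 : 0 ≤ b := ha0.trans hab
      have hpow : ∀ r : ℕ, b ^ (r + 1) ≤ a ^ (r + 1) + (r + 1) * (x * b ^ r) := by
        intro r
        induction r with
        | zero =>
          simp only [zero_add, pow_one, Nat.cast_zero, pow_zero, mul_one, one_mul]
          exact hbax
        | succ r ihr =>
          have h3 : b ^ (r + 1 + 1) ≤ b * (a ^ (r + 1) + (r + 1) * (x * b ^ r)) := by
            calc b ^ (r + 1 + 1) = b * b ^ (r + 1) := by ring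
              _ ≤ _ := mul_le_mul_of_nonneg_left ihr hb0
          have h4 : b * a ^ (r + 1) ≤ a ^ (r + 1 + 1) + x * b ^ (r + 1) := by
            have h5 : a ^ (r + 1) ≤ b ^ (r + 1) := pow_le_pow_left₀ ha0 hab _
            have h6 : 0 ≤ a ^ (r + 1) := by positivity
            calc b * a ^ (r + 1) ≤ (a + x) * a ^ (r + 1) := mul_le_mul_of_nonneg_right hbax h6
              _ = a ^ (r + 1 + 1) + x * a ^ (r + 1) := by ring
              _ ≤ a ^ (r + 1 + 1) + x * b ^ (r + 1) := by
                  have := mul_le_mul_of_nonneg_left h5 hx0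
                  linarith
          push_cast
          have h5 : b * ((r + 1) * (x * b ^ r)) = (r + 1) * (x * b ^ (r + 1)) := by ring
          nlinarith
      have hfac : ((Nat.factorial (u + 1 + 1) : ℕ) : ℝ) = ((u : ℝ) + 1 + 1) * (Nat.factorial (u + 1) : ℕ) := by
        rw [Nat.factorial_succ (u + 1)]
        push_cast
        ring
      have hF : (0 : ℝ) < (Nat.factorial (u + 1) : ℕ) := by exact_mod_cast Nat.factorial_pos _
      have h3 : b ^ (u + 1 + 1) / ((Nat.factorial (u + 1 + 1) : ℕ) : ℝ) ≤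
          a ^ (u + 1 + 1) / ((Nat.factorial (u + 1 + 1) : ℕ) : ℝ) + x * (d ^ (u + 1) / (Nat.factorial (u + 1) : ℕ)) := by
        have h4 := hpow (u + 1)
        push_cast at h4
        have h5 : b ^ (u + 1) ≤ d ^ (u + 1) := pow_le_pow_left₀ hb0 hbd _
        rw [hfac]
        have e2 : a ^ (u + 1 + 1) / (((u : ℝ) + 1 + 1) * (Nat.factorial (u + 1) : ℕ)) +
            x * (d ^ (u + 1) / (Nat.factorial (u + 1) : ℕ)) =
            (a ^ (u + 1 + 1) + ((u : ℝ) + 1 + 1) * (x * d ^ (u + 1))) /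
              (((u : ℝ) + 1 + 1) * (Nat.factorial (u + 1) : ℕ)) := by
          field_simp
        rw [e2]
        apply div_le_div_of_nonneg_right _ (by positivity)
        refine h4.trans ?_
        have h6 : x * b ^ (u + 1) ≤ x * d ^ (u + 1) := mul_le_mul_of_nonneg_left h5 hx0
        have h7 : 0 ≤ (u : ℝ) + 1 + 1 := by positivity
        nlinarith [mul_le_mul_of_nonneg_left h6 h7]
      have h4 := mul_le_mul_of_nonneg_left h3 hκ
      calc κ * (b ^ (u + 1 + 1) / ((Nat.factorial (u + 1 + 1) : ℕ) : ℝ)) ≤ _ := h4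
        _ = _ := by ring

end Pool.Agent.J6H89.SM
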