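import Mathlib
import Pool.Agent.N136.QL.FLC

/-!
# The mass of a growing sieve in short intervals
-/

set_option autoImplicit false

namespace Pool.Agent.J6H89.SM

open Finset

/-- `m` has no prime factor `q ∈ P`, `q ≤ z m` -/
def Rough (P : Set ℕ) (z : ℕ → ℕ) (m : ℕ) : Prop := ∀ q ∈ P, q.Prime → q ≤ z m → ¬ q ∣ m

open Classical in
/-- `∏ (1 - 1/q)⁻¹` over the primes `q ≤ x` in `P` -/
noncomputable def W (P : Set ℕ) (x : ℕ) : ℝ :=
  ∏ q ∈ (Finset.Icc 1 x).filter (fun q => q.Prime ∧ q ∈ P), (1 - (q : ℝ)⁻¹)⁻¹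

lemma one_le_factor {q : ℕ} (hq : q.Prime) : 1 ≤ (1 - (q : ℝ)⁻¹)⁻¹ := by
  have h2 : (2 : ℝ) ≤ q := by exact_mod_cast hq.two_le
  have h3 : (q : ℝ)⁻¹ ≤ 2⁻¹ := inv_anti₀ (by norm_num) h2
  have h4 : 0 < (q : ℝ)⁻¹ := by positivity
  rw [one_le_inv₀ (by linarith)]
  linarith

lemma one_le_W (P : Set ℕ) (x : ℕ) : 1 ≤ W P x := by
  classical
  unfold W
  refine Finset.prod_induction _ (fun t : ℝ => 1 ≤ t) (fun a b ha hb => one_le_mul_of_one_le_of_one_le ha hb)
    le_rfl ?_
  intro q hq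
  exact one_le_factor (mem_filter.1 hq).2.1

lemma W_pos (P : Set ℕ) (x : ℕ) : 0 < W P x := lt_of_lt_of_le one_pos (one_le_W P x)

lemma W_le (P : Set ℕ) (x : ℕ) (hx : 1 ≤ x) : W P x ≤ x := by
  classical
  induction x, hx using Nat.le_induction with
  | base =>
    unfold W
    have : (Finset.Icc 1 1).filter (fun q => q.Prime ∧ q ∈ P) = ∅ := by
      ext q
      simp only [Icc_self, mem_filter, mem_singleton, notMem_empty, iff_false, not_and]
      rintro rfl h
      exact absurd h (by norm_num)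
    rw [this]
    simp
  | succ x hx ih =>
    have hx0 : (0 : ℝ) < x := by exact_mod_cast hx
    by_cases h : (x + 1).Prime ∧ (x + 1) ∈ P
    · have e : (Finset.Icc 1 (x + 1)).filter (fun q => q.Prime ∧ q ∈ P) =
          insert (x + 1) ((Finset.Icc 1 x).filter (fun q => q.Prime ∧ q ∈ P)) := by
        ext q
        simp only [mem_filter, mem_Icc, mem_insert]
        constructor
        · rintro ⟨⟨h1, h2⟩, h3⟩
          rcases Nat.lt_or_ge x q with h4 | h4
          · left; omega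
          · right; exact ⟨⟨h1, h4⟩, h3⟩
        · rintro (rfl | ⟨⟨h1, h2⟩, h3⟩)
          · exact ⟨⟨by omega, le_rfl⟩, h⟩
          · exact ⟨⟨h1, by omega⟩, h3⟩
      unfold W
      rw [e, prod_insert (by simp)]
      have h1 : (1 - (((x + 1 : ℕ) : ℝ))⁻¹)⁻¹ = ((x : ℝ) + 1) / x := by
        push_cast
        have : (1 : ℝ) - ((x : ℝ) + 1)⁻¹ = x / (x + 1) := by
          field_simp
          ring
        rw [this, inv_div]
      rw [h1]
      change ((x : ℝ) + 1) / x * W P x ≤ _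
      rw [div_mul_eq_mul_div, div_le_iff₀ hx0]
      push_cast
      gcongr
    · have e : (Finset.Icc 1 (x + 1)).filter (fun q => q.Prime ∧ q ∈ P) =
          (Finset.Icc 1 x).filter (fun q => q.Prime ∧ q ∈ P) := by
        ext q
        simp only [mem_filter, mem_Icc]
        constructor
        · rintro ⟨⟨h1, h2⟩, h3⟩
          refine ⟨⟨h1, ?_⟩, h3⟩
          rcases Nat.lt_or_ge x q with h4 | h4
          · have : q = x + 1 := by omega
            subst this
            exact absurd h3 h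
          · exact h4
        · rintro ⟨⟨h1, h2⟩, h3⟩
          exact ⟨⟨h1, by omega⟩, h3⟩
      unfold W
      rw [e]
      change W P x ≤ _
      push_cast
      linarith

lemma W_le' (P : Set ℕ) (x : ℕ) : W P x ≤ x + 1 := by
  rcases Nat.eq_zero_or_pos x with rfl | hx
  · unfold W
    simp
  · have := W_le P x hx
    linarith

open Classical in
/-- the integers of `(X, Y]` without prime factors in `P` up to `v` -/
noncomputable def RC (P : Set ℕ) (v X Y : ℕ) : Finset ℕ :=
  (Ioc X Y).filter (fun m => ∀ q ∈ P, q.Prime → q ≤ v → ¬ q ∣ m)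

theorem flc : ∃ K : ℕ, 1 ≤ K ∧ ∀ (P : Set ℕ) (b v Z X Y : ℕ), K ≤ b → v ≤ Z → X ≤ Y →
    |((RC P v X Y).card : ℝ) - ((Y : ℝ) - X) * (W P v)⁻¹| ≤
      (1 / 2 : ℝ) ^ b * (((Y : ℝ) - X) * (W P v)⁻¹) + ((Z + 2 : ℕ) : ℝ) ^ (K * b) := by
  classical
  obtain ⟨K, hK, H⟩ := Pool.Agent.N136.QL.t_FLC
  refine ⟨K, hK, ?_⟩
  intro P b v Z X Y hb hv hXY
  have h := H b (Z + 2) (fun p => if p ∈ P ∧ p ≤ v then {0} else ∅) (X : ℤ) (Y : ℤ) hb (by omega)
    (by
      intro p hp _
      by_cases hc : p ∈ P ∧ p ≤ v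
      · simp only [hc, and_self, if_true]
        refine ⟨?_, by simp⟩
        rw [singleton_subset_iff, mem_range]
        exact hp.pos
      · simp only [hc, if_false]
        simp) (by exact_mod_cast hXY)
  have e1 : ∏ p ∈ (Ioc 0 (Z + 2)).filter Nat.Prime,
      (1 - (((if p ∈ P ∧ p ≤ v then {0} else ∅ : Finset ℕ).card : ℕ) : ℝ) / p) = (W P v)⁻¹ := by
    unfold W
    rw [← prod_inv_distrib]
    have e2 : ∀ p ∈ (Ioc 0 (Z + 2)).filter Nat.Prime,
        (1 - (((if p ∈ P ∧ p ≤ v then {0} else ∅ : Finset ℕ).card : ℕ) : ℝ) / p) =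
        if p ∈ P ∧ p ≤ v then (1 - (p : ℝ)⁻¹) else 1 := by
      intro p _
      by_cases hc : p ∈ P ∧ p ≤ v
      · simp only [hc, and_self, if_true]
        simp
      · simp only [hc, if_false]
        simp
    rw [prod_congr rfl e2, ← prod_filter]
    apply prod_congr
    · ext p
      simp only [mem_filter, mem_Ioc, mem_Icc]
      constructor
      · rintro ⟨⟨⟨h1, h2⟩, h3⟩, h4, h5⟩
        exact ⟨⟨h1, h5⟩, h3, h4⟩
      · rintro ⟨⟨h1, h5⟩, h3, h4⟩
        exact ⟨⟨⟨h1, by omega⟩, h3⟩, h4, h5⟩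
    · intro p _
      rw [inv_inv]
  rw [e1] at h
  have e3 : ((Ioc (X : ℤ) (Y : ℤ)).filter (fun t : ℤ => ∀ p : ℕ, p.Prime → p ≤ Z + 2 →
      (t % p).toNat ∉ (if p ∈ P ∧ p ≤ v then {0} else ∅ : Finset ℕ))).card = (RC P v X Y).card := by
    symm
    unfold RC
    refine card_bij (fun m _ => (m : ℤ)) ?_ (fun a _ b _ h => by exact_mod_cast h) ?_
    · intro m hm
      rw [mem_filter, mem_Ioc] at hm ⊢
      refine ⟨⟨by exact_mod_cast hm.1.1, by exact_mod_cast hm.1.2⟩, ?_⟩
      intro p hp _ hc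
      by_cases hcc : p ∈ P ∧ p ≤ v
      · rw [if_pos hcc, mem_singleton] at hc
        refine hm.2 p hcc.1 hp hcc.2 ?_
        have h1 : ((m : ℤ) % p).toNat = m % p := by
          rw [← Int.natCast_mod, Int.toNat_natCast]
        rw [h1] at hc
        exact Nat.dvd_of_mod_eq_zero hc
      · rw [if_neg hcc] at hc
        exact absurd hc (notMem_empty _)
    · intro t ht
      rw [mem_filter, mem_Ioc] at ht
      have ht0 : 0 ≤ t := by omega
      obtain ⟨m, rfl⟩ : ∃ m : ℕ, t = m := ⟨t.toNat, by omega⟩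
      refine ⟨m, ?_, rfl⟩
      rw [mem_filter, mem_Ioc]
      refine ⟨⟨by exact_mod_cast ht.1.1, by exact_mod_cast ht.1.2⟩, ?_⟩
      intro p hpP hp hpv hd
      refine ht.2 p hp (by omega) ?_
      rw [if_pos ⟨hpP, hpv⟩, mem_singleton]
      have h1 : ((m : ℤ) % p).toNat = m % p := by
        rw [← Int.natCast_mod, Int.toNat_natCast]
      rw [h1]
      exact Nat.mod_eq_zero_of_dvd hd
  rw [← e3]
  have h2 := h
  push_cast at h2 ⊢
  convert h2 using 2

open Classical in
/-- the weight of `m` -/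
noncomputable def wt (P : Set ℕ) (z : ℕ → ℕ) (m : ℕ) : ℝ := if Rough P z m then W P (z m) else 0

/-- the sum of the weights in an interval is asymptotic to its length -/
theorem mass : ∃ K : ℕ, 1 ≤ K ∧ ∀ (P : Set ℕ) (z : ℕ → ℕ), Monotone z → ∀ b Z X Y : ℕ, K ≤ b → X ≤ Y →
    z Y ≤ Z → |∑ m ∈ Ioc X Y, wt P z m - ((Y : ℝ) - X)| ≤
      (1 / 2 : ℝ) ^ b * ((Y : ℝ) - X) + ((Z + 2 : ℕ) : ℝ) ^ (K * b + 2) := by
  classical
  obtain ⟨K, hK, H⟩ := flc
  refine ⟨K, hK, ?_⟩
  intro P z hz b Z X Y hb hXY hZ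
  -- the levels of `z`
  obtain ⟨a, ha⟩ : ∃ a : ℕ → ℕ, a = fun v => X + ((Ioc X Y).filter (fun m => z m < v)).card := ⟨_, rfl⟩
  have ha0 : a 0 = X := by
    rw [ha]
    simp
  have haZ : a (Z + 1) = Y := by
    rw [ha]
    have : (Ioc X Y).filter (fun m => z m < Z + 1) = Ioc X Y := by
      apply filter_true_of_mem
      intro m hm
      have := hz (mem_Ioc.1 hm).2
      omega
    simp only [this, Nat.card_Ioc]
    omega
  have hamono : ∀ v, a v ≤ a (v + 1) := by
    intro v
    rw [ha]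
    simp only
    gcongr
    omega
  have haY : ∀ v, a v ≤ Y := by
    intro v
    rw [ha]
    simp only
    have := card_filter_le (Ioc X Y) (fun m => z m < v)
    rw [Nat.card_Ioc] at this
    omega
  have hlow : ∀ v, (Ioc X Y).filter (fun m => z m < v) = Ioc X (a v) := by
    intro v
    -- an initial segment
    have hseg : ∀ n, n ≤ Y → ((Ioc X n).filter (fun m => z m < v)) =
        Ioc X (X + ((Ioc X n).filter (fun m => z m < v)).card) := by
      intro n
      induction n with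
      | zero =>
        intro _
        simp
      | succ n ih =>
        intro hn
        rcases Nat.lt_or_ge n X with h1 | h1
        · have : Ioc X (n + 1) = ∅ := Ioc_eq_empty (by omega)
          simp [this]
        · have e : Ioc X (n + 1) = insert (n + 1) (Ioc X n) := by
            ext t
            simp only [mem_Ioc, mem_insert]
            omega
          by_cases h2 : z (n + 1) < v
          · have e2 : (Ioc X (n + 1)).filter (fun m => z m < v) = Ioc X (n + 1) := by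
              apply filter_true_of_mem
              intro m hm
              exact lt_of_le_of_lt (hz (mem_Ioc.1 hm).2) h2
            rw [e2, Nat.card_Ioc]
            congr 1
            omega
          · rw [e, filter_insert, if_neg h2]
            exact ih (by omega)
    have := hseg Y le_rfl
    rw [ha]
    exact this
  have hlev : ∀ v, (Ioc X Y).filter (fun m => z m = v) = Ioc (a v) (a (v + 1)) := by
    intro v
    have h1 := hlow v
    have h2 := hlow (v + 1)
    have hXa : X ≤ a v := by rw [ha]; simp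
    ext m
    have e1 : (m ∈ (Ioc X Y).filter (fun m => z m < v)) ↔ m ∈ Ioc X (a v) := by rw [h1]
    have e2 : (m ∈ (Ioc X Y).filter (fun m => z m < v + 1)) ↔ m ∈ Ioc X (a (v + 1)) := by rw [h2]
    simp only [mem_filter, mem_Ioc] at e1 e2 ⊢
    constructor
    · rintro ⟨⟨h3, h4⟩, h5⟩
      have h6 := e2.1 ⟨⟨h3, h4⟩, by omega⟩
      refine ⟨?_, h6.2⟩
      by_contra h7
      have h8 := e1.2 ⟨h3, by omega⟩
      omega
    · rintro ⟨h3, h4⟩
      have h6 := e2.2 ⟨by omega, h4⟩
      refine ⟨h6.1, ?_⟩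
      by_contra h7
      have h8 := e1.1 ⟨h6.1, by omega⟩
      omega
  -- the sum over the levels
  have hsum : ∑ m ∈ Ioc X Y, wt P z m = ∑ v ∈ range (Z + 1), W P v * ((RC P v (a v) (a (v + 1))).card : ℝ) := by
    have hmaps : ∀ m ∈ Ioc X Y, z m ∈ range (Z + 1) := by
      intro m hm
      rw [mem_range]
      have := hz (mem_Ioc.1 hm).2
      omega
    rw [← sum_fiberwise_of_maps_to hmaps]
    apply sum_congr rfl
    intro v _
    rw [hlev v]
    have h1 : ∀ m ∈ Ioc (a v) (a (v + 1)), z m = v := by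
      intro m hm
      rw [← hlev v] at hm
      exact (mem_filter.1 hm).2
    have h2 : ∀ m ∈ Ioc (a v) (a (v + 1)), wt P z m =
        if (∀ q ∈ P, q.Prime → q ≤ v → ¬ q ∣ m) then W P v else 0 := by
      intro m hm
      unfold wt Rough
      rw [h1 m hm]
    rw [sum_congr rfl h2, ← sum_filter]
    unfold RC
    rw [sum_const, nsmul_eq_mul]
    ring
  have htel : ((Y : ℝ) - X) = ∑ v ∈ range (Z + 1), ((a (v + 1) : ℝ) - a v) := by
    rw [sum_range_sub (fun v => (a v : ℝ)) (Z + 1), haZ, ha0]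
  rw [hsum, htel, ← sum_sub_distrib]
  refine (abs_sum_le_sum_abs _ _).trans ?_
  have hterm : ∀ v ∈ range (Z + 1), |W P v * ((RC P v (a v) (a (v + 1))).card : ℝ) - ((a (v + 1) : ℝ) - a v)| ≤
      (1 / 2 : ℝ) ^ b * ((a (v + 1) : ℝ) - a v) + ((Z + 2 : ℕ) : ℝ) ^ (K * b + 1) := by
    intro v hv
    rw [mem_range] at hv
    have h1 := H P b v Z (a v) (a (v + 1)) hb (by omega) (hamono v)
    have hW := W_pos P v
    have h2 : W P v * ((RC P v (a v) (a (v + 1))).card : ℝ) - ((a (v + 1) : ℝ) - a v) =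
        W P v * (((RC P v (a v) (a (v + 1))).card : ℝ) - ((a (v + 1) : ℝ) - a v) * (W P v)⁻¹) := by
      field_simp
    rw [h2, abs_mul, abs_of_pos hW]
    calc W P v * |((RC P v (a v) (a (v + 1))).card : ℝ) - ((a (v + 1) : ℝ) - a v) * (W P v)⁻¹|
        ≤ W P v * ((1 / 2 : ℝ) ^ b * (((a (v + 1) : ℝ) - a v) * (W P v)⁻¹) + ((Z + 2 : ℕ) : ℝ) ^ (K * b)) := by
          gcongr
      _ = (1 / 2 : ℝ) ^ b * ((a (v + 1) : ℝ) - a v) + W P v * ((Z + 2 : ℕ) : ℝ) ^ (K * b) := by
          field_simp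
      _ ≤ (1 / 2 : ℝ) ^ b * ((a (v + 1) : ℝ) - a v) + ((Z + 2 : ℕ) : ℝ) * ((Z + 2 : ℕ) : ℝ) ^ (K * b) := by
          have h3 := W_le' P v
          have h4 : (v : ℝ) ≤ Z := by exact_mod_cast (by omega : v ≤ Z)
          have h5 : W P v ≤ ((Z + 2 : ℕ) : ℝ) := by
            push_cast
            linarith
          gcongr
      _ = _ := by ring
  refine (sum_le_sum hterm).trans ?_
  rw [sum_add_distrib, ← mul_sum, sum_const, card_range, nsmul_eq_mul]
  have h6 : ((Z + 1 : ℕ) : ℝ) * ((Z + 2 : ℕ) : ℝ) ^ (K * b + 1) ≤ ((Z + 2 : ℕ) : ℝ) ^ (K * b + 2) := by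
    rw [pow_succ _ (K * b + 1), mul_comm]
    gcongr
    omega
  linarith

end Pool.Agent.J6H89.SM
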