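import Mathlib
import Pool.Agent.J6H89.SM.Sieve

/-!
# Estimates for the products of the probabilities
-/

set_option autoImplicit false

namespace Pool.Agent.J6H89.SM

open Finset Filter Topology

/-- the sieve grows slower than all powers of the logarithm -/
def Slow (z : ℕ → ℕ) : Prop := ∀ ε : ℝ, 0 < ε → ∀ᶠ n : ℕ in atTop, (z n : ℝ) ≤ Real.log n ^ ε

lemma log_tend : Tendsto (fun X : ℕ => Real.log X) atTop atTop :=
  Real.tendsto_log_atTop.comp tendsto_natCast_atTop_atTop

lemma log_mul_le {X c : ℕ} (hX : 1 ≤ X) (hc : 1 ≤ c) (h : Real.log c ≤ Real.log X) :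
    Real.log ((c * X : ℕ) : ℝ) ≤ 2 * Real.log X := by
  have h1 : (0 : ℝ) < X := by exact_mod_cast hX
  have h2 : (0 : ℝ) < c := by exact_mod_cast hc
  push_cast
  rw [Real.log_mul h2.ne' h1.ne']
  linarith

theorem mass_ev (P : Set ℕ) (z : ℕ → ℕ) (hz : Monotone z) (hs : Slow z) (θ : ℝ) (hθ : 0 < θ) :
    ∀ᶠ X : ℕ in atTop, ∀ k : ℕ, Real.log X ≤ k → k ≤ X →
      |∑ m ∈ Ioc X (X + k), wt P z m - k| ≤ θ * k := by
  obtain ⟨K, hK, H⟩ := mass
  obtain ⟨b0, hb0⟩ := exists_pow_lt_of_lt_one (show 0 < θ / 2 by positivity) (show (1 / 2 : ℝ) < 1 by norm_num)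
  obtain ⟨b, hb⟩ : ∃ b, b = max K b0 := ⟨_, rfl⟩
  have hbK : K ≤ b := hb ▸ le_max_left _ _
  have hb2 : (1 / 2 : ℝ) ^ b ≤ θ / 2 := by
    refine le_trans ?_ hb0.le
    exact pow_le_pow_of_le_one (by norm_num) (by norm_num) (hb ▸ le_max_right _ _)
  obtain ⟨D, hD⟩ : ∃ D, D = K * b + 2 := ⟨_, rfl⟩
  have hD0 : (0 : ℝ) < D := by
    rw [hD]
    positivity
  have h1 := (tendsto_id.const_mul_atTop' (show 0 < 2 by norm_num) :
    Tendsto (fun n : ℕ => 2 * id n) atTop atTop).eventually (hs (1 / (2 * D)) (by positivity))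
  have h3 : Tendsto (fun X : ℕ => Real.sqrt (Real.log X)) atTop atTop := Real.tendsto_sqrt_atTop.comp log_tend
  filter_upwards [h1, h3.eventually_ge_atTop (4 * 3 ^ D / θ + 1), log_tend.eventually_ge_atTop (Real.log 2 + 1),
    eventually_ge_atTop 2] with X h4 h5 h6 h7 k hk1 hk2
  simp only [id] at h4
  have hX0 : (0 : ℝ) < X := by exact_mod_cast (by omega : 0 < X)
  have hf : Real.log ((2 * X : ℕ) : ℝ) ≤ 2 * Real.log X := log_mul_le (by omega) (by norm_num) (by push_cast; linarith)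
  have hf1 : Real.log X ≤ Real.log ((2 * X : ℕ) : ℝ) := by
    apply Real.log_le_log hX0
    push_cast
    linarith
  have hl2 : 0 < Real.log 2 := Real.log_pos (by norm_num)
  have hf2 : 1 ≤ Real.log ((2 * X : ℕ) : ℝ) := by linarith
  obtain ⟨F, hF⟩ : ∃ F, F = Real.log ((2 * X : ℕ) : ℝ) := ⟨_, rfl⟩
  rw [← hF] at hf hf1 hf2 h4
  have h8 := H P z hz b (z (2 * X)) X (X + k) hbK (by omega) (hz (by omega))
  push_cast at h8
  have h9 : ((z (2 * X) : ℝ) + 2) ^ D ≤ θ / 2 * Real.log X := by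
    have h10 : (1 : ℝ) ≤ F ^ (1 / (2 * (D : ℝ))) := Real.one_le_rpow hf2 (by positivity)
    have h11 : (z (2 * X) : ℝ) + 2 ≤ 3 * F ^ (1 / (2 * (D : ℝ))) := by linarith
    have h12 : (F ^ (1 / (2 * (D : ℝ)))) ^ D = Real.sqrt F := by
      rw [← Real.rpow_natCast, ← Real.rpow_mul (by linarith), Real.sqrt_eq_rpow]
      congr 1
      field_simp
    have h13 : Real.sqrt (Real.log X) ≤ Real.sqrt F := Real.sqrt_le_sqrt hf1
    have h14 : Real.sqrt F * Real.sqrt F = F := Real.mul_self_sqrt (by linarith)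
    have h15 : 4 * 3 ^ D / θ ≤ Real.sqrt F := by linarith
    rw [div_le_iff₀ hθ] at h15
    calc ((z (2 * X) : ℝ) + 2) ^ D ≤ (3 * F ^ (1 / (2 * (D : ℝ)))) ^ D := by gcongr
      _ = 3 ^ D * Real.sqrt F := by rw [mul_pow, h12]
      _ ≤ (Real.sqrt F * θ / 4) * Real.sqrt F := by
          apply mul_le_mul_of_nonneg_right _ (Real.sqrt_nonneg _)
          linarith
      _ = θ / 4 * F := by linear_combination (θ / 4) * h14
      _ ≤ θ / 2 * Real.log X := by nlinarith
  rw [← hD] at h8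
  have e1 : ((X : ℝ) + k - X) = k := by ring
  rw [e1] at h8
  refine h8.trans ?_
  have h16 : (0 : ℝ) ≤ k := Nat.cast_nonneg k
  nlinarith

theorem ratio_small (P : Set ℕ) (z : ℕ → ℕ) (hz : Monotone z) (hs : Slow z) (c : ℝ) (hc : 0 < c) :
    ∀ᶠ X : ℕ in atTop, ∀ j : ℕ, j ≤ X → W P (z (X + j + 1)) / Real.log ((X + j : ℕ) : ℝ) ≤ c := by
  have h1 := (tendsto_id.const_mul_atTop' (show 0 < 3 by norm_num) :
    Tendsto (fun n : ℕ => 3 * id n) atTop atTop).eventually (hs (1 / 2) (by norm_num))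
  have h3 : Tendsto (fun X : ℕ => Real.sqrt (Real.log X)) atTop atTop := Real.tendsto_sqrt_atTop.comp log_tend
  filter_upwards [h1, h3.eventually_ge_atTop (4 / c), log_tend.eventually_ge_atTop (Real.log 3 + 1),
    eventually_ge_atTop 2] with X h4 h5 h6 h7 j hj
  simp only [id] at h4
  have hX0 : (0 : ℝ) < X := by exact_mod_cast (by omega : 0 < X)
  have hf : Real.log ((3 * X : ℕ) : ℝ) ≤ 2 * Real.log X := log_mul_le (by omega) (by norm_num) (by push_cast; linarith)
  have hf1 : Real.log X ≤ Real.log ((3 * X : ℕ) : ℝ) := by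
    apply Real.log_le_log hX0
    push_cast
    linarith
  have hl2 : 0 < Real.log 3 := Real.log_pos (by norm_num)
  have hf2 : 1 ≤ Real.log ((3 * X : ℕ) : ℝ) := by linarith
  obtain ⟨F, hF⟩ : ∃ F, F = Real.log ((3 * X : ℕ) : ℝ) := ⟨_, rfl⟩
  rw [← hF] at hf hf1 hf2 h4
  rw [← Real.sqrt_eq_rpow] at h4
  have h8 : W P (z (X + j + 1)) ≤ Real.sqrt F + 1 := by
    refine (W_le' P _).trans ?_
    have : (z (X + j + 1) : ℝ) ≤ z (3 * X) := by exact_mod_cast hz (by omega)
    linarith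
  have h9 : Real.log X ≤ Real.log ((X + j : ℕ) : ℝ) := by
    apply Real.log_le_log hX0
    push_cast
    have : (0 : ℝ) ≤ j := Nat.cast_nonneg j
    linarith
  have h10 : 0 < Real.log X := by linarith
  rw [div_le_iff₀ (by linarith)]
  have h13 : Real.sqrt (Real.log X) ≤ Real.sqrt F := Real.sqrt_le_sqrt hf1
  have h14 : Real.sqrt F * Real.sqrt F = F := Real.mul_self_sqrt (by linarith)
  have h15 : 4 / c ≤ Real.sqrt F := by linarith
  rw [div_le_iff₀ hc] at h15
  have h16 : 1 ≤ Real.sqrt F := by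
    rw [Real.one_le_sqrt]
    exact hf2
  calc W P (z (X + j + 1)) ≤ Real.sqrt F + 1 := h8
    _ ≤ 2 * Real.sqrt F := by linarith
    _ ≤ (Real.sqrt F * c / 2) * Real.sqrt F := by
        apply mul_le_mul_of_nonneg_right _ (Real.sqrt_nonneg _)
        linarith
    _ = c / 2 * F := by linear_combination (c / 2) * h14
    _ ≤ c * Real.log X := by nlinarith
    _ ≤ c * Real.log ((X + j : ℕ) : ℝ) := by gcongr

/-- the lower bounds for the conditional probabilities -/
noncomputable def lo (P : Set ℕ) (z : ℕ → ℕ) (θ : ℝ) (n : ℕ) : ℝ := (1 - θ) * (W P (z (n + 1)) / Real.log n)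

/-- the upper bounds for the conditional probabilities -/
noncomputable def hi (P : Set ℕ) (z : ℕ → ℕ) (θ : ℝ) (n : ℕ) : ℝ := (1 + θ) * (W P (z (n + 1)) / Real.log n)

lemma hi_nonneg (P : Set ℕ) (z : ℕ → ℕ) (θ : ℝ) (hθ : 0 ≤ θ) (n : ℕ) : 0 ≤ hi P z θ n := by
  unfold hi
  have := (W_pos P (z (n + 1))).le
  have := Real.log_natCast_nonneg n
  positivity

open Classical in
lemma sum_shift (P : Set ℕ) (z : ℕ → ℕ) (X k : ℕ) :
    ∑ m ∈ Ioc X (X + k), wt P z m = ∑ j ∈ range k, (if Rough P z (X + j + 1) then W P (z (X + j + 1)) else 0) := by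
  induction k with
  | zero => simp
  | succ k ih =>
    rw [sum_range_succ, ← ih]
    have : Ioc X (X + (k + 1)) = insert (X + k + 1) (Ioc X (X + k)) := by
      ext t
      simp only [mem_Ioc, mem_insert]
      omega
    rw [this, sum_insert (by simp), add_comm]
    rfl

open Classical in
/-- the probability that nothing is chosen in a long interval -/
theorem upper_prod (P : Set ℕ) (z : ℕ → ℕ) (hz : Monotone z) (hs : Slow z) (η : ℝ) (h0 : 0 < η) (h1 : η ≤ 1) :
    ∀ᶠ X : ℕ in atTop,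
      (∀ j, j < ⌊(1 + η) * Real.log X ^ 2⌋₊ → lo P z (η / 16) (X + j) ≤ 1) ∧
      ∏ j ∈ range ⌊(1 + η) * Real.log X ^ 2⌋₊,
        (if Rough P z (X + j + 1) then 1 - lo P z (η / 16) (X + j) else 1) ≤ (X : ℝ) ^ (-(1 + η / 2)) := by
  have hlX : Tendsto (fun X : ℕ => Real.log X ^ 2 / X) atTop (𝓝 0) := by
    have h := (Real.isLittleO_pow_log_id_atTop (n := 2)).tendsto_div_nhds_zero
    exact h.comp tendsto_natCast_atTop_atTop
  filter_upwards [mass_ev P z hz hs (η / 16) (by positivity), ratio_small P z hz hs 1 one_pos,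
    log_tend.eventually_ge_atTop (8 / η + 8), eventually_ge_atTop 2,
    hlX.eventually_lt_const (show (0 : ℝ) < 1 / 4 by norm_num)] with X hm hr hl hX hlx
  obtain ⟨l, hldef⟩ : ∃ l, l = Real.log X := ⟨_, rfl⟩
  rw [← hldef] at hl hm hlx ⊢
  have hX0 : (0 : ℝ) < X := by exact_mod_cast (by omega : 0 < X)
  rw [div_lt_iff₀ hX0] at hlx
  obtain ⟨k, hk⟩ : ∃ k, k = ⌊(1 + η) * l ^ 2⌋₊ := ⟨_, rfl⟩
  rw [← hk]
  have h8 : 8 / η ≤ l - 8 := by linarith
  have h8' : 0 < 8 / η := by positivity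
  have hl8 : 8 ≤ l := by linarith
  have hk1 : (k : ℝ) ≤ (1 + η) * l ^ 2 := by
    rw [hk]
    exact Nat.floor_le (by positivity)
  have hk2 : (1 + η) * l ^ 2 - 1 < k := by
    rw [hk]
    exact Nat.sub_one_lt_floor _
  have hkX : k ≤ X := by
    have : (k : ℝ) ≤ X := by nlinarith
    exact_mod_cast this
  have hlk : l ≤ k := by nlinarith
  have hη16 : 0 ≤ 1 - η / 16 := by linarith
  have hlo1 : ∀ j, j < k → lo P z (η / 16) (X + j) ≤ 1 := by
    intro j hj
    unfold lo
    have h2 := hr j (by omega)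
    have h3 : 0 ≤ W P (z (X + j + 1)) / Real.log ((X + j : ℕ) : ℝ) :=
      div_nonneg (W_pos _ _).le (Real.log_natCast_nonneg _)
    calc (1 - η / 16) * (W P (z (X + j + 1)) / Real.log ((X + j : ℕ) : ℝ)) ≤ 1 * 1 := by
          apply mul_le_mul (by linarith) h2 h3 (by norm_num)
      _ = 1 := one_mul 1
  refine ⟨hlo1, ?_⟩
  -- the logarithm in the interval
  have hlog : ∀ j, j < k → Real.log ((X + j : ℕ) : ℝ) ≤ l + 1 := by
    intro j hj
    have h2 : Real.log ((X + j : ℕ) : ℝ) ≤ Real.log (2 * X) := by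
      apply Real.log_le_log
      · push_cast
        positivity
      · push_cast
        have : (j : ℝ) ≤ X := by exact_mod_cast (by omega : j ≤ X)
        linarith
    rw [Real.log_mul (by norm_num) hX0.ne', ← hldef] at h2
    have h3 : Real.log 2 ≤ 1 := by
      have := Real.log_two_lt_d9
      linarith
    linarith
  have hterm : ∀ j ∈ range k, (if Rough P z (X + j + 1) then 1 - lo P z (η / 16) (X + j) else 1) ≤
      Real.exp (-((1 - η / 16) / (l + 1) * (if Rough P z (X + j + 1) then W P (z (X + j + 1)) else 0))) := by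
    intro j hj
    rw [mem_range] at hj
    by_cases hR : Rough P z (X + j + 1)
    · rw [if_pos hR, if_pos hR]
      have h2 : (1 - η / 16) / (l + 1) * W P (z (X + j + 1)) ≤ lo P z (η / 16) (X + j) := by
        unfold lo
        have hW := W_pos P (z (X + j + 1))
        have hlp : 0 < Real.log ((X + j : ℕ) : ℝ) := by
          apply Real.log_pos
          have : (2 : ℝ) ≤ X := by exact_mod_cast hX
          push_cast
          have : (0 : ℝ) ≤ j := Nat.cast_nonneg j
          linarith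
        rw [div_mul_eq_mul_div, mul_div_assoc]
        apply mul_le_mul_of_nonneg_left _ hη16
        apply div_le_div_of_nonneg_left hW.le hlp (hlog j hj)
      have h3 := Real.add_one_le_exp (-((1 - η / 16) / (l + 1) * W P (z (X + j + 1))))
      linarith
    · rw [if_neg hR, if_neg hR]
      simp
  have hprod : ∏ j ∈ range k, (if Rough P z (X + j + 1) then 1 - lo P z (η / 16) (X + j) else 1) ≤
      ∏ j ∈ range k, Real.exp (-((1 - η / 16) / (l + 1) *
        (if Rough P z (X + j + 1) then W P (z (X + j + 1)) else 0))) := by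
    apply Finset.prod_le_prod
    · intro j hj
      rw [mem_range] at hj
      by_cases hR : Rough P z (X + j + 1)
      · rw [if_pos hR]
        linarith [hlo1 j hj]
      · rw [if_neg hR]
        exact zero_le_one
    · exact hterm
  refine hprod.trans ?_
  rw [← Real.exp_sum, sum_neg_distrib, ← mul_sum, ← sum_shift]
  have hmk := (abs_le.1 (hm k hlk hkX)).1
  rw [Real.rpow_def_of_pos hX0, ← hldef]
  apply Real.exp_le_exp.2
  have h5 : (1 - η / 16) * k ≤ ∑ m ∈ Ioc X (X + k), wt P z m := by linarith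
  have h6 : (1 - η / 16) * ((1 + η) * l ^ 2 - 1) ≤ ∑ m ∈ Ioc X (X + k), wt P z m := by
    refine le_trans ?_ h5
    apply mul_le_mul_of_nonneg_left hk2.le hη16
  have h7 : (1 + η / 2) * l ≤ (1 - η / 16) / (l + 1) * ∑ m ∈ Ioc X (X + k), wt P z m := by
    rw [div_mul_eq_mul_div, le_div_iff₀ (by linarith)]
    have h9 : (1 - η / 16) * ((1 - η / 16) * ((1 + η) * l ^ 2 - 1)) ≤
        (1 - η / 16) * ∑ m ∈ Ioc X (X + k), wt P z m := mul_le_mul_of_nonneg_left h6 hη16
    refine le_trans ?_ h9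
    -- `(1 + η/2) l (l + 1) ≤ (1 - η/16)² ((1 + η) l² - 1)`
    have h10 : 8 ≤ η * (l - 8) := by
      rw [div_le_iff₀ h0] at h8
      linarith
    have h11 : (1 + 3 * η / 4) ≤ (1 - η / 16) * (1 - η / 16) * (1 + η) := by nlinarith [sq_nonneg η]
    have h12 : (1 - η / 16) * (1 - η / 16) ≤ 1 := by nlinarith
    have h13 : (1 + 3 * η / 4) * l ^ 2 - 1 ≤ (1 - η / 16) * ((1 - η / 16) * ((1 + η) * l ^ 2 - 1)) := by
      have h14 := mul_le_mul_of_nonneg_right h11 (sq_nonneg l)
      nlinarith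
    refine le_trans ?_ h13
    nlinarith
  nlinarith [h7]

end Pool.Agent.J6H89.SM
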