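import Mathlib
import Pool.Agent.J6H89.SM.Est

/-!
# Estimates for the products of the probabilities: lower bound
-/

set_option autoImplicit false

namespace Pool.Agent.J6H89.SM

open Finset Filter Topology

lemma exp_le_one_sub {t θ : ℝ} (ht : 0 ≤ t) (h : t ≤ θ / 2) (hθ : θ ≤ 1) : Real.exp (-((1 + θ) * t)) ≤ 1 - t := by
  have h1 : 0 < 1 - t := by linarith
  have h2 := Real.one_sub_inv_le_log_of_pos h1
  rw [← Real.exp_log h1]
  apply Real.exp_le_exp.2
  refine le_trans ?_ h2
  have h3 : (1 - t)⁻¹ ≤ 1 + (1 + θ) * t := by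
    rw [inv_le_iff_one_le_mul₀ h1]
    have h4 : 0 ≤ θ := by linarith
    have h5 : (1 + θ) * t ≤ θ := by nlinarith
    have h6 : 0 ≤ t * (θ - (1 + θ) * t) := mul_nonneg ht (by linarith)
    nlinarith
  linarith

open Classical in
/-- the probability that nothing is chosen in a short interval -/
theorem lower_prod (P : Set ℕ) (z : ℕ → ℕ) (hz : Monotone z) (hs : Slow z) (η : ℝ) (h0 : 0 < η) (h1 : η < 1) :
    ∀ᶠ X : ℕ in atTop,
      (∀ j, j ≤ X → hi P z (η / 16) (X + j) ≤ 1) ∧
      ∀ i, i + ⌊(1 - η) * Real.log X ^ 2⌋₊ ≤ X →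
        (X : ℝ) ^ (-(1 - η / 2)) ≤ ∏ j ∈ range ⌊(1 - η) * Real.log X ^ 2⌋₊,
        (if Rough P z (X + i + j + 1) then 1 - hi P z (η / 16) (X + i + j) else 1) := by
  have hl2X : Tendsto (fun X : ℕ => Real.log ((2 * X : ℕ) : ℝ) / X) atTop (𝓝 0) := by
    have h := (Real.isLittleO_log_id_atTop).tendsto_div_nhds_zero
    have h2 : Tendsto (fun X : ℕ => ((2 * X : ℕ) : ℝ)) atTop atTop :=
      tendsto_natCast_atTop_atTop.comp (tendsto_id.const_mul_atTop' (show 0 < 2 by norm_num))
    have h3 := (h.comp h2).const_mul 2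
    rw [mul_zero] at h3
    refine h3.congr' ?_
    filter_upwards [eventually_ge_atTop 1] with X hX
    have hX0 : (0 : ℝ) < X := by exact_mod_cast hX
    simp only [Function.comp, id]
    push_cast
    field_simp
  have hmass := (mass_ev P z hz hs (η / 16) (by positivity))
  obtain ⟨N1, hN1⟩ := eventually_atTop.1 hmass
  filter_upwards [eventually_ge_atTop N1, ratio_small P z hz hs (η / 64) (by positivity),
    log_tend.eventually_ge_atTop (8 / (1 - η) + 8), eventually_ge_atTop 2] with X hXN hr hl hX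
  obtain ⟨l, hldef⟩ : ∃ l, l = Real.log X := ⟨_, rfl⟩
  rw [← hldef] at hl ⊢
  have hX0 : (0 : ℝ) < X := by exact_mod_cast (by omega : 0 < X)
  obtain ⟨k, hk⟩ : ∃ k, k = ⌊(1 - η) * l ^ 2⌋₊ := ⟨_, rfl⟩
  rw [← hk]
  have h1η : 0 < 1 - η := by linarith
  have h8 : 8 / (1 - η) ≤ l - 8 := by linarith
  have h8' : 0 < 8 / (1 - η) := by positivity
  have hl8 : 8 ≤ l := by linarith
  have hk1 : (k : ℝ) ≤ (1 - η) * l ^ 2 := by
    rw [hk]
    exact Nat.floor_le (by positivity)
  have hk2 : (1 - η) * l ^ 2 - 1 < k := by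
    rw [hk]
    exact Nat.sub_one_lt_floor _
  have hlk : 2 * l ≤ k := by
    have h9 : 8 ≤ (1 - η) * (l - 8) := by
      rw [div_le_iff₀ h1η] at h8
      linarith
    nlinarith
  have hhi : ∀ j, j ≤ X → hi P z (η / 16) (X + j) ≤ η / 16 / 2 := by
    intro j hj
    unfold hi
    have h2 := hr j hj
    have h3 : 0 ≤ W P (z (X + j + 1)) / Real.log ((X + j : ℕ) : ℝ) :=
      div_nonneg (W_pos _ _).le (Real.log_natCast_nonneg _)
    nlinarith
  refine ⟨fun j hj => (hhi j hj).trans (by linarith), ?_⟩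
  intro i hi'
  have hlogle : ∀ j, Real.log X ≤ Real.log ((X + i + j : ℕ) : ℝ) := by
    intro j
    apply Real.log_le_log hX0
    push_cast
    have : (0 : ℝ) ≤ j := Nat.cast_nonneg j
    have : (0 : ℝ) ≤ i := Nat.cast_nonneg i
    linarith
  have hterm : ∀ j ∈ range k, Real.exp (-((1 + η / 16) * ((1 + η / 16) / l) *
      (if Rough P z (X + i + j + 1) then W P (z (X + i + j + 1)) else 0))) ≤
      (if Rough P z (X + i + j + 1) then 1 - hi P z (η / 16) (X + i + j) else 1) := by
    intro j hj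
    rw [mem_range] at hj
    by_cases hR : Rough P z (X + i + j + 1)
    · rw [if_pos hR, if_pos hR]
      have h2 := hhi (i + j) (by omega)
      rw [← add_assoc] at h2
      have h3 := exp_le_one_sub (hi_nonneg P z (η / 16) (by positivity) (X + i + j)) h2 (by linarith)
      refine le_trans ?_ h3
      apply Real.exp_le_exp.2
      have h4 : hi P z (η / 16) (X + i + j) ≤ (1 + η / 16) / l * W P (z (X + i + j + 1)) := by
        unfold hi
        have hW := W_pos P (z (X + i + j + 1))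
        rw [div_mul_eq_mul_div, mul_div_assoc]
        apply mul_le_mul_of_nonneg_left _ (by positivity)
        apply div_le_div_of_nonneg_left hW.le (by linarith)
        rw [hldef]
        exact hlogle j
      have h5 := mul_le_mul_of_nonneg_left h4 (show 0 ≤ 1 + η / 16 by positivity)
      linarith
    · rw [if_neg hR, if_neg hR]
      simp
  have hprod := Finset.prod_le_prod (fun j _ => (Real.exp_pos _).le) hterm
  refine le_trans ?_ hprod
  rw [← Real.exp_sum, sum_neg_distrib, ← mul_sum, ← sum_shift]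
  rw [Real.rpow_def_of_pos hX0, ← hldef]
  apply Real.exp_le_exp.2
  have hlogi : Real.log ((X + i : ℕ) : ℝ) ≤ 2 * l := by
    have h2 : Real.log ((X + i : ℕ) : ℝ) ≤ Real.log (2 * X) := by
      apply Real.log_le_log
      · push_cast
        positivity
      · push_cast
        have : (i : ℝ) ≤ X := by exact_mod_cast (by omega : i ≤ X)
        linarith
    rw [Real.log_mul (by norm_num) hX0.ne', ← hldef] at h2
    have h3 : Real.log 2 ≤ 1 := by
      have := Real.log_two_lt_d9
      linarith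
    linarith
  have hmk := (abs_le.1 (hN1 (X + i) (by omega) k (hlogi.trans hlk) (by omega))).2
  have h6 : ∑ m ∈ Ioc (X + i) (X + i + k), wt P z m ≤ (1 + η / 16) * ((1 - η) * l ^ 2) := by
    have : (1 + η / 16) * k ≤ (1 + η / 16) * ((1 - η) * l ^ 2) := mul_le_mul_of_nonneg_left hk1 (by positivity)
    linarith
  have h7 : (1 + η / 16) * ((1 + η / 16) / l) * ∑ m ∈ Ioc (X + i) (X + i + k), wt P z m ≤ (1 - η / 2) * l := by
    calc (1 + η / 16) * ((1 + η / 16) / l) * ∑ m ∈ Ioc (X + i) (X + i + k), wt P z m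
        ≤ (1 + η / 16) * ((1 + η / 16) / l) * ((1 + η / 16) * ((1 - η) * l ^ 2)) := by
          apply mul_le_mul_of_nonneg_left h6
          have : 0 < l := by linarith
          positivity
      _ = (1 + η / 16) ^ 3 * (1 - η) * l := by
          have : l ≠ 0 := by linarith
          field_simp
      _ ≤ (1 - η / 2) * l := by
          apply mul_le_mul_of_nonneg_right _ (by linarith)
          nlinarith [mul_pos h0 h0, mul_pos (mul_pos h0 h0) h0, mul_pos (mul_pos h0 h0) h1η,
            mul_pos h0 h1η, mul_pos (mul_pos (mul_pos h0 h0) h0) h1η]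
  nlinarith [h7]

/-- the number of blocks is large enough -/
theorem many_blocks (η : ℝ) (h0 : 0 < η) (h1 : η < 1) :
    ∀ᶠ X : ℕ in atTop, 0 < ⌊(1 - η) * Real.log X ^ 2⌋₊ ∧
      (1 - (X : ℝ) ^ (-(1 - η / 2))) ^ (X / ⌊(1 - η) * Real.log X ^ 2⌋₊) ≤ (X : ℝ) ^ (-2 : ℝ) := by
  have hlX : Tendsto (fun X : ℕ => Real.log X ^ 2 / X) atTop (𝓝 0) := by
    have h := (Real.isLittleO_pow_log_id_atTop (n := 2)).tendsto_div_nhds_zero
    exact h.comp tendsto_natCast_atTop_atTop
  have hl3 : Tendsto (fun X : ℕ => Real.log X ^ (3 : ℝ) / (X : ℝ) ^ (η / 2)) atTop (𝓝 0) := by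
    have h := (isLittleO_log_rpow_rpow_atTop (3 : ℝ) (show 0 < η / 2 by positivity)).tendsto_div_nhds_zero
    exact h.comp tendsto_natCast_atTop_atTop
  have h1η : 0 < 1 - η := by linarith
  filter_upwards [log_tend.eventually_ge_atTop (8 / (1 - η) + 8), eventually_ge_atTop 2,
    hlX.eventually_lt_const (show (0 : ℝ) < 1 / 2 by norm_num),
    hl3.eventually_lt_const (show (0 : ℝ) < 1 / 4 by norm_num)] with X hl hX hlx hl3
  obtain ⟨l, hldef⟩ : ∃ l, l = Real.log X := ⟨_, rfl⟩
  rw [← hldef] at hl hlx hl3 ⊢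
  have hX0 : (0 : ℝ) < X := by exact_mod_cast (by omega : 0 < X)
  rw [div_lt_iff₀ hX0] at hlx
  have hXη : (0 : ℝ) < (X : ℝ) ^ (η / 2) := by positivity
  rw [div_lt_iff₀ hXη] at hl3
  obtain ⟨k, hk⟩ : ∃ k, k = ⌊(1 - η) * l ^ 2⌋₊ := ⟨_, rfl⟩
  rw [← hk]
  have h8 : 8 / (1 - η) ≤ l - 8 := by linarith
  have h8' : 0 < 8 / (1 - η) := by positivity
  have hl8 : 8 ≤ l := by linarith
  have hk1 : (k : ℝ) ≤ (1 - η) * l ^ 2 := by
    rw [hk]
    exact Nat.floor_le (by positivity)
  have hk2 : (1 - η) * l ^ 2 - 1 < k := by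
    rw [hk]
    exact Nat.sub_one_lt_floor _
  have hlk : 2 * l ≤ k := by
    have h9 : 8 ≤ (1 - η) * (l - 8) := by
      rw [div_le_iff₀ h1η] at h8
      linarith
    nlinarith
  have hk0 : 0 < k := by
    have : (0 : ℝ) < k := by linarith
    exact_mod_cast this
  refine ⟨hk0, ?_⟩
  obtain ⟨K, hK⟩ : ∃ K, K = X / k := ⟨_, rfl⟩
  rw [← hK]
  have hkl : (k : ℝ) ≤ l ^ 2 := by nlinarith
  have hkR : (0 : ℝ) < k := by exact_mod_cast hk0
  have hKX : (X : ℝ) / (2 * l ^ 2) ≤ K := by
    have h2 : X < (K + 1) * k := by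
      rw [hK]
      have := Nat.lt_div_mul_add (a := X) (b := k) hk0
      nlinarith
    have h3 : (X : ℝ) < ((K : ℝ) + 1) * k := by exact_mod_cast h2
    have hl20 : 0 < l ^ 2 := by positivity
    rw [div_le_iff₀ (by positivity)]
    have h4 : ((K : ℝ) + 1) * k ≤ ((K : ℝ) + 1) * l ^ 2 := by
      apply mul_le_mul_of_nonneg_left hkl
      positivity
    nlinarith
  obtain ⟨q, hq⟩ : ∃ q, q = (X : ℝ) ^ (-(1 - η / 2)) := ⟨_, rfl⟩
  rw [← hq]
  have hq0 : 0 < q := by
    rw [hq]
    positivity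
  have hq1 : q ≤ 1 := by
    rw [hq]
    apply Real.rpow_le_one_of_one_le_of_nonpos
    · exact_mod_cast (by omega : 1 ≤ X)
    · linarith
  have hqX : q * X = (X : ℝ) ^ (η / 2) := by
    rw [hq]
    nth_rw 2 [← Real.rpow_one (X : ℝ)]
    rw [← Real.rpow_add hX0]
    congr 1
    ring
  have hqK : 2 * l ≤ q * K := by
    have h3 : l ^ (3 : ℝ) = l ^ 3 := by
      rw [← Real.rpow_natCast]
      norm_num
    rw [h3] at hl3
    calc 2 * l = 4 * l ^ 3 / (2 * l ^ 2) := by
          have : l ≠ 0 := by linarith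
          field_simp
          ring
      _ ≤ (X : ℝ) ^ (η / 2) / (2 * l ^ 2) := by
          apply div_le_div_of_nonneg_right _ (by positivity)
          linarith
      _ = q * (X / (2 * l ^ 2)) := by rw [← hqX]; ring
      _ ≤ q * K := by gcongr
  calc (1 - q) ^ K ≤ (Real.exp (-q)) ^ K := by
        apply pow_le_pow_left₀ (by linarith)
        have := Real.add_one_le_exp (-q)
        linarith
    _ = Real.exp (-(q * K)) := by
        rw [← Real.exp_nat_mul]
        congr 1
        ring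
    _ ≤ Real.exp (-(2 * l)) := by
        apply Real.exp_le_exp.2
        linarith
    _ = (X : ℝ) ^ (-2 : ℝ) := by
        rw [Real.rpow_def_of_pos hX0, ← hldef]
        congr 1
        ring

end Pool.Agent.J6H89.SM
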