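import Mathlib
import Pool.Agent.Cov.PNT
import Pool.Agent.H305R2.MertensE
import Pool.Agent.J6H89.SM.Est2

/-!
# The sieve near the multiples of the product of the small primes
-/

set_option autoImplicit false

namespace Pool.Agent.J6H89.SM

open Finset Filter Topology

open Classical in
/-- the numbers up to `k` without prime factors up to `y` -/
noncomputable def AA (k y : ℕ) : Finset ℕ := (Icc 1 k).filter (fun t => ∀ p, p.Prime → p ≤ y → ¬ p ∣ t)

lemma W_mono (P : Set ℕ) {x y : ℕ} (h : x ≤ y) : W P x ≤ W P y := by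
  classical
  have hsub : (Icc 1 x).filter (fun q => q.Prime ∧ q ∈ P) ⊆ (Icc 1 y).filter (fun q => q.Prime ∧ q ∈ P) :=
    filter_subset_filter _ (Icc_subset_Icc_right h)
  have h2 := W_pos P x
  unfold W at h2 ⊢
  rw [← prod_sdiff hsub]
  refine le_mul_of_one_le_left h2.le ?_
  refine Finset.prod_induction _ (fun t : ℝ => 1 ≤ t) (fun a b ha hb => one_le_mul_of_one_le_of_one_le ha hb)
    le_rfl ?_
  intro q hq
  exact one_le_factor (mem_filter.1 (Finset.mem_sdiff.1 hq).1).2.1

/-- the primes up to `k` -/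
def PP (k : ℕ) : Finset ℕ := (range (k + 1)).filter Nat.Prime

lemma card_PP (k : ℕ) : (PP k).card = Nat.primeCounting k := by
  unfold PP
  rw [Nat.primeCounting, Nat.primeCounting', Nat.count_eq_card_filter_range]

theorem count_le (k y : ℕ) (hk : k < y ^ 3) : (AA k y).card ≤ 1 + Nat.primeCounting k + Nat.primeCounting (k / y) ^ 2 := by
  classical
  have hy : 0 < y := by
    rcases Nat.eq_zero_or_pos y with h | h
    · subst h
      simp at hk
    · exact h
  have hsub : AA k y ⊆ ({1} ∪ PP k) ∪ (PP (k / y) ×ˢ PP (k / y)).image (fun x => x.1 * x.2) := by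
    intro t ht
    unfold AA at ht
    rw [mem_filter, mem_Icc] at ht
    obtain ⟨⟨h1, h2⟩, h3⟩ := ht
    rw [mem_union, mem_union, mem_singleton]
    by_cases ht1 : t = 1
    · left; left; exact ht1
    by_cases htp : t.Prime
    · left; right
      unfold PP
      rw [mem_filter, mem_range]
      exact ⟨by omega, htp⟩
    right
    -- `t = p b`
    have hp := Nat.minFac_prime ht1
    have hpd := Nat.minFac_dvd t
    obtain ⟨p, hpdef⟩ : ∃ p, p = t.minFac := ⟨_, rfl⟩
    rw [← hpdef] at hp hpd
    obtain ⟨b, hb⟩ := hpd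
    have hpy : y < p := by
      by_contra hcon
      exact h3 p hp (by omega) ⟨b, hb⟩
    have hb1 : b ≠ 1 := by
      rintro rfl
      rw [mul_one] at hb
      rw [hb] at htp
      exact htp hp
    have hb0 : b ≠ 0 := by
      rintro rfl
      omega
    have hq := Nat.minFac_prime hb1
    have hqd := Nat.minFac_dvd b
    obtain ⟨q, hqdef⟩ : ∃ q, q = b.minFac := ⟨_, rfl⟩
    rw [← hqdef] at hq hqd
    obtain ⟨c, hc⟩ := hqd
    have hqy : y < q := by
      by_contra hcon
      exact h3 q hq (by omega) (by rw [hb, hc]; exact ⟨p * c, by ring⟩)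
    have hpq : p ≤ q := by
      rw [hpdef]
      apply Nat.minFac_le_of_dvd hq.two_le
      rw [hb, hc]
      exact ⟨p * c, by ring⟩
    have hbprime : b.Prime := by
      by_contra hcon
      have hc1 : c ≠ 1 := by
        rintro rfl
        rw [mul_one] at hc
        rw [hc] at hcon
        exact hcon hq
      have hr := Nat.minFac_prime hc1
      have hry : y < c.minFac := by
        by_contra hcon2
        refine h3 _ hr (by omega) ?_
        rw [hb, hc]
        exact (Nat.minFac_dvd c).trans ⟨p * q, by ring⟩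
      have hc0 : 0 < c := by
        rcases Nat.eq_zero_or_pos c with h | h
        · subst h
          simp at hc
          omega
        · exact h
      have hcy : y < c := lt_of_lt_of_le hry (Nat.minFac_le hc0)
      have : y ^ 3 ≤ t := by
        rw [hb, hc]
        calc y ^ 3 = y * (y * y) := by ring
          _ ≤ p * (q * c) := Nat.mul_le_mul hpy.le (Nat.mul_le_mul hqy.le hcy.le)
      omega
    have hbk : b ≤ k / y := by
      rw [Nat.le_div_iff_mul_le hy]
      calc b * y ≤ b * p := Nat.mul_le_mul_left _ hpy.le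
        _ = t := by rw [hb, mul_comm]
        _ ≤ k := h2
    have hqb : q ≤ b := by
      rw [hqdef]
      exact Nat.minFac_le (by omega)
    rw [mem_image]
    refine ⟨(p, b), ?_, hb.symm⟩
    rw [mem_product]
    unfold PP
    rw [mem_filter, mem_filter, mem_range, mem_range]
    exact ⟨⟨by omega, hp⟩, ⟨by omega, hbprime⟩⟩
  refine (card_le_card hsub).trans ((card_union_le _ _).trans ?_)
  have h1 : ({1} ∪ PP k).card ≤ 1 + Nat.primeCounting k := by
    refine (card_union_le _ _).trans ?_
    rw [card_singleton, card_PP]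
  have h2 : ((PP (k / y) ×ˢ PP (k / y)).image (fun x => x.1 * x.2)).card ≤ Nat.primeCounting (k / y) ^ 2 := by
    refine card_image_le.trans ?_
    rw [card_product, card_PP, sq]
  omega

lemma exp_gamma_lt : Real.exp Real.eulerMascheroniConstant < 1.95 := by
  have h1 : Real.exp Real.eulerMascheroniConstant ≤ Real.exp (2 / 3) :=
    Real.exp_le_exp.2 Real.eulerMascheroniConstant_lt_two_thirds.le
  refine lt_of_le_of_lt h1 ?_
  have h2 : Real.exp (2 / 3) ^ 3 = Real.exp 1 ^ 2 := by
    rw [← Real.exp_nat_mul, ← Real.exp_nat_mul]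
    norm_num
  have h3 := Real.exp_one_lt_d9
  have h4 := Real.exp_pos 1
  by_contra hcon
  push Not at hcon
  have h5 : (1.95 : ℝ) ^ 3 ≤ Real.exp (2 / 3) ^ 3 := pow_le_pow_left₀ (by norm_num) hcon 3
  rw [h2] at h5
  nlinarith

lemma W_univ_le : ∀ᶠ N : ℕ in atTop, W Set.univ N ≤ 1.95 * Real.log N := by
  have h := Pool.Agent.H305R2.mertens_three
  filter_upwards [h.eventually_lt_const exp_gamma_lt, log_tend.eventually_gt_atTop 0] with N h1 h2
  rw [div_lt_iff₀ h2] at h1
  refine le_trans (le_of_eq ?_) h1.le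
  unfold W
  apply prod_congr _ (fun _ _ => rfl)
  ext p
  simp

lemma pi_le_nat : ∀ᶠ k : ℕ in atTop, (Nat.primeCounting k : ℝ) ≤ 1.001 * (k / Real.log k) := by
  have h := Pool.Agent.Cov.PNT.pi_tendsto.comp (tendsto_natCast_atTop_atTop (R := ℝ))
  filter_upwards [h.eventually_lt_const (show (1 : ℝ) < 1.001 by norm_num), log_tend.eventually_gt_atTop 0,
    eventually_gt_atTop 0] with k h1 h2 h3
  have hk : (0 : ℝ) < k := by exact_mod_cast h3
  simp only [Function.comp, Nat.floor_natCast] at h1
  rw [div_lt_iff₀ hk] at h1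
  rw [← mul_div_assoc, le_div_iff₀ h2]
  exact h1.le

lemma pi_le_real : ∀ᶠ x : ℝ in atTop, (Nat.primeCounting ⌊x⌋₊ : ℝ) ≤ 2 * (x / Real.log x) := by
  have h := Pool.Agent.Cov.PNT.pi_tendsto
  filter_upwards [h.eventually_lt_const (show (1 : ℝ) < 2 by norm_num), Real.tendsto_log_atTop.eventually_gt_atTop 0,
    eventually_gt_atTop 0] with x h1 h2 h3
  rw [div_lt_iff₀ h3] at h1
  rw [← mul_div_assoc, le_div_iff₀ h2]
  exact h1.le

/-- the length of the runs -/
noncomputable def kk (X : ℕ) : ℕ := ⌊1.01 * Real.log X ^ 2⌋₊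

theorem sum_small (z : ℕ → ℕ) (c : ℝ) (hc : 0 < c) (h1 : ∀ᶠ n : ℕ in atTop, c * Real.log n ≤ z n)
    (h2 : ∀ᶠ n : ℕ in atTop, (z n : ℝ) ≤ Real.log n / 200) :
    ∀ᶠ X : ℕ in atTop, kk X < z X ^ 3 ∧
      W Set.univ (z (2 * X)) * (1 + Nat.primeCounting (kk X) + (Nat.primeCounting (kk X / z X) : ℝ) ^ 2) ≤
        0.987 * Real.log X ^ 2 := by
  obtain ⟨C, hC⟩ : ∃ C, C = 1.01 / c := ⟨_, rfl⟩
  have hC0 : 0 < C := by rw [hC]; positivity
  have ht2 : Tendsto (fun n : ℕ => 2 * n) atTop atTop := tendsto_id.const_mul_atTop' (show 0 < 2 by norm_num)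
  have hzt : Tendsto z atTop atTop := by
    have h3 : Tendsto (fun n : ℕ => (z n : ℝ)) atTop atTop :=
      tendsto_atTop_mono' _ h1 (log_tend.const_mul_atTop hc)
    exact tendsto_natCast_atTop_iff.1 h3
  have hll : Tendsto (fun X : ℕ => Real.log (Real.log X)) atTop atTop := Real.tendsto_log_atTop.comp log_tend
  have hCl : Tendsto (fun X : ℕ => C * Real.log X) atTop atTop := log_tend.const_mul_atTop hC0
  have hkt : Tendsto kk atTop atTop := by
    apply tendsto_nat_floor_atTop.comp
    apply Tendsto.const_mul_atTop (by norm_num)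
    exact (tendsto_pow_atTop (by norm_num)).comp log_tend
  filter_upwards [h1, ht2.eventually h2, (hzt.comp ht2).eventually W_univ_le, hkt.eventually pi_le_nat,
    hCl.eventually pi_le_real, log_tend.eventually_ge_atTop 4000, log_tend.eventually_ge_atTop (2 / c ^ 3),
    hll.eventually_ge_atTop (31.2 * C ^ 2 / 0.0005), hll.eventually_ge_atTop (-2 * Real.log C),
    hll.eventually_ge_atTop 1, hzt.eventually_ge_atTop 1,
    (hzt.comp ht2).eventually_ge_atTop 1, eventually_ge_atTop 2] with X a1 a2 a3 a4 a5 a6 a7 a8 a9 a10 a11 a12 a13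
  obtain ⟨l, hl⟩ : ∃ l, l = Real.log X := ⟨_, rfl⟩
  obtain ⟨m, hm⟩ : ∃ m, m = Real.log l := ⟨_, rfl⟩
  obtain ⟨k, hk⟩ : ∃ k, k = kk X := ⟨_, rfl⟩
  rw [← hl] at a1 a5 a6 a7 a8 a9 a10 ⊢
  rw [← hm] at a8 a9 a10
  rw [← hk] at a4 ⊢
  simp only [Function.comp] at a3 a12
  have hk' : k = ⌊1.01 * l ^ 2⌋₊ := by rw [hk, kk, hl]
  have hl0 : 0 < l := by linarith
  have hk1 : (k : ℝ) ≤ 1.01 * l ^ 2 := by
    rw [hk']
    exact Nat.floor_le (by positivity)
  have hk2 : 1.01 * l ^ 2 - 1 < k := by
    rw [hk']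
    exact Nat.sub_one_lt_floor _
  have hk3 : l ^ 2 ≤ k := by nlinarith
  have hX0 : (0 : ℝ) < X := by exact_mod_cast (by omega : 0 < X)
  have hz1 : (1 : ℝ) ≤ z X := by exact_mod_cast a11
  have hz2 : (1 : ℝ) ≤ z (2 * X) := by exact_mod_cast a12
  refine ⟨?_, ?_⟩
  · have h3 : (k : ℝ) < (z X : ℝ) ^ 3 := by
      have h4 : (c * l) ^ 3 ≤ (z X : ℝ) ^ 3 := pow_le_pow_left₀ (by positivity) a1 3
      have h5 : 2 ≤ c ^ 3 * l := by
        rw [div_le_iff₀ (by positivity)] at a7
        linarith
      have h6 : (c * l) ^ 3 = (c ^ 3 * l) * l ^ 2 := by ring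
      nlinarith [sq_nonneg l, mul_pos hl0 hl0]
    exact_mod_cast h3
  · -- the three factors
    have hW : W Set.univ (z (2 * X)) ≤ 1.95 * m := by
      refine a3.trans ?_
      have h3 : (z (2 * X) : ℝ) ≤ l := by
        refine a2.trans ?_
        have h4 := log_mul_le (X := X) (c := 2) (by omega) (by norm_num) (by
          rw [← hl]
          have := Real.log_two_lt_d9
          push_cast
          linarith)
        rw [← hl] at h4
        linarith
      have h4 : Real.log (z (2 * X)) ≤ m := by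
        rw [hm]
        exact Real.log_le_log (by linarith) h3
      linarith
    have hlogk : 2 * m ≤ Real.log k := by
      have h3 : Real.log (l ^ 2) ≤ Real.log k := Real.log_le_log (by positivity) hk3
      rw [Real.log_pow, ← hm] at h3
      push_cast at h3
      exact h3
    have hpk : (Nat.primeCounting k : ℝ) ≤ 1.001 * (1.01 * l ^ 2 / (2 * m)) := by
      refine a4.trans ?_
      apply mul_le_mul_of_nonneg_left _ (by norm_num)
      apply div_le_div₀ (by positivity) hk1 (by linarith) hlogk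
    have hky : ((k / z X : ℕ) : ℝ) ≤ C * l := by
      refine Nat.cast_div_le.trans ?_
      rw [div_le_iff₀ (by linarith)]
      calc (k : ℝ) ≤ 1.01 * l ^ 2 := hk1
        _ = C * l * (c * l) := by
            rw [hC]
            field_simp
        _ ≤ C * l * z X := by
            apply mul_le_mul_of_nonneg_left a1
            positivity
    have hpy : (Nat.primeCounting (k / z X) : ℝ) ≤ 4 * C * l / m := by
      have h3 : Nat.primeCounting (k / z X) ≤ Nat.primeCounting ⌊C * l⌋₊ :=
        Nat.monotone_primeCounting (Nat.le_floor hky)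
      have h4 : (Nat.primeCounting (k / z X) : ℝ) ≤ Nat.primeCounting ⌊C * l⌋₊ := by exact_mod_cast h3
      refine h4.trans (a5.trans ?_)
      have h5 : m / 2 ≤ Real.log (C * l) := by
        rw [Real.log_mul hC0.ne' hl0.ne', ← hm]
        linarith
      calc 2 * (C * l / Real.log (C * l)) ≤ 2 * (C * l / (m / 2)) := by
            apply mul_le_mul_of_nonneg_left _ (by norm_num)
            apply div_le_div_of_nonneg_left (by positivity) (by linarith) h5
        _ = 4 * C * l / m := by
            field_simp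
            ring
    have hm0 : 0 < m := by linarith
    have hpy2 : (Nat.primeCounting (k / z X) : ℝ) ^ 2 ≤ (4 * C * l / m) ^ 2 :=
      pow_le_pow_left₀ (Nat.cast_nonneg _) hpy 2
    have hml : m ≤ l := by
      rw [hm]
      exact (Real.log_le_sub_one_of_pos hl0).trans (by linarith)
    have hCm : 31.2 * C ^ 2 / m ≤ 0.0005 := by
      rw [div_le_iff₀ (by norm_num)] at a8
      rw [div_le_iff₀ hm0]
      linarith
    calc W Set.univ (z (2 * X)) * (1 + Nat.primeCounting k + (Nat.primeCounting (k / z X) : ℝ) ^ 2)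
        ≤ (1.95 * m) * (1 + 1.001 * (1.01 * l ^ 2 / (2 * m)) + (4 * C * l / m) ^ 2) := by
          apply mul_le_mul hW
          · linarith
          · positivity
          · positivity
      _ = 1.95 * m + 1.95 * 1.001 * 1.01 / 2 * l ^ 2 + (31.2 * C ^ 2 / m) * l ^ 2 := by
          field_simp
          ring
      _ ≤ 1.95 * l + 1.95 * 1.001 * 1.01 / 2 * l ^ 2 + 0.0005 * l ^ 2 := by
          gcongr
      _ ≤ 0.987 * l ^ 2 := by nlinarith

end Pool.Agent.J6H89.SM
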