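import Mathlib

/-!
# From the sizes of the gaps to the first occurrences
-/

set_option autoImplicit false

namespace Pool.Agent.J6H89.SM

open Filter Topology

/-- the elements of `S` which come directly after a run of at least `g` integers that are not in `S`
(there is an element of `S` before the run) -/
def After (S : Set ℕ) (g : ℕ) : Set ℕ :=
  {b | b ∈ S ∧ ∃ a ∈ S, a + g < b ∧ ∀ m, a < m → m < b → m ∉ S}

/-- the first of them -/
noncomputable def first (S : Set ℕ) (g : ℕ) : ℕ := sInf (After S g)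

/-- gaps of the expected size occur at the expected places -/
theorem first_le (S : Set ℕ) (U L : ℕ → ℕ) (hU : ∀ᶠ X : ℕ in atTop, ∃ m, X < m ∧ m ≤ X + U X ∧ m ∈ S)
    (hUX : ∀ᶠ X : ℕ in atTop, U X ≤ X)
    (hL : ∀ᶠ X : ℕ in atTop, ∃ x, X ≤ x ∧ x ≤ 2 * X ∧ ∀ m, x < m → m ≤ x + L X → m ∉ S)
    (hLX : ∀ᶠ X : ℕ in atTop, L X ≤ X) :
    ∀ᶠ X : ℕ in atTop, ∀ g : ℕ, g ≤ L X → (After S g).Nonempty ∧ first S g ≤ 6 * X := by
  obtain ⟨N1, h1⟩ := eventually_atTop.1 (hU.and hUX)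
  obtain ⟨N2, h2⟩ := eventually_atTop.1 (hL.and hLX)
  refine eventually_atTop.2 ⟨max (2 * N1 + N1 + 1) N2, fun X hX g hg => ?_⟩
  have hX1 : 2 * N1 + N1 + 1 ≤ X := le_trans (le_max_left _ _) hX
  have hX2 : N2 ≤ X := le_trans (le_max_right _ _) hX
  obtain ⟨⟨x, hx1, hx2, hx3⟩, hLX'⟩ := h2 X hX2
  classical
  -- the next element
  obtain ⟨⟨m, hm1, hm2, hm3⟩, hU2⟩ := h1 (x + L X) (by omega)
  have hex : ∃ b, x < b ∧ b ∈ S := ⟨m, by omega, hm3⟩
  have hb := Nat.find_spec hex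
  have hbmin : ∀ t, x < t → t ∈ S → Nat.find hex ≤ t := fun t h3 h4 => Nat.find_min' hex ⟨h3, h4⟩
  obtain ⟨b, hbdef⟩ : ∃ b, b = Nat.find hex := ⟨_, rfl⟩
  rw [← hbdef] at hb hbmin
  have hbm : b ≤ m := hbmin m (by omega) hm3
  have hbL : x + L X < b := by
    by_contra hcon
    exact hx3 b hb.1 (by omega) hb.2
  -- the last element before
  obtain ⟨⟨m', hm1', hm2', hm3'⟩, hU2'⟩ := h1 N1 le_rfl
  have hm'x : m' ≤ x := by omega
  have hne : ((Finset.range (x + 1)).filter (fun t => t ∈ S)).Nonempty :=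
    ⟨m', Finset.mem_filter.2 ⟨Finset.mem_range.2 (by omega), hm3'⟩⟩
  obtain ⟨a, hadef⟩ : ∃ a, a = ((Finset.range (x + 1)).filter (fun t => t ∈ S)).max' hne := ⟨_, rfl⟩
  have ha := Finset.max'_mem _ hne
  rw [← hadef, Finset.mem_filter, Finset.mem_range] at ha
  have hamax : ∀ t, t ≤ x → t ∈ S → t ≤ a := by
    intro t h3 h4
    rw [hadef]
    exact Finset.le_max' _ _ (Finset.mem_filter.2 ⟨Finset.mem_range.2 (by omega), h4⟩)
  have hmem : b ∈ After S g := by
    refine ⟨hb.2, a, ha.2, by omega, ?_⟩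
    intro t h3 h4 h5
    rcases Nat.lt_or_ge x t with h6 | h6
    · have := hbmin t h6 h5
      omega
    · have := hamax t h6 h5
      omega
  refine ⟨⟨b, hmem⟩, ?_⟩
  have h3 : first S g ≤ b := Nat.sInf_le hmem
  omega

/-- early gaps are short -/
theorem le_first (S : Set ℕ) (U : ℕ → ℕ) (hU : ∀ᶠ X : ℕ in atTop, ∃ m, X < m ∧ m ≤ X + U X ∧ m ∈ S) (N0 : ℕ) :
    ∀ᶠ g : ℕ in atTop, (After S g).Nonempty → ∃ a, N0 ≤ a ∧ a ≤ first S g ∧ g ≤ U a := by
  obtain ⟨N1, h1⟩ := eventually_atTop.1 hU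
  obtain ⟨e, he1, he2, he3⟩ := h1 (max N0 N1) (le_max_right _ _)
  have hN0 : N0 ≤ max N0 N1 := le_max_left _ _
  have hN1 : N1 ≤ max N0 N1 := le_max_right _ _
  refine eventually_atTop.2 ⟨e, fun g hg hne => ?_⟩
  obtain ⟨hb, a, haS, hab, hno⟩ : first S g ∈ After S g := Nat.sInf_mem hne
  obtain ⟨b, hbdef⟩ : ∃ b, b = first S g := ⟨_, rfl⟩
  rw [← hbdef] at hb hab hno ⊢
  have ha : max N0 N1 ≤ a := by
    by_contra hcon
    push Not at hcon
    have h2 : b ≤ e := by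
      by_contra h3
      exact hno e (by omega) (by omega) he3
    omega
  obtain ⟨m, hm1, hm2, hm3⟩ := h1 a (by omega)
  have h4 : b ≤ m := by
    by_contra h5
    exact hno m hm1 (by omega) hm3
  exact ⟨a, by omega, by omega, by omega⟩

/-- the first occurrences from the sizes of the gaps -/
theorem limit (S : Set ℕ)
    (hU : ∀ k : ℕ, ∀ᶠ X : ℕ in atTop, ∃ m, X < m ∧ m ≤ X + ⌊(1 + 1 / ((k : ℝ) + 2)) * Real.log X ^ 2⌋₊ ∧ m ∈ S)
    (hL : ∀ k : ℕ, ∀ᶠ X : ℕ in atTop, ∃ x, X ≤ x ∧ x ≤ 2 * X ∧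
      ∀ m, x < m → m ≤ x + ⌊(1 - 1 / ((k : ℝ) + 2)) * Real.log X ^ 2⌋₊ → m ∉ S) :
    Tendsto (fun g : ℕ => Real.log (first S g) / Real.sqrt g) atTop (𝓝 1) := by
  have hlX : Tendsto (fun X : ℕ => Real.log X ^ 2 / X) atTop (𝓝 0) := by
    have h := (Real.isLittleO_pow_log_id_atTop (n := 2)).tendsto_div_nhds_zero
    exact h.comp tendsto_natCast_atTop_atTop
  have hfl : ∀ c : ℝ, c ≤ 2 → ∀ᶠ X : ℕ in atTop, ⌊c * Real.log X ^ 2⌋₊ ≤ X := by
    intro c hc
    filter_upwards [hlX.eventually_lt_const (show (0 : ℝ) < 1 / 2 by norm_num), eventually_ge_atTop 1] with X h1 h2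
    have hX0 : (0 : ℝ) < X := by exact_mod_cast h2
    rw [div_lt_iff₀ hX0] at h1
    apply Nat.floor_le_of_le
    have h3 : c * Real.log X ^ 2 ≤ 2 * Real.log X ^ 2 := mul_le_mul_of_nonneg_right hc (sq_nonneg _)
    linarith
  have hη : ∀ k : ℕ, 0 < 1 / ((k : ℝ) + 2) ∧ 1 / ((k : ℝ) + 2) ≤ 1 / 2 := by
    intro k
    have hk : (0 : ℝ) ≤ k := Nat.cast_nonneg k
    refine ⟨by positivity, ?_⟩
    apply one_div_le_one_div_of_le (by norm_num)
    linarith
  have hηt : Tendsto (fun k : ℕ => 1 / ((k : ℝ) + 2)) atTop (𝓝 0) := by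
    apply Tendsto.div_atTop tendsto_const_nhds
    exact tendsto_atTop_add_const_right _ _ tendsto_natCast_atTop_atTop
  have hfirst : ∀ k : ℕ, ∀ᶠ X : ℕ in atTop, ∀ g : ℕ, g ≤ ⌊(1 - 1 / ((k : ℝ) + 2)) * Real.log X ^ 2⌋₊ →
      (After S g).Nonempty ∧ first S g ≤ 6 * X := by
    intro k
    have h1 := hη k
    exact first_le S (fun X => ⌊(1 + 1 / ((k : ℝ) + 2)) * Real.log X ^ 2⌋₊)
      (fun X => ⌊(1 - 1 / ((k : ℝ) + 2)) * Real.log X ^ 2⌋₊) (hU k) (hfl _ (by linarith)) (hL k)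
      (hfl _ (by linarith))
  have hsq : Tendsto (fun g : ℕ => Real.sqrt g) atTop atTop := Real.tendsto_sqrt_atTop.comp tendsto_natCast_atTop_atTop
  -- the place of a run of length `g`
  have hplace : ∀ k : ℕ, ∀ᶠ g : ℕ in atTop, (After S g).Nonempty ∧
      Real.log (first S g) ≤ Real.log 12 + Real.sqrt (((g : ℝ) + 1) / (1 - 1 / ((k : ℝ) + 2))) := by
    intro k
    have h1 := hη k
    have h1η : 0 < 1 - 1 / ((k : ℝ) + 2) := by linarith
    obtain ⟨N, hN⟩ := eventually_atTop.1 (hfirst k)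
    have ht : Tendsto (fun g : ℕ => ⌈Real.exp (Real.sqrt (((g : ℝ) + 1) / (1 - 1 / ((k : ℝ) + 2))))⌉₊) atTop atTop := by
      apply tendsto_nat_ceil_atTop.comp
      apply Real.tendsto_exp_atTop.comp
      apply Real.tendsto_sqrt_atTop.comp
      apply Tendsto.atTop_div_const h1η
      exact tendsto_atTop_add_const_right _ _ tendsto_natCast_atTop_atTop
    filter_upwards [ht.eventually_ge_atTop (max N 1)] with g hg
    obtain ⟨E, hE⟩ : ∃ E, E = Real.exp (Real.sqrt (((g : ℝ) + 1) / (1 - 1 / ((k : ℝ) + 2)))) := ⟨_, rfl⟩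
    rw [← hE] at hg
    obtain ⟨X, hX⟩ : ∃ X, X = ⌈E⌉₊ := ⟨_, rfl⟩
    rw [← hX] at hg
    have hX1 : 1 ≤ X := le_trans (le_max_right _ _) hg
    have hXR : (0 : ℝ) < X := by exact_mod_cast hX1
    have hE0 : 0 < E := by rw [hE]; exact Real.exp_pos _
    have hE1 : 1 ≤ E := by
      rw [hE]
      exact Real.one_le_exp (Real.sqrt_nonneg _)
    have hEX : E ≤ X := by
      rw [hX]
      exact Nat.le_ceil _
    have hXE : (X : ℝ) ≤ 2 * E := by
      have := Nat.ceil_lt_add_one hE0.le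
      rw [hX]
      linarith
    have hlog : Real.sqrt (((g : ℝ) + 1) / (1 - 1 / ((k : ℝ) + 2))) ≤ Real.log X := by
      have h2 := Real.log_le_log hE0 hEX
      rwa [hE, Real.log_exp] at h2
    have hgL : g ≤ ⌊(1 - 1 / ((k : ℝ) + 2)) * Real.log X ^ 2⌋₊ := by
      apply Nat.le_floor
      have h2 : ((g : ℝ) + 1) / (1 - 1 / ((k : ℝ) + 2)) ≤ Real.log X ^ 2 := by
        have h3 : 0 ≤ ((g : ℝ) + 1) / (1 - 1 / ((k : ℝ) + 2)) := by positivity
        calc ((g : ℝ) + 1) / (1 - 1 / ((k : ℝ) + 2)) =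
            Real.sqrt (((g : ℝ) + 1) / (1 - 1 / ((k : ℝ) + 2))) ^ 2 := (Real.sq_sqrt h3).symm
          _ ≤ Real.log X ^ 2 := by
              apply pow_le_pow_left₀ (Real.sqrt_nonneg _) hlog
      rw [div_le_iff₀ h1η] at h2
      linarith
    obtain ⟨h4, h5⟩ := hN X (le_trans (le_max_left _ _) hg) g hgL
    refine ⟨h4, ?_⟩
    have h6 : first S g ∈ After S g := Nat.sInf_mem h4
    have h7 : 0 < first S g := by
      obtain ⟨_, a, _, h8, _⟩ := h6
      omega
    have h8 : (0 : ℝ) < first S g := by exact_mod_cast h7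
    have h9 : (first S g : ℝ) ≤ 12 * E := by
      have : (first S g : ℝ) ≤ 6 * X := by exact_mod_cast h5
      linarith
    have h10 := Real.log_le_log h8 h9
    rwa [Real.log_mul (by norm_num) hE0.ne', hE, Real.log_exp] at h10
  have hlow : ∀ k : ℕ, ∀ᶠ g : ℕ in atTop,
      Real.sqrt ((g : ℝ) / (1 + 1 / ((k : ℝ) + 2))) ≤ Real.log (first S g) := by
    intro k
    have h1 := hη k
    filter_upwards [hplace k, le_first S _ (hU k) 1] with g h2 h3
    obtain ⟨a, ha1, ha2, ha3⟩ := h3 h2.1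
    have ha0 : (0 : ℝ) < a := by exact_mod_cast ha1
    have h4 : Real.log a ≤ Real.log (first S g) := by
      apply Real.log_le_log ha0
      exact_mod_cast ha2
    have h5 : (g : ℝ) ≤ (1 + 1 / ((k : ℝ) + 2)) * Real.log a ^ 2 := by
      have h6 : (g : ℝ) ≤ (⌊(1 + 1 / ((k : ℝ) + 2)) * Real.log a ^ 2⌋₊ : ℝ) := by exact_mod_cast ha3
      refine h6.trans (Nat.floor_le ?_)
      positivity
    refine le_trans ?_ h4
    apply Real.sqrt_le_iff.2
    refine ⟨Real.log_natCast_nonneg a, ?_⟩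
    rw [div_le_iff₀ (by positivity)]
    linarith
  refine tendsto_order.2 ⟨fun c hc => ?_, fun c hc => ?_⟩
  · -- lower bound
    have h1 : Tendsto (fun k : ℕ => Real.sqrt (1 / (1 + 1 / ((k : ℝ) + 2)))) atTop (𝓝 1) := by
      have h2 : Tendsto (fun k : ℕ => 1 / (1 + 1 / ((k : ℝ) + 2))) atTop (𝓝 (1 / (1 + 0))) :=
        tendsto_const_nhds.div (tendsto_const_nhds.add hηt) (by norm_num)
      have h3 := (Real.continuous_sqrt.tendsto _).comp h2
      have e : Real.sqrt (1 / (1 + 0)) = 1 := by norm_num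
      rw [e] at h3
      exact h3
    obtain ⟨k, hk⟩ := (h1.eventually_const_lt hc).exists
    filter_upwards [hlow k, eventually_ge_atTop 1] with g h4 h5
    have hg : (0 : ℝ) < g := by exact_mod_cast h5
    have hsg : 0 < Real.sqrt g := Real.sqrt_pos.2 hg
    refine lt_of_lt_of_le hk ?_
    rw [le_div_iff₀ hsg]
    refine le_trans (le_of_eq ?_) h4
    rw [← Real.sqrt_mul (by have := (hη k).1; positivity)]
    congr 1
    ring
  · have h1 : Tendsto (fun k : ℕ => Real.sqrt (1 / (1 - 1 / ((k : ℝ) + 2)))) atTop (𝓝 1) := by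
      have h2 : Tendsto (fun k : ℕ => 1 / (1 - 1 / ((k : ℝ) + 2))) atTop (𝓝 (1 / (1 - 0))) :=
        tendsto_const_nhds.div (tendsto_const_nhds.sub hηt) (by norm_num)
      have h3 := (Real.continuous_sqrt.tendsto _).comp h2
      have e : Real.sqrt (1 / (1 - 0)) = 1 := by norm_num
      rw [e] at h3
      exact h3
    obtain ⟨k, hk⟩ := (h1.eventually_lt_const hc).exists
    have h1η : 0 < 1 - 1 / ((k : ℝ) + 2) := by
      have := (hη k).2
      linarith
    have h2 : Tendsto (fun g : ℕ => Real.log 12 / Real.sqrt g +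
        Real.sqrt ((1 + 1 / (g : ℝ)) * (1 / (1 - 1 / ((k : ℝ) + 2))))) atTop
        (𝓝 (0 + Real.sqrt ((1 + 0) * (1 / (1 - 1 / ((k : ℝ) + 2)))))) := by
      apply Tendsto.add
      · exact tendsto_const_nhds.div_atTop hsq
      · apply (Real.continuous_sqrt.tendsto _).comp
        apply Tendsto.mul_const
        exact tendsto_const_nhds.add tendsto_one_div_atTop_nhds_zero_nat
    have h3 : 0 + Real.sqrt ((1 + 0) * (1 / (1 - 1 / ((k : ℝ) + 2)))) < c := by
      simpa using hk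
    filter_upwards [h2.eventually_lt_const h3, hplace k, eventually_ge_atTop 1] with g h4 h5 h6
    have hg : (0 : ℝ) < g := by exact_mod_cast h6
    have hsg : 0 < Real.sqrt g := Real.sqrt_pos.2 hg
    refine lt_of_le_of_lt ?_ h4
    rw [div_le_iff₀ hsg, add_mul, div_mul_cancel₀ _ hsg.ne']
    refine h5.2.trans (le_of_eq ?_)
    congr 1
    rw [← Real.sqrt_mul (by positivity)]
    congr 1
    field_simp

end Pool.Agent.J6H89.SM
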