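import Mathlib

/-!
# Adapted events with bounded conditional probabilities: runs without a chosen integer
-/

set_option autoImplicit false

namespace Pool.Agent.J6H89.SM

open Finset MeasureTheory Filter

variable {Ω : Type} [mΩ : MeasurableSpace Ω] (μ : Measure Ω) (ℱ : Filtration ℕ mΩ) (S : ℕ → Set Ω)

/-- the conditional probability of the next choice -/
noncomputable def cp (n : ℕ) : Ω → ℝ := μ[(S (n + 1)).indicator (fun _ => (1 : ℝ)) | ℱ n]

/-- at the time `n` the conditional probability is within the bounds, if `n + 1` can be chosen -/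
def Ok (R : ℕ → Prop) (lo hi : ℕ → ℝ) (n : ℕ) : Set Ω :=
  {ω | R (n + 1) → lo n ≤ cp μ ℱ S n ω ∧ cp μ ℱ S n ω ≤ hi n}

/-- nothing is chosen in `(X, Y]` -/
def Nn (X Y : ℕ) : Set Ω := {ω | ∀ m, X < m → m ≤ Y → ω ∉ S m}

/-- the bounds hold at all times in `[X, Y)` -/
def Gd (R : ℕ → Prop) (lo hi : ℕ → ℝ) (X Y : ℕ) : Set Ω := {ω | ∀ j, X ≤ j → j < Y → ω ∈ Ok μ ℱ S R lo hi j}

variable {μ ℱ S}

lemma meas_cp (n : ℕ) : Measurable[ℱ n] (cp μ ℱ S n) := stronglyMeasurable_condExp.measurable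

lemma meas_Ok (R : ℕ → Prop) (lo hi : ℕ → ℝ) (n : ℕ) : MeasurableSet[ℱ n] (Ok μ ℱ S R lo hi n) := by
  by_cases h : R (n + 1)
  · have : Ok μ ℱ S R lo hi n = (cp μ ℱ S n) ⁻¹' (Set.Icc (lo n) (hi n)) := by
      ext ω
      simp [Ok, h]
    rw [this]
    exact meas_cp n measurableSet_Icc
  · have : Ok μ ℱ S R lo hi n = Set.univ := by
      ext ω
      simp [Ok, h]
    rw [this]
    exact @MeasurableSet.univ _ (ℱ n)

lemma meas_Nn (had : ∀ n, MeasurableSet[ℱ n] (S n)) (X Y : ℕ) : MeasurableSet[ℱ Y] (Nn S X Y) := by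
  have : Nn S X Y = ⋂ m ∈ {m : ℕ | X < m ∧ m ≤ Y}, (S m)ᶜ := by
    ext ω
    simp [Nn]
  rw [this]
  refine MeasurableSet.biInter (Set.to_countable _) ?_
  intro m hm
  exact (ℱ.mono hm.2 _ (had m)).compl

lemma meas_Gd (R : ℕ → Prop) (lo hi : ℕ → ℝ) (X Y : ℕ) : MeasurableSet[ℱ (Y - 1)] (Gd μ ℱ S R lo hi X Y) := by
  have : Gd μ ℱ S R lo hi X Y = ⋂ j ∈ {j : ℕ | X ≤ j ∧ j < Y}, Ok μ ℱ S R lo hi j := by
    ext ω
    simp [Gd]
  rw [this]
  refine MeasurableSet.biInter (Set.to_countable _) ?_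
  intro j hj
  have h1 : j ≤ Y - 1 := by
    have := hj.2
    omega
  exact ℱ.mono h1 _ (meas_Ok R lo hi j)

/-- the probability of an event of the past together with the next choice -/
lemma real_inter [IsProbabilityMeasure μ] (had : ∀ n, MeasurableSet[ℱ n] (S n)) (n : ℕ) {E : Set Ω}
    (hE : MeasurableSet[ℱ n] E) : μ.real (E ∩ S (n + 1)) = ∫ ω in E, cp μ ℱ S n ω ∂μ := by
  have hS : MeasurableSet (S (n + 1)) := ℱ.le (n + 1) _ (had (n + 1))
  have hint : Integrable ((S (n + 1)).indicator (fun _ => (1 : ℝ))) μ :=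
    (integrable_const (1 : ℝ)).indicator hS
  have h1 := setIntegral_condExp (ℱ.le n) hint hE
  have h2 : ∫ ω in E, (S (n + 1)).indicator (fun _ => (1 : ℝ)) ω ∂μ = μ.real (E ∩ S (n + 1)) := by
    rw [setIntegral_indicator hS, setIntegral_const, smul_eq_mul, mul_one]
  rw [← h2, ← h1]
  rfl

lemma integrable_cp [IsProbabilityMeasure μ] (n : ℕ) : Integrable (cp μ ℱ S n) μ := integrable_condExp

lemma low [IsProbabilityMeasure μ] (had : ∀ n, MeasurableSet[ℱ n] (S n)) (n : ℕ) {E : Set Ω}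
    (hE : MeasurableSet[ℱ n] E) (c : ℝ) (h : ∀ ω ∈ E, c ≤ cp μ ℱ S n ω) :
    c * μ.real E ≤ μ.real (E ∩ S (n + 1)) := by
  rw [real_inter had n hE]
  have hE' : MeasurableSet E := ℱ.le n _ hE
  have h1 : ∫ _ω in E, c ∂μ ≤ ∫ ω in E, cp μ ℱ S n ω ∂μ := by
    apply setIntegral_mono_on (integrable_const c).integrableOn (integrable_cp n).integrableOn hE'
    intro ω hω
    exact h ω hω
  rw [setIntegral_const, smul_eq_mul] at h1
  linarith

lemma upp [IsProbabilityMeasure μ] (had : ∀ n, MeasurableSet[ℱ n] (S n)) (n : ℕ) {E : Set Ω}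
    (hE : MeasurableSet[ℱ n] E) (c : ℝ) (h : ∀ ω ∈ E, cp μ ℱ S n ω ≤ c) :
    μ.real (E ∩ S (n + 1)) ≤ c * μ.real E := by
  rw [real_inter had n hE]
  have hE' : MeasurableSet E := ℱ.le n _ hE
  have h1 : ∫ ω in E, cp μ ℱ S n ω ∂μ ≤ ∫ _ω in E, c ∂μ := by
    apply setIntegral_mono_on (integrable_cp n).integrableOn (integrable_const c).integrableOn hE'
    intro ω hω
    exact h ω hω
  rw [setIntegral_const, smul_eq_mul] at h1
  linarith

open Classical in
/-- long runs without a choice are unlikely -/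
theorem run_le [IsProbabilityMeasure μ] (had : ∀ n, MeasurableSet[ℱ n] (S n)) (R : ℕ → Prop)
    (lo hi : ℕ → ℝ) (X : ℕ) (k : ℕ) (hlo : ∀ j, j < k → lo (X + j) ≤ 1) :
    μ.real (Nn S X (X + k) ∩ Gd μ ℱ S R lo hi X (X + k)) ≤
      ∏ j ∈ range k, (if R (X + j + 1) then 1 - lo (X + j) else 1) := by
  induction k with
  | zero =>
    rw [range_zero, prod_empty]
    exact measureReal_le_one
  | succ k ih0 =>
    rw [prod_range_succ]
    obtain ⟨E, hEdef⟩ : ∃ E, E = Nn S X (X + k) ∩ Gd μ ℱ S R lo hi X (X + k) := ⟨_, rfl⟩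
    have ih := ih0 (fun j hj => hlo j (by omega))
    rw [← hEdef] at ih
    have hsub : Nn S X (X + (k + 1)) ∩ Gd μ ℱ S R lo hi X (X + (k + 1)) ⊆
        (E ∩ Ok μ ℱ S R lo hi (X + k)) \ S (X + k + 1) := by
      rintro ω ⟨h1, h2⟩
      refine ⟨⟨?_, h2 (X + k) (by omega) (by omega)⟩, h1 (X + k + 1) (by omega) (by omega)⟩
      rw [hEdef]
      exact ⟨fun m h3 h4 => h1 m h3 (by omega), fun j h3 h4 => h2 j h3 (by omega)⟩
    have hE : MeasurableSet[ℱ (X + k)] E := by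
      rw [hEdef]
      refine MeasurableSet.inter (meas_Nn had _ _) ?_
      exact ℱ.mono (by omega) _ (meas_Gd R lo hi X (X + k))
    have hE2 : MeasurableSet[ℱ (X + k)] (E ∩ Ok μ ℱ S R lo hi (X + k)) := hE.inter (meas_Ok R lo hi _)
    have hS : MeasurableSet (S (X + k + 1)) := ℱ.le _ _ (had _)
    have h0 := measureReal_mono (μ := μ) hsub (measure_ne_top _ _)
    have h3 : μ.real ((E ∩ Ok μ ℱ S R lo hi (X + k)) \ S (X + k + 1)) +
        μ.real ((E ∩ Ok μ ℱ S R lo hi (X + k)) ∩ S (X + k + 1)) = μ.real (E ∩ Ok μ ℱ S R lo hi (X + k)) := by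
      rw [add_comm]
      exact measureReal_inter_add_sdiff hS
    have h4 : μ.real (E ∩ Ok μ ℱ S R lo hi (X + k)) ≤ μ.real E :=
      measureReal_mono Set.inter_subset_left (measure_ne_top _ _)
    by_cases hR : R (X + k + 1)
    · rw [if_pos hR]
      have h5 := low had (X + k) hE2 (lo (X + k)) (fun ω hω => (hω.2 hR).1)
      have h6 : μ.real (E ∩ Ok μ ℱ S R lo hi (X + k)) * (1 - lo (X + k)) ≤
          μ.real E * (1 - lo (X + k)) := by
        apply mul_le_mul_of_nonneg_right h4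
        linarith [hlo k (by omega)]
      have h7 : μ.real E * (1 - lo (X + k)) ≤
          (∏ j ∈ range k, (if R (X + j + 1) then 1 - lo (X + j) else 1)) * (1 - lo (X + k)) := by
        apply mul_le_mul_of_nonneg_right ih
        linarith [hlo k (by omega)]
      linarith
    · rw [if_neg hR, mul_one]
      have h5 : 0 ≤ μ.real ((E ∩ Ok μ ℱ S R lo hi (X + k)) ∩ S (X + k + 1)) := measureReal_nonneg
      linarith

/-- nothing is chosen in `(X, Y]` before the bounds fail -/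
def Vv (μ : Measure Ω) (ℱ : Filtration ℕ mΩ) (S : ℕ → Set Ω) (R : ℕ → Prop) (lo hi : ℕ → ℝ) (X Y : ℕ) : Set Ω :=
  {ω | ∀ m, X < m → m ≤ Y → ω ∈ Gd μ ℱ S R lo hi X m → ω ∉ S m}

lemma meas_Vv (had : ∀ n, MeasurableSet[ℱ n] (S n)) (R : ℕ → Prop) (lo hi : ℕ → ℝ) (X Y : ℕ) :
    MeasurableSet[ℱ Y] (Vv μ ℱ S R lo hi X Y) := by
  have : Vv μ ℱ S R lo hi X Y = ⋂ m ∈ {m : ℕ | X < m ∧ m ≤ Y}, ((Gd μ ℱ S R lo hi X m)ᶜ ∪ (S m)ᶜ) := by
    ext ω
    simp only [Vv, Set.mem_ofPred_eq, Set.mem_iInter, Set.mem_union, Set.mem_compl_iff]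
    constructor
    · intro h m hm
      by_cases h1 : ω ∈ Gd μ ℱ S R lo hi X m
      · right; exact h m hm.1 hm.2 h1
      · left; exact h1
    · intro h m h1 h2 h3
      rcases h m ⟨h1, h2⟩ with h4 | h4
      · exact absurd h3 h4
      · exact h4
  rw [this]
  refine MeasurableSet.biInter (Set.to_countable _) ?_
  intro m hm
  refine MeasurableSet.union ?_ ?_
  · refine (ℱ.mono ?_ _ (meas_Gd R lo hi X m)).compl
    have := hm.2
    omega
  · exact (ℱ.mono hm.2 _ (had m)).compl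

open Classical in
/-- short runs without a choice are not too unlikely -/
theorem run_ge [IsProbabilityMeasure μ] (had : ∀ n, MeasurableSet[ℱ n] (S n)) (R : ℕ → Prop)
    (hsv : ∀ n, ¬ R n → S n = ∅) (lo hi : ℕ → ℝ) (hhi : ∀ n, 0 ≤ hi n) (X : ℕ) (k : ℕ)
    (hhi1 : ∀ j, j < k → hi (X + j) ≤ 1) {H : Set Ω}
    (hH : MeasurableSet[ℱ X] H) :
    μ.real H * ∏ j ∈ range k, (if R (X + j + 1) then 1 - hi (X + j) else 1) ≤
      μ.real (H ∩ Vv μ ℱ S R lo hi X (X + k)) := by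
  induction k with
  | zero =>
    rw [range_zero, prod_empty, mul_one]
    apply le_of_eq
    congr 1
    ext ω
    simp only [Set.mem_inter_iff, Vv, Set.mem_ofPred_eq, add_zero]
    exact ⟨fun h => ⟨h, fun m h1 h2 => by omega⟩, fun h => h.1⟩
  | succ k ih =>
    rw [prod_range_succ, ← mul_assoc]
    obtain ⟨E, hEdef⟩ : ∃ E, E = H ∩ Vv μ ℱ S R lo hi X (X + k) := ⟨_, rfl⟩
    have ih' := ih (fun j hj => hhi1 j (by omega))
    rw [← hEdef] at ih'
    have hE : MeasurableSet[ℱ (X + k)] E := by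
      rw [hEdef]
      exact (ℱ.mono (by omega) _ hH).inter (meas_Vv had _ _ _ _ _)
    have hG : MeasurableSet[ℱ (X + k)] (Gd μ ℱ S R lo hi X (X + k + 1)) := meas_Gd R lo hi X (X + k + 1)
    have hsub : E \ ((E ∩ Gd μ ℱ S R lo hi X (X + k + 1)) ∩ S (X + k + 1)) ⊆
        H ∩ Vv μ ℱ S R lo hi X (X + (k + 1)) := by
      rintro ω ⟨h1, h2⟩
      have h1' := h1
      rw [hEdef] at h1'
      refine ⟨h1'.1, ?_⟩
      intro m h3 h4 h5 h6
      rcases Nat.lt_or_ge (X + k) m with h7 | h7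
      · have : m = X + k + 1 := by omega
        subst this
        exact h2 ⟨⟨h1, h5⟩, h6⟩
      · exact h1'.2 m h3 h7 h5 h6
    have h0 := measureReal_mono (μ := μ) hsub (measure_ne_top _ _)
    have hS : MeasurableSet (S (X + k + 1)) := ℱ.le _ _ (had _)
    have hEm : MeasurableSet E := ℱ.le _ _ hE
    have hGm : MeasurableSet (Gd μ ℱ S R lo hi X (X + k + 1)) := ℱ.le _ _ hG
    have h3 : μ.real (E \ ((E ∩ Gd μ ℱ S R lo hi X (X + k + 1)) ∩ S (X + k + 1))) =
        μ.real E - μ.real ((E ∩ Gd μ ℱ S R lo hi X (X + k + 1)) ∩ S (X + k + 1)) := by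
      apply measureReal_sdiff
      · exact Set.inter_subset_left.trans Set.inter_subset_left
      · exact (hEm.inter hGm).inter hS
      · exact measure_ne_top _ _
    by_cases hR : R (X + k + 1)
    · rw [if_pos hR]
      have h5 := upp had (X + k) (hE.inter hG) (hi (X + k)) (fun ω hω => (hω.2 (X + k) (by omega) (by omega) hR).2)
      have h6 : μ.real (E ∩ Gd μ ℱ S R lo hi X (X + k + 1)) ≤ μ.real E :=
        measureReal_mono Set.inter_subset_left (measure_ne_top _ _)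
      have h7 : hi (X + k) * μ.real (E ∩ Gd μ ℱ S R lo hi X (X + k + 1)) ≤ hi (X + k) * μ.real E :=
        mul_le_mul_of_nonneg_left h6 (hhi _)
      have h8 : μ.real H * (∏ j ∈ range k, (if R (X + j + 1) then 1 - hi (X + j) else 1)) * (1 - hi (X + k)) ≤
          μ.real E * (1 - hi (X + k)) := by
        apply mul_le_mul_of_nonneg_right ih'
        linarith [hhi1 k (by omega)]
      linarith
    · rw [if_neg hR, mul_one]
      have h5 : (E ∩ Gd μ ℱ S R lo hi X (X + k + 1)) ∩ S (X + k + 1) = ∅ := by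
        rw [hsv _ hR, Set.inter_empty]
      rw [h5] at h0
      rw [h5, measureReal_empty, sub_zero] at h3
      rw [h3] at h0
      linarith

/-- in every block something is chosen or the bounds fail -/
def Blk (μ : Measure Ω) (ℱ : Filtration ℕ mΩ) (S : ℕ → Set Ω) (R : ℕ → Prop) (lo hi : ℕ → ℝ) (X L K : ℕ) : Set Ω :=
  {ω | ∀ i, i < K → ω ∉ Vv μ ℱ S R lo hi (X + i * L) (X + i * L + L)}

lemma meas_Blk (had : ∀ n, MeasurableSet[ℱ n] (S n)) (R : ℕ → Prop) (lo hi : ℕ → ℝ) (X L K : ℕ) :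
    MeasurableSet[ℱ (X + K * L)] (Blk μ ℱ S R lo hi X L K) := by
  have : Blk μ ℱ S R lo hi X L K = ⋂ i ∈ {i : ℕ | i < K}, (Vv μ ℱ S R lo hi (X + i * L) (X + i * L + L))ᶜ := by
    ext ω
    simp [Blk]
  rw [this]
  refine MeasurableSet.biInter (Set.to_countable _) ?_
  intro i hi'
  have h1 : X + i * L + L ≤ X + K * L := by
    have h2 : (i + 1) * L ≤ K * L := Nat.mul_le_mul_right _ hi'
    nlinarith
  exact (ℱ.mono h1 _ (meas_Vv had _ _ _ _ _)).compl

open Classical in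
theorem blocks [IsProbabilityMeasure μ] (had : ∀ n, MeasurableSet[ℱ n] (S n)) (R : ℕ → Prop)
    (hsv : ∀ n, ¬ R n → S n = ∅) (lo hi : ℕ → ℝ) (hhi : ∀ n, 0 ≤ hi n) (X L K : ℕ) (q : ℝ)
    (hhi1 : ∀ j, j < K * L → hi (X + j) ≤ 1) (hq1 : q ≤ 1)
    (hq : ∀ i, i < K → q ≤ ∏ j ∈ range L, (if R (X + i * L + j + 1) then 1 - hi (X + i * L + j) else 1)) :
    μ.real (Blk μ ℱ S R lo hi X L K) ≤ (1 - q) ^ K := by
  induction K with
  | zero =>
    rw [pow_zero]
    exact measureReal_le_one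
  | succ K ih =>
    have ih' := ih (fun j hj => hhi1 j (by nlinarith)) (fun i hi' => hq i (by omega))
    have hB := meas_Blk (μ := μ) (ℱ := ℱ) had R lo hi X L K
    have h1 := run_ge (μ := μ) (ℱ := ℱ) had R hsv lo hi hhi (X + K * L) L
      (fun j hj => by
        rw [add_assoc]
        exact hhi1 _ (by nlinarith)) hB
    have h2 : Blk μ ℱ S R lo hi X L (K + 1) =
        Blk μ ℱ S R lo hi X L K \ (Blk μ ℱ S R lo hi X L K ∩ Vv μ ℱ S R lo hi (X + K * L) (X + K * L + L)) := by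
      ext ω
      constructor
      · intro h
        exact ⟨fun i hi' => h i (by omega), fun h' => h K (by omega) h'.2⟩
      · rintro ⟨h3, h4⟩ i hi'
        rcases Nat.lt_or_ge i K with h5 | h5
        · exact h3 i h5
        · have : i = K := by omega
          subst this
          exact fun h6 => h4 ⟨h3, h6⟩
    have h3 : μ.real (Blk μ ℱ S R lo hi X L (K + 1)) = μ.real (Blk μ ℱ S R lo hi X L K) -
        μ.real (Blk μ ℱ S R lo hi X L K ∩ Vv μ ℱ S R lo hi (X + K * L) (X + K * L + L)) := by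
      rw [h2]
      apply measureReal_sdiff
      · exact Set.inter_subset_left
      · exact (ℱ.le _ _ hB).inter (ℱ.le _ _ (meas_Vv had _ _ _ _ _))
      · exact measure_ne_top _ _
    have h4 : μ.real (Blk μ ℱ S R lo hi X L K) * q ≤ μ.real (Blk μ ℱ S R lo hi X L K) *
        ∏ j ∈ range L, (if R (X + K * L + j + 1) then 1 - hi (X + K * L + j) else 1) :=
      mul_le_mul_of_nonneg_left (hq K (by omega)) measureReal_nonneg
    have h5 : μ.real (Blk μ ℱ S R lo hi X L K) * (1 - q) ≤ (1 - q) ^ K * (1 - q) :=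
      mul_le_mul_of_nonneg_right ih' (by linarith)
    rw [pow_succ]
    linarith

/-- Borel and Cantelli -/
lemma bc [IsProbabilityMeasure μ] (s : ℕ → Set Ω) (u : ℕ → ℝ) (hu : Summable u)
    (h : ∀ᶠ n in atTop, μ.real (s n) ≤ u n) : ∀ᵐ ω ∂μ, ∀ᶠ n in atTop, ω ∉ s n := by
  obtain ⟨N, hN⟩ := eventually_atTop.1 h
  have hu' : Summable (fun n => u (n + N)) := (summable_nat_add_iff N).2 hu
  have h1 : ∑' n, μ (s (n + N)) ≠ ⊤ := by
    refine ne_top_of_le_ne_top (Summable.tsum_ofReal_ne_top hu') ?_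
    refine ENNReal.tsum_le_tsum fun n => ?_
    rw [← ofReal_measureReal (μ := μ) (s := s (n + N))]
    exact ENNReal.ofReal_le_ofReal (hN _ (by omega))
  filter_upwards [ae_eventually_notMem h1] with ω hω
  obtain ⟨M, hM⟩ := eventually_atTop.1 hω
  refine eventually_atTop.2 ⟨M + N, fun n hn => ?_⟩
  have := hM (n - N) (by omega)
  rwa [Nat.sub_add_cancel (by omega)] at this

end Pool.Agent.J6H89.SM
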