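import Mathlib
import Pool.Agent.J6H89.SM.Prob
import Pool.Agent.J6H89.SM.Est2
import Pool.Agent.J6H89.SM.Det

/-!
# First occurrences of long runs in sequential random models with a growing sieve
-/

set_option autoImplicit false

namespace Pool.Agent.J6H89.SM

open Finset MeasureTheory Filter Topology

/-- the properties of a model that are used -/
structure Mod {Ω : Type} [mΩ : MeasurableSpace Ω] (μ : Measure Ω) (ℱ : Filtration ℕ mΩ)
    (S : ℕ → Set Ω) (P : Set ℕ) (z : ℕ → ℕ) : Prop where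
  adapted : ∀ n, MeasurableSet[ℱ n] (S n)
  sieved : ∀ n, ¬ Rough P z n → S n = ∅
  density : ∀ᵐ ω ∂μ, Tendsto (fun n : ℕ =>
    (μ[(S (n + 1)).indicator (fun _ => (1 : ℝ)) | ℱ n]) ω * Real.log n / W P (z (n + 1)))
    (atTop ⊓ 𝓟 {n : ℕ | Rough P z (n + 1)}) (𝓝 1)

variable {Ω : Type} [mΩ : MeasurableSpace Ω] {μ : Measure Ω} [IsProbabilityMeasure μ] {ℱ : Filtration ℕ mΩ}
  {S : ℕ → Set Ω} {P : Set ℕ} {z : ℕ → ℕ}

/-- the bounds hold from some time on -/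
lemma ev_ok (hM : Mod μ ℱ S P z) (θ : ℝ) (hθ : 0 < θ) :
    ∀ᵐ ω ∂μ, ∀ᶠ X : ℕ in atTop, ∀ j, X ≤ j → ω ∈ Ok μ ℱ S (Rough P z) (lo P z θ) (hi P z θ) j := by
  filter_upwards [hM.density] with ω hω
  have h1 := (tendsto_order.1 hω).1 (1 - θ) (by linarith)
  have h2 := (tendsto_order.1 hω).2 (1 + θ) (by linarith)
  rw [eventually_inf_principal] at h1 h2
  obtain ⟨N, hN⟩ := eventually_atTop.1 ((h1.and h2).and (eventually_ge_atTop 2))
  refine eventually_atTop.2 ⟨N, fun X hX j hj hR => ?_⟩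
  obtain ⟨⟨h3, h4⟩, h5⟩ := hN j (by omega)
  have h6 := h3 hR
  have h7 := h4 hR
  have hl : 0 < Real.log j := Real.log_pos (by exact_mod_cast h5)
  have hW := W_pos P (z (j + 1))
  unfold cp lo hi
  constructor
  · rw [lt_div_iff₀ hW] at h6
    rw [← mul_div_assoc, div_le_iff₀ hl]
    exact h6.le
  · rw [div_lt_iff₀ hW] at h7
    rw [← mul_div_assoc, le_div_iff₀ hl]
    exact h7.le

theorem upper (hM : Mod μ ℱ S P z) (hz : Monotone z) (hs : Slow z) (η : ℝ) (h0 : 0 < η) (h1 : η ≤ 1) :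
    ∀ᵐ ω ∂μ, ∀ᶠ X : ℕ in atTop, ∃ m, X < m ∧ m ≤ X + ⌊(1 + η) * Real.log X ^ 2⌋₊ ∧ ω ∈ S m := by
  classical
  have hsum : Summable (fun X : ℕ => (X : ℝ) ^ (-(1 + η / 2))) := Real.summable_nat_rpow.2 (by linarith)
  have hev : ∀ᶠ X : ℕ in atTop, μ.real (Nn S X (X + ⌊(1 + η) * Real.log X ^ 2⌋₊) ∩
      Gd μ ℱ S (Rough P z) (lo P z (η / 16)) (hi P z (η / 16)) X (X + ⌊(1 + η) * Real.log X ^ 2⌋₊)) ≤
      (X : ℝ) ^ (-(1 + η / 2)) := by
    filter_upwards [upper_prod P z hz hs η h0 h1] with X hX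
    exact (run_le hM.adapted (Rough P z) (lo P z (η / 16)) (hi P z (η / 16)) X _ hX.1).trans hX.2
  filter_upwards [bc _ _ hsum hev, ev_ok hM (η / 16) (by positivity)] with ω hω1 hω2
  filter_upwards [hω1, hω2] with X h3 h4
  by_contra hcon
  push Not at hcon
  apply h3
  refine ⟨fun m hm1 hm2 => hcon m hm1 hm2, fun j hj _ => h4 j hj⟩

theorem lower (hM : Mod μ ℱ S P z) (hz : Monotone z) (hs : Slow z) (η : ℝ) (h0 : 0 < η) (h1 : η < 1) :
    ∀ᵐ ω ∂μ, ∀ᶠ X : ℕ in atTop, ∃ x, X ≤ x ∧ x ≤ 2 * X ∧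
      ∀ m, x < m → m ≤ x + ⌊(1 - η) * Real.log X ^ 2⌋₊ → ω ∉ S m := by
  classical
  have hsum : Summable (fun X : ℕ => (X : ℝ) ^ (-2 : ℝ)) := Real.summable_nat_rpow.2 (by norm_num)
  have hev : ∀ᶠ X : ℕ in atTop, μ.real (Blk μ ℱ S (Rough P z) (lo P z (η / 16)) (hi P z (η / 16)) X
      ⌊(1 - η) * Real.log X ^ 2⌋₊ (X / ⌊(1 - η) * Real.log X ^ 2⌋₊)) ≤ (X : ℝ) ^ (-2 : ℝ) := by
    filter_upwards [lower_prod P z hz hs η h0 h1, many_blocks η h0 h1, eventually_ge_atTop 1] with X hX hX2 hX3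
    obtain ⟨k, hk⟩ : ∃ k, k = ⌊(1 - η) * Real.log X ^ 2⌋₊ := ⟨_, rfl⟩
    rw [← hk] at hX hX2 ⊢
    have hKL : X / k * k ≤ X := Nat.div_mul_le_self X k
    refine (blocks hM.adapted (Rough P z) hM.sieved (lo P z (η / 16)) (hi P z (η / 16))
      (hi_nonneg P z (η / 16) (by positivity)) X k (X / k) ((X : ℝ) ^ (-(1 - η / 2))) ?_ ?_ ?_).trans hX2.2
    · intro j hj
      exact hX.1 j (by omega)
    · apply Real.rpow_le_one_of_one_le_of_nonpos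
      · exact_mod_cast hX3
      · linarith
    · intro i hi'
      apply hX.2
      have : (i + 1) * k ≤ X / k * k := Nat.mul_le_mul_right _ hi'
      nlinarith
  filter_upwards [bc _ _ hsum hev, ev_ok hM (η / 16) (by positivity)] with ω hω1 hω2
  filter_upwards [hω1, hω2] with X h3 h4
  unfold Blk at h3
  simp only [Set.mem_ofPred_eq, not_forall, not_not] at h3
  obtain ⟨i, hi1, hi2⟩ := h3
  obtain ⟨k, hk⟩ : ∃ k, k = ⌊(1 - η) * Real.log X ^ 2⌋₊ := ⟨_, rfl⟩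
  rw [← hk] at hi1 hi2 ⊢
  have hKL : X / k * k ≤ X := Nat.div_mul_le_self X k
  have : (i + 1) * k ≤ X / k * k := Nat.mul_le_mul_right _ hi1
  refine ⟨X + i * k, by omega, by nlinarith, ?_⟩
  intro m hm1 hm2
  exact hi2 m hm1 hm2 (fun j hj _ => h4 j (by omega))

theorem main (hM : Mod μ ℱ S P z) (hz : Monotone z) (hs : Slow z) :
    ∀ᵐ ω ∂μ, Tendsto (fun g : ℕ => Real.log (first {k | ω ∈ S k} g) / Real.sqrt g) atTop (𝓝 1) := by
  have hU : ∀ᵐ ω ∂μ, ∀ k : ℕ, ∀ᶠ X : ℕ in atTop, ∃ m, X < m ∧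
      m ≤ X + ⌊(1 + 1 / ((k : ℝ) + 2)) * Real.log X ^ 2⌋₊ ∧ ω ∈ S m := by
    rw [ae_all_iff]
    intro k
    have hk : (0 : ℝ) ≤ k := Nat.cast_nonneg k
    apply upper hM hz hs _ (by positivity)
    rw [div_le_one (by positivity)]
    linarith
  have hL : ∀ᵐ ω ∂μ, ∀ k : ℕ, ∀ᶠ X : ℕ in atTop, ∃ x, X ≤ x ∧ x ≤ 2 * X ∧
      ∀ m, x < m → m ≤ x + ⌊(1 - 1 / ((k : ℝ) + 2)) * Real.log X ^ 2⌋₊ → ω ∉ S m := by
    rw [ae_all_iff]
    intro k
    have hk : (0 : ℝ) ≤ k := Nat.cast_nonneg k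
    apply lower hM hz hs _ (by positivity)
    rw [div_lt_one (by positivity)]
    linarith
  filter_upwards [hU, hL] with ω h1 h2
  exact limit {k | ω ∈ S k} h1 h2

end Pool.Agent.J6H89.SM
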