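import Mathlib
import Pool.Agent.J6H89.SM.Conv1
import Pool.Agent.J6H89.SM.Main

/-!
# A sieve of logarithmic growth: too long gaps near the multiples of the product of the small primes
-/

set_option autoImplicit false

namespace Pool.Agent.J6H89.SM

open Finset MeasureTheory Filter Topology

section blocks

variable {Ω : Type} [mΩ : MeasurableSpace Ω] {μ : Measure Ω} {ℱ : Filtration ℕ mΩ} {S : ℕ → Set Ω}

/-- in every block something is chosen or the bounds fail -/
def Bkt (μ : Measure Ω) (ℱ : Filtration ℕ mΩ) (S : ℕ → Set Ω) (R : ℕ → Prop) (lo hi : ℕ → ℝ) (X T L K : ℕ) :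
    Set Ω :=
  {ω | ∀ i, i < K → ω ∉ Vv μ ℱ S R lo hi (X + i * T) (X + i * T + L)}

lemma meas_Bkt (had : ∀ n, MeasurableSet[ℱ n] (S n)) (R : ℕ → Prop) (lo hi : ℕ → ℝ) (X T L K : ℕ) (hLT : L ≤ T) :
    MeasurableSet[ℱ (X + K * T)] (Bkt μ ℱ S R lo hi X T L K) := by
  have : Bkt μ ℱ S R lo hi X T L K = ⋂ i ∈ {i : ℕ | i < K}, (Vv μ ℱ S R lo hi (X + i * T) (X + i * T + L))ᶜ := by
    ext ω
    simp [Bkt]
  rw [this]
  refine MeasurableSet.biInter (Set.to_countable _) ?_
  intro i hi'
  have h1 : X + i * T + L ≤ X + K * T := by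
    have h2 : (i + 1) * T ≤ K * T := Nat.mul_le_mul_right _ hi'
    nlinarith
  exact (ℱ.mono h1 _ (meas_Vv had _ _ _ _ _)).compl

open Classical in
theorem blocksT [IsProbabilityMeasure μ] (had : ∀ n, MeasurableSet[ℱ n] (S n)) (R : ℕ → Prop)
    (hsv : ∀ n, ¬ R n → S n = ∅) (lo hi : ℕ → ℝ) (hhi : ∀ n, 0 ≤ hi n) (X T L K : ℕ) (q : ℝ) (hLT : L ≤ T)
    (hhi1 : ∀ j, j < K * T → hi (X + j) ≤ 1) (hq1 : q ≤ 1)
    (hq : ∀ i, i < K → q ≤ ∏ j ∈ range L, (if R (X + i * T + j + 1) then 1 - hi (X + i * T + j) else 1)) :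
    μ.real (Bkt μ ℱ S R lo hi X T L K) ≤ (1 - q) ^ K := by
  induction K with
  | zero =>
    rw [pow_zero]
    exact measureReal_le_one
  | succ K ih =>
    have ih' := ih (fun j hj => hhi1 j (by nlinarith)) (fun i hi' => hq i (by omega))
    have hB := meas_Bkt (μ := μ) (ℱ := ℱ) had R lo hi X T L K hLT
    have h1 := run_ge (μ := μ) (ℱ := ℱ) had R hsv lo hi hhi (X + K * T) L
      (fun j hj => by
        rw [add_assoc]
        exact hhi1 _ (by nlinarith)) hB
    have h2 : Bkt μ ℱ S R lo hi X T L (K + 1) =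
        Bkt μ ℱ S R lo hi X T L K \ (Bkt μ ℱ S R lo hi X T L K ∩ Vv μ ℱ S R lo hi (X + K * T) (X + K * T + L)) := by
      ext ω
      constructor
      · intro h
        exact ⟨fun i hi' => h i (by omega), fun h' => h K (by omega) h'.2⟩
      · rintro ⟨h3, h4⟩ i hi'
        rcases Nat.lt_or_ge i K with h5 | h5
        · exact h3 i h5
        · have : i = K := by omega
          subst this
          exact fun h6 => h4 ⟨h3, h6⟩
    have h3 : μ.real (Bkt μ ℱ S R lo hi X T L (K + 1)) = μ.real (Bkt μ ℱ S R lo hi X T L K) -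
        μ.real (Bkt μ ℱ S R lo hi X T L K ∩ Vv μ ℱ S R lo hi (X + K * T) (X + K * T + L)) := by
      rw [h2]
      apply measureReal_sdiff
      · exact Set.inter_subset_left
      · exact (ℱ.le _ _ hB).inter (ℱ.le _ _ (meas_Vv had _ _ _ _ _))
      · exact measure_ne_top _ _
    have h4 : μ.real (Bkt μ ℱ S R lo hi X T L K) * q ≤ μ.real (Bkt μ ℱ S R lo hi X T L K) *
        ∏ j ∈ range L, (if R (X + K * T + j + 1) then 1 - hi (X + K * T + j) else 1) :=
      mul_le_mul_of_nonneg_left (hq K (by omega)) measureReal_nonneg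
    have h5 : μ.real (Bkt μ ℱ S R lo hi X T L K) * (1 - q) ≤ (1 - q) ^ K * (1 - q) :=
      mul_le_mul_of_nonneg_right ih' (by linarith)
    rw [pow_succ]
    linarith

end blocks

/-- the sieve has logarithmic growth -/
structure LogG (z : ℕ → ℕ) (c : ℝ) : Prop where
  mono : Monotone z
  pos : 0 < c
  low : ∀ᶠ n : ℕ in atTop, c * Real.log n ≤ z n
  upp : ∀ᶠ n : ℕ in atTop, (z n : ℝ) ≤ Real.log n / 200

variable {z : ℕ → ℕ} {c : ℝ}

lemma LogG.tend (h : LogG z c) : Tendsto z atTop atTop := by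
  have h3 : Tendsto (fun n : ℕ => (z n : ℝ)) atTop atTop :=
    tendsto_atTop_mono' _ h.low (log_tend.const_mul_atTop h.pos)
  exact tendsto_natCast_atTop_iff.1 h3

lemma t3 : Tendsto (fun n : ℕ => 3 * n) atTop atTop := tendsto_id.const_mul_atTop' (show 0 < 3 by norm_num)

lemma t2 : Tendsto (fun n : ℕ => 2 * n) atTop atTop := tendsto_id.const_mul_atTop' (show 0 < 2 by norm_num)

/-- the conditional probabilities are small -/
theorem ratio_small2 (h : LogG z c) (κ : ℝ) (hκ : 0 < κ) :
    ∀ᶠ X : ℕ in atTop, ∀ j : ℕ, j ≤ X → W Set.univ (z (X + j + 1)) / Real.log ((X + j : ℕ) : ℝ) ≤ κ := by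
  have hlog : Tendsto (fun X : ℕ => Real.log (Real.log X) / Real.log X) atTop (𝓝 0) := by
    have h1 := (Real.isLittleO_log_id_atTop).tendsto_div_nhds_zero
    exact h1.comp log_tend
  obtain ⟨N1, hN1⟩ := eventually_atTop.1 W_univ_le
  filter_upwards [h.tend.eventually_ge_atTop (max N1 1), t3.eventually h.upp,
    hlog.eventually_lt_const (show (0 : ℝ) < κ / 2 by positivity), log_tend.eventually_ge_atTop 10,
    eventually_ge_atTop 2] with X a1 a2 a3 a4 a5 j hj
  obtain ⟨l, hl⟩ : ∃ l, l = Real.log X := ⟨_, rfl⟩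
  rw [← hl] at a3 a4
  have hl0 : 0 < l := by linarith
  rw [div_lt_iff₀ hl0] at a3
  have hX0 : (0 : ℝ) < X := by exact_mod_cast (by omega : 0 < X)
  have hzm : z X ≤ z (X + j + 1) := h.mono (by omega)
  have hzN : N1 ≤ z (X + j + 1) := le_trans (le_trans (le_max_left _ _) a1) hzm
  have hz1 : 1 ≤ z (X + j + 1) := le_trans (le_trans (le_max_right _ _) a1) hzm
  have hz3 : (z (X + j + 1) : ℝ) ≤ l := by
    have h1 : (z (X + j + 1) : ℝ) ≤ z (3 * X) := by exact_mod_cast h.mono (by omega)
    have h2 := log_mul_le (X := X) (c := 3) (by omega) (by norm_num) (by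
      rw [← hl]
      have h4 : Real.log ((3 : ℕ) : ℝ) ≤ 3 - 1 := by
        have := Real.log_le_sub_one_of_pos (show (0 : ℝ) < 3 by norm_num)
        exact_mod_cast this
      linarith)
    rw [← hl] at h2
    linarith
  have hW := hN1 _ hzN
  have hlz : Real.log (z (X + j + 1)) ≤ Real.log l := by
    apply Real.log_le_log _ hz3
    exact_mod_cast hz1
  have h9 : l ≤ Real.log ((X + j : ℕ) : ℝ) := by
    rw [hl]
    apply Real.log_le_log hX0
    push_cast
    have : (0 : ℝ) ≤ j := Nat.cast_nonneg j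
    linarith
  rw [div_le_iff₀ (by linarith)]
  calc W Set.univ (z (X + j + 1)) ≤ 1.95 * Real.log l := by linarith
    _ ≤ κ * l := by
        have : 0 ≤ Real.log l := Real.log_nonneg (by linarith)
        nlinarith
    _ ≤ κ * Real.log ((X + j : ℕ) : ℝ) := by gcongr

/-- the product of the primes that are sieved out -/
noncomputable def QQ (z : ℕ → ℕ) (X : ℕ) : ℕ := primorial (z (2 * X))

/-- the distance of the blocks -/
noncomputable def TT (z : ℕ → ℕ) (X : ℕ) : ℕ := QQ z X * (kk X + 1)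

open Classical in
/-- the probability that nothing is chosen in a block after a multiple of `QQ` -/
theorem block_prod (h : LogG z c) :
    ∀ᶠ X : ℕ in atTop, (∀ j, j ≤ X → hi Set.univ z 0.001 (X + j) ≤ 1) ∧
      ∀ x, X ≤ x → x + kk X ≤ 2 * X → QQ z X ∣ x →
        (X : ℝ) ^ (-0.989 : ℝ) ≤ ∏ j ∈ range (kk X),
          (if Rough Set.univ z (x + j + 1) then 1 - hi Set.univ z 0.001 (x + j) else 1) := by
  filter_upwards [ratio_small2 h (0.0001) (by norm_num), sum_small z c h.pos h.low h.upp,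
    log_tend.eventually_ge_atTop 10, eventually_ge_atTop 2] with X a1 a2 a3 a4
  obtain ⟨l, hl⟩ : ∃ l, l = Real.log X := ⟨_, rfl⟩
  obtain ⟨k, hk⟩ : ∃ k, k = kk X := ⟨_, rfl⟩
  rw [← hl] at a2 a3
  rw [← hk] at a2 ⊢
  have hl0 : 0 < l := by linarith
  have hX0 : (0 : ℝ) < X := by exact_mod_cast (by omega : 0 < X)
  have hhi : ∀ j, j ≤ X → hi Set.univ z 0.001 (X + j) ≤ 0.001 / 2 := by
    intro j hj
    unfold hi
    have h2 := a1 j hj
    have h3 : 0 ≤ W Set.univ (z (X + j + 1)) / Real.log ((X + j : ℕ) : ℝ) :=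
      div_nonneg (W_pos _ _).le (Real.log_natCast_nonneg _)
    nlinarith
  refine ⟨fun j hj => (hhi j hj).trans (by norm_num), ?_⟩
  intro x hx1 hx2 hxQ
  have hterm : ∀ j ∈ range k, Real.exp (-((1 + 0.001) * ((1 + 0.001) / l * W Set.univ (z (2 * X))) *
      (if j + 1 ∈ AA k (z X) then 1 else 0))) ≤
      (if Rough Set.univ z (x + j + 1) then 1 - hi Set.univ z 0.001 (x + j) else 1) := by
    intro j hj
    rw [mem_range] at hj
    have hW2 := W_pos Set.univ (z (2 * X))
    by_cases hR : Rough Set.univ z (x + j + 1)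
    · have hmem : j + 1 ∈ AA k (z X) := by
        unfold AA
        rw [mem_filter, mem_Icc]
        refine ⟨⟨by omega, by omega⟩, ?_⟩
        intro p hp hpz hd
        have h1 : p ≤ z (x + j + 1) := hpz.trans (h.mono (by omega))
        refine hR p (Set.mem_univ _) hp h1 ?_
        have h2 : p ∣ QQ z X := by
          unfold QQ
          exact hp.dvd_primorial_iff.2 (hpz.trans (h.mono (by omega)))
        rw [add_assoc]
        exact dvd_add (h2.trans hxQ) hd
      rw [if_pos hR, if_pos hmem, mul_one]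
      obtain ⟨i, hi'⟩ : ∃ i, x + j = X + i := ⟨x + j - X, by omega⟩
      rw [hi']
      have h2 := hhi i (by omega)
      have h3 := exp_le_one_sub (hi_nonneg Set.univ z 0.001 (by norm_num) (X + i)) h2 (by norm_num)
      refine le_trans ?_ h3
      apply Real.exp_le_exp.2
      have h4 : hi Set.univ z 0.001 (X + i) ≤ (1 + 0.001) / l * W Set.univ (z (2 * X)) := by
        unfold hi
        have hWm : W Set.univ (z (X + i + 1)) ≤ W Set.univ (z (2 * X)) := W_mono _ (h.mono (by omega))
        have hlog : l ≤ Real.log ((X + i : ℕ) : ℝ) := by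
          rw [hl]
          apply Real.log_le_log hX0
          push_cast
          have : (0 : ℝ) ≤ i := Nat.cast_nonneg i
          linarith
        rw [div_mul_eq_mul_div, mul_div_assoc]
        apply mul_le_mul_of_nonneg_left _ (by norm_num)
        exact div_le_div₀ hW2.le hWm hl0 hlog
      have h5 := mul_le_mul_of_nonneg_left h4 (show (0 : ℝ) ≤ 1 + 0.001 by norm_num)
      linarith
    · rw [if_neg hR]
      rw [← Real.exp_zero]
      apply Real.exp_le_exp.2
      rw [neg_nonpos]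
      by_cases hmem : j + 1 ∈ AA k (z X)
      · rw [if_pos hmem]
        positivity
      · rw [if_neg hmem, mul_zero]
  have hprod := Finset.prod_le_prod (fun j _ => (Real.exp_pos _).le) hterm
  refine le_trans ?_ hprod
  rw [← Real.exp_sum, sum_neg_distrib, ← mul_sum]
  rw [Real.rpow_def_of_pos hX0, ← hl]
  apply Real.exp_le_exp.2
  have hcount : ∑ j ∈ range k, (if j + 1 ∈ AA k (z X) then (1 : ℝ) else 0) ≤ ((AA k (z X)).card : ℝ) := by
    rw [← sum_filter, sum_const, nsmul_eq_mul, mul_one]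
    have : ((range k).filter (fun j => j + 1 ∈ AA k (z X))).card ≤ (AA k (z X)).card := by
      apply card_le_card_of_injOn (fun j => j + 1)
      · intro j hj
        exact (mem_filter.1 hj).2
      · intro a _ b _ hab
        simpa using hab
    exact_mod_cast this
  have hcard : ((AA k (z X)).card : ℝ) ≤ 1 + Nat.primeCounting k + (Nat.primeCounting (k / z X) : ℝ) ^ 2 := by
    exact_mod_cast count_le k (z X) a2.1
  have hW2 := W_pos Set.univ (z (2 * X))
  have hmain : W Set.univ (z (2 * X)) * ∑ j ∈ range k, (if j + 1 ∈ AA k (z X) then (1 : ℝ) else 0) ≤ 0.987 * l ^ 2 := by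
    refine le_trans ?_ a2.2
    apply mul_le_mul_of_nonneg_left (hcount.trans hcard) hW2.le
  have hfin : (1 + 0.001) * ((1 + 0.001) / l * W Set.univ (z (2 * X))) *
      ∑ j ∈ range k, (if j + 1 ∈ AA k (z X) then (1 : ℝ) else 0) ≤ 0.989 * l := by
    calc (1 + 0.001) * ((1 + 0.001) / l * W Set.univ (z (2 * X))) *
        ∑ j ∈ range k, (if j + 1 ∈ AA k (z X) then (1 : ℝ) else 0) =
        (1 + 0.001) ^ 2 / l * (W Set.univ (z (2 * X)) *
          ∑ j ∈ range k, (if j + 1 ∈ AA k (z X) then (1 : ℝ) else 0)) := by ring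
      _ ≤ (1 + 0.001) ^ 2 / l * (0.987 * l ^ 2) := by
          apply mul_le_mul_of_nonneg_left hmain
          positivity
      _ = (1 + 0.001) ^ 2 * 0.987 * l := by
          field_simp
      _ ≤ 0.989 * l := by nlinarith
  linarith [hfin]

end Pool.Agent.J6H89.SM
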