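import Mathlib
import Pool.Agent.J6H89.SM.Conv2

/-!
# A sieve of logarithmic growth: Shanks' law fails
-/

set_option autoImplicit false

namespace Pool.Agent.J6H89.SM

open Finset MeasureTheory Filter Topology

variable {z : ℕ → ℕ} {c : ℝ}

/-- the blocks are not far apart -/
theorem TT_le (h : LogG z c) : ∀ᶠ X : ℕ in atTop, (TT z X : ℝ) ≤ 4 * (X : ℝ) ^ (0.007 : ℝ) * Real.log X ^ 2 := by
  filter_upwards [t2.eventually h.upp, log_tend.eventually_ge_atTop 10, eventually_ge_atTop 2] with X a1 a2 a3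
  obtain ⟨l, hl⟩ : ∃ l, l = Real.log X := ⟨_, rfl⟩
  rw [← hl] at a2 ⊢
  have hX0 : (0 : ℝ) < X := by exact_mod_cast (by omega : 0 < X)
  have hQ : (QQ z X : ℝ) ≤ 2 * (X : ℝ) ^ (0.007 : ℝ) := by
    have h1 : (QQ z X : ℝ) ≤ (4 : ℝ) ^ (z (2 * X)) := by
      unfold QQ
      exact_mod_cast primorial_le_four_pow (z (2 * X))
    refine h1.trans ?_
    have h2 : (4 : ℝ) ^ (z (2 * X)) = Real.exp ((z (2 * X) : ℝ) * Real.log 4) := by
      rw [Real.exp_nat_mul, Real.exp_log (by norm_num)]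
    rw [h2]
    have hl2 := Real.log_two_lt_d9
    have hl2' := Real.log_two_gt_d9
    have hl4 : Real.log 4 = 2 * Real.log 2 := by
      rw [show (4 : ℝ) = 2 ^ 2 by norm_num, Real.log_pow]
      norm_num
    have h3 : Real.log ((2 * X : ℕ) : ℝ) = Real.log 2 + l := by
      push_cast
      rw [Real.log_mul (by norm_num) hX0.ne', hl]
    rw [h3] at a1
    have h4 : (z (2 * X) : ℝ) * Real.log 4 ≤ Real.log 2 + 0.007 * l := by
      rw [hl4]
      have h5 : (z (2 * X) : ℝ) * (2 * Real.log 2) ≤ (Real.log 2 + l) / 200 * (2 * Real.log 2) := by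
        apply mul_le_mul_of_nonneg_right a1
        linarith
      nlinarith
    refine (Real.exp_le_exp.2 h4).trans (le_of_eq ?_)
    rw [Real.exp_add, Real.exp_log (by norm_num), Real.rpow_def_of_pos hX0, ← hl]
    congr 2
    ring
  have hk1 : (kk X : ℝ) ≤ 1.01 * l ^ 2 := by
    unfold kk
    rw [← hl]
    exact Nat.floor_le (by positivity)
  have hk2 : (kk X : ℝ) + 1 ≤ 2 * l ^ 2 := by nlinarith
  unfold TT
  push_cast
  calc (QQ z X : ℝ) * ((kk X : ℝ) + 1) ≤ (2 * (X : ℝ) ^ (0.007 : ℝ)) * (2 * l ^ 2) := by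
        apply mul_le_mul hQ hk2 (by positivity) (by positivity)
    _ = _ := by ring

lemma TT_pos (X : ℕ) : 0 < TT z X := by
  unfold TT QQ
  exact Nat.mul_pos (primorial_pos _) (Nat.succ_pos _)

/-- there are enough blocks -/
theorem many_blocks2 (h : LogG z c) :
    ∀ᶠ X : ℕ in atTop, 8 * TT z X ≤ X ∧ 8 * kk X ≤ X ∧
      (1 - (X : ℝ) ^ (-0.989 : ℝ)) ^ (X / (4 * TT z X)) ≤ (X : ℝ) ^ (-2 : ℝ) := by
  have hl3 : Tendsto (fun X : ℕ => Real.log X ^ (3 : ℝ) / (X : ℝ) ^ (0.004 : ℝ)) atTop (𝓝 0) := by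
    have h := (isLittleO_log_rpow_rpow_atTop (3 : ℝ) (show (0 : ℝ) < 0.004 by norm_num)).tendsto_div_nhds_zero
    exact h.comp tendsto_natCast_atTop_atTop
  filter_upwards [TT_le h, log_tend.eventually_ge_atTop 10, eventually_ge_atTop 2,
    hl3.eventually_lt_const (show (0 : ℝ) < 1 / 64 by norm_num)] with X a1 a2 a3 a4
  obtain ⟨l, hl⟩ : ∃ l, l = Real.log X := ⟨_, rfl⟩
  rw [← hl] at a1 a2 a4
  have hX0 : (0 : ℝ) < X := by exact_mod_cast (by omega : 0 < X)
  have hX1 : (1 : ℝ) ≤ X := by exact_mod_cast (by omega : 1 ≤ X)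
  have hl0 : 0 < l := by linarith
  rw [div_lt_iff₀ (by positivity)] at a4
  have h3 : l ^ (3 : ℝ) = l ^ 3 := by
    rw [← Real.rpow_natCast]
    norm_num
  rw [h3] at a4
  have hp1 : (X : ℝ) ^ (0.004 : ℝ) * (X : ℝ) ^ (0.007 : ℝ) = (X : ℝ) ^ (0.011 : ℝ) := by
    rw [← Real.rpow_add hX0]
    norm_num
  have hp2 : (X : ℝ) ^ (0.011 : ℝ) ≤ X := by
    calc (X : ℝ) ^ (0.011 : ℝ) ≤ (X : ℝ) ^ (1 : ℝ) := Real.rpow_le_rpow_of_exponent_le hX1 (by norm_num)
      _ = X := Real.rpow_one _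
  have hp3 : (1 : ℝ) ≤ (X : ℝ) ^ (0.007 : ℝ) := Real.one_le_rpow hX1 (by norm_num)
  have hl23 : l ^ 2 * 10 ≤ l ^ 3 := by nlinarith [sq_nonneg l]
  have hT8 : 8 * (TT z X : ℝ) ≤ X := by
    calc 8 * (TT z X : ℝ) ≤ 8 * (4 * (X : ℝ) ^ (0.007 : ℝ) * l ^ 2) := by linarith
      _ = (32 * l ^ 2) * (X : ℝ) ^ (0.007 : ℝ) := by ring
      _ ≤ (X : ℝ) ^ (0.004 : ℝ) * (X : ℝ) ^ (0.007 : ℝ) := by
          apply mul_le_mul_of_nonneg_right _ (by positivity)
          have := sq_nonneg l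
          linarith
      _ ≤ X := by rw [hp1]; exact hp2
  have hT8' : 8 * TT z X ≤ X := by exact_mod_cast hT8
  have hkT : kk X ≤ TT z X := by
    unfold TT QQ
    have := primorial_pos (z (2 * X))
    nlinarith
  refine ⟨hT8', by omega, ?_⟩
  obtain ⟨K, hK⟩ : ∃ K, K = X / (4 * TT z X) := ⟨_, rfl⟩
  rw [← hK]
  have hT0 := TT_pos (z := z) X
  have hTR : (0 : ℝ) < TT z X := by exact_mod_cast hT0
  have hKX : (X : ℝ) / (8 * TT z X) ≤ K := by
    have h2 : X < (K + 1) * (4 * TT z X) := by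
      rw [hK]
      have := Nat.lt_div_mul_add (a := X) (b := 4 * TT z X) (by omega)
      nlinarith
    have h4 : (X : ℝ) < ((K : ℝ) + 1) * (4 * TT z X) := by exact_mod_cast h2
    rw [div_le_iff₀ (by positivity)]
    nlinarith
  obtain ⟨q, hq⟩ : ∃ q, q = (X : ℝ) ^ (-0.989 : ℝ) := ⟨_, rfl⟩
  rw [← hq]
  have hq0 : 0 < q := by
    rw [hq]
    positivity
  have hq1 : q ≤ 1 := by
    rw [hq]
    apply Real.rpow_le_one_of_one_le_of_nonpos hX1
    norm_num
  have hqX : q * X = (X : ℝ) ^ (0.011 : ℝ) := by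
    rw [hq]
    nth_rw 2 [← Real.rpow_one (X : ℝ)]
    rw [← Real.rpow_add hX0]
    congr 1
    norm_num
  have hqK : 2 * l ≤ q * K := by
    calc 2 * l ≤ (X : ℝ) ^ (0.004 : ℝ) / (32 * l ^ 2) := by
          rw [le_div_iff₀ (by positivity)]
          nlinarith
      _ = (X : ℝ) ^ (0.011 : ℝ) / (8 * (4 * (X : ℝ) ^ (0.007 : ℝ) * l ^ 2)) := by
          rw [← hp1]
          have : (X : ℝ) ^ (0.007 : ℝ) ≠ 0 := by positivity
          field_simp
          norm_num
      _ ≤ (X : ℝ) ^ (0.011 : ℝ) / (8 * TT z X) := by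
          apply div_le_div_of_nonneg_left (by positivity) (by positivity)
          linarith
      _ = q * (X / (8 * TT z X)) := by rw [← hqX]; ring
      _ ≤ q * K := by gcongr
  calc (1 - q) ^ K ≤ (Real.exp (-q)) ^ K := by
        apply pow_le_pow_left₀ (by linarith)
        have := Real.add_one_le_exp (-q)
        linarith
    _ = Real.exp (-(q * K)) := by
        rw [← Real.exp_nat_mul]
        congr 1
        ring
    _ ≤ Real.exp (-(2 * l)) := by
        apply Real.exp_le_exp.2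
        linarith
    _ = (X : ℝ) ^ (-2 : ℝ) := by
        rw [Real.rpow_def_of_pos hX0, ← hl]
        congr 1
        ring

open Classical in
/-- the probability that nothing is chosen in `(X, 2 X]` -/
theorem weak_prod (h : LogG z c) :
    ∀ᶠ X : ℕ in atTop, (∀ j, j < X → lo Set.univ z 0.001 (X + j) ≤ 1) ∧
      ∏ j ∈ range X, (if Rough Set.univ z (X + j + 1) then 1 - lo Set.univ z 0.001 (X + j) else 1) ≤
        (X : ℝ) ^ (-2 : ℝ) := by
  obtain ⟨K, hK, H⟩ := mass
  obtain ⟨D, hD⟩ : ∃ D, D = K * K + 2 := ⟨_, rfl⟩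
  have hlD : Tendsto (fun X : ℕ => Real.log X ^ D / X) atTop (𝓝 0) := by
    have h := (Real.isLittleO_pow_log_id_atTop (n := D)).tendsto_div_nhds_zero
    exact h.comp tendsto_natCast_atTop_atTop
  have hl2 : Tendsto (fun X : ℕ => Real.log X ^ 2 / X) atTop (𝓝 0) := by
    have h := (Real.isLittleO_pow_log_id_atTop (n := 2)).tendsto_div_nhds_zero
    exact h.comp tendsto_natCast_atTop_atTop
  filter_upwards [ratio_small2 h 1 one_pos, t2.eventually h.upp, log_tend.eventually_ge_atTop 10,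
    eventually_ge_atTop 2, hlD.eventually_lt_const (show (0 : ℝ) < 1 / (4 * 2 ^ D) by positivity),
    hl2.eventually_lt_const (show (0 : ℝ) < 1 / 20 by norm_num)] with X a1 a2 a3 a4 a5 a6
  obtain ⟨l, hl⟩ : ∃ l, l = Real.log X := ⟨_, rfl⟩
  rw [← hl] at a3 a5 a6
  have hl0 : 0 < l := by linarith
  have hX0 : (0 : ℝ) < X := by exact_mod_cast (by omega : 0 < X)
  rw [div_lt_iff₀ hX0] at a5 a6
  have hlog2X : Real.log ((2 * X : ℕ) : ℝ) ≤ l + 1 := by
    push_cast
    rw [Real.log_mul (by norm_num) hX0.ne', ← hl]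
    have := Real.log_two_lt_d9
    linarith
  have hlo1 : ∀ j, j < X → lo Set.univ z 0.001 (X + j) ≤ 1 := by
    intro j hj
    unfold lo
    have h2 := a1 j (by omega)
    have h3 : 0 ≤ W Set.univ (z (X + j + 1)) / Real.log ((X + j : ℕ) : ℝ) :=
      div_nonneg (W_pos _ _).le (Real.log_natCast_nonneg _)
    nlinarith
  refine ⟨hlo1, ?_⟩
  have hlog : ∀ j, j < X → Real.log ((X + j : ℕ) : ℝ) ≤ l + 1 := by
    intro j hj
    refine le_trans ?_ hlog2X
    apply Real.log_le_log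
    · push_cast
      positivity
    · exact_mod_cast (by omega : X + j ≤ 2 * X)
  have hterm : ∀ j ∈ range X, (if Rough Set.univ z (X + j + 1) then 1 - lo Set.univ z 0.001 (X + j) else 1) ≤
      Real.exp (-((1 - 0.001) / (l + 1) *
        (if Rough Set.univ z (X + j + 1) then W Set.univ (z (X + j + 1)) else 0))) := by
    intro j hj
    rw [mem_range] at hj
    by_cases hR : Rough Set.univ z (X + j + 1)
    · rw [if_pos hR, if_pos hR]
      have h2 : (1 - 0.001) / (l + 1) * W Set.univ (z (X + j + 1)) ≤ lo Set.univ z 0.001 (X + j) := by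
        unfold lo
        have hW := W_pos Set.univ (z (X + j + 1))
        have hlp : 0 < Real.log ((X + j : ℕ) : ℝ) := by
          apply Real.log_pos
          exact_mod_cast (by omega : 1 < X + j)
        rw [div_mul_eq_mul_div, mul_div_assoc]
        apply mul_le_mul_of_nonneg_left _ (by norm_num)
        apply div_le_div_of_nonneg_left hW.le hlp (hlog j hj)
      have h3 := Real.add_one_le_exp (-((1 - 0.001) / (l + 1) * W Set.univ (z (X + j + 1))))
      linarith
    · rw [if_neg hR, if_neg hR]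
      simp
  have hprod : ∏ j ∈ range X, (if Rough Set.univ z (X + j + 1) then 1 - lo Set.univ z 0.001 (X + j) else 1) ≤
      ∏ j ∈ range X, Real.exp (-((1 - 0.001) / (l + 1) *
        (if Rough Set.univ z (X + j + 1) then W Set.univ (z (X + j + 1)) else 0))) := by
    apply Finset.prod_le_prod
    · intro j hj
      rw [mem_range] at hj
      by_cases hR : Rough Set.univ z (X + j + 1)
      · rw [if_pos hR]
        linarith [hlo1 j hj]
      · rw [if_neg hR]
        exact zero_le_one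
    · exact hterm
  refine hprod.trans ?_
  rw [← Real.exp_sum, sum_neg_distrib, ← mul_sum, ← sum_shift]
  rw [Real.rpow_def_of_pos hX0, ← hl]
  apply Real.exp_le_exp.2
  have hm := (abs_le.1 (H Set.univ z h.mono K (z (2 * X)) X (X + X) le_rfl (by omega) (h.mono (by omega)))).1
  rw [← hD] at hm
  push_cast at hm
  have hZ : (z (2 * X) : ℝ) + 2 ≤ 2 * l := by linarith
  have hZD : ((z (2 * X) : ℝ) + 2) ^ D ≤ X / 4 := by
    calc ((z (2 * X) : ℝ) + 2) ^ D ≤ (2 * l) ^ D := pow_le_pow_left₀ (by positivity) hZ D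
      _ = 2 ^ D * l ^ D := mul_pow _ _ _
      _ ≤ 2 ^ D * (1 / (4 * 2 ^ D) * X) := by
          apply mul_le_mul_of_nonneg_left a5.le (by positivity)
      _ = X / 4 := by
          field_simp
  have hhalf : (1 / 2 : ℝ) ^ K ≤ 1 / 2 := by
    calc (1 / 2 : ℝ) ^ K ≤ (1 / 2 : ℝ) ^ 1 := pow_le_pow_of_le_one (by norm_num) (by norm_num) hK
      _ = 1 / 2 := pow_one _
  have hS : (X : ℝ) / 4 ≤ ∑ m ∈ Ioc X (X + X), wt Set.univ z m := by
    have e1 : ((X : ℝ) + X - X) = X := by ring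
    rw [e1] at hm
    have : (1 / 2 : ℝ) ^ K * X ≤ 1 / 2 * X := mul_le_mul_of_nonneg_right hhalf hX0.le
    linarith
  have hfin : 2 * l ≤ (1 - 0.001) / (l + 1) * ∑ m ∈ Ioc X (X + X), wt Set.univ z m := by
    calc 2 * l ≤ (1 - 0.001) / (l + 1) * (X / 4) := by
          rw [div_mul_eq_mul_div, le_div_iff₀ (by linarith)]
          nlinarith
      _ ≤ _ := by
          apply mul_le_mul_of_nonneg_left hS
          have : 0 < l + 1 := by linarith
          positivity
  linarith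

section models

variable {Ω : Type} [mΩ : MeasurableSpace Ω] {μ : Measure Ω} [IsProbabilityMeasure μ] {ℱ : Filtration ℕ mΩ}
  {S : ℕ → Set Ω}

theorem weak_upper (hM : Mod μ ℱ S Set.univ z) (h : LogG z c) :
    ∀ᵐ ω ∂μ, ∀ᶠ X : ℕ in atTop, ∃ m, X < m ∧ m ≤ X + X ∧ ω ∈ S m := by
  classical
  have hsum : Summable (fun X : ℕ => (X : ℝ) ^ (-2 : ℝ)) := Real.summable_nat_rpow.2 (by norm_num)
  have hev : ∀ᶠ X : ℕ in atTop, μ.real (Nn S X (X + X) ∩
      Gd μ ℱ S (Rough Set.univ z) (lo Set.univ z 0.001) (hi Set.univ z 0.001) X (X + X)) ≤ (X : ℝ) ^ (-2 : ℝ) := by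
    filter_upwards [weak_prod h] with X hX
    exact (run_le hM.adapted (Rough Set.univ z) (lo Set.univ z 0.001) (hi Set.univ z 0.001) X X hX.1).trans hX.2
  filter_upwards [bc _ _ hsum hev, ev_ok hM 0.001 (by norm_num)] with ω hω1 hω2
  filter_upwards [hω1, hω2] with X h3 h4
  by_contra hcon
  push Not at hcon
  apply h3
  refine ⟨fun m hm1 hm2 => hcon m hm1 hm2, fun j hj _ => h4 j hj⟩

theorem long_runs (hM : Mod μ ℱ S Set.univ z) (h : LogG z c) :
    ∀ᵐ ω ∂μ, ∀ᶠ X : ℕ in atTop, ∃ x, X ≤ x ∧ x ≤ 2 * X ∧ ∀ m, x < m → m ≤ x + kk X → ω ∉ S m := by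
  classical
  have hsum : Summable (fun X : ℕ => (X : ℝ) ^ (-2 : ℝ)) := Real.summable_nat_rpow.2 (by norm_num)
  have hstart : ∀ X : ℕ, X ≤ TT z X * (X / TT z X + 1) ∧ TT z X * (X / TT z X + 1) ≤ X + TT z X := by
    intro X
    have hT := TT_pos (z := z) X
    have h1 := Nat.div_add_mod X (TT z X)
    have h2 := Nat.mod_lt X hT
    have h3 : TT z X * (X / TT z X + 1) = TT z X * (X / TT z X) + TT z X := by ring
    rw [h3]
    constructor <;> omega
  have hev : ∀ᶠ X : ℕ in atTop, μ.real (Bkt μ ℱ S (Rough Set.univ z) (lo Set.univ z 0.001) (hi Set.univ z 0.001)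
      (TT z X * (X / TT z X + 1)) (TT z X) (kk X) (X / (4 * TT z X))) ≤ (X : ℝ) ^ (-2 : ℝ) := by
    filter_upwards [block_prod h, many_blocks2 h, eventually_ge_atTop 1] with X b1 b2 b3
    obtain ⟨hs1, hs2⟩ := hstart X
    have hKT : X / (4 * TT z X) * (4 * TT z X) ≤ X := Nat.div_mul_le_self X _
    have hkT : kk X ≤ TT z X := by
      unfold TT QQ
      have := primorial_pos (z (2 * X))
      nlinarith
    refine (blocksT hM.adapted (Rough Set.univ z) hM.sieved (lo Set.univ z 0.001) (hi Set.univ z 0.001)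
      (hi_nonneg Set.univ z 0.001 (by norm_num)) _ (TT z X) (kk X) (X / (4 * TT z X))
      ((X : ℝ) ^ (-0.989 : ℝ)) hkT ?_ ?_ ?_).trans b2.2.2
    · intro j hj
      obtain ⟨i, hi'⟩ : ∃ i, TT z X * (X / TT z X + 1) + j = X + i :=
        ⟨TT z X * (X / TT z X + 1) + j - X, by omega⟩
      rw [hi']
      apply b1.1
      have : X / (4 * TT z X) * TT z X * 4 ≤ X := by nlinarith
      omega
    · apply Real.rpow_le_one_of_one_le_of_nonpos
      · exact_mod_cast b3
      · norm_num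
    · intro i hi'
      have h5 : (i + 1) * TT z X ≤ X / (4 * TT z X) * TT z X := Nat.mul_le_mul_right _ hi'
      have h6 : X / (4 * TT z X) * TT z X * 4 ≤ X := by nlinarith
      have h7 : i * TT z X + TT z X = (i + 1) * TT z X := by ring
      apply b1.2
      · omega
      · omega
      · have h8 : QQ z X ∣ TT z X := by
          unfold TT
          exact Dvd.intro _ rfl
        exact dvd_add (h8.trans (Dvd.intro _ rfl)) (h8.trans (Dvd.intro_left _ rfl))
  filter_upwards [bc _ _ hsum hev, ev_ok hM 0.001 (by norm_num)] with ω hω1 hω2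
  filter_upwards [hω1, hω2, many_blocks2 h] with X h3 h4 b2
  unfold Bkt at h3
  simp only [Set.mem_ofPred_eq, not_forall, not_not] at h3
  obtain ⟨i, hi1, hi2⟩ := h3
  obtain ⟨hs1, hs2⟩ := hstart X
  have h5 : (i + 1) * TT z X ≤ X / (4 * TT z X) * TT z X := Nat.mul_le_mul_right _ hi1
  have hKT : X / (4 * TT z X) * (4 * TT z X) ≤ X := Nat.div_mul_le_self X _
  have h6 : X / (4 * TT z X) * TT z X * 4 ≤ X := by nlinarith
  have h7 : i * TT z X + TT z X = (i + 1) * TT z X := by ring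
  refine ⟨TT z X * (X / TT z X + 1) + i * TT z X, by omega, by omega, ?_⟩
  intro m hm1 hm2
  exact hi2 m hm1 hm2 (fun j hj _ => h4 j (by omega))

end models

/-- the place of the first run of length `g` -/
theorem place (S : Set ℕ) (lam : ℝ) (hlam : 0 < lam)
    (h : ∀ᶠ X : ℕ in atTop, ∀ g : ℕ, g ≤ ⌊lam * Real.log X ^ 2⌋₊ → (After S g).Nonempty ∧ first S g ≤ 6 * X) :
    ∀ᶠ g : ℕ in atTop, (After S g).Nonempty ∧
      Real.log (first S g) ≤ Real.log 12 + Real.sqrt (((g : ℝ) + 1) / lam) := by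
  obtain ⟨N, hN⟩ := eventually_atTop.1 h
  have ht : Tendsto (fun g : ℕ => ⌈Real.exp (Real.sqrt (((g : ℝ) + 1) / lam))⌉₊) atTop atTop := by
    apply tendsto_nat_ceil_atTop.comp
    apply Real.tendsto_exp_atTop.comp
    apply Real.tendsto_sqrt_atTop.comp
    apply Tendsto.atTop_div_const hlam
    exact tendsto_atTop_add_const_right _ _ tendsto_natCast_atTop_atTop
  filter_upwards [ht.eventually_ge_atTop (max N 1)] with g hg
  obtain ⟨E, hE⟩ : ∃ E, E = Real.exp (Real.sqrt (((g : ℝ) + 1) / lam)) := ⟨_, rfl⟩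
  rw [← hE] at hg
  obtain ⟨X, hX⟩ : ∃ X, X = ⌈E⌉₊ := ⟨_, rfl⟩
  rw [← hX] at hg
  have hX1 : 1 ≤ X := le_trans (le_max_right _ _) hg
  have hXR : (0 : ℝ) < X := by exact_mod_cast hX1
  have hE0 : 0 < E := by rw [hE]; exact Real.exp_pos _
  have hE1 : 1 ≤ E := by
    rw [hE]
    exact Real.one_le_exp (Real.sqrt_nonneg _)
  have hEX : E ≤ X := by
    rw [hX]
    exact Nat.le_ceil _
  have hXE : (X : ℝ) ≤ 2 * E := by
    have := Nat.ceil_lt_add_one hE0.le
    rw [hX]
    linarith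
  have hlog : Real.sqrt (((g : ℝ) + 1) / lam) ≤ Real.log X := by
    have h2 := Real.log_le_log hE0 hEX
    rwa [hE, Real.log_exp] at h2
  have hgL : g ≤ ⌊lam * Real.log X ^ 2⌋₊ := by
    apply Nat.le_floor
    have h2 : ((g : ℝ) + 1) / lam ≤ Real.log X ^ 2 := by
      have h3 : 0 ≤ ((g : ℝ) + 1) / lam := by positivity
      calc ((g : ℝ) + 1) / lam = Real.sqrt (((g : ℝ) + 1) / lam) ^ 2 := (Real.sq_sqrt h3).symm
        _ ≤ Real.log X ^ 2 := by
            apply pow_le_pow_left₀ (Real.sqrt_nonneg _) hlog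
    rw [div_le_iff₀ hlam] at h2
    linarith
  obtain ⟨h4, h5⟩ := hN X (le_trans (le_max_left _ _) hg) g hgL
  refine ⟨h4, ?_⟩
  have h6 : first S g ∈ After S g := Nat.sInf_mem h4
  have h7 : 0 < first S g := by
    obtain ⟨_, a, _, h8, _⟩ := h6
    omega
  have h8 : (0 : ℝ) < first S g := by exact_mod_cast h7
  have h9 : (first S g : ℝ) ≤ 12 * E := by
    have : (first S g : ℝ) ≤ 6 * X := by exact_mod_cast h5
    linarith
  have h10 := Real.log_le_log h8 h9
  rwa [Real.log_mul (by norm_num) hE0.ne', hE, Real.log_exp] at h10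

section models

variable {Ω : Type} [mΩ : MeasurableSpace Ω] {μ : Measure Ω} [IsProbabilityMeasure μ] {ℱ : Filtration ℕ mΩ}
  {S : ℕ → Set Ω}

theorem fails (hM : Mod μ ℱ S Set.univ z) (h : LogG z c) :
    ∀ᵐ ω ∂μ, ∀ᶠ g : ℕ in atTop, (After {k | ω ∈ S k} g).Nonempty ∧
      Real.log (first {k | ω ∈ S k} g) ≤ 249 / 250 * Real.sqrt g := by
  have hkX : ∀ᶠ X : ℕ in atTop, kk X ≤ X := by
    filter_upwards [many_blocks2 h] with X hX
    omega
  filter_upwards [weak_upper hM h, long_runs hM h] with ω h1 h2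
  have h3 := first_le {k | ω ∈ S k} (fun X => X) kk h1 (Eventually.of_forall fun X => le_rfl) h2 hkX
  have h4 := place {k | ω ∈ S k} 1.01 (by norm_num) h3
  have hsq : Tendsto (fun g : ℕ => Real.sqrt g) atTop atTop :=
    Real.tendsto_sqrt_atTop.comp tendsto_natCast_atTop_atTop
  filter_upwards [h4, hsq.eventually_ge_atTop 10000, eventually_ge_atTop 1] with g h5 h6 h7
  refine ⟨h5.1, h5.2.trans ?_⟩
  obtain ⟨s, hs⟩ : ∃ s, s = Real.sqrt g := ⟨_, rfl⟩
  rw [← hs] at h6 ⊢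
  have hs2 : s ^ 2 = g := by
    rw [hs]
    exact Real.sq_sqrt (Nat.cast_nonneg g)
  have h8 : Real.sqrt (((g : ℝ) + 1) / 1.01) ≤ 0.9955 * s := by
    apply Real.sqrt_le_iff.2
    refine ⟨by positivity, ?_⟩
    rw [div_le_iff₀ (by norm_num), ← hs2]
    nlinarith
  have h9 : Real.log 12 ≤ 3 := by
    have h10 : Real.log 12 = 2 * Real.log 2 + Real.log 3 := by
      rw [show (12 : ℝ) = 2 ^ 2 * 3 by norm_num, Real.log_mul (by norm_num) (by norm_num), Real.log_pow]
      norm_num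
    have h11 := Real.log_two_lt_d9
    have h12 : Real.log 3 ≤ Real.log 4 := Real.log_le_log (by norm_num) (by norm_num)
    have h13 : Real.log 4 = 2 * Real.log 2 := by
      rw [show (4 : ℝ) = 2 ^ 2 by norm_num, Real.log_pow]
      norm_num
    linarith
  linarith

end models

end Pool.Agent.J6H89.SM
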