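import Mathlib
import Pool.Agent.J6H89.SM.Conv3

/-!
# The mass of a growing sieve at the multiples of a number, averaged
-/

set_option autoImplicit false

namespace Pool.Agent.J6H89.SM

open Finset Filter Topology

/-- the product over the primes in `(y, v]` -/
noncomputable def VW (y v : ℕ) : ℝ := ∏ p ∈ (Ioc y v).filter Nat.Prime, (1 - (p : ℝ)⁻¹)⁻¹

lemma VW_pos (y v : ℕ) : 0 < VW y v := by
  unfold VW
  apply prod_pos
  intro p hp
  have := one_le_factor (mem_filter.1 hp).2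
  linarith

lemma W_univ_eq (x : ℕ) : W Set.univ x = ∏ p ∈ (Icc 1 x).filter Nat.Prime, (1 - (p : ℝ)⁻¹)⁻¹ := by
  unfold W
  apply prod_congr _ (fun _ _ => rfl)
  ext p
  simp

lemma W_mul_VW {y v : ℕ} (h : y ≤ v) : W Set.univ v = W Set.univ y * VW y v := by
  rw [W_univ_eq, W_univ_eq]
  unfold VW
  rw [← prod_union]
  · apply prod_congr _ (fun _ _ => rfl)
    ext p
    simp only [mem_filter, mem_Icc, mem_union, mem_Ioc]
    constructor
    · rintro ⟨⟨h1, h2⟩, h3⟩
      rcases Nat.lt_or_ge y p with h4 | h4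
      · right; exact ⟨⟨h4, h2⟩, h3⟩
      · left; exact ⟨⟨h1, h4⟩, h3⟩
    · rintro (⟨⟨h1, h2⟩, h3⟩ | ⟨⟨h1, h2⟩, h3⟩)
      · exact ⟨⟨h1, by omega⟩, h3⟩
      · exact ⟨⟨by omega, h2⟩, h3⟩
  · rw [disjoint_left]
    intro p h1 h2
    rw [mem_filter, mem_Icc] at h1
    rw [mem_filter, mem_Ioc] at h2
    omega

open Classical in
/-- the indices `i` in `(I, J]` for which no prime in `(y, v]` divides `a + i T` -/
noncomputable def RI (y v a T I J : ℕ) : Finset ℕ :=
  (Ioc I J).filter (fun i => ∀ p, p.Prime → y < p → p ≤ v → ¬ p ∣ a + i * T)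

/-- the fundamental lemma in a progression -/
theorem flcI : ∃ K : ℕ, 1 ≤ K ∧ ∀ (b y v Z a T I J : ℕ), K ≤ b → v ≤ Z → I ≤ J →
    (∀ p, p.Prime → y < p → ¬ p ∣ T) →
    |((RI y v a T I J).card : ℝ) - ((J : ℝ) - I) * (VW y v)⁻¹| ≤
      (1 / 2 : ℝ) ^ b * (((J : ℝ) - I) * (VW y v)⁻¹) + ((Z + 2 : ℕ) : ℝ) ^ (K * b) := by
  classical
  obtain ⟨K, hK, H⟩ := Pool.Agent.N136.QL.t_FLC
  refine ⟨K, hK, ?_⟩
  intro b y v Z a T I J hb hv hIJ hT
  -- the residue
  have hres : ∀ p : ℕ, ∃ r : ℕ, p.Prime → y < p → r < p ∧ ∀ i : ℕ, p ∣ a + i * T ↔ i % p = r := by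
    intro p
    by_cases hp : p.Prime ∧ y < p
    · have hcop : Nat.Coprime T p := ((Nat.Prime.coprime_iff_not_dvd hp.1).2 (hT p hp.1 hp.2)).symm
      haveI : Fact p.Prime := ⟨hp.1⟩
      have hT0 : (T : ZMod p) ≠ 0 := by
        intro h0
        exact hT p hp.1 hp.2 ((ZMod.natCast_eq_zero_iff _ _).1 h0)
      refine ⟨(-(a : ZMod p) / T).val, fun _ _ => ⟨ZMod.val_lt _, fun i => ?_⟩⟩
      rw [← ZMod.natCast_eq_zero_iff]
      push_cast
      constructor
      · intro h0
        have h1 : (i : ZMod p) = -(a : ZMod p) / T := by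
          rw [eq_div_iff hT0]
          linear_combination h0
        rw [← h1, ZMod.val_natCast]
      · intro h0
        have h1 : ((i % p : ℕ) : ZMod p) = -(a : ZMod p) / T := by
          rw [h0, ZMod.natCast_zmod_val]
        rw [ZMod.natCast_mod] at h1
        rw [h1]
        field_simp
        ring
    · exact ⟨0, fun h1 h2 => absurd ⟨h1, h2⟩ hp⟩
  choose r hr using hres
  have h := H b (Z + 2) (fun p => if p.Prime ∧ y < p ∧ p ≤ v then {r p} else ∅) (I : ℤ) (J : ℤ) hb (by omega)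
    (by
      intro p hp _
      by_cases hc : p.Prime ∧ y < p ∧ p ≤ v
      · simp only [hc, and_self, if_true]
        refine ⟨?_, by simp⟩
        rw [singleton_subset_iff, mem_range]
        exact (hr p hc.1 hc.2.1).1
      · simp only [hc, if_false]
        simp) (by exact_mod_cast hIJ)
  have e1 : ∏ p ∈ (Ioc 0 (Z + 2)).filter Nat.Prime,
      (1 - (((if p.Prime ∧ y < p ∧ p ≤ v then {r p} else ∅ : Finset ℕ).card : ℕ) : ℝ) / p) = (VW y v)⁻¹ := by
    unfold VW
    rw [← prod_inv_distrib]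
    have e2 : ∀ p ∈ (Ioc 0 (Z + 2)).filter Nat.Prime,
        (1 - (((if p.Prime ∧ y < p ∧ p ≤ v then {r p} else ∅ : Finset ℕ).card : ℕ) : ℝ) / p) =
        if p.Prime ∧ y < p ∧ p ≤ v then (1 - (p : ℝ)⁻¹) else 1 := by
      intro p _
      by_cases hc : p.Prime ∧ y < p ∧ p ≤ v
      · simp only [hc, and_self, if_true]
        simp
      · simp only [hc, if_false]
        simp
    rw [prod_congr rfl e2, ← prod_filter]
    apply prod_congr
    · ext p
      simp only [mem_filter, mem_Ioc]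
      constructor
      · rintro ⟨⟨⟨h1, h2⟩, h3⟩, h4, h5, h6⟩
        exact ⟨⟨h5, h6⟩, h3⟩
      · rintro ⟨⟨h1, h5⟩, h3⟩
        exact ⟨⟨⟨by omega, by omega⟩, h3⟩, h3, h1, h5⟩
    · intro p _
      rw [inv_inv]
  rw [e1] at h
  have e3 : ((Ioc (I : ℤ) (J : ℤ)).filter (fun t : ℤ => ∀ p : ℕ, p.Prime → p ≤ Z + 2 →
      (t % p).toNat ∉ (if p.Prime ∧ y < p ∧ p ≤ v then {r p} else ∅ : Finset ℕ))).card = (RI y v a T I J).card := by
    symm
    unfold RI
    refine card_bij (fun m _ => (m : ℤ)) ?_ (fun a _ b _ h => by exact_mod_cast h) ?_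
    · intro m hm
      rw [mem_filter, mem_Ioc] at hm ⊢
      refine ⟨⟨by exact_mod_cast hm.1.1, by exact_mod_cast hm.1.2⟩, ?_⟩
      intro p hp _ hc
      by_cases hcc : p.Prime ∧ y < p ∧ p ≤ v
      · rw [if_pos hcc, mem_singleton] at hc
        refine hm.2 p hp hcc.2.1 hcc.2.2 ?_
        have h1 : ((m : ℤ) % p).toNat = m % p := by
          rw [← Int.natCast_mod, Int.toNat_natCast]
        rw [h1] at hc
        exact ((hr p hp hcc.2.1).2 m).2 hc
      · rw [if_neg hcc] at hc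
        exact absurd hc (notMem_empty _)
    · intro t ht
      rw [mem_filter, mem_Ioc] at ht
      have ht0 : 0 ≤ t := by omega
      obtain ⟨m, rfl⟩ : ∃ m : ℕ, t = m := ⟨t.toNat, by omega⟩
      refine ⟨m, ?_, rfl⟩
      rw [mem_filter, mem_Ioc]
      refine ⟨⟨by exact_mod_cast ht.1.1, by exact_mod_cast ht.1.2⟩, ?_⟩
      intro p hp hyp hpv hd
      refine ht.2 p hp (by omega) ?_
      rw [if_pos ⟨hp, hyp, hpv⟩, mem_singleton]
      have h1 : ((m : ℤ) % p).toNat = m % p := by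
        rw [← Int.natCast_mod, Int.toNat_natCast]
      rw [h1]
      exact ((hr p hp hyp).2 m).1 hd
  rw [← e3]
  have h2 := h
  push_cast at h2 ⊢
  convert h2 using 2

open Classical in
/-- the weight of `m` for the primes above `y` only -/
noncomputable def wy (z : ℕ → ℕ) (y m : ℕ) : ℝ :=
  if (∀ p, p.Prime → y < p → p ≤ z m → ¬ p ∣ m) then VW y (z m) else 0

lemma VW_le {y v : ℕ} (h : y ≤ v) : VW y v ≤ v + 1 := by
  have h1 := W_mul_VW h
  have h2 := W_le' Set.univ v
  have h3 := one_le_W Set.univ y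
  have h4 := VW_pos y v
  nlinarith

/-- the average of the weights in a progression -/
theorem massI : ∃ K : ℕ, 1 ≤ K ∧ ∀ (z : ℕ → ℕ), Monotone z → ∀ b y Z a T n : ℕ, K ≤ b →
    (∀ p, p.Prime → y < p → ¬ p ∣ T) → y ≤ z a → z (a + n * T) ≤ Z →
    ∑ i ∈ Ioc 0 n, wy z y (a + i * T) ≤ (1 + (1 / 2 : ℝ) ^ b) * n + ((Z + 2 : ℕ) : ℝ) ^ (K * b + 2) := by
  classical
  obtain ⟨K, hK, H⟩ := flcI
  refine ⟨K, hK, ?_⟩
  intro z hz b y Z a T n hb hT hya hZ
  obtain ⟨u, hu⟩ : ∃ u : ℕ → ℕ, u = fun i => z (a + i * T) := ⟨_, rfl⟩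
  have humono : Monotone u := by
    rw [hu]
    intro i j hij
    exact hz (by gcongr)
  have hun : u n ≤ Z := by rw [hu]; exact hZ
  -- the levels of `u`
  obtain ⟨α, hα⟩ : ∃ α : ℕ → ℕ, α = fun v => ((Ioc 0 n).filter (fun m => u m < v)).card := ⟨_, rfl⟩
  have hα0 : α 0 = 0 := by
    rw [hα]
    simp
  have hαZ : α (Z + 1) = n := by
    rw [hα]
    have : (Ioc 0 n).filter (fun m => u m < Z + 1) = Ioc 0 n := by
      apply filter_true_of_mem
      intro m hm
      have := humono (mem_Ioc.1 hm).2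
      omega
    simp only [this, Nat.card_Ioc]
    omega
  have hαmono : ∀ v, α v ≤ α (v + 1) := by
    intro v
    rw [hα]
    simp only
    gcongr
    omega
  have hlow : ∀ v, (Ioc 0 n).filter (fun m => u m < v) = Ioc 0 (α v) := by
    intro v
    have hseg : ∀ k, k ≤ n → ((Ioc 0 k).filter (fun m => u m < v)) =
        Ioc 0 (((Ioc 0 k).filter (fun m => u m < v)).card) := by
      intro k
      induction k with
      | zero =>
        intro _
        simp
      | succ k ih =>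
        intro hk
        have e : Ioc 0 (k + 1) = insert (k + 1) (Ioc 0 k) := by
          ext t
          simp only [mem_Ioc, mem_insert]
          omega
        by_cases h2 : u (k + 1) < v
        · have e2 : (Ioc 0 (k + 1)).filter (fun m => u m < v) = Ioc 0 (k + 1) := by
            apply filter_true_of_mem
            intro m hm
            exact lt_of_le_of_lt (humono (mem_Ioc.1 hm).2) h2
          rw [e2, Nat.card_Ioc]
          rfl
        · rw [e, filter_insert, if_neg h2]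
          exact ih (by omega)
    have := hseg n le_rfl
    rw [hα]
    exact this
  have hlev : ∀ v, (Ioc 0 n).filter (fun m => u m = v) = Ioc (α v) (α (v + 1)) := by
    intro v
    have h1 := hlow v
    have h2 := hlow (v + 1)
    ext m
    have e1 : (m ∈ (Ioc 0 n).filter (fun m => u m < v)) ↔ m ∈ Ioc 0 (α v) := by rw [h1]
    have e2 : (m ∈ (Ioc 0 n).filter (fun m => u m < v + 1)) ↔ m ∈ Ioc 0 (α (v + 1)) := by rw [h2]
    simp only [mem_filter, mem_Ioc] at e1 e2 ⊢
    constructor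
    · rintro ⟨⟨h3, h4⟩, h5⟩
      have h6 := e2.1 ⟨⟨h3, h4⟩, by omega⟩
      refine ⟨?_, h6.2⟩
      by_contra h7
      have h8 := e1.2 ⟨h3, by omega⟩
      omega
    · rintro ⟨h3, h4⟩
      have h6 := e2.2 ⟨by omega, h4⟩
      refine ⟨h6.1, ?_⟩
      by_contra h7
      have h8 := e1.1 ⟨h6.1, by omega⟩
      omega
  have hsum : ∑ i ∈ Ioc 0 n, wy z y (a + i * T) =
      ∑ v ∈ range (Z + 1), VW y v * ((RI y v a T (α v) (α (v + 1))).card : ℝ) := by
    have hmaps : ∀ m ∈ Ioc 0 n, u m ∈ range (Z + 1) := by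
      intro m hm
      rw [mem_range]
      have := humono (mem_Ioc.1 hm).2
      omega
    rw [← sum_fiberwise_of_maps_to hmaps]
    apply sum_congr rfl
    intro v _
    rw [hlev v]
    have h1 : ∀ m ∈ Ioc (α v) (α (v + 1)), z (a + m * T) = v := by
      intro m hm
      rw [← hlev v] at hm
      have := (mem_filter.1 hm).2
      rw [hu] at this
      exact this
    have h2 : ∀ m ∈ Ioc (α v) (α (v + 1)), wy z y (a + m * T) =
        if (∀ p, p.Prime → y < p → p ≤ v → ¬ p ∣ a + m * T) then VW y v else 0 := by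
      intro m hm
      unfold wy
      rw [h1 m hm]
    rw [sum_congr rfl h2, ← sum_filter]
    unfold RI
    rw [sum_const, nsmul_eq_mul]
    ring
  have htel : (n : ℝ) = ∑ v ∈ range (Z + 1), ((α (v + 1) : ℝ) - α v) := by
    rw [sum_range_sub (fun v => (α v : ℝ)) (Z + 1), hαZ, hα0]
    simp
  rw [hsum]
  have hterm : ∀ v ∈ range (Z + 1), VW y v * ((RI y v a T (α v) (α (v + 1))).card : ℝ) ≤
      (1 + (1 / 2 : ℝ) ^ b) * ((α (v + 1) : ℝ) - α v) + ((Z + 2 : ℕ) : ℝ) ^ (K * b + 1) := by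
    intro v hv
    rw [mem_range] at hv
    have hαR : (0 : ℝ) ≤ (α (v + 1) : ℝ) - α v := by
      have : (α v : ℝ) ≤ α (v + 1) := by exact_mod_cast hαmono v
      linarith
    by_cases hyv : y ≤ v
    · have h1 := (abs_le.1 (H b y v Z a T (α v) (α (v + 1)) hb (by omega) (hαmono v) hT)).2
      have hV := VW_pos y v
      have h2 : ((RI y v a T (α v) (α (v + 1))).card : ℝ) ≤
          (1 + (1 / 2 : ℝ) ^ b) * (((α (v + 1) : ℝ) - α v) * (VW y v)⁻¹) + ((Z + 2 : ℕ) : ℝ) ^ (K * b) := by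
        linarith
      calc VW y v * ((RI y v a T (α v) (α (v + 1))).card : ℝ)
          ≤ VW y v * ((1 + (1 / 2 : ℝ) ^ b) * (((α (v + 1) : ℝ) - α v) * (VW y v)⁻¹) +
            ((Z + 2 : ℕ) : ℝ) ^ (K * b)) := mul_le_mul_of_nonneg_left h2 hV.le
        _ = (1 + (1 / 2 : ℝ) ^ b) * ((α (v + 1) : ℝ) - α v) + VW y v * ((Z + 2 : ℕ) : ℝ) ^ (K * b) := by
            field_simp
        _ ≤ (1 + (1 / 2 : ℝ) ^ b) * ((α (v + 1) : ℝ) - α v) +
            ((Z + 2 : ℕ) : ℝ) * ((Z + 2 : ℕ) : ℝ) ^ (K * b) := by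
            have h3 := VW_le hyv
            have h4 : (v : ℝ) ≤ Z := by exact_mod_cast (by omega : v ≤ Z)
            have h5 : VW y v ≤ ((Z + 2 : ℕ) : ℝ) := by
              push_cast
              linarith
            gcongr
        _ = _ := by ring
    · -- an empty level
      have hempty : Ioc (α v) (α (v + 1)) = ∅ := by
        rw [← hlev v, filter_eq_empty_iff]
        intro m hm h1
        have h2 : y ≤ u m := by
          rw [hu]
          exact hya.trans (hz (by omega))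
        omega
      have hR : RI y v a T (α v) (α (v + 1)) = ∅ := by
        unfold RI
        rw [hempty, filter_empty]
      rw [hR, card_empty, Nat.cast_zero, mul_zero]
      exact add_nonneg (mul_nonneg (by positivity) hαR) (by positivity)
  refine (sum_le_sum hterm).trans ?_
  rw [sum_add_distrib, ← mul_sum, ← htel, sum_const, card_range, nsmul_eq_mul]
  have h6 : ((Z + 1 : ℕ) : ℝ) * ((Z + 2 : ℕ) : ℝ) ^ (K * b + 1) ≤ ((Z + 2 : ℕ) : ℝ) ^ (K * b + 2) := by
    rw [pow_succ _ (K * b + 1), mul_comm]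
    gcongr
    omega
  linarith

end Pool.Agent.J6H89.SM
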