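import Mathlib
import Pool.Agent.J6H89.SM.Ext1

/-!
# A sieve of small polynomial growth: the blocks with a small sum of weights
-/

set_option autoImplicit false

namespace Pool.Agent.J6H89.SM

open Finset MeasureTheory Filter Topology

/-- the sieve has at least logarithmic and at most small polynomial growth -/
structure PowG (z : ℕ → ℕ) (c δ : ℝ) : Prop where
  mono : Monotone z
  pos : 0 < c
  dpos : 0 < δ
  low : ∀ᶠ n : ℕ in atTop, c * Real.log n ≤ z n
  upp : ∀ᶠ n : ℕ in atTop, (z n : ℝ) ≤ (n : ℝ) ^ δ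

variable {z : ℕ → ℕ} {c δ : ℝ}

lemma PowG.tend (h : PowG z c δ) : Tendsto z atTop atTop := by
  have h3 : Tendsto (fun n : ℕ => (z n : ℝ)) atTop atTop :=
    tendsto_atTop_mono' _ h.low (log_tend.const_mul_atTop h.pos)
  exact tendsto_natCast_atTop_iff.1 h3

/-- the conditional probabilities are small -/
theorem ratio_small3 (h : PowG z c δ) (hδ : δ ≤ 1 / 40000) :
    ∀ᶠ X : ℕ in atTop, ∀ j : ℕ, j ≤ X → W Set.univ (z (X + j + 1)) / Real.log ((X + j : ℕ) : ℝ) ≤ 0.0001 := by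
  obtain ⟨N1, hN1⟩ := eventually_atTop.1 W_univ_le
  filter_upwards [h.tend.eventually_ge_atTop (max N1 1), t3.eventually h.upp,
    log_tend.eventually_ge_atTop 10, eventually_ge_atTop 2] with X a1 a2 a4 a5 j hj
  obtain ⟨l, hl⟩ : ∃ l, l = Real.log X := ⟨_, rfl⟩
  rw [← hl] at a4
  have hl0 : 0 < l := by linarith
  have hX0 : (0 : ℝ) < X := by exact_mod_cast (by omega : 0 < X)
  have hzm : z X ≤ z (X + j + 1) := h.mono (by omega)
  have hzN : N1 ≤ z (X + j + 1) := le_trans (le_trans (le_max_left _ _) a1) hzm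
  have hz1 : 1 ≤ z (X + j + 1) := le_trans (le_trans (le_max_right _ _) a1) hzm
  have h2 := log_mul_le (X := X) (c := 3) (by omega) (by norm_num) (by
      rw [← hl]
      have h4 : Real.log ((3 : ℕ) : ℝ) ≤ 3 - 1 := by
        have := Real.log_le_sub_one_of_pos (show (0 : ℝ) < 3 by norm_num)
        exact_mod_cast this
      linarith)
  rw [← hl] at h2
  have hz3 : Real.log (z (X + j + 1)) ≤ δ * (2 * l) := by
    have h1 : (z (X + j + 1) : ℝ) ≤ z (3 * X) := by exact_mod_cast h.mono (by omega)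
    have h5 : (0 : ℝ) < z (X + j + 1) := by exact_mod_cast hz1
    calc Real.log (z (X + j + 1)) ≤ Real.log (((3 * X : ℕ) : ℝ) ^ δ) := Real.log_le_log h5 (h1.trans a2)
      _ = δ * Real.log ((3 * X : ℕ) : ℝ) := Real.log_rpow (by push_cast; positivity) _
      _ ≤ δ * (2 * l) := mul_le_mul_of_nonneg_left h2 h.dpos.le
  have hW := hN1 _ hzN
  have h9 : l ≤ Real.log ((X + j : ℕ) : ℝ) := by
    rw [hl]
    apply Real.log_le_log hX0
    push_cast
    have : (0 : ℝ) ≤ j := Nat.cast_nonneg j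
    linarith
  rw [div_le_iff₀ (by linarith)]
  calc W Set.univ (z (X + j + 1)) ≤ 1.95 * (δ * (2 * l)) := by linarith
    _ ≤ 0.0001 * l := by nlinarith [mul_le_mul_of_nonneg_right hδ hl0.le]
    _ ≤ 0.0001 * Real.log ((X + j : ℕ) : ℝ) := by gcongr

/-- the error terms are small -/
theorem pow_small (h : PowG z c δ) (D : ℕ) (hD : δ * D ≤ 1 / 4) (ε : ℝ) (hε : 0 < ε) :
    ∀ᶠ X : ℕ in atTop, ((z (2 * X) + 2 : ℕ) : ℝ) ^ D ≤ ε * (X : ℝ) ^ (0.5 : ℝ) := by
  have ht : Tendsto (fun X : ℕ => (X : ℝ) ^ (1 / 4 : ℝ)) atTop atTop :=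
    (tendsto_rpow_atTop (by norm_num)).comp tendsto_natCast_atTop_atTop
  filter_upwards [t2.eventually h.upp, ht.eventually_ge_atTop (3 ^ D * 2 / ε), eventually_ge_atTop 2] with X a1 a2 a3
  have hX0 : (0 : ℝ) < X := by exact_mod_cast (by omega : 0 < X)
  have hX1 : (1 : ℝ) ≤ X := by exact_mod_cast (by omega : 1 ≤ X)
  have h2X : (1 : ℝ) ≤ ((2 * X : ℕ) : ℝ) := by exact_mod_cast (by omega : 1 ≤ 2 * X)
  have h1 : (1 : ℝ) ≤ ((2 * X : ℕ) : ℝ) ^ δ := Real.one_le_rpow h2X h.dpos.le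
  have h2 : ((z (2 * X) + 2 : ℕ) : ℝ) ≤ 3 * ((2 * X : ℕ) : ℝ) ^ δ := by
    push_cast at a1 h1 ⊢
    linarith
  have h3 : (((2 * X : ℕ) : ℝ) ^ δ) ^ D ≤ 2 * (X : ℝ) ^ (1 / 4 : ℝ) := by
    rw [← Real.rpow_natCast, ← Real.rpow_mul (by positivity)]
    calc ((2 * X : ℕ) : ℝ) ^ (δ * D) ≤ ((2 * X : ℕ) : ℝ) ^ (1 / 4 : ℝ) :=
          Real.rpow_le_rpow_of_exponent_le h2X hD
      _ = (2 : ℝ) ^ (1 / 4 : ℝ) * (X : ℝ) ^ (1 / 4 : ℝ) := by
          push_cast
          rw [Real.mul_rpow (by norm_num) hX0.le]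
      _ ≤ 2 * (X : ℝ) ^ (1 / 4 : ℝ) := by
          apply mul_le_mul_of_nonneg_right _ (by positivity)
          calc (2 : ℝ) ^ (1 / 4 : ℝ) ≤ (2 : ℝ) ^ (1 : ℝ) :=
                Real.rpow_le_rpow_of_exponent_le (by norm_num) (by norm_num)
            _ = 2 := Real.rpow_one _
  have h4 : 3 ^ D * 2 ≤ ε * (X : ℝ) ^ (1 / 4 : ℝ) := by
    rw [div_le_iff₀ hε] at a2
    linarith
  calc ((z (2 * X) + 2 : ℕ) : ℝ) ^ D ≤ (3 * ((2 * X : ℕ) : ℝ) ^ δ) ^ D :=
        pow_le_pow_left₀ (by positivity) h2 D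
    _ = 3 ^ D * (((2 * X : ℕ) : ℝ) ^ δ) ^ D := mul_pow _ _ _
    _ ≤ 3 ^ D * (2 * (X : ℝ) ^ (1 / 4 : ℝ)) := by
        apply mul_le_mul_of_nonneg_left h3 (by positivity)
    _ = (3 ^ D * 2) * (X : ℝ) ^ (1 / 4 : ℝ) := by ring
    _ ≤ (ε * (X : ℝ) ^ (1 / 4 : ℝ)) * (X : ℝ) ^ (1 / 4 : ℝ) := by
        apply mul_le_mul_of_nonneg_right h4 (by positivity)
    _ = ε * (X : ℝ) ^ (0.5 : ℝ) := by
        rw [mul_assoc, ← Real.rpow_add hX0]
        norm_num

/-- the cut between the small and the large primes -/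
noncomputable def yc (c : ℝ) (n : ℕ) : ℕ := ⌊min c (1 / 200) / 2 * Real.log n⌋₊

lemma yc_LogG (hc : 0 < c) : LogG (yc c) (min c (1 / 200) / 4) := by
  have hm : 0 < min c (1 / 200) := lt_min hc (by norm_num)
  have hm2 : min c (1 / 200) ≤ 1 / 200 := min_le_right _ _
  refine ⟨?_, by positivity, ?_, ?_⟩
  · intro a b hab
    unfold yc
    apply Nat.floor_mono
    apply mul_le_mul_of_nonneg_left _ (by positivity)
    rcases Nat.eq_zero_or_pos a with h0 | h0
    · subst h0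
      simp only [Nat.cast_zero, Real.log_zero]
      exact Real.log_natCast_nonneg b
    · apply Real.log_le_log
      · exact_mod_cast h0
      · exact_mod_cast hab
  · have ht : Tendsto (fun n : ℕ => min c (1 / 200) / 4 * Real.log n) atTop atTop :=
      log_tend.const_mul_atTop (by positivity)
    filter_upwards [ht.eventually_ge_atTop 1] with n hn
    have h1 := Nat.sub_one_lt_floor (min c (1 / 200) / 2 * Real.log n)
    unfold yc
    linarith
  · filter_upwards [log_tend.eventually_ge_atTop 1] with n hn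
    have h1 : ((⌊min c (1 / 200) / 2 * Real.log n⌋₊ : ℕ) : ℝ) ≤ min c (1 / 200) / 2 * Real.log n :=
      Nat.floor_le (by positivity)
    unfold yc
    refine h1.trans ?_
    nlinarith

lemma yc_le (h : PowG z c δ) : ∀ᶠ X : ℕ in atTop, yc c (2 * X) ≤ z X := by
  filter_upwards [h.low, log_tend.eventually_ge_atTop 10, eventually_ge_atTop 2] with X a1 a2 a3
  have hc := h.pos
  have hm : 0 < min c (1 / 200) := lt_min hc (by norm_num)
  have hm1 : min c (1 / 200) ≤ c := min_le_left _ _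
  have h2 := log_mul_le (X := X) (c := 2) (by omega) (by norm_num) (by
      have := Real.log_two_lt_d9
      push_cast
      linarith)
  have h3 : 0 ≤ Real.log ((2 * X : ℕ) : ℝ) := Real.log_natCast_nonneg _
  have h1 : ((⌊min c (1 / 200) / 2 * Real.log ((2 * X : ℕ) : ℝ)⌋₊ : ℕ) : ℝ) ≤
      min c (1 / 200) / 2 * Real.log ((2 * X : ℕ) : ℝ) :=
    Nat.floor_le (by positivity)
  have h4 : (yc c (2 * X) : ℝ) ≤ z X := by
    unfold yc
    refine h1.trans ?_
    calc min c (1 / 200) / 2 * Real.log ((2 * X : ℕ) : ℝ) ≤ c / 2 * (2 * Real.log X) := by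
          apply mul_le_mul _ h2 h3 (by positivity)
          linarith
      _ = c * Real.log X := by ring
      _ ≤ z X := a1
  exact_mod_cast h4

/-- the distance of the blocks -/
noncomputable def TP (c : ℝ) (X : ℕ) : ℕ := QQ (yc c) X * 2 ^ (Nat.log 2 (kk X) + 1)

lemma TP_pos (X : ℕ) : 0 < TP c X := by
  unfold TP QQ
  exact Nat.mul_pos (primorial_pos _) (by positivity)

lemma kk_le_TP (X : ℕ) : kk X ≤ TP c X := by
  have h1 : kk X < 2 ^ (Nat.log 2 (kk X) + 1) := Nat.lt_pow_succ_log_self (by norm_num) _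
  have h2 : 0 < QQ (yc c) X := primorial_pos _
  unfold TP
  nlinarith

lemma TP_le_TT (X : ℕ) : TP c X ≤ 2 * TT (yc c) X := by
  have h1 : 2 ^ (Nat.log 2 (kk X) + 1) ≤ 2 * (kk X + 1) := by
    rw [pow_succ]
    rcases Nat.eq_zero_or_pos (kk X) with h0 | h0
    · rw [h0]
      simp
    · have := Nat.pow_log_le_self 2 h0.ne'
      omega
  unfold TP TT
  calc QQ (yc c) X * 2 ^ (Nat.log 2 (kk X) + 1) ≤ QQ (yc c) X * (2 * (kk X + 1)) := Nat.mul_le_mul_left _ h1
    _ = _ := by ring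

lemma TP_le (hc : 0 < c) : ∀ᶠ X : ℕ in atTop, (TP c X : ℝ) ≤ 8 * (X : ℝ) ^ (0.007 : ℝ) * Real.log X ^ 2 := by
  filter_upwards [TT_le (yc_LogG hc)] with X hX
  have h1 : (TP c X : ℝ) ≤ 2 * TT (yc c) X := by exact_mod_cast TP_le_TT X
  linarith

/-- no large prime divides the distance of the blocks -/
lemma TP_dvd {X p : ℕ} (hp : p.Prime) (h2 : 2 ≤ yc c (2 * X)) (h : yc c (2 * X) < p) : ¬ p ∣ TP c X := by
  intro hd
  unfold TP QQ at hd
  rcases hp.dvd_mul.1 hd with h3 | h3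
  · have := hp.dvd_primorial_iff.1 h3
    omega
  · have := (Nat.prime_dvd_prime_iff_eq hp Nat.prime_two).1 (hp.dvd_of_dvd_pow h3)
    omega

/-- the weights in a block after a multiple of the product of the small primes -/
lemma wt_le {v k x : ℕ} (hz : Monotone z) (hQ : primorial v ∣ x) (hv : v ≤ z x) :
    ∑ j ∈ range k, wt Set.univ z (x + j + 1) ≤ W Set.univ v * ∑ t ∈ AA k v, wy z v (x + t) := by
  classical
  have h1 : ∀ j ∈ range k, wt Set.univ z (x + j + 1) =
      if j + 1 ∈ AA k v then W Set.univ v * wy z v (x + (j + 1)) else 0 := by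
    intro j hj
    rw [mem_range] at hj
    have hvz : v ≤ z (x + j + 1) := hv.trans (hz (by omega))
    unfold wt
    by_cases hmem : j + 1 ∈ AA k v
    · rw [if_pos hmem]
      unfold wy
      have hsm : ∀ p, p.Prime → p ≤ v → ¬ p ∣ x + j + 1 := by
        intro p hp hpv hd
        unfold AA at hmem
        rw [mem_filter] at hmem
        refine hmem.2 p hp hpv ?_
        have h2 : p ∣ x := (hp.dvd_primorial_iff.2 hpv).trans hQ
        rw [add_assoc] at hd
        exact (Nat.dvd_add_right h2).1 hd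
      by_cases hR : Rough Set.univ z (x + j + 1)
      · have h3 : ∀ p, p.Prime → v < p → p ≤ z (x + (j + 1)) → ¬ p ∣ x + (j + 1) := by
          intro p hp _ hpz
          exact hR p (Set.mem_univ _) hp hpz
        rw [if_pos hR, if_pos h3]
        exact W_mul_VW hvz
      · have h3 : ¬ ∀ p, p.Prime → v < p → p ≤ z (x + (j + 1)) → ¬ p ∣ x + (j + 1) := by
          intro h4
          apply hR
          intro p _ hp hpz
          rcases Nat.lt_or_ge v p with h5 | h5
          · exact h4 p hp h5 hpz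
          · exact hsm p hp h5
        rw [if_neg hR, if_neg h3, mul_zero]
    · rw [if_neg hmem, if_neg]
      intro hR
      apply hmem
      unfold AA
      rw [mem_filter, mem_Icc]
      refine ⟨⟨by omega, by omega⟩, ?_⟩
      intro p hp hpv hd
      refine hR p (Set.mem_univ _) hp (hpv.trans hvz) ?_
      have h2 : p ∣ x := (hp.dvd_primorial_iff.2 hpv).trans hQ
      rw [add_assoc]
      exact dvd_add h2 hd
  rw [sum_congr rfl h1, ← sum_filter, mul_sum]
  apply le_of_eq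
  apply sum_bij (fun j _ => j + 1)
  · intro j hj
    exact (mem_filter.1 hj).2
  · intro a _ b _ hab
    simpa using hab
  · intro t ht
    have ht2 := ht
    unfold AA at ht2
    rw [mem_filter, mem_Icc] at ht2
    refine ⟨t - 1, ?_, by omega⟩
    rw [mem_filter, mem_range]
    refine ⟨by omega, ?_⟩
    rw [show t - 1 + 1 = t by omega]
    exact ht
  · intro j _
    rfl

/-- the sums of weights in the blocks are small on average -/
theorem avg : ∃ D : ℕ, ∀ (z : ℕ → ℕ) (c δ : ℝ), PowG z c δ → δ * D ≤ 1 / 4 → ∀ᶠ X : ℕ in atTop,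
    ∑ i ∈ Ioc 0 (X / (4 * TP c X)), ∑ j ∈ range (kk X),
      wt Set.univ z (TP c X * (X / TP c X + 1) + i * TP c X + j + 1) ≤
        0.9875 * Real.log X ^ 2 * ((X / (4 * TP c X) : ℕ) : ℝ) := by
  classical
  obtain ⟨K, hK, H⟩ := massI
  obtain ⟨b, hb⟩ : ∃ b, b = max K 12 := ⟨_, rfl⟩
  have hKb : K ≤ b := by rw [hb]; exact le_max_left _ _
  have hb12 : 12 ≤ b := by rw [hb]; exact le_max_right _ _
  refine ⟨K * b + 2, ?_⟩
  intro z c δ h hD
  have hl4 : Tendsto (fun X : ℕ => Real.log X ^ (2 : ℝ) / (X : ℝ) ^ (0.4 : ℝ)) atTop (𝓝 0) := by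
    have h := (isLittleO_log_rpow_rpow_atTop (2 : ℝ) (show (0 : ℝ) < 0.4 by norm_num)).tendsto_div_nhds_zero
    exact h.comp tendsto_natCast_atTop_atTop
  have hy := yc_LogG (c := c) h.pos
  filter_upwards [sum_small _ _ hy.pos hy.low hy.upp, pow_small h (K * b + 2) (by exact_mod_cast hD) 1 one_pos,
    yc_le h, hy.tend.eventually_ge_atTop 2, TP_le h.pos, log_tend.eventually_ge_atTop 10, eventually_ge_atTop 2,
    hl4.eventually_lt_const (show (0 : ℝ) < 1 / 1000000 by norm_num)] with X a1 a2 a3 a4 a5 a6 a7 a8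
  obtain ⟨l, hl⟩ : ∃ l, l = Real.log X := ⟨_, rfl⟩
  obtain ⟨k, hk⟩ : ∃ k, k = kk X := ⟨_, rfl⟩
  obtain ⟨T, hT⟩ : ∃ T, T = TP c X := ⟨_, rfl⟩
  obtain ⟨n, hn⟩ : ∃ n, n = X / (4 * T) := ⟨_, rfl⟩
  obtain ⟨v, hv⟩ : ∃ v, v = yc c (2 * X) := ⟨_, rfl⟩
  obtain ⟨x0, hx0⟩ : ∃ x0, x0 = T * (X / T + 1) := ⟨_, rfl⟩
  have hT0 : 0 < T := by rw [hT]; exact TP_pos X
  have hkT : k ≤ T := by rw [hk, hT]; exact kk_le_TP X
  have hyv : yc c X ≤ v := by rw [hv]; exact hy.mono (by omega)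
  have hv2 : 2 ≤ v := a4.trans hyv
  have hQT : primorial v ∣ T := by
    rw [hT, hv]
    unfold TP QQ
    exact Dvd.intro _ rfl
  have hTd : ∀ p, p.Prime → v < p → ¬ p ∣ T := by
    intro p hp hvp
    rw [hT]
    apply TP_dvd hp
    · rw [← hv]; exact hv2
    · rw [← hv]; exact hvp
  rw [← hl] at a1 a5 a6 a8
  rw [← hk] at a1
  rw [← hT] at a5
  rw [← hv] at a3
  rw [← hl, ← hk, ← hT, ← hn, ← hx0]
  have hl0 : 0 < l := by linarith
  have hX0 : (0 : ℝ) < X := by exact_mod_cast (by omega : 0 < X)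
  have hX1 : (1 : ℝ) ≤ X := by exact_mod_cast (by omega : 1 ≤ X)
  have hx1 : X ≤ x0 := by
    rw [hx0]
    have h1 := Nat.div_add_mod X T
    have h2 := Nat.mod_lt X hT0
    have h3 : T * (X / T + 1) = T * (X / T) + T := by ring
    omega
  have hx2 : x0 ≤ X + T := by
    rw [hx0]
    have h1 := Nat.div_add_mod X T
    have h3 : T * (X / T + 1) = T * (X / T) + T := by ring
    omega
  have hnT : n * T * 4 ≤ X := by
    have := Nat.div_mul_le_self X (4 * T)
    rw [← hn] at this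
    nlinarith
  -- the size of `T`
  have hTR : (0 : ℝ) < T := by exact_mod_cast hT0
  have h3 : l ^ (2 : ℝ) = l ^ 2 := by
    rw [← Real.rpow_natCast]
    norm_num
  rw [h3, div_lt_iff₀ (by positivity)] at a8
  have hT8 : 100000 * (T : ℝ) * (X : ℝ) ^ (0.5 : ℝ) ≤ X := by
    calc 100000 * (T : ℝ) * (X : ℝ) ^ (0.5 : ℝ)
        ≤ 100000 * (8 * (X : ℝ) ^ (0.007 : ℝ) * l ^ 2) * (X : ℝ) ^ (0.5 : ℝ) := by gcongr
      _ ≤ 100000 * (8 * (X : ℝ) ^ (0.007 : ℝ) * (1 / 1000000 * (X : ℝ) ^ (0.4 : ℝ))) * (X : ℝ) ^ (0.5 : ℝ) := by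
          gcongr
      _ = 0.8 * ((X : ℝ) ^ (0.007 : ℝ) * (X : ℝ) ^ (0.4 : ℝ) * (X : ℝ) ^ (0.5 : ℝ)) := by ring
      _ = 0.8 * (X : ℝ) ^ (0.907 : ℝ) := by
          rw [← Real.rpow_add hX0, ← Real.rpow_add hX0]
          norm_num
      _ ≤ 1 * (X : ℝ) ^ (1 : ℝ) := by
          apply mul_le_mul (by norm_num) _ (by positivity) (by norm_num)
          exact Real.rpow_le_rpow_of_exponent_le hX1 (by norm_num)
      _ = X := by rw [one_mul, Real.rpow_one]
  have hX5 : (1 : ℝ) ≤ (X : ℝ) ^ (0.5 : ℝ) := Real.one_le_rpow hX1 (by norm_num)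
  have hT4 : 8 * T ≤ X := by
    have h4 : 8 * (T : ℝ) ≤ X := by nlinarith
    exact_mod_cast h4
  have hKX : (X : ℝ) / (8 * T) ≤ n := by
    have h2 : X < (n + 1) * (4 * T) := by
      rw [hn]
      have := Nat.lt_div_mul_add (a := X) (b := 4 * T) (by omega)
      nlinarith
    have h4 : (X : ℝ) < ((n : ℝ) + 1) * (4 * T) := by exact_mod_cast h2
    have h5 : 8 * (T : ℝ) ≤ X := by exact_mod_cast hT4
    rw [div_le_iff₀ (by positivity)]
    nlinarith
  have hn5 : 10000 * (X : ℝ) ^ (0.5 : ℝ) ≤ n := by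
    refine le_trans ?_ hKX
    rw [le_div_iff₀ (by positivity)]
    nlinarith
  -- the sum over the blocks
  have hstep : ∀ i ∈ Ioc 0 n, ∑ j ∈ range k, wt Set.univ z (x0 + i * T + j + 1) ≤
      W Set.univ v * ∑ t ∈ AA k v, wy z v (x0 + i * T + t) := by
    intro i _
    apply wt_le h.mono
    · apply dvd_add
      · rw [hx0]; exact hQT.trans (Dvd.intro _ rfl)
      · exact hQT.trans (Dvd.intro_left _ rfl)
    · exact a3.trans (h.mono (by omega))
  refine (sum_le_sum hstep).trans ?_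
  rw [← mul_sum, sum_comm]
  have hin : ∀ t ∈ AA k v, ∑ i ∈ Ioc 0 n, wy z v (x0 + i * T + t) ≤ 1.0004 * n := by
    intro t ht
    unfold AA at ht
    rw [mem_filter, mem_Icc] at ht
    have h1 := H z h.mono b v (z (2 * X)) (x0 + t) T n hKb hTd (a3.trans (h.mono (by omega)))
      (h.mono (by omega))
    have h2 : ∑ i ∈ Ioc 0 n, wy z v (x0 + i * T + t) = ∑ i ∈ Ioc 0 n, wy z v (x0 + t + i * T) := by
      apply sum_congr rfl
      intro i _
      congr 1
      ring
    rw [h2]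
    refine h1.trans ?_
    have h4 : (1 / 2 : ℝ) ^ b ≤ (1 / 2 : ℝ) ^ 12 := pow_le_pow_of_le_one (by norm_num) (by norm_num) hb12
    have h5 : (1 / 2 : ℝ) ^ 12 ≤ 0.00025 := by norm_num
    have h6 : (0 : ℝ) ≤ n := Nat.cast_nonneg n
    rw [one_mul] at a2
    nlinarith
  have hWv := W_pos Set.univ v
  have hcard : ((AA k v).card : ℝ) ≤ 1 + Nat.primeCounting k + (Nat.primeCounting (k / yc c X) : ℝ) ^ 2 := by
    have h1 : k < v ^ 3 := lt_of_lt_of_le a1.1 (Nat.pow_le_pow_left hyv 3)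
    have h2 := count_le k v h1
    have h3 : Nat.primeCounting (k / v) ≤ Nat.primeCounting (k / yc c X) :=
      Nat.monotone_primeCounting (Nat.div_le_div_left hyv (by omega))
    have h4 : (AA k v).card ≤ 1 + Nat.primeCounting k + Nat.primeCounting (k / yc c X) ^ 2 := by
      refine h2.trans ?_
      gcongr
    exact_mod_cast h4
  have hWc : W Set.univ v * ((AA k v).card : ℝ) ≤ 0.987 * l ^ 2 := by
    refine le_trans ?_ a1.2
    rw [← hv]
    exact mul_le_mul_of_nonneg_left hcard hWv.le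
  calc W Set.univ v * ∑ t ∈ AA k v, ∑ i ∈ Ioc 0 n, wy z v (x0 + i * T + t)
      ≤ W Set.univ v * ∑ t ∈ AA k v, 1.0004 * (n : ℝ) := by
        apply mul_le_mul_of_nonneg_left (sum_le_sum hin) hWv.le
    _ = (W Set.univ v * ((AA k v).card : ℝ)) * (1.0004 * n) := by
        rw [sum_const, nsmul_eq_mul]
        ring
    _ ≤ (0.987 * l ^ 2) * (1.0004 * n) := by
        apply mul_le_mul_of_nonneg_right hWc
        positivity
    _ ≤ 0.9875 * l ^ 2 * n := by
        have : 0 ≤ l ^ 2 * (n : ℝ) := by positivity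
        nlinarith

end Pool.Agent.J6H89.SM
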