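import Mathlib
import Pool.Agent.J6H89.SM.Ext2

/-!
# A sieve of small polynomial growth: Shanks' law fails
-/

set_option autoImplicit false

namespace Pool.Agent.J6H89.SM

open Finset MeasureTheory Filter Topology

section blocks

variable {Ω : Type} [mΩ : MeasurableSpace Ω] {μ : Measure Ω} {ℱ : Filtration ℕ mΩ} {S : ℕ → Set Ω}

/-- in every good block something is chosen or the bounds fail -/
def BktG (μ : Measure Ω) (ℱ : Filtration ℕ mΩ) (S : ℕ → Set Ω) (R : ℕ → Prop) (lo hi : ℕ → ℝ) (G : ℕ → Prop)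
    (X T L K : ℕ) : Set Ω :=
  {ω | ∀ i, i < K → G i → ω ∉ Vv μ ℱ S R lo hi (X + i * T) (X + i * T + L)}

lemma meas_BktG (had : ∀ n, MeasurableSet[ℱ n] (S n)) (R : ℕ → Prop) (lo hi : ℕ → ℝ) (G : ℕ → Prop)
    (X T L K : ℕ) (hLT : L ≤ T) :
    MeasurableSet[ℱ (X + K * T)] (BktG μ ℱ S R lo hi G X T L K) := by
  have : BktG μ ℱ S R lo hi G X T L K =
      ⋂ i ∈ {i : ℕ | i < K ∧ G i}, (Vv μ ℱ S R lo hi (X + i * T) (X + i * T + L))ᶜ := by
    ext ω
    simp only [BktG, Set.mem_ofPred_eq, Set.mem_iInter, Set.mem_compl_iff]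
    exact ⟨fun h i hi' => h i hi'.1 hi'.2, fun h i h1 h2 => h i ⟨h1, h2⟩⟩
  rw [this]
  refine MeasurableSet.biInter (Set.to_countable _) ?_
  intro i hi'
  have h1 : X + i * T + L ≤ X + K * T := by
    have h2 : (i + 1) * T ≤ K * T := Nat.mul_le_mul_right _ hi'.1
    nlinarith
  exact (ℱ.mono h1 _ (meas_Vv had _ _ _ _ _)).compl

open Classical in
theorem blocksG [IsProbabilityMeasure μ] (had : ∀ n, MeasurableSet[ℱ n] (S n)) (R : ℕ → Prop)
    (hsv : ∀ n, ¬ R n → S n = ∅) (lo hi : ℕ → ℝ) (hhi : ∀ n, 0 ≤ hi n) (G : ℕ → Prop) (X T L K : ℕ) (q : ℝ)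
    (hLT : L ≤ T) (hhi1 : ∀ j, j < K * T → hi (X + j) ≤ 1) (hq1 : q ≤ 1)
    (hq : ∀ i, i < K → G i → q ≤ ∏ j ∈ range L, (if R (X + i * T + j + 1) then 1 - hi (X + i * T + j) else 1)) :
    μ.real (BktG μ ℱ S R lo hi G X T L K) ≤ (1 - q) ^ ((range K).filter G).card := by
  induction K with
  | zero =>
    rw [range_zero, filter_empty, card_empty, pow_zero]
    exact measureReal_le_one
  | succ K ih =>
    have ih' := ih (fun j hj => hhi1 j (by nlinarith)) (fun i hi' => hq i (by omega))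
    have hB := meas_BktG (μ := μ) (ℱ := ℱ) had R lo hi G X T L K hLT
    by_cases hG : G K
    · have hcard : ((range (K + 1)).filter G).card = ((range K).filter G).card + 1 := by
        rw [range_add_one, filter_insert, if_pos hG, card_insert_of_notMem]
        intro h
        have := mem_range.1 (mem_filter.1 h).1
        omega
      have h1 := run_ge (μ := μ) (ℱ := ℱ) had R hsv lo hi hhi (X + K * T) L
        (fun j hj => by
          rw [add_assoc]
          exact hhi1 _ (by nlinarith)) hB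
      have h2 : BktG μ ℱ S R lo hi G X T L (K + 1) =
          BktG μ ℱ S R lo hi G X T L K \
            (BktG μ ℱ S R lo hi G X T L K ∩ Vv μ ℱ S R lo hi (X + K * T) (X + K * T + L)) := by
        ext ω
        constructor
        · intro h
          exact ⟨fun i hi' => h i (by omega), fun h' => h K (by omega) hG h'.2⟩
        · rintro ⟨h3, h4⟩ i hi' hGi
          rcases Nat.lt_or_ge i K with h5 | h5
          · exact h3 i h5 hGi
          · have : i = K := by omega
            subst this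
            exact fun h6 => h4 ⟨h3, h6⟩
      have h3 : μ.real (BktG μ ℱ S R lo hi G X T L (K + 1)) = μ.real (BktG μ ℱ S R lo hi G X T L K) -
          μ.real (BktG μ ℱ S R lo hi G X T L K ∩ Vv μ ℱ S R lo hi (X + K * T) (X + K * T + L)) := by
        rw [h2]
        apply measureReal_sdiff
        · exact Set.inter_subset_left
        · exact (ℱ.le _ _ hB).inter (ℱ.le _ _ (meas_Vv had _ _ _ _ _))
        · exact measure_ne_top _ _
      have h4 : μ.real (BktG μ ℱ S R lo hi G X T L K) * q ≤ μ.real (BktG μ ℱ S R lo hi G X T L K) *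
          ∏ j ∈ range L, (if R (X + K * T + j + 1) then 1 - hi (X + K * T + j) else 1) :=
        mul_le_mul_of_nonneg_left (hq K (by omega) hG) measureReal_nonneg
      have h5 : μ.real (BktG μ ℱ S R lo hi G X T L K) * (1 - q) ≤
          (1 - q) ^ ((range K).filter G).card * (1 - q) :=
        mul_le_mul_of_nonneg_right ih' (by linarith)
      rw [hcard, pow_succ]
      linarith
    · have hcard : ((range (K + 1)).filter G).card = ((range K).filter G).card := by
        rw [range_add_one, filter_insert, if_neg hG]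
      have h2 : BktG μ ℱ S R lo hi G X T L (K + 1) = BktG μ ℱ S R lo hi G X T L K := by
        ext ω
        constructor
        · intro h i hi' hGi
          exact h i (by omega) hGi
        · intro h3 i hi' hGi
          rcases Nat.lt_or_ge i K with h5 | h5
          · exact h3 i h5 hGi
          · have : i = K := by omega
            subst this
            exact absurd hGi hG
      rw [hcard, h2]
      exact ih'

end blocks

open Classical in
/-- many blocks have a small sum -/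
theorem good_count (f : ℕ → ℝ) (hf : ∀ i, 0 ≤ f i) (n : ℕ) (L : ℝ) (hL : 0 < L)
    (h : ∑ i ∈ Ioc 0 n, f i ≤ 0.9875 * L * (n : ℝ)) :
    0.0005 * (n : ℝ) ≤ (((range (n + 1)).filter (fun i => 1 ≤ i ∧ f i ≤ 0.988 * L)).card : ℝ) := by
  have h1 : ((Ioc 0 n).filter (fun i => f i ≤ 0.988 * L)).card +
      ((Ioc 0 n).filter (fun i => ¬ f i ≤ 0.988 * L)).card = n := by
    rw [card_filter_add_card_filter_not, Nat.card_Ioc]
    omega
  have h2 : ((Ioc 0 n).filter (fun i => f i ≤ 0.988 * L)).card ≤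
      ((range (n + 1)).filter (fun i => 1 ≤ i ∧ f i ≤ 0.988 * L)).card := by
    apply card_le_card
    intro i hi'
    rw [mem_filter, mem_Ioc] at hi'
    rw [mem_filter, mem_range]
    exact ⟨by omega, by omega, hi'.2⟩
  have h3 : (((Ioc 0 n).filter (fun i => ¬ f i ≤ 0.988 * L)).card : ℝ) * (0.988 * L) ≤
      0.9875 * L * (n : ℝ) := by
    refine le_trans ?_ h
    rw [← nsmul_eq_mul, ← sum_const]
    calc ∑ _i ∈ (Ioc 0 n).filter (fun i => ¬ f i ≤ 0.988 * L), 0.988 * L
        ≤ ∑ i ∈ (Ioc 0 n).filter (fun i => ¬ f i ≤ 0.988 * L), f i := by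
          apply sum_le_sum
          intro i hi'
          have := (mem_filter.1 hi').2
          linarith
      _ ≤ ∑ i ∈ Ioc 0 n, f i := by
          apply sum_le_sum_of_subset_of_nonneg (filter_subset _ _)
          intro i _ _
          exact hf i
  have h4 : (((Ioc 0 n).filter (fun i => ¬ f i ≤ 0.988 * L)).card : ℝ) * 0.988 ≤ 0.9875 * (n : ℝ) := by
    by_contra hcon
    have := mul_lt_mul_of_pos_right (not_le.1 hcon) hL
    linarith
  have h5 : (((Ioc 0 n).filter (fun i => f i ≤ 0.988 * L)).card : ℝ) +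
      ((Ioc 0 n).filter (fun i => ¬ f i ≤ 0.988 * L)).card = n := by exact_mod_cast h1
  have h6 : (((Ioc 0 n).filter (fun i => f i ≤ 0.988 * L)).card : ℝ) ≤
      ((range (n + 1)).filter (fun i => 1 ≤ i ∧ f i ≤ 0.988 * L)).card := by exact_mod_cast h2
  have h7 : (0 : ℝ) ≤ n := Nat.cast_nonneg n
  linarith

variable {z : ℕ → ℕ} {c δ : ℝ}

open Classical in
/-- the probability that nothing is chosen in a good block -/
theorem block_prod3 (h : PowG z c δ) (hδ : δ ≤ 1 / 40000) :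
    ∀ᶠ X : ℕ in atTop, (∀ j, j ≤ X → hi Set.univ z 0.001 (X + j) ≤ 1) ∧
      ∀ x, X ≤ x → x + kk X ≤ 2 * X → ∑ j ∈ range (kk X), wt Set.univ z (x + j + 1) ≤ 0.988 * Real.log X ^ 2 →
        (X : ℝ) ^ (-0.99 : ℝ) ≤ ∏ j ∈ range (kk X),
          (if Rough Set.univ z (x + j + 1) then 1 - hi Set.univ z 0.001 (x + j) else 1) := by
  filter_upwards [ratio_small3 h hδ, log_tend.eventually_ge_atTop 10, eventually_ge_atTop 2] with X a1 a3 a4
  obtain ⟨l, hl⟩ : ∃ l, l = Real.log X := ⟨_, rfl⟩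
  obtain ⟨k, hk⟩ : ∃ k, k = kk X := ⟨_, rfl⟩
  rw [← hl] at a3
  rw [← hl, ← hk]
  have hl0 : 0 < l := by linarith
  have hX0 : (0 : ℝ) < X := by exact_mod_cast (by omega : 0 < X)
  have hhi : ∀ j, j ≤ X → hi Set.univ z 0.001 (X + j) ≤ 0.001 / 2 := by
    intro j hj
    unfold hi
    have h2 := a1 j hj
    have h3 : 0 ≤ W Set.univ (z (X + j + 1)) / Real.log ((X + j : ℕ) : ℝ) :=
      div_nonneg (W_pos _ _).le (Real.log_natCast_nonneg _)
    nlinarith
  refine ⟨fun j hj => (hhi j hj).trans (by norm_num), ?_⟩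
  intro x hx1 hx2 hsum
  have hterm : ∀ j ∈ range k, Real.exp (-((1 + 0.001) * ((1 + 0.001) / l * wt Set.univ z (x + j + 1)))) ≤
      (if Rough Set.univ z (x + j + 1) then 1 - hi Set.univ z 0.001 (x + j) else 1) := by
    intro j hj
    rw [mem_range] at hj
    unfold wt
    by_cases hR : Rough Set.univ z (x + j + 1)
    · rw [if_pos hR, if_pos hR]
      obtain ⟨i, hi'⟩ : ∃ i, x + j = X + i := ⟨x + j - X, by omega⟩
      have h2 := hhi i (by omega)
      rw [← hi'] at h2
      have h3 := exp_le_one_sub (hi_nonneg Set.univ z 0.001 (by norm_num) (x + j)) h2 (by norm_num)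
      refine le_trans ?_ h3
      apply Real.exp_le_exp.2
      have h4 : hi Set.univ z 0.001 (x + j) ≤ (1 + 0.001) / l * W Set.univ (z (x + j + 1)) := by
        unfold hi
        have hlog : l ≤ Real.log ((x + j : ℕ) : ℝ) := by
          rw [hl]
          apply Real.log_le_log hX0
          have : (X : ℝ) ≤ x := by exact_mod_cast hx1
          push_cast
          have : (0 : ℝ) ≤ j := Nat.cast_nonneg j
          linarith
        rw [div_mul_eq_mul_div, mul_div_assoc]
        apply mul_le_mul_of_nonneg_left _ (by norm_num)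
        exact div_le_div₀ (W_pos _ _).le le_rfl hl0 hlog
      have h5 := mul_le_mul_of_nonneg_left h4 (show (0 : ℝ) ≤ 1 + 0.001 by norm_num)
      linarith
    · rw [if_neg hR, if_neg hR]
      simp
  have hprod := Finset.prod_le_prod (fun j _ => (Real.exp_pos _).le) hterm
  refine le_trans ?_ hprod
  rw [← Real.exp_sum, sum_neg_distrib, ← mul_sum, ← mul_sum]
  rw [Real.rpow_def_of_pos hX0, ← hl]
  apply Real.exp_le_exp.2
  have hfin : (1 + 0.001) * ((1 + 0.001) / l * ∑ j ∈ range k, wt Set.univ z (x + j + 1)) ≤ 0.99 * l := by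
    calc (1 + 0.001) * ((1 + 0.001) / l * ∑ j ∈ range k, wt Set.univ z (x + j + 1)) =
        (1 + 0.001) ^ 2 / l * ∑ j ∈ range k, wt Set.univ z (x + j + 1) := by ring
      _ ≤ (1 + 0.001) ^ 2 / l * (0.988 * l ^ 2) := by
          apply mul_le_mul_of_nonneg_left hsum
          positivity
      _ = (1 + 0.001) ^ 2 * 0.988 * l := by
          field_simp
      _ ≤ 0.99 * l := by nlinarith
  linarith [hfin]

/-- there are enough blocks -/
theorem many_blocks3 (hc : 0 < c) :
    ∀ᶠ X : ℕ in atTop, 16 * TP c X ≤ X ∧ 16 * kk X ≤ X ∧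
      ∀ N : ℕ, 0.0005 * ((X / (4 * TP c X) : ℕ) : ℝ) ≤ N → (1 - (X : ℝ) ^ (-0.99 : ℝ)) ^ N ≤ (X : ℝ) ^ (-2 : ℝ) := by
  have hl3 : Tendsto (fun X : ℕ => Real.log X ^ (3 : ℝ) / (X : ℝ) ^ (0.003 : ℝ)) atTop (𝓝 0) := by
    have h := (isLittleO_log_rpow_rpow_atTop (3 : ℝ) (show (0 : ℝ) < 0.003 by norm_num)).tendsto_div_nhds_zero
    exact h.comp tendsto_natCast_atTop_atTop
  filter_upwards [TP_le hc, log_tend.eventually_ge_atTop 10, eventually_ge_atTop 2,
    hl3.eventually_lt_const (show (0 : ℝ) < 1 / 256000 by norm_num)] with X a1 a2 a3 a4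
  obtain ⟨l, hl⟩ : ∃ l, l = Real.log X := ⟨_, rfl⟩
  obtain ⟨T, hT⟩ : ∃ T, T = TP c X := ⟨_, rfl⟩
  rw [← hl] at a1 a2 a4
  rw [← hT] at a1 ⊢
  have hX0 : (0 : ℝ) < X := by exact_mod_cast (by omega : 0 < X)
  have hX1 : (1 : ℝ) ≤ X := by exact_mod_cast (by omega : 1 ≤ X)
  have hl0 : 0 < l := by linarith
  rw [div_lt_iff₀ (by positivity)] at a4
  have h3 : l ^ (3 : ℝ) = l ^ 3 := by
    rw [← Real.rpow_natCast]
    norm_num
  rw [h3] at a4
  have hp1 : (X : ℝ) ^ (0.003 : ℝ) * (X : ℝ) ^ (0.007 : ℝ) = (X : ℝ) ^ (0.01 : ℝ) := by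
    rw [← Real.rpow_add hX0]
    norm_num
  have hp2 : (X : ℝ) ^ (0.01 : ℝ) ≤ X := by
    calc (X : ℝ) ^ (0.01 : ℝ) ≤ (X : ℝ) ^ (1 : ℝ) := Real.rpow_le_rpow_of_exponent_le hX1 (by norm_num)
      _ = X := Real.rpow_one _
  have hl23 : l ^ 2 * 10 ≤ l ^ 3 := by nlinarith [sq_nonneg l]
  have hT16R : 16 * (T : ℝ) ≤ X := by
    calc 16 * (T : ℝ) ≤ 16 * (8 * (X : ℝ) ^ (0.007 : ℝ) * l ^ 2) := by linarith
      _ = (128 * l ^ 2) * (X : ℝ) ^ (0.007 : ℝ) := by ring
      _ ≤ (X : ℝ) ^ (0.003 : ℝ) * (X : ℝ) ^ (0.007 : ℝ) := by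
          apply mul_le_mul_of_nonneg_right _ (by positivity)
          have := sq_nonneg l
          linarith
      _ ≤ X := by rw [hp1]; exact hp2
  have hT16 : 16 * T ≤ X := by exact_mod_cast hT16R
  have hkT : kk X ≤ T := by rw [hT]; exact kk_le_TP X
  refine ⟨hT16, by omega, ?_⟩
  intro N hN
  obtain ⟨n, hn⟩ : ∃ n, n = X / (4 * T) := ⟨_, rfl⟩
  rw [← hn] at hN
  have hT0 : 0 < T := by rw [hT]; exact TP_pos X
  have hTR : (0 : ℝ) < T := by exact_mod_cast hT0
  have hKX : (X : ℝ) / (8 * T) ≤ n := by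
    have h2 : X < (n + 1) * (4 * T) := by
      rw [hn]
      have := Nat.lt_div_mul_add (a := X) (b := 4 * T) (by omega)
      nlinarith
    have h4 : (X : ℝ) < ((n : ℝ) + 1) * (4 * T) := by exact_mod_cast h2
    rw [div_le_iff₀ (by positivity)]
    nlinarith
  obtain ⟨q, hq⟩ : ∃ q, q = (X : ℝ) ^ (-0.99 : ℝ) := ⟨_, rfl⟩
  rw [← hq]
  have hq0 : 0 < q := by
    rw [hq]
    positivity
  have hq1 : q ≤ 1 := by
    rw [hq]
    apply Real.rpow_le_one_of_one_le_of_nonpos hX1
    norm_num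
  have hqX : q * X = (X : ℝ) ^ (0.01 : ℝ) := by
    rw [hq]
    nth_rw 2 [← Real.rpow_one (X : ℝ)]
    rw [← Real.rpow_add hX0]
    congr 1
    norm_num
  have hqK : 4000 * l ≤ q * n := by
    calc 4000 * l ≤ (X : ℝ) ^ (0.003 : ℝ) / (64 * l ^ 2) := by
          rw [le_div_iff₀ (by positivity)]
          nlinarith
      _ = (X : ℝ) ^ (0.01 : ℝ) / (8 * (8 * (X : ℝ) ^ (0.007 : ℝ) * l ^ 2)) := by
          rw [← hp1]
          have : (X : ℝ) ^ (0.007 : ℝ) ≠ 0 := by positivity
          field_simp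
          norm_num
      _ ≤ (X : ℝ) ^ (0.01 : ℝ) / (8 * T) := by
          apply div_le_div_of_nonneg_left (by positivity) (by positivity)
          linarith
      _ = q * (X / (8 * T)) := by rw [← hqX]; ring
      _ ≤ q * n := by gcongr
  have hqN : 2 * l ≤ q * N := by
    calc 2 * l = 0.0005 * (4000 * l) := by ring
      _ ≤ 0.0005 * (q * n) := by linarith
      _ = q * (0.0005 * n) := by ring
      _ ≤ q * N := by gcongr
  calc (1 - q) ^ N ≤ (Real.exp (-q)) ^ N := by
        apply pow_le_pow_left₀ (by linarith)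
        have := Real.add_one_le_exp (-q)
        linarith
    _ = Real.exp (-(q * N)) := by
        rw [← Real.exp_nat_mul]
        congr 1
        ring
    _ ≤ Real.exp (-(2 * l)) := by
        apply Real.exp_le_exp.2
        linarith
    _ = (X : ℝ) ^ (-2 : ℝ) := by
        rw [Real.rpow_def_of_pos hX0, ← hl]
        congr 1
        ring

open Classical in
/-- the probability that nothing is chosen in `(X, 2 X]` -/
theorem weak_prod3 : ∃ D : ℕ, ∀ (z : ℕ → ℕ) (c δ : ℝ), PowG z c δ → δ ≤ 1 / 40000 → δ * D ≤ 1 / 4 →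
    ∀ᶠ X : ℕ in atTop, (∀ j, j < X → lo Set.univ z 0.001 (X + j) ≤ 1) ∧
      ∏ j ∈ range X, (if Rough Set.univ z (X + j + 1) then 1 - lo Set.univ z 0.001 (X + j) else 1) ≤
        (X : ℝ) ^ (-2 : ℝ) := by
  obtain ⟨K, hK, H⟩ := mass
  refine ⟨K * K + 2, ?_⟩
  intro z c δ h hδ hD
  have hl2 : Tendsto (fun X : ℕ => Real.log X ^ 2 / X) atTop (𝓝 0) := by
    have h := (Real.isLittleO_pow_log_id_atTop (n := 2)).tendsto_div_nhds_zero
    exact h.comp tendsto_natCast_atTop_atTop
  filter_upwards [ratio_small3 h hδ, log_tend.eventually_ge_atTop 10,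
    eventually_ge_atTop 2, pow_small h (K * K + 2) (by exact_mod_cast hD) (1 / 4) (by norm_num),
    hl2.eventually_lt_const (show (0 : ℝ) < 1 / 20 by norm_num)] with X a1 a3 a4 a5 a6
  obtain ⟨l, hl⟩ : ∃ l, l = Real.log X := ⟨_, rfl⟩
  rw [← hl] at a3 a6
  have hl0 : 0 < l := by linarith
  have hX0 : (0 : ℝ) < X := by exact_mod_cast (by omega : 0 < X)
  have hX1 : (1 : ℝ) ≤ X := by exact_mod_cast (by omega : 1 ≤ X)
  rw [div_lt_iff₀ hX0] at a6
  have hlog2X : Real.log ((2 * X : ℕ) : ℝ) ≤ l + 1 := by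
    push_cast
    rw [Real.log_mul (by norm_num) hX0.ne', ← hl]
    have := Real.log_two_lt_d9
    linarith
  have hlo1 : ∀ j, j < X → lo Set.univ z 0.001 (X + j) ≤ 1 := by
    intro j hj
    unfold lo
    have h2 := a1 j (by omega)
    have h3 : 0 ≤ W Set.univ (z (X + j + 1)) / Real.log ((X + j : ℕ) : ℝ) :=
      div_nonneg (W_pos _ _).le (Real.log_natCast_nonneg _)
    nlinarith
  refine ⟨hlo1, ?_⟩
  have hlog : ∀ j, j < X → Real.log ((X + j : ℕ) : ℝ) ≤ l + 1 := by
    intro j hj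
    refine le_trans ?_ hlog2X
    apply Real.log_le_log
    · push_cast
      positivity
    · exact_mod_cast (by omega : X + j ≤ 2 * X)
  have hterm : ∀ j ∈ range X, (if Rough Set.univ z (X + j + 1) then 1 - lo Set.univ z 0.001 (X + j) else 1) ≤
      Real.exp (-((1 - 0.001) / (l + 1) *
        (if Rough Set.univ z (X + j + 1) then W Set.univ (z (X + j + 1)) else 0))) := by
    intro j hj
    rw [mem_range] at hj
    by_cases hR : Rough Set.univ z (X + j + 1)
    · rw [if_pos hR, if_pos hR]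
      have h2 : (1 - 0.001) / (l + 1) * W Set.univ (z (X + j + 1)) ≤ lo Set.univ z 0.001 (X + j) := by
        unfold lo
        have hW := W_pos Set.univ (z (X + j + 1))
        have hlp : 0 < Real.log ((X + j : ℕ) : ℝ) := by
          apply Real.log_pos
          exact_mod_cast (by omega : 1 < X + j)
        rw [div_mul_eq_mul_div, mul_div_assoc]
        apply mul_le_mul_of_nonneg_left _ (by norm_num)
        apply div_le_div_of_nonneg_left hW.le hlp (hlog j hj)
      have h3 := Real.add_one_le_exp (-((1 - 0.001) / (l + 1) * W Set.univ (z (X + j + 1))))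
      linarith
    · rw [if_neg hR, if_neg hR]
      simp
  have hprod : ∏ j ∈ range X, (if Rough Set.univ z (X + j + 1) then 1 - lo Set.univ z 0.001 (X + j) else 1) ≤
      ∏ j ∈ range X, Real.exp (-((1 - 0.001) / (l + 1) *
        (if Rough Set.univ z (X + j + 1) then W Set.univ (z (X + j + 1)) else 0))) := by
    apply Finset.prod_le_prod
    · intro j hj
      rw [mem_range] at hj
      by_cases hR : Rough Set.univ z (X + j + 1)
      · rw [if_pos hR]
        linarith [hlo1 j hj]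
      · rw [if_neg hR]
        exact zero_le_one
    · exact hterm
  refine hprod.trans ?_
  rw [← Real.exp_sum, sum_neg_distrib, ← mul_sum, ← sum_shift]
  rw [Real.rpow_def_of_pos hX0, ← hl]
  apply Real.exp_le_exp.2
  have hm := (abs_le.1 (H Set.univ z h.mono K (z (2 * X)) X (X + X) le_rfl (by omega) (h.mono (by omega)))).1
  push_cast at hm a5
  have hZD : ((z (2 * X) : ℝ) + 2) ^ (K * K + 2) ≤ X / 4 := by
    refine a5.trans ?_
    have h1 : (X : ℝ) ^ (0.5 : ℝ) ≤ X := by
      calc (X : ℝ) ^ (0.5 : ℝ) ≤ (X : ℝ) ^ (1 : ℝ) := Real.rpow_le_rpow_of_exponent_le hX1 (by norm_num)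
        _ = X := Real.rpow_one _
    linarith
  have hhalf : (1 / 2 : ℝ) ^ K ≤ 1 / 2 := by
    calc (1 / 2 : ℝ) ^ K ≤ (1 / 2 : ℝ) ^ 1 := pow_le_pow_of_le_one (by norm_num) (by norm_num) hK
      _ = 1 / 2 := pow_one _
  have hS : (X : ℝ) / 4 ≤ ∑ m ∈ Ioc X (X + X), wt Set.univ z m := by
    have e1 : ((X : ℝ) + X - X) = X := by ring
    rw [e1] at hm
    have : (1 / 2 : ℝ) ^ K * X ≤ 1 / 2 * X := mul_le_mul_of_nonneg_right hhalf hX0.le
    linarith
  have hfin : 2 * l ≤ (1 - 0.001) / (l + 1) * ∑ m ∈ Ioc X (X + X), wt Set.univ z m := by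
    calc 2 * l ≤ (1 - 0.001) / (l + 1) * (X / 4) := by
          rw [div_mul_eq_mul_div, le_div_iff₀ (by linarith)]
          nlinarith
      _ ≤ _ := by
          apply mul_le_mul_of_nonneg_left hS
          have : 0 < l + 1 := by linarith
          positivity
  linarith

/-- for sieves of small polynomial growth the first gaps come too early -/
theorem fails3 : ∃ δ : ℝ, 0 < δ ∧ ∀ (z : ℕ → ℕ) (c : ℝ), PowG z c δ → ∀ (Ω : Type) (mΩ : MeasurableSpace Ω)
    (μ : Measure Ω) (_ : IsProbabilityMeasure μ) (ℱ : Filtration ℕ mΩ) (S : ℕ → Set Ω), Mod μ ℱ S Set.univ z →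
    ∀ᵐ ω ∂μ, ∀ᶠ g : ℕ in atTop, (After {k | ω ∈ S k} g).Nonempty ∧
      Real.log (first {k | ω ∈ S k} g) ≤ 249 / 250 * Real.sqrt g := by
  classical
  obtain ⟨D1, H1⟩ := avg
  obtain ⟨D2, H2⟩ := weak_prod3
  obtain ⟨δ, hδdef⟩ : ∃ δ : ℝ, δ = 1 / (4 * ((D1 : ℝ) + D2 + 10000)) := ⟨_, rfl⟩
  have hD1 : (0 : ℝ) ≤ D1 := Nat.cast_nonneg _
  have hD2 : (0 : ℝ) ≤ D2 := Nat.cast_nonneg _
  have hδ0 : 0 < δ := by rw [hδdef]; positivity
  have hδ1 : δ * D1 ≤ 1 / 4 := by
    rw [hδdef, div_mul_eq_mul_div, div_le_iff₀ (by positivity)]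
    linarith
  have hδ2 : δ * D2 ≤ 1 / 4 := by
    rw [hδdef, div_mul_eq_mul_div, div_le_iff₀ (by positivity)]
    linarith
  have hδ3 : δ ≤ 1 / 40000 := by
    rw [hδdef]
    apply one_div_le_one_div_of_le (by norm_num)
    linarith
  refine ⟨δ, hδ0, ?_⟩
  intro z c h Ω mΩ μ _ ℱ S hM
  have hsum : Summable (fun X : ℕ => (X : ℝ) ^ (-2 : ℝ)) := Real.summable_nat_rpow.2 (by norm_num)
  -- nothing chosen in `(X, 2 X]`
  have hweak : ∀ᵐ ω ∂μ, ∀ᶠ X : ℕ in atTop, ∃ m, X < m ∧ m ≤ X + X ∧ ω ∈ S m := by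
    have hev : ∀ᶠ X : ℕ in atTop, μ.real (Nn S X (X + X) ∩
        Gd μ ℱ S (Rough Set.univ z) (lo Set.univ z 0.001) (hi Set.univ z 0.001) X (X + X)) ≤
          (X : ℝ) ^ (-2 : ℝ) := by
      filter_upwards [H2 z c δ h hδ3 hδ2] with X hX
      exact (run_le hM.adapted (Rough Set.univ z) (lo Set.univ z 0.001) (hi Set.univ z 0.001) X X hX.1).trans hX.2
    filter_upwards [bc _ _ hsum hev, ev_ok hM 0.001 (by norm_num)] with ω hω1 hω2
    filter_upwards [hω1, hω2] with X h3 h4
    by_contra hcon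
    push Not at hcon
    apply h3
    refine ⟨fun m hm1 hm2 => hcon m hm1 hm2, fun j hj _ => h4 j hj⟩
  -- long runs
  have hstart : ∀ X : ℕ, X ≤ TP c X * (X / TP c X + 1) ∧ TP c X * (X / TP c X + 1) ≤ X + TP c X := by
    intro X
    have hT := TP_pos (c := c) X
    have h1 := Nat.div_add_mod X (TP c X)
    have h2 := Nat.mod_lt X hT
    have h3 : TP c X * (X / TP c X + 1) = TP c X * (X / TP c X) + TP c X := by ring
    rw [h3]
    constructor <;> omega
  obtain ⟨f, hf⟩ : ∃ f : ℕ → ℕ → ℝ, f = fun X i => ∑ j ∈ range (kk X),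
      wt Set.univ z (TP c X * (X / TP c X + 1) + i * TP c X + j + 1) := ⟨_, rfl⟩
  have hwt : ∀ m, 0 ≤ wt Set.univ z m := by
    intro m
    unfold wt
    split
    · exact (W_pos _ _).le
    · exact le_rfl
  have hf0 : ∀ X i, 0 ≤ f X i := by
    intro X i
    rw [hf]
    exact sum_nonneg (fun j _ => hwt _)
  have hlong : ∀ᵐ ω ∂μ, ∀ᶠ X : ℕ in atTop, ∃ x, X ≤ x ∧ x ≤ 2 * X ∧ ∀ m, x < m → m ≤ x + kk X → ω ∉ S m := by
    have hev : ∀ᶠ X : ℕ in atTop, μ.real (BktG μ ℱ S (Rough Set.univ z) (lo Set.univ z 0.001)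
        (hi Set.univ z 0.001) (fun i => 1 ≤ i ∧ f X i ≤ 0.988 * Real.log X ^ 2)
        (TP c X * (X / TP c X + 1)) (TP c X) (kk X) (X / (4 * TP c X) + 1)) ≤ (X : ℝ) ^ (-2 : ℝ) := by
      filter_upwards [block_prod3 h hδ3, many_blocks3 h.pos, H1 z c δ h hδ1, eventually_ge_atTop 2,
        log_tend.eventually_ge_atTop 1] with X b1 b2 b4 b3 b5
      obtain ⟨hs1, hs2⟩ := hstart X
      have hKT : X / (4 * TP c X) * (4 * TP c X) ≤ X := Nat.div_mul_le_self X _
      have hkT : kk X ≤ TP c X := kk_le_TP X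
      have hcount := good_count (f X) (hf0 X) (X / (4 * TP c X)) (Real.log X ^ 2) (by positivity) (by
        rw [hf]
        exact b4)
      refine (blocksG hM.adapted (Rough Set.univ z) hM.sieved (lo Set.univ z 0.001) (hi Set.univ z 0.001)
        (hi_nonneg Set.univ z 0.001 (by norm_num)) (fun i => 1 ≤ i ∧ f X i ≤ 0.988 * Real.log X ^ 2) _
        (TP c X) (kk X) (X / (4 * TP c X) + 1)
        ((X : ℝ) ^ (-0.99 : ℝ)) hkT ?_ ?_ ?_).trans (b2.2.2 _ (by convert hcount))
      · intro j hj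
        obtain ⟨i, hi'⟩ : ∃ i, TP c X * (X / TP c X + 1) + j = X + i :=
          ⟨TP c X * (X / TP c X + 1) + j - X, by omega⟩
        rw [hi']
        apply b1.1
        have h1 : X / (4 * TP c X) * TP c X * 4 ≤ X := by nlinarith
        have h2 : (X / (4 * TP c X) + 1) * TP c X = X / (4 * TP c X) * TP c X + TP c X := by ring
        omega
      · apply Real.rpow_le_one_of_one_le_of_nonpos
        · exact_mod_cast (by omega : 1 ≤ X)
        · norm_num
      · intro i hi' hG
        have h5 : i * TP c X ≤ X / (4 * TP c X) * TP c X := Nat.mul_le_mul_right _ (by omega)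
        have h6 : X / (4 * TP c X) * TP c X * 4 ≤ X := by nlinarith
        apply b1.2
        · omega
        · omega
        · have := hG.2
          rw [hf] at this
          exact this
    filter_upwards [bc _ _ hsum hev, ev_ok hM 0.001 (by norm_num)] with ω hω1 hω2
    filter_upwards [hω1, hω2, many_blocks3 h.pos] with X h3 h4 b2
    unfold BktG at h3
    simp only [Set.mem_ofPred_eq, not_forall, not_not] at h3
    obtain ⟨i, hi1, _, hi2⟩ := h3
    obtain ⟨hs1, hs2⟩ := hstart X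
    have h5 : i * TP c X ≤ X / (4 * TP c X) * TP c X := Nat.mul_le_mul_right _ (by omega)
    have hKT : X / (4 * TP c X) * (4 * TP c X) ≤ X := Nat.div_mul_le_self X _
    have h6 : X / (4 * TP c X) * TP c X * 4 ≤ X := by nlinarith
    refine ⟨TP c X * (X / TP c X + 1) + i * TP c X, by omega, by omega, ?_⟩
    intro m hm1 hm2
    exact hi2 m hm1 hm2 (fun j hj _ => h4 j (by omega))
  have hkX : ∀ᶠ X : ℕ in atTop, kk X ≤ X := by
    filter_upwards [many_blocks3 h.pos] with X hX
    omega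
  filter_upwards [hweak, hlong] with ω h1 h2
  have h3 := first_le {k | ω ∈ S k} (fun X => X) kk h1 (Eventually.of_forall fun X => le_rfl) h2 hkX
  have h4 := place {k | ω ∈ S k} 1.01 (by norm_num) h3
  have hsq : Tendsto (fun g : ℕ => Real.sqrt g) atTop atTop :=
    Real.tendsto_sqrt_atTop.comp tendsto_natCast_atTop_atTop
  filter_upwards [h4, hsq.eventually_ge_atTop 10000, eventually_ge_atTop 1] with g h5 h6 h7
  refine ⟨h5.1, h5.2.trans ?_⟩
  obtain ⟨s, hs⟩ : ∃ s, s = Real.sqrt g := ⟨_, rfl⟩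
  rw [← hs] at h6 ⊢
  have hs2 : s ^ 2 = g := by
    rw [hs]
    exact Real.sq_sqrt (Nat.cast_nonneg g)
  have h8 : Real.sqrt (((g : ℝ) + 1) / 1.01) ≤ 0.9955 * s := by
    apply Real.sqrt_le_iff.2
    refine ⟨by positivity, ?_⟩
    rw [div_le_iff₀ (by norm_num), ← hs2]
    nlinarith
  have h9 : Real.log 12 ≤ 3 := by
    have h10 : Real.log 12 = 2 * Real.log 2 + Real.log 3 := by
      rw [show (12 : ℝ) = 2 ^ 2 * 3 by norm_num, Real.log_mul (by norm_num) (by norm_num), Real.log_pow]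
      norm_num
    have h11 := Real.log_two_lt_d9
    have h12 : Real.log 3 ≤ Real.log 4 := Real.log_le_log (by norm_num) (by norm_num)
    have h13 : Real.log 4 = 2 * Real.log 2 := by
      rw [show (4 : ℝ) = 2 ^ 2 by norm_num, Real.log_pow]
      norm_num
    linarith
  linarith

end Pool.Agent.J6H89.SM
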