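import Mathlib
import Pool.Agent.J6H89.SM.Ext3

/-!
# The mass of a growing sieve in a progression
-/

set_option autoImplicit false

namespace Pool.Agent.J6H89.SM

open Finset Filter Topology

open Classical in
/-- the indices `i` in `(I, J]` for which no prime `q ≤ v` in `P` divides `a + i T` -/
noncomputable def RP (P : Set ℕ) (v a T I J : ℕ) : Finset ℕ :=
  (Ioc I J).filter (fun i => ∀ p ∈ P, p.Prime → p ≤ v → ¬ p ∣ a + i * T)

/-- the fundamental lemma in a progression -/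
theorem flcP : ∃ K : ℕ, 1 ≤ K ∧ ∀ (P : Set ℕ) (b v Z a T I J : ℕ), K ≤ b → v ≤ Z → I ≤ J →
    (∀ p ∈ P, p.Prime → ¬ p ∣ T) →
    |((RP P v a T I J).card : ℝ) - ((J : ℝ) - I) * (W P v)⁻¹| ≤
      (1 / 2 : ℝ) ^ b * (((J : ℝ) - I) * (W P v)⁻¹) + ((Z + 2 : ℕ) : ℝ) ^ (K * b) := by
  classical
  obtain ⟨K, hK, H⟩ := Pool.Agent.N136.QL.t_FLC
  refine ⟨K, hK, ?_⟩
  intro P b v Z a T I J hb hv hIJ hT
  -- the residue
  have hres : ∀ p : ℕ, ∃ r : ℕ, p.Prime → p ∈ P → r < p ∧ ∀ i : ℕ, p ∣ a + i * T ↔ i % p = r := by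
    intro p
    by_cases hp : p.Prime ∧ p ∈ P
    · have hcop : Nat.Coprime T p := ((Nat.Prime.coprime_iff_not_dvd hp.1).2 (hT p hp.2 hp.1)).symm
      have : Fact p.Prime := ⟨hp.1⟩
      have hT0 : (T : ZMod p) ≠ 0 := by
        intro h0
        exact hT p hp.2 hp.1 ((ZMod.natCast_eq_zero_iff _ _).1 h0)
      refine ⟨(-(a : ZMod p) / T).val, fun _ _ => ⟨ZMod.val_lt _, fun i => ?_⟩⟩
      rw [← ZMod.natCast_eq_zero_iff]
      push_cast
      constructor
      · intro h0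
        have h1 : (i : ZMod p) = -(a : ZMod p) / T := by
          rw [eq_div_iff hT0]
          linear_combination h0
        rw [← h1, ZMod.val_natCast]
      · intro h0
        have h1 : ((i % p : ℕ) : ZMod p) = -(a : ZMod p) / T := by
          rw [h0, ZMod.natCast_zmod_val]
        rw [ZMod.natCast_mod] at h1
        rw [h1]
        field_simp
        ring
    · exact ⟨0, fun h1 h2 => absurd ⟨h1, h2⟩ hp⟩
  choose r hr using hres
  have h := H b (Z + 2) (fun p => if p.Prime ∧ p ∈ P ∧ p ≤ v then {r p} else ∅) (I : ℤ) (J : ℤ) hb (by omega)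
    (by
      intro p hp _
      by_cases hc : p.Prime ∧ p ∈ P ∧ p ≤ v
      · simp only [hc, and_self, if_true]
        refine ⟨?_, by simp⟩
        rw [singleton_subset_iff, mem_range]
        exact (hr p hc.1 hc.2.1).1
      · simp only [hc, if_false]
        simp) (by exact_mod_cast hIJ)
  have e1 : ∏ p ∈ (Ioc 0 (Z + 2)).filter Nat.Prime,
      (1 - (((if p.Prime ∧ p ∈ P ∧ p ≤ v then {r p} else ∅ : Finset ℕ).card : ℕ) : ℝ) / p) = (W P v)⁻¹ := by
    unfold W
    rw [← prod_inv_distrib]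
    have e2 : ∀ p ∈ (Ioc 0 (Z + 2)).filter Nat.Prime,
        (1 - (((if p.Prime ∧ p ∈ P ∧ p ≤ v then {r p} else ∅ : Finset ℕ).card : ℕ) : ℝ) / p) =
        if p.Prime ∧ p ∈ P ∧ p ≤ v then (1 - (p : ℝ)⁻¹) else 1 := by
      intro p _
      by_cases hc : p.Prime ∧ p ∈ P ∧ p ≤ v
      · simp only [hc, and_self, if_true]
        simp
      · simp only [hc, if_false]
        simp
    rw [prod_congr rfl e2, ← prod_filter]
    apply prod_congr
    · ext p
      simp only [mem_filter, mem_Ioc, mem_Icc]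
      constructor
      · rintro ⟨⟨⟨h1, h2⟩, h3⟩, h4, h5, h6⟩
        exact ⟨⟨h1, h6⟩, h3, h5⟩
      · rintro ⟨⟨h1, h5⟩, h3, h6⟩
        exact ⟨⟨⟨by omega, by omega⟩, h3⟩, h3, h6, h5⟩
    · intro p _
      rw [inv_inv]
  rw [e1] at h
  have e3 : ((Ioc (I : ℤ) (J : ℤ)).filter (fun t : ℤ => ∀ p : ℕ, p.Prime → p ≤ Z + 2 →
      (t % p).toNat ∉ (if p.Prime ∧ p ∈ P ∧ p ≤ v then {r p} else ∅ : Finset ℕ))).card = (RP P v a T I J).card := by
    symm
    unfold RP
    refine card_bij (fun m _ => (m : ℤ)) ?_ (fun a _ b _ h => by exact_mod_cast h) ?_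
    · intro m hm
      rw [mem_filter, mem_Ioc] at hm ⊢
      refine ⟨⟨by exact_mod_cast hm.1.1, by exact_mod_cast hm.1.2⟩, ?_⟩
      intro p hp _ hc
      by_cases hcc : p.Prime ∧ p ∈ P ∧ p ≤ v
      · rw [if_pos hcc, mem_singleton] at hc
        refine hm.2 p hcc.2.1 hp hcc.2.2 ?_
        have h1 : ((m : ℤ) % p).toNat = m % p := by
          rw [← Int.natCast_mod, Int.toNat_natCast]
        rw [h1] at hc
        exact ((hr p hp hcc.2.1).2 m).2 hc
      · rw [if_neg hcc] at hc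
        exact absurd hc (notMem_empty _)
    · intro t ht
      rw [mem_filter, mem_Ioc] at ht
      have ht0 : 0 ≤ t := by omega
      obtain ⟨m, rfl⟩ : ∃ m : ℕ, t = m := ⟨t.toNat, by omega⟩
      refine ⟨m, ?_, rfl⟩
      rw [mem_filter, mem_Ioc]
      refine ⟨⟨by exact_mod_cast ht.1.1, by exact_mod_cast ht.1.2⟩, ?_⟩
      intro p hpP hp hpv hd
      refine ht.2 p hp (by omega) ?_
      rw [if_pos ⟨hp, hpP, hpv⟩, mem_singleton]
      have h1 : ((m : ℤ) % p).toNat = m % p := by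
        rw [← Int.natCast_mod, Int.toNat_natCast]
      rw [h1]
      exact ((hr p hp hpP).2 m).1 hd
  rw [← e3]
  have h2 := h
  push_cast at h2 ⊢
  convert h2 using 2

/-- the average of the weights in a progression -/
theorem massP : ∃ K : ℕ, 1 ≤ K ∧ ∀ (P : Set ℕ) (z : ℕ → ℕ), Monotone z → ∀ b Z a T n : ℕ, K ≤ b →
    (∀ p ∈ P, p.Prime → ¬ p ∣ T) → z (a + n * T) ≤ Z →
    ∑ i ∈ Ioc 0 n, wt P z (a + i * T) ≤ (1 + (1 / 2 : ℝ) ^ b) * n + ((Z + 2 : ℕ) : ℝ) ^ (K * b + 2) := by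
  classical
  obtain ⟨K, hK, H⟩ := flcP
  refine ⟨K, hK, ?_⟩
  intro P z hz b Z a T n hb hT hZ
  obtain ⟨u, hu⟩ : ∃ u : ℕ → ℕ, u = fun i => z (a + i * T) := ⟨_, rfl⟩
  have humono : Monotone u := by
    rw [hu]
    intro i j hij
    exact hz (by gcongr)
  have hun : u n ≤ Z := by rw [hu]; exact hZ
  -- the levels of `u`
  obtain ⟨α, hα⟩ : ∃ α : ℕ → ℕ, α = fun v => ((Ioc 0 n).filter (fun m => u m < v)).card := ⟨_, rfl⟩
  have hα0 : α 0 = 0 := by
    rw [hα]
    simp
  have hαZ : α (Z + 1) = n := by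
    rw [hα]
    have : (Ioc 0 n).filter (fun m => u m < Z + 1) = Ioc 0 n := by
      apply filter_true_of_mem
      intro m hm
      have := humono (mem_Ioc.1 hm).2
      omega
    simp only [this, Nat.card_Ioc]
    omega
  have hαmono : ∀ v, α v ≤ α (v + 1) := by
    intro v
    rw [hα]
    simp only
    gcongr
    omega
  have hlow : ∀ v, (Ioc 0 n).filter (fun m => u m < v) = Ioc 0 (α v) := by
    intro v
    have hseg : ∀ k, k ≤ n → ((Ioc 0 k).filter (fun m => u m < v)) =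
        Ioc 0 (((Ioc 0 k).filter (fun m => u m < v)).card) := by
      intro k
      induction k with
      | zero =>
        intro _
        simp
      | succ k ih =>
        intro hk
        have e : Ioc 0 (k + 1) = insert (k + 1) (Ioc 0 k) := by
          ext t
          simp only [mem_Ioc, mem_insert]
          omega
        by_cases h2 : u (k + 1) < v
        · have e2 : (Ioc 0 (k + 1)).filter (fun m => u m < v) = Ioc 0 (k + 1) := by
            apply filter_true_of_mem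
            intro m hm
            exact lt_of_le_of_lt (humono (mem_Ioc.1 hm).2) h2
          rw [e2, Nat.card_Ioc]
          rfl
        · rw [e, filter_insert, if_neg h2]
          exact ih (by omega)
    have := hseg n le_rfl
    rw [hα]
    exact this
  have hlev : ∀ v, (Ioc 0 n).filter (fun m => u m = v) = Ioc (α v) (α (v + 1)) := by
    intro v
    have h1 := hlow v
    have h2 := hlow (v + 1)
    ext m
    have e1 : (m ∈ (Ioc 0 n).filter (fun m => u m < v)) ↔ m ∈ Ioc 0 (α v) := by rw [h1]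
    have e2 : (m ∈ (Ioc 0 n).filter (fun m => u m < v + 1)) ↔ m ∈ Ioc 0 (α (v + 1)) := by rw [h2]
    simp only [mem_filter, mem_Ioc] at e1 e2 ⊢
    constructor
    · rintro ⟨⟨h3, h4⟩, h5⟩
      have h6 := e2.1 ⟨⟨h3, h4⟩, by omega⟩
      refine ⟨?_, h6.2⟩
      by_contra h7
      have h8 := e1.2 ⟨h3, by omega⟩
      omega
    · rintro ⟨h3, h4⟩
      have h6 := e2.2 ⟨by omega, h4⟩
      refine ⟨h6.1, ?_⟩
      by_contra h7
      have h8 := e1.1 ⟨h6.1, by omega⟩
      omega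
  have hsum : ∑ i ∈ Ioc 0 n, wt P z (a + i * T) =
      ∑ v ∈ range (Z + 1), W P v * ((RP P v a T (α v) (α (v + 1))).card : ℝ) := by
    have hmaps : ∀ m ∈ Ioc 0 n, u m ∈ range (Z + 1) := by
      intro m hm
      rw [mem_range]
      have := humono (mem_Ioc.1 hm).2
      omega
    rw [← sum_fiberwise_of_maps_to hmaps]
    apply sum_congr rfl
    intro v _
    rw [hlev v]
    have h1 : ∀ m ∈ Ioc (α v) (α (v + 1)), z (a + m * T) = v := by
      intro m hm
      rw [← hlev v] at hm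
      have := (mem_filter.1 hm).2
      rw [hu] at this
      exact this
    have h2 : ∀ m ∈ Ioc (α v) (α (v + 1)), wt P z (a + m * T) =
        if (∀ p ∈ P, p.Prime → p ≤ v → ¬ p ∣ a + m * T) then W P v else 0 := by
      intro m hm
      unfold wt Rough
      rw [h1 m hm]
    rw [sum_congr rfl h2, ← sum_filter]
    unfold RP
    rw [sum_const, nsmul_eq_mul]
    ring
  have htel : (n : ℝ) = ∑ v ∈ range (Z + 1), ((α (v + 1) : ℝ) - α v) := by
    rw [sum_range_sub (fun v => (α v : ℝ)) (Z + 1), hαZ, hα0]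
    simp
  rw [hsum]
  have hterm : ∀ v ∈ range (Z + 1), W P v * ((RP P v a T (α v) (α (v + 1))).card : ℝ) ≤
      (1 + (1 / 2 : ℝ) ^ b) * ((α (v + 1) : ℝ) - α v) + ((Z + 2 : ℕ) : ℝ) ^ (K * b + 1) := by
    intro v hv
    rw [mem_range] at hv
    have h1 := (abs_le.1 (H P b v Z a T (α v) (α (v + 1)) hb (by omega) (hαmono v) hT)).2
    have hV := W_pos P v
    have h2 : ((RP P v a T (α v) (α (v + 1))).card : ℝ) ≤
        (1 + (1 / 2 : ℝ) ^ b) * (((α (v + 1) : ℝ) - α v) * (W P v)⁻¹) + ((Z + 2 : ℕ) : ℝ) ^ (K * b) := by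
      linarith
    calc W P v * ((RP P v a T (α v) (α (v + 1))).card : ℝ)
        ≤ W P v * ((1 + (1 / 2 : ℝ) ^ b) * (((α (v + 1) : ℝ) - α v) * (W P v)⁻¹) +
          ((Z + 2 : ℕ) : ℝ) ^ (K * b)) := mul_le_mul_of_nonneg_left h2 hV.le
      _ = (1 + (1 / 2 : ℝ) ^ b) * ((α (v + 1) : ℝ) - α v) + W P v * ((Z + 2 : ℕ) : ℝ) ^ (K * b) := by
          field_simp
      _ ≤ (1 + (1 / 2 : ℝ) ^ b) * ((α (v + 1) : ℝ) - α v) +
          ((Z + 2 : ℕ) : ℝ) * ((Z + 2 : ℕ) : ℝ) ^ (K * b) := by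
          have h3 := W_le' P v
          have h4 : (v : ℝ) ≤ Z := by exact_mod_cast (by omega : v ≤ Z)
          have h5 : W P v ≤ ((Z + 2 : ℕ) : ℝ) := by
            push_cast
            linarith
          gcongr
      _ = _ := by ring
  refine (sum_le_sum hterm).trans ?_
  rw [sum_add_distrib, ← mul_sum, ← htel, sum_const, card_range, nsmul_eq_mul]
  have h6 : ((Z + 1 : ℕ) : ℝ) * ((Z + 2 : ℕ) : ℝ) ^ (K * b + 1) ≤ ((Z + 2 : ℕ) : ℝ) ^ (K * b + 2) := by
    rw [pow_succ _ (K * b + 1), mul_comm]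
    gcongr
    omega
  linarith

end Pool.Agent.J6H89.SM
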