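import Mathlib
import Pool.Agent.J6H89.SM.Thr1
import Pool.Agent.J6H89.SM.Bonf

/-!
# The window of primes
-/

set_option autoImplicit false

namespace Pool.Agent.J6H89.SM

open Finset Filter Topology

lemma Pb_pos (A : List ℕ) (hA : ∀ p ∈ A, 2 ≤ p) : 0 < Pb A := by
  induction A with
  | nil => exact one_pos
  | cons q A ih =>
    have hq := hA q (by simp)
    have h1 : (q : ℝ)⁻¹ ≤ 1 / 2 := by
      rw [one_div]
      apply inv_anti₀ (by norm_num)
      exact_mod_cast hq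
    exact mul_pos (ih (fun p hp => hA p (by simp [hp]))) (by linarith)

lemma Pb_le (A : List ℕ) (hA : ∀ p ∈ A, 2 ≤ p) : Pb A ≤ Real.exp (-Sb A) := by
  induction A with
  | nil => simp [Pb, Sb]
  | cons q A ih =>
    have hq := hA q (by simp)
    have h1 : (q : ℝ)⁻¹ ≤ 1 / 2 := by
      rw [one_div]
      apply inv_anti₀ (by norm_num)
      exact_mod_cast hq
    have h2 := ih (fun p hp => hA p (by simp [hp]))
    have h3 := Real.add_one_le_exp (-(q : ℝ)⁻¹)
    change Pb A * (1 - (q : ℝ)⁻¹) ≤ Real.exp (-(Sb A + (q : ℝ)⁻¹))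
    rw [neg_add, Real.exp_add]
    apply mul_le_mul h2 (by linarith) (by linarith) (Real.exp_pos _).le

lemma Pb_ge (A : List ℕ) (hA : ∀ p ∈ A, 2 ≤ p) : Real.exp (-(2 * Sb A)) ≤ Pb A := by
  induction A with
  | nil => simp [Pb, Sb]
  | cons q A ih =>
    have hq := hA q (by simp)
    have h0 : 0 ≤ (q : ℝ)⁻¹ := by positivity
    have h1 : (q : ℝ)⁻¹ ≤ 1 / 2 := by
      rw [one_div]
      apply inv_anti₀ (by norm_num)
      exact_mod_cast hq
    have h2 := ih (fun p hp => hA p (by simp [hp]))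
    have h3 : Real.exp (-(2 * (q : ℝ)⁻¹)) ≤ 1 - (q : ℝ)⁻¹ := by
      have h4 := Real.add_one_le_exp ((q : ℝ)⁻¹)
      have h5 : Real.exp (-(2 * (q : ℝ)⁻¹)) = (Real.exp ((q : ℝ)⁻¹) ^ 2)⁻¹ := by
        rw [Real.exp_neg, ← Real.exp_nat_mul]
        norm_num
      rw [h5, inv_le_comm₀ (by positivity) (by linarith)]
      rw [inv_le_iff_one_le_mul₀ (by linarith)]
      have h6 : (1 + (q : ℝ)⁻¹) ^ 2 ≤ Real.exp ((q : ℝ)⁻¹) ^ 2 := pow_le_pow_left₀ (by linarith) (by linarith) 2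
      obtain ⟨x, hx⟩ : ∃ x, x = (q : ℝ)⁻¹ := ⟨_, rfl⟩
      rw [← hx] at h0 h1 h6 ⊢
      have h7 : 1 ≤ (1 + x) ^ 2 * (1 - x) := by
        have h8 : 0 ≤ x * (1 - x - x ^ 2) := mul_nonneg h0 (by nlinarith)
        nlinarith
      exact h7.trans (mul_le_mul_of_nonneg_right h6 (by linarith))
    change Real.exp (-(2 * (Sb A + (q : ℝ)⁻¹))) ≤ Pb A * (1 - (q : ℝ)⁻¹)
    rw [mul_add, neg_add, Real.exp_add]
    exact mul_le_mul h2 h3 (Real.exp_pos _).le (Pb_pos A (fun p hp => hA p (by simp [hp]))).le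

lemma Pb_eq (A : List ℕ) : Pb A = (A.map (fun q : ℕ => 1 - (q : ℝ)⁻¹)).prod := by
  induction A with
  | nil => simp [Pb]
  | cons q A ih =>
    rw [List.map_cons, List.prod_cons, ← ih, mul_comm]
    rfl

lemma Sb_le_length (A : List ℕ) (m : ℝ) (hA : ∀ p ∈ A, (p : ℝ)⁻¹ ≤ m) : Sb A ≤ A.length * m := by
  induction A with
  | nil => simp [Sb]
  | cons q A ih =>
    have h1 := ih (fun p hp => hA p (by simp [hp]))
    have h2 := hA q (by simp)
    change Sb A + (q : ℝ)⁻¹ ≤ _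
    rw [List.length_cons]
    push_cast
    linarith

lemma le_prod_list (A : List ℕ) (w : ℕ) (hA : ∀ p ∈ A, w ≤ p) : w ^ A.length ≤ A.prod := by
  induction A with
  | nil => simp
  | cons q A ih =>
    rw [List.length_cons, pow_succ, List.prod_cons, mul_comm]
    exact Nat.mul_le_mul (hA q (by simp)) (ih (fun p hp => hA p (by simp [hp])))

/-- the upper end of the window -/
noncomputable def yy (u k : ℕ) : ℕ := ⌊(k : ℝ) ^ (1 / (u : ℝ))⌋₊

/-- the lower end of the window -/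
noncomputable def ww (u k : ℕ) : ℕ := ⌊(k : ℝ) ^ (1 / ((u : ℝ) + 1))⌋₊ + 1

lemma yy_pow (u k : ℕ) (hu : 1 ≤ u) : yy u k ^ u ≤ k := by
  have h1 : (yy u k : ℝ) ≤ (k : ℝ) ^ (1 / (u : ℝ)) := Nat.floor_le (by positivity)
  have h2 : (yy u k : ℝ) ^ u ≤ ((k : ℝ) ^ (1 / (u : ℝ))) ^ u := pow_le_pow_left₀ (Nat.cast_nonneg _) h1 u
  have h3 : ((k : ℝ) ^ (1 / (u : ℝ))) ^ u = k := by
    rw [← Real.rpow_natCast, ← Real.rpow_mul (Nat.cast_nonneg _)]
    rw [one_div, inv_mul_cancel₀ (by positivity), Real.rpow_one]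
  rw [h3] at h2
  exact_mod_cast h2

lemma ww_pow (u k : ℕ) : k < ww u k ^ (u + 1) := by
  have h1 : (k : ℝ) ^ (1 / ((u : ℝ) + 1)) < ww u k := by
    unfold ww
    push_cast
    exact Nat.lt_floor_add_one _
  have h2 : ((k : ℝ) ^ (1 / ((u : ℝ) + 1))) ^ (u + 1) < (ww u k : ℝ) ^ (u + 1) :=
    pow_lt_pow_left₀ h1 (by positivity) (by omega)
  have h3 : ((k : ℝ) ^ (1 / ((u : ℝ) + 1))) ^ (u + 1) = k := by
    rw [← Real.rpow_natCast, ← Real.rpow_mul (Nat.cast_nonneg _)]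
    push_cast
    rw [one_div, inv_mul_cancel₀ (by positivity), Real.rpow_one]
  rw [h3] at h2
  exact_mod_cast h2

lemma rpow_tend (α : ℝ) (hα : 0 < α) : Tendsto (fun k : ℕ => (k : ℝ) ^ α) atTop atTop :=
  (tendsto_rpow_atTop hα).comp tendsto_natCast_atTop_atTop

/-- the logarithm of a function of size `k ^ α` -/
lemma log_ratio (f : ℕ → ℕ) (α : ℝ) (h1 : ∀ᶠ k : ℕ in atTop, 1 / 2 * (k : ℝ) ^ α ≤ f k)
    (h2 : ∀ᶠ k : ℕ in atTop, (f k : ℝ) ≤ 2 * (k : ℝ) ^ α) :
    Tendsto (fun k : ℕ => Real.log (f k) / Real.log k) atTop (𝓝 α) := by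
  have e1 : Tendsto (fun k : ℕ => α - Real.log 2 / Real.log k) atTop (𝓝 α) := by
    have := (log_tend.const_div_atTop (Real.log 2)).const_sub α
    simpa using this
  have e2 : Tendsto (fun k : ℕ => α + Real.log 2 / Real.log k) atTop (𝓝 α) := by
    have := (log_tend.const_div_atTop (Real.log 2)).const_add α
    simpa using this
  refine tendsto_of_tendsto_of_tendsto_of_le_of_le' e1 e2 ?_ ?_
  · filter_upwards [h1, eventually_ge_atTop 2] with k h3 h4
    have hk : (0 : ℝ) < k := by exact_mod_cast (by omega : 0 < k)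
    have hl : 0 < Real.log k := Real.log_pos (by exact_mod_cast (by omega : 1 < k))
    have h5 := Real.log_le_log (by positivity) h3
    rw [Real.log_mul (by norm_num) (by positivity), Real.log_rpow hk, one_div, Real.log_inv] at h5
    rw [le_div_iff₀ hl]
    have : (α - Real.log 2 / Real.log k) * Real.log k = α * Real.log k - Real.log 2 := by
      field_simp
    rw [this]
    linarith
  · filter_upwards [h1, h2, eventually_ge_atTop 2] with k h3 h3' h4
    have hk : (0 : ℝ) < k := by exact_mod_cast (by omega : 0 < k)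
    have hl : 0 < Real.log k := Real.log_pos (by exact_mod_cast (by omega : 1 < k))
    have hf : (0 : ℝ) < f k := lt_of_lt_of_le (by positivity) h3
    have h5 := Real.log_le_log hf h3'
    rw [Real.log_mul (by norm_num) (by positivity), Real.log_rpow hk] at h5
    rw [div_le_iff₀ hl]
    have : (α + Real.log 2 / Real.log k) * Real.log k = α * Real.log k + Real.log 2 := by
      field_simp
    rw [this]
    linarith

lemma yy_bd (u : ℕ) (hu : 1 ≤ u) : (∀ᶠ k : ℕ in atTop, 1 / 2 * (k : ℝ) ^ (1 / (u : ℝ)) ≤ yy u k) ∧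
    (∀ᶠ k : ℕ in atTop, (yy u k : ℝ) ≤ 2 * (k : ℝ) ^ (1 / (u : ℝ))) := by
  have hu0 : (0 : ℝ) < u := by exact_mod_cast hu
  constructor
  · filter_upwards [(rpow_tend (1 / (u : ℝ)) (by positivity)).eventually_ge_atTop 2] with k hk
    have := Nat.sub_one_lt_floor ((k : ℝ) ^ (1 / (u : ℝ)))
    unfold yy
    linarith
  · filter_upwards with k
    have : (yy u k : ℝ) ≤ (k : ℝ) ^ (1 / (u : ℝ)) := Nat.floor_le (by positivity)
    have h2 : 0 ≤ (k : ℝ) ^ (1 / (u : ℝ)) := by positivity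
    linarith

lemma ww_bd (u : ℕ) : (∀ᶠ k : ℕ in atTop, 1 / 2 * (k : ℝ) ^ (1 / ((u : ℝ) + 1)) ≤ ww u k) ∧
    (∀ᶠ k : ℕ in atTop, (ww u k : ℝ) ≤ 2 * (k : ℝ) ^ (1 / ((u : ℝ) + 1))) := by
  constructor
  · filter_upwards with k
    have h1 : (k : ℝ) ^ (1 / ((u : ℝ) + 1)) < ww u k := by
      unfold ww
      push_cast
      exact Nat.lt_floor_add_one _
    have h2 : 0 ≤ (k : ℝ) ^ (1 / ((u : ℝ) + 1)) := by positivity
    linarith
  · filter_upwards [(rpow_tend (1 / ((u : ℝ) + 1)) (by positivity)).eventually_ge_atTop 2] with k hk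
    have h1 : ((⌊(k : ℝ) ^ (1 / ((u : ℝ) + 1))⌋₊ : ℕ) : ℝ) ≤ (k : ℝ) ^ (1 / ((u : ℝ) + 1)) :=
      Nat.floor_le (by positivity)
    unfold ww
    push_cast
    linarith

lemma tend_of_bd (f : ℕ → ℕ) (α : ℝ) (hα : 0 < α) (h1 : ∀ᶠ k : ℕ in atTop, 1 / 2 * (k : ℝ) ^ α ≤ f k) :
    Tendsto f atTop atTop := by
  have h3 : Tendsto (fun n : ℕ => (f n : ℝ)) atTop atTop :=
    tendsto_atTop_mono' _ h1 ((rpow_tend α hα).const_mul_atTop (by norm_num))
  exact tendsto_natCast_atTop_iff.1 h3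

/-- the product over the window -/
theorem VW_window (u : ℕ) (hu : 1 ≤ u) :
    Tendsto (fun k : ℕ => VW (ww u k) (yy u k)) atTop (𝓝 (((u : ℝ) + 1) / u)) := by
  have hu0 : (0 : ℝ) < u := by exact_mod_cast hu
  have hM : Tendsto (fun N : ℕ => W Set.univ N / Real.log N) atTop (𝓝 (Real.exp Real.eulerMascheroniConstant)) := by
    have h := Pool.Agent.H305R2.mertens_three
    refine h.congr ?_
    intro N
    rw [W_univ_eq]
  have hG : Real.exp Real.eulerMascheroniConstant ≠ 0 := (Real.exp_pos _).ne'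
  obtain ⟨y1, y2⟩ := yy_bd u hu
  obtain ⟨w1, w2⟩ := ww_bd u
  have hyt := tend_of_bd _ _ (by positivity) y1
  have hwt := tend_of_bd _ _ (by positivity) w1
  have hly := log_ratio _ _ y1 y2
  have hlw := log_ratio _ _ w1 w2
  have h1 := (hM.comp hyt).div (hM.comp hwt) hG
  have h2 := hly.div hlw (by positivity)
  have h3 := h1.mul h2
  have e : Real.exp Real.eulerMascheroniConstant / Real.exp Real.eulerMascheroniConstant *
      (1 / (u : ℝ) / (1 / ((u : ℝ) + 1))) = ((u : ℝ) + 1) / u := by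
    rw [div_self hG]
    field_simp
  rw [e] at h3
  -- the ends are in order
  have hlt : ∀ᶠ k : ℕ in atTop, ww u k ≤ yy u k := by
    have h4 : Tendsto (fun k : ℕ => (k : ℝ) ^ (1 / (u : ℝ) - 1 / ((u : ℝ) + 1))) atTop atTop := by
      apply rpow_tend
      rw [sub_pos]
      apply one_div_lt_one_div_of_lt hu0
      linarith
    filter_upwards [y1, w2, h4.eventually_ge_atTop 4, eventually_ge_atTop 1] with k a1 a2 a3 a4
    have hk : (0 : ℝ) < k := by exact_mod_cast a4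
    rw [Real.rpow_sub hk, le_div_iff₀ (by positivity)] at a3
    have : (ww u k : ℝ) ≤ yy u k := by linarith
    exact_mod_cast this
  refine h3.congr' ?_
  filter_upwards [hlt, hyt.eventually_ge_atTop 2, hwt.eventually_ge_atTop 2, eventually_ge_atTop 2] with k a1 a2 a3 a4
  have hly0 : 0 < Real.log (yy u k) := Real.log_pos (by exact_mod_cast (by omega : 1 < yy u k))
  have hlw0 : 0 < Real.log (ww u k) := Real.log_pos (by exact_mod_cast (by omega : 1 < ww u k))
  have hlk0 : 0 < Real.log k := Real.log_pos (by exact_mod_cast (by omega : 1 < k))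
  have hW := W_mul_VW a1
  have hWw := W_pos Set.univ (ww u k)
  simp only [Pi.div_apply, Function.comp]
  rw [hW]
  field_simp

/-- the window of primes gives an interval with few numbers that are left -/
theorem window (u : ℕ) (hu : Odd u) : ∃ g : ℝ, 0 < g ∧ g ≤ 1 / 2 ∧ ∀ᶠ k : ℕ in atTop, ∃ A : Finset ℕ,
    (∀ p ∈ A, p.Prime ∧ p ^ u ≤ k) ∧ k ≤ ∏ p ∈ A, p ∧ (∃ y, y ^ u ≤ k ∧ ∏ p ∈ A, p ≤ 4 ^ y) ∧
    (∏ p ∈ A, (1 - (p : ℝ)⁻¹)⁻¹) * (((Icc 1 k).filter (fun n => ∀ p ∈ A, ¬ p ∣ n)).card : ℝ) ≤ (1 - g) * k := by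
  classical
  have hu1 : 1 ≤ u := hu.pos
  have hu0 : (0 : ℝ) < u := by exact_mod_cast hu1
  obtain ⟨s0, hs0⟩ : ∃ s0, s0 = 1 / 2 * Real.log (1 + 1 / (2 * (u : ℝ))) := ⟨_, rfl⟩
  have hs0p : 0 < s0 := by
    rw [hs0]
    have : 0 < Real.log (1 + 1 / (2 * (u : ℝ))) := by
      apply Real.log_pos
      have : 0 < 1 / (2 * (u : ℝ)) := by positivity
      linarith
    positivity
  have hs01 : s0 ≤ 1 / 2 := by
    rw [hs0]
    have h1 : Real.log (1 + 1 / (2 * (u : ℝ))) ≤ 1 / (2 * (u : ℝ)) := by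
      have := Real.log_le_sub_one_of_pos (show 0 < 1 + 1 / (2 * (u : ℝ)) by positivity)
      linarith
    have h2 : 1 / (2 * (u : ℝ)) ≤ 1 := by
      rw [div_le_iff₀ (by positivity)]
      have : (1 : ℝ) ≤ u := by exact_mod_cast hu1
      linarith
    linarith
  obtain ⟨g0, hg0⟩ : ∃ g0, g0 = (s0 / 2) ^ (u + 1) / (Nat.factorial (u + 1) : ℕ) := ⟨_, rfl⟩
  have hF : (1 : ℝ) ≤ (Nat.factorial (u + 1) : ℕ) := by exact_mod_cast Nat.factorial_pos _
  have hg0p : 0 < g0 := by rw [hg0]; positivity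
  have hg01 : g0 ≤ 1 := by
    rw [hg0, div_le_iff₀ (by linarith), one_mul]
    refine le_trans ?_ hF
    apply pow_le_one₀ (by positivity) (by linarith)
  refine ⟨g0 / 2, by positivity, by linarith, ?_⟩
  obtain ⟨y1, y2⟩ := yy_bd u hu1
  obtain ⟨w1, w2⟩ := ww_bd u
  have hyt := tend_of_bd _ _ (by positivity) y1
  have hwt := tend_of_bd _ _ (by positivity) w1
  have hwtR : Tendsto (fun k : ℕ => (ww u k : ℝ)) atTop atTop := tendsto_natCast_atTop_atTop.comp hwt
  have hytR : Tendsto (fun k : ℕ => (yy u k : ℝ)) atTop atTop := tendsto_natCast_atTop_atTop.comp hyt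
  have hV := VW_window u hu1
  have hVl : 1 + 1 / (2 * (u : ℝ)) < ((u : ℝ) + 1) / u := by
    rw [add_div, div_self hu0.ne']
    have : 1 / (2 * (u : ℝ)) < 1 / u := by
      apply one_div_lt_one_div_of_lt hu0
      linarith
    linarith
  have hVu : ((u : ℝ) + 1) / u < 3 := by
    rw [div_lt_iff₀ hu0]
    have : (1 : ℝ) ≤ u := by exact_mod_cast hu1
    linarith
  filter_upwards [hV.eventually_const_lt hVl, hV.eventually_lt_const hVu, hyt.eventually pi_le_nat,
    (log_tend.comp hyt).eventually_ge_atTop (72 / g0), hytR.eventually_ge_atTop (72 / g0),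
    hwtR.eventually_ge_atTop (2 * u / s0), hwtR.eventually_ge_atTop (((u : ℝ) + 1) / s0),
    hwt.eventually_ge_atTop 2] with k a1 a2 a3 a4 a5 a6 a7 a8
  simp only [Function.comp] at a4
  obtain ⟨y, hy⟩ : ∃ y, y = yy u k := ⟨_, rfl⟩
  obtain ⟨w, hw⟩ : ∃ w, w = ww u k := ⟨_, rfl⟩
  rw [← hy] at a1 a2 a3 a4 a5
  rw [← hw] at a1 a2 a6 a7 a8
  have hyk : y ^ u ≤ k := by rw [hy]; exact yy_pow u k hu1
  have hwk : k < w ^ (u + 1) := by rw [hw]; exact ww_pow u k
  obtain ⟨A, hA⟩ : ∃ A, A = (Ioc w y).filter Nat.Prime := ⟨_, rfl⟩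
  obtain ⟨B, hB⟩ : ∃ B, B = A.toList := ⟨_, rfl⟩
  have hmem : ∀ p ∈ B, p.Prime ∧ w < p ∧ p ≤ y := by
    intro p hp
    rw [hB, mem_toList, hA, mem_filter, mem_Ioc] at hp
    exact ⟨hp.2, hp.1.1, hp.1.2⟩
  have hw0 : (0 : ℝ) < w := by exact_mod_cast (by omega : 0 < w)
  have hPA : Pb B = ∏ p ∈ A, (1 - (p : ℝ)⁻¹) := by
    rw [Pb_eq, hB]
    exact prod_map_toList A _
  have hVA : VW w y = ∏ p ∈ A, (1 - (p : ℝ)⁻¹)⁻¹ := by
    unfold VW
    rw [hA]
  have hVP : VW w y = (Pb B)⁻¹ := by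
    rw [hVA, hPA, prod_inv_distrib]
  have hP0 : 0 < Pb B := Pb_pos B (fun p hp => (hmem p hp).1.two_le)
  have hPle := Pb_le B (fun p hp => (hmem p hp).1.two_le)
  have hPge := Pb_ge B (fun p hp => (hmem p hp).1.two_le)
  rw [hVP] at a1 a2
  have hP3 : 1 / 3 ≤ Pb B := by
    rw [inv_lt_comm₀ hP0 (by norm_num)] at a2
    rw [one_div]
    exact a2.le
  have hexp : Real.exp (Sb B) ≤ 3 := by
    have h1 : Real.exp (Sb B) ≤ (Pb B)⁻¹ := by
      rw [le_inv_comm₀ (Real.exp_pos _) hP0, ← Real.exp_neg]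
      exact hPle
    linarith
  have hS : s0 ≤ Sb B := by
    have h1 : (Pb B)⁻¹ ≤ Real.exp (2 * Sb B) := by
      rw [inv_le_comm₀ hP0 (Real.exp_pos _), ← Real.exp_neg]
      exact hPge
    have h2 : 1 + 1 / (2 * (u : ℝ)) ≤ Real.exp (2 * Sb B) := by linarith
    have h3 := Real.log_le_log (by positivity) h2
    rw [Real.log_exp] at h3
    rw [hs0]
    linarith
  -- the gap
  have hgap := Tb_gap (Pb B) (1 / w) (by positivity) hP0.le u B (fun p hp => by
    refine ⟨(hmem p hp).1.two_le, ?_⟩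
    rw [one_div]
    apply inv_anti₀ hw0
    exact_mod_cast (hmem p hp).2.1.le) le_rfl
  rw [hu.add_one.neg_one_pow, one_mul] at hgap
  have hum : (u : ℝ) * (1 / w) ≤ s0 / 2 := by
    rw [div_le_iff₀ hs0p] at a6
    rw [mul_one_div, div_le_iff₀ hw0]
    linarith
  have hmax : s0 / 2 ≤ max 0 (Sb B - u * (1 / w)) := le_trans (by linarith) (le_max_right _ _)
  have hg0le : g0 ≤ (max 0 (Sb B - u * (1 / w))) ^ (u + 1) / (Nat.factorial (u + 1) : ℕ) := by
    rw [hg0]
    apply div_le_div_of_nonneg_right _ (by linarith)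
    exact pow_le_pow_left₀ (by positivity) hmax _
  have hT : Tb u B ≤ Pb B * (1 - g0) := by
    have := mul_le_mul_of_nonneg_left hg0le hP0.le
    linarith
  -- the count
  have hC := Cb_approx w 3 u k B (fun p hp => ⟨(hmem p hp).1, (hmem p hp).2.1⟩) (by rw [hB]; exact A.nodup_toList)
    hexp hwk
  have hC2 := (abs_le.1 hC).2
  have hlen : (B.length : ℝ) + 1 ≤ g0 / 18 * y := by
    have h1 : B.length ≤ Nat.primeCounting y := by
      rw [hB, length_toList, ← card_PP]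
      apply card_le_card
      intro p hp
      rw [hA, mem_filter, mem_Ioc] at hp
      unfold PP
      rw [mem_filter, mem_range]
      exact ⟨by omega, hp.2⟩
    have h2 : (B.length : ℝ) ≤ Nat.primeCounting y := by exact_mod_cast h1
    have hgy : 1 ≤ g0 / 72 * y := by
      rw [div_le_iff₀ hg0p] at a5
      linarith
    have hly : 0 < Real.log y := lt_of_lt_of_le (by positivity) a4
    have h3 : (y : ℝ) / Real.log y ≤ g0 / 72 * y := by
      rw [div_le_iff₀ hg0p] at a4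
      rw [div_le_iff₀ hly]
      have hy0 : (0 : ℝ) ≤ y := Nat.cast_nonneg _
      nlinarith
    have h4 : 0 ≤ g0 / 72 * y := by positivity
    linarith
  have hy0 : (0 : ℝ) ≤ y := Nat.cast_nonneg _
  have hk0 : (0 : ℝ) ≤ k := Nat.cast_nonneg _
  have hpow : ((B.length : ℝ) + 1) ^ u ≤ g0 / 18 * k := by
    calc ((B.length : ℝ) + 1) ^ u ≤ (g0 / 18 * y) ^ u := pow_le_pow_left₀ (by positivity) hlen u
      _ = (g0 / 18) ^ u * (y : ℝ) ^ u := mul_pow _ _ _
      _ ≤ (g0 / 18) ^ 1 * k := by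
          apply mul_le_mul _ (by exact_mod_cast hyk) (by positivity) (by positivity)
          exact pow_le_pow_of_le_one (by positivity) (by linarith) hu1
      _ = _ := by ring
  have hcount : (Cb k B : ℝ) ≤ Pb B * ((1 - g0 / 2) * k) := by
    have h1 : (k : ℝ) * Tb u B ≤ k * (Pb B * (1 - g0)) := mul_le_mul_of_nonneg_left hT hk0
    have h2 : 1 / 3 * (g0 / 2 * k) ≤ Pb B * (g0 / 2 * k) := mul_le_mul_of_nonneg_right hP3 (by positivity)
    nlinarith
  have hlenu : u + 1 ≤ B.length := by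
    have h1 := Sb_le_length B (1 / w) (fun p hp => by
      rw [one_div]
      apply inv_anti₀ hw0
      exact_mod_cast (hmem p hp).2.1.le)
    rw [div_le_iff₀ hs0p] at a7
    have h2 : (u : ℝ) + 1 ≤ B.length := by
      rw [mul_one_div] at h1
      have h3 : s0 ≤ B.length / w := hS.trans h1
      rw [le_div_iff₀ hw0] at h3
      linarith
    exact_mod_cast h2
  have hprodB : B.prod = ∏ p ∈ A, p := by
    rw [hB, prod_toList]
  refine ⟨A, ?_, ?_, ⟨y, hyk, ?_⟩, ?_⟩
  · intro p hp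
    rw [hA, mem_filter, mem_Ioc] at hp
    exact ⟨hp.2, (Nat.pow_le_pow_left hp.1.2 u).trans hyk⟩
  · rw [← hprodB]
    have h1 := le_prod_list B w (fun p hp => (hmem p hp).2.1.le)
    have h2 : w ^ (u + 1) ≤ w ^ B.length := Nat.pow_le_pow_right (by omega) hlenu
    omega
  · refine le_trans ?_ (primorial_le_four_pow y)
    unfold primorial
    apply Nat.le_of_dvd (prod_pos fun p hp => (mem_filter.1 hp).2.pos)
    apply prod_dvd_prod_of_subset
    intro p hp
    rw [hA, mem_filter, mem_Ioc] at hp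
    rw [mem_filter, mem_range]
    exact ⟨by omega, hp.2⟩
  · have hCb : (((Icc 1 k).filter (fun n => ∀ p ∈ A, ¬ p ∣ n)).card : ℝ) = Cb k B := by
      unfold Cb
      congr 2
      ext n
      rw [hB]
      simp only [mem_filter, mem_toList]
    rw [← hVA, hVP, hCb]
    rw [inv_mul_le_iff₀ hP0]
    exact hcount

end Pool.Agent.J6H89.SM
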