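import Mathlib
import Pool.Agent.J6H89.SM.Thr2

/-!
# The blocks for a sieve that is at least a power of the logarithm
-/

set_option autoImplicit false

namespace Pool.Agent.J6H89.SM

open Finset MeasureTheory Filter Topology

/-- an unbounded sieve of small polynomial growth -/
structure PowU (z : ℕ → ℕ) (δ : ℝ) : Prop where
  mono : Monotone z
  tend : Tendsto z atTop atTop
  dpos : 0 < δ
  upp : ∀ᶠ n : ℕ in atTop, (z n : ℝ) ≤ (n : ℝ) ^ δ

variable {z : ℕ → ℕ} {δ : ℝ}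

/-- the conditional probabilities are small -/
theorem ratio_small4 (h : PowU z δ) (κ : ℝ) (hδ : 4 * δ ≤ κ) :
    ∀ᶠ X : ℕ in atTop, ∀ j : ℕ, j ≤ X → W Set.univ (z (X + j + 1)) / Real.log ((X + j : ℕ) : ℝ) ≤ κ := by
  obtain ⟨N1, hN1⟩ := eventually_atTop.1 W_univ_le
  filter_upwards [h.tend.eventually_ge_atTop (max N1 1), t3.eventually h.upp,
    log_tend.eventually_ge_atTop 10, eventually_ge_atTop 2] with X a1 a2 a4 a5 j hj
  obtain ⟨l, hl⟩ : ∃ l, l = Real.log X := ⟨_, rfl⟩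
  rw [← hl] at a4
  have hl0 : 0 < l := by linarith
  have hX0 : (0 : ℝ) < X := by exact_mod_cast (by omega : 0 < X)
  have hzm : z X ≤ z (X + j + 1) := h.mono (by omega)
  have hzN : N1 ≤ z (X + j + 1) := le_trans (le_trans (le_max_left _ _) a1) hzm
  have hz1 : 1 ≤ z (X + j + 1) := le_trans (le_trans (le_max_right _ _) a1) hzm
  have h2 := log_mul_le (X := X) (c := 3) (by omega) (by norm_num) (by
      rw [← hl]
      have h4 : Real.log ((3 : ℕ) : ℝ) ≤ 3 - 1 := by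
        have := Real.log_le_sub_one_of_pos (show (0 : ℝ) < 3 by norm_num)
        exact_mod_cast this
      linarith)
  rw [← hl] at h2
  have hz3 : Real.log (z (X + j + 1)) ≤ δ * (2 * l) := by
    have h1 : (z (X + j + 1) : ℝ) ≤ z (3 * X) := by exact_mod_cast h.mono (by omega)
    have h5 : (0 : ℝ) < z (X + j + 1) := by exact_mod_cast hz1
    calc Real.log (z (X + j + 1)) ≤ Real.log (((3 * X : ℕ) : ℝ) ^ δ) := Real.log_le_log h5 (h1.trans a2)
      _ = δ * Real.log ((3 * X : ℕ) : ℝ) := Real.log_rpow (by push_cast; positivity) _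
      _ ≤ δ * (2 * l) := mul_le_mul_of_nonneg_left h2 h.dpos.le
  have hW := hN1 _ hzN
  have h9 : l ≤ Real.log ((X + j : ℕ) : ℝ) := by
    rw [hl]
    apply Real.log_le_log hX0
    push_cast
    have : (0 : ℝ) ≤ j := Nat.cast_nonneg j
    linarith
  have hκ : 0 < κ := by linarith [h.dpos]
  rw [div_le_iff₀ (by linarith)]
  calc W Set.univ (z (X + j + 1)) ≤ 1.95 * (δ * (2 * l)) := by linarith
    _ ≤ κ * l := by nlinarith [mul_le_mul_of_nonneg_right hδ hl0.le, mul_pos h.dpos hl0]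
    _ ≤ κ * Real.log ((X + j : ℕ) : ℝ) := by gcongr

/-- the error terms are small -/
theorem pow_small4 (h : PowU z δ) (D : ℕ) (hD : δ * D ≤ 1 / 4) (ε : ℝ) (hε : 0 < ε) :
    ∀ᶠ X : ℕ in atTop, ((z (2 * X) + 2 : ℕ) : ℝ) ^ D ≤ ε * (X : ℝ) ^ (0.5 : ℝ) := by
  have ht : Tendsto (fun X : ℕ => (X : ℝ) ^ (1 / 4 : ℝ)) atTop atTop :=
    (tendsto_rpow_atTop (by norm_num)).comp tendsto_natCast_atTop_atTop
  filter_upwards [t2.eventually h.upp, ht.eventually_ge_atTop (3 ^ D * 2 / ε), eventually_ge_atTop 2] with X a1 a2 a3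
  have hX0 : (0 : ℝ) < X := by exact_mod_cast (by omega : 0 < X)
  have hX1 : (1 : ℝ) ≤ X := by exact_mod_cast (by omega : 1 ≤ X)
  have h2X : (1 : ℝ) ≤ ((2 * X : ℕ) : ℝ) := by exact_mod_cast (by omega : 1 ≤ 2 * X)
  have h1 : (1 : ℝ) ≤ ((2 * X : ℕ) : ℝ) ^ δ := Real.one_le_rpow h2X h.dpos.le
  have h2 : ((z (2 * X) + 2 : ℕ) : ℝ) ≤ 3 * ((2 * X : ℕ) : ℝ) ^ δ := by
    push_cast at a1 h1 ⊢
    linarith
  have h3 : (((2 * X : ℕ) : ℝ) ^ δ) ^ D ≤ 2 * (X : ℝ) ^ (1 / 4 : ℝ) := by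
    rw [← Real.rpow_natCast, ← Real.rpow_mul (by positivity)]
    calc ((2 * X : ℕ) : ℝ) ^ (δ * D) ≤ ((2 * X : ℕ) : ℝ) ^ (1 / 4 : ℝ) :=
          Real.rpow_le_rpow_of_exponent_le h2X hD
      _ = (2 : ℝ) ^ (1 / 4 : ℝ) * (X : ℝ) ^ (1 / 4 : ℝ) := by
          push_cast
          rw [Real.mul_rpow (by norm_num) hX0.le]
      _ ≤ 2 * (X : ℝ) ^ (1 / 4 : ℝ) := by
          apply mul_le_mul_of_nonneg_right _ (by positivity)
          calc (2 : ℝ) ^ (1 / 4 : ℝ) ≤ (2 : ℝ) ^ (1 : ℝ) :=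
                Real.rpow_le_rpow_of_exponent_le (by norm_num) (by norm_num)
            _ = 2 := Real.rpow_one _
  have h4 : 3 ^ D * 2 ≤ ε * (X : ℝ) ^ (1 / 4 : ℝ) := by
    rw [div_le_iff₀ hε] at a2
    linarith
  calc ((z (2 * X) + 2 : ℕ) : ℝ) ^ D ≤ (3 * ((2 * X : ℕ) : ℝ) ^ δ) ^ D :=
        pow_le_pow_left₀ (by positivity) h2 D
    _ = 3 ^ D * (((2 * X : ℕ) : ℝ) ^ δ) ^ D := mul_pow _ _ _
    _ ≤ 3 ^ D * (2 * (X : ℝ) ^ (1 / 4 : ℝ)) := by
        apply mul_le_mul_of_nonneg_left h3 (by positivity)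
    _ = (3 ^ D * 2) * (X : ℝ) ^ (1 / 4 : ℝ) := by ring
    _ ≤ (ε * (X : ℝ) ^ (1 / 4 : ℝ)) * (X : ℝ) ^ (1 / 4 : ℝ) := by
        apply mul_le_mul_of_nonneg_right h4 (by positivity)
    _ = ε * (X : ℝ) ^ (0.5 : ℝ) := by
        rw [mul_assoc, ← Real.rpow_add hX0]
        norm_num

lemma W_split (A : Finset ℕ) (v : ℕ) (hA : ∀ p ∈ A, p.Prime ∧ p ≤ v) :
    W Set.univ v = (∏ p ∈ A, (1 - (p : ℝ)⁻¹)⁻¹) * W ((A : Set ℕ)ᶜ) v := by
  classical
  rw [W_univ_eq]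
  unfold W
  rw [← prod_union]
  · apply prod_congr _ (fun _ _ => rfl)
    ext p
    simp only [mem_filter, mem_Icc, mem_union, Set.mem_compl_iff, mem_coe]
    constructor
    · rintro ⟨⟨h1, h2⟩, h3⟩
      by_cases h4 : p ∈ A
      · left; exact h4
      · right; exact ⟨⟨h1, h2⟩, h3, h4⟩
    · rintro (h1 | ⟨⟨h1, h2⟩, h3, _⟩)
      · exact ⟨⟨(hA p h1).1.one_lt.le, (hA p h1).2⟩, (hA p h1).1⟩
      · exact ⟨⟨h1, h2⟩, h3⟩
  · rw [disjoint_left]
    intro p h1 h2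
    simp only [mem_filter, Set.mem_compl_iff, mem_coe] at h2
    exact h2.2.2 h1

/-- the weights in a block after a multiple of the product of the primes of the window -/
lemma wt_le4 {k x : ℕ} (A : Finset ℕ) (hz : Monotone z) (hQ : (∏ p ∈ A, p) ∣ x) (hA : ∀ p ∈ A, p.Prime ∧ p ≤ z x) :
    ∑ j ∈ range k, wt Set.univ z (x + j + 1) ≤ (∏ p ∈ A, (1 - (p : ℝ)⁻¹)⁻¹) *
      ∑ t ∈ (Icc 1 k).filter (fun n => ∀ p ∈ A, ¬ p ∣ n), wt ((A : Set ℕ)ᶜ) z (x + t) := by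
  classical
  obtain ⟨V, hV⟩ : ∃ V, V = ∏ p ∈ A, (1 - (p : ℝ)⁻¹)⁻¹ := ⟨_, rfl⟩
  obtain ⟨F, hF⟩ : ∃ F, F = (Icc 1 k).filter (fun n => ∀ p ∈ A, ¬ p ∣ n) := ⟨_, rfl⟩
  rw [← hV, ← hF]
  have hpx : ∀ p ∈ A, p ∣ x := fun p hp => (dvd_prod_of_mem (fun q => q) hp).trans hQ
  have h1 : ∀ j ∈ range k, wt Set.univ z (x + j + 1) =
      if j + 1 ∈ F then V * wt ((A : Set ℕ)ᶜ) z (x + (j + 1)) else 0 := by
    intro j hj
    rw [mem_range] at hj
    have hAz : ∀ p ∈ A, p.Prime ∧ p ≤ z (x + j + 1) := fun p hp => ⟨(hA p hp).1, (hA p hp).2.trans (hz (by omega))⟩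
    unfold wt
    by_cases hmem : j + 1 ∈ F
    · rw [if_pos hmem]
      have hsm : ∀ p ∈ A, ¬ p ∣ x + j + 1 := by
        intro p hp hd
        rw [hF, mem_filter] at hmem
        refine hmem.2 p hp ?_
        rw [add_assoc] at hd
        exact (Nat.dvd_add_right (hpx p hp)).1 hd
      by_cases hR : Rough Set.univ z (x + j + 1)
      · have h3 : Rough ((A : Set ℕ)ᶜ) z (x + (j + 1)) := by
          intro p _ hp hpz
          exact hR p (Set.mem_univ _) hp hpz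
        rw [if_pos hR, if_pos h3, hV]
        exact W_split A _ hAz
      · have h3 : ¬ Rough ((A : Set ℕ)ᶜ) z (x + (j + 1)) := by
          intro h4
          apply hR
          intro p _ hp hpz
          by_cases h5 : p ∈ A
          · exact hsm p h5
          · exact h4 p h5 hp hpz
        rw [if_neg hR, if_neg h3, mul_zero]
    · rw [if_neg hmem, if_neg]
      intro hR
      apply hmem
      rw [hF, mem_filter, mem_Icc]
      refine ⟨⟨by omega, by omega⟩, ?_⟩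
      intro p hp hd
      refine hR p (Set.mem_univ _) (hAz p hp).1 (hAz p hp).2 ?_
      rw [add_assoc]
      exact dvd_add (hpx p hp) hd
  rw [sum_congr rfl h1, ← sum_filter, mul_sum]
  apply le_of_eq
  apply sum_bij (fun j _ => j + 1)
  · intro j hj
    exact (mem_filter.1 hj).2
  · intro a _ b _ hab
    simpa using hab
  · intro t ht
    have ht2 := ht
    rw [hF, mem_filter, mem_Icc] at ht2
    refine ⟨t - 1, ?_, by omega⟩
    rw [mem_filter, mem_range]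
    refine ⟨by omega, ?_⟩
    rw [show t - 1 + 1 = t by omega]
    exact ht
  · intro j _
    rfl

/-- the length of the blocks -/
noncomputable def kf (η : ℝ) (X : ℕ) : ℕ := ⌊(1 + η) * Real.log X ^ 2⌋₊

lemma kf_tend (η : ℝ) (hη : 0 < η) : Tendsto (kf η) atTop atTop := by
  apply tendsto_nat_floor_atTop.comp
  apply Tendsto.const_mul_atTop (by linarith)
  exact (tendsto_pow_atTop (by norm_num)).comp log_tend

/-- `y ^ 3 ≤ k` with `k` of the size of the square of the logarithm makes `4 ^ y` small -/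
lemma four_pow_small (τ : ℝ) (hτ : 0 < τ) : ∀ᶠ X : ℕ in atTop, ∀ y : ℕ, (y : ℝ) ^ 3 ≤ 2 * Real.log X ^ 2 →
    (4 : ℝ) ^ y ≤ (X : ℝ) ^ τ := by
  filter_upwards [log_tend.eventually_ge_atTop (16 / τ ^ 3), log_tend.eventually_ge_atTop 1,
    eventually_ge_atTop 2] with X a1 a2 a3 y hy
  obtain ⟨l, hl⟩ : ∃ l, l = Real.log X := ⟨_, rfl⟩
  rw [← hl] at a1 a2 hy
  have hX0 : (0 : ℝ) < X := by exact_mod_cast (by omega : 0 < X)
  have hl0 : 0 < l := by linarith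
  have h1 : (y : ℝ) ≤ τ * l / 2 := by
    by_contra hcon
    have hcon' : τ * l / 2 < y := not_le.1 hcon
    have h2 : (τ * l / 2) ^ 3 < (y : ℝ) ^ 3 := pow_lt_pow_left₀ hcon' (by positivity) (by norm_num)
    rw [div_le_iff₀ (by positivity)] at a1
    have h3 : (τ * l / 2) ^ 3 = (l * τ ^ 3) * l ^ 2 / 8 := by ring
    rw [h3] at h2
    have h4 : 16 * l ^ 2 ≤ (l * τ ^ 3) * l ^ 2 := mul_le_mul_of_nonneg_right a1 (by positivity)
    linarith
  have h4 : (4 : ℝ) ^ y = Real.exp ((y : ℝ) * Real.log 4) := by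
    rw [Real.exp_nat_mul, Real.exp_log (by norm_num)]
  rw [h4, Real.rpow_def_of_pos hX0, ← hl]
  apply Real.exp_le_exp.2
  have hl4 : Real.log 4 ≤ 2 := by
    have h13 : Real.log 4 = 2 * Real.log 2 := by
      rw [show (4 : ℝ) = 2 ^ 2 by norm_num, Real.log_pow]
      norm_num
    have := Real.log_two_lt_d9
    linarith
  have hy0 : (0 : ℝ) ≤ y := Nat.cast_nonneg _
  calc (y : ℝ) * Real.log 4 ≤ y * 2 := mul_le_mul_of_nonneg_left hl4 hy0
    _ ≤ (τ * l / 2) * 2 := by linarith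
    _ = l * τ := by ring

/-- what is used about the distance of the blocks -/
structure Dist (z : ℕ → ℕ) (τ : ℝ) (X k T : ℕ) : Prop where
  pos : 0 < T
  len : k ≤ T
  small : (T : ℝ) ≤ (X : ℝ) ^ τ
  avg : ∑ i ∈ Ioc 0 (X / (4 * T)), ∑ j ∈ range k, wt Set.univ z (T * (X / T + 1) + i * T + j + 1) ≤
    (1 - 4 * τ) * Real.log X ^ 2 * ((X / (4 * T) : ℕ) : ℝ)

lemma poly_small (τ : ℝ) (hτ : 0 < τ) : (1 - 32 * τ) * (1 + τ) * (1 + 32 * τ / 2) ≤ 1 - 4 * τ := by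
  have h1 : (1 - 32 * τ) * (1 + τ) * (1 + 32 * τ / 2) = 1 - 15 * τ - 528 * τ ^ 2 - 512 * τ ^ 3 := by ring
  rw [h1]
  have h2 : 0 < τ ^ 2 := by positivity
  have h3 : 0 < τ ^ 3 := by positivity
  linarith

/-- the sums of weights in the blocks are small on average -/
theorem avg4 (ε : ℝ) (hε : 0 < ε) : ∃ τ : ℝ, 0 < τ ∧ τ ≤ 1 / 16 ∧ ∃ D : ℕ, ∀ (z : ℕ → ℕ) (δ : ℝ), PowU z δ →
    δ * D ≤ 1 / 4 → ∀ᶠ X : ℕ in atTop, Real.log X ^ ε ≤ z X → ∃ T : ℕ, Dist z τ X (kf τ X) T := by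
  classical
  -- the choice of `u`
  obtain ⟨u, hu, hu3, huε⟩ : ∃ u : ℕ, Odd u ∧ 3 ≤ u ∧ 2 / (u : ℝ) < ε := by
    obtain ⟨m, hm⟩ := exists_nat_gt (2 / ε)
    refine ⟨2 * m + 3, ⟨m + 1, by ring⟩, by omega, ?_⟩
    rw [div_lt_iff₀ (by positivity)]
    rw [div_lt_iff₀ hε] at hm
    push_cast
    have h1 : ε * (2 * (m : ℝ) + 3) = 2 * (m * ε) + 3 * ε := by ring
    rw [h1]
    linarith
  obtain ⟨g, hg0, hg1, hwin⟩ := window u hu
  obtain ⟨K, hK, H⟩ := massP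
  obtain ⟨b0, hb0⟩ := exists_pow_lt_of_lt_one (show 0 < g / 4 by positivity) (show (1 / 2 : ℝ) < 1 by norm_num)
  obtain ⟨b, hb⟩ : ∃ b, b = max K b0 := ⟨_, rfl⟩
  have hKb : K ≤ b := by rw [hb]; exact le_max_left _ _
  have hbg : (1 / 2 : ℝ) ^ b ≤ g / 4 := by
    refine le_trans ?_ hb0.le
    apply pow_le_pow_of_le_one (by norm_num) (by norm_num)
    rw [hb]; exact le_max_right _ _
  obtain ⟨τ, hτdef⟩ : ∃ τ, τ = g / 32 := ⟨_, rfl⟩
  have hτ0 : 0 < τ := by rw [hτdef]; positivity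
  have hτg : g = 32 * τ := by rw [hτdef]; ring
  refine ⟨τ, hτ0, by rw [hτdef]; linarith, K * b + 2, ?_⟩
  intro z δ h hD
  have hu0 : (0 : ℝ) < u := by exact_mod_cast (by omega : 0 < u)
  have hX4 : Tendsto (fun X : ℕ => (X : ℝ) ^ (0.25 : ℝ)) atTop atTop := rpow_tend _ (by norm_num)
  have hlε : Tendsto (fun X : ℕ => Real.log X ^ (ε - 2 / u)) atTop atTop :=
    (tendsto_rpow_atTop (by linarith)).comp log_tend
  filter_upwards [(kf_tend τ hτ0).eventually hwin, pow_small4 h (K * b + 2) (by exact_mod_cast hD) (g / 64)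
    (by positivity), four_pow_small τ hτ0, log_tend.eventually_ge_atTop 10, eventually_ge_atTop 2,
    hX4.eventually_ge_atTop 8, hlε.eventually_ge_atTop 2] with X a1 a2 a5 a6 a7 a8 a9 hzX
  obtain ⟨l, hl⟩ : ∃ l, l = Real.log X := ⟨_, rfl⟩
  obtain ⟨k, hk⟩ : ∃ k, k = kf τ X := ⟨_, rfl⟩
  rw [← hk] at a1 ⊢
  rw [← hl] at a5 a6 a9 hzX
  have hl0 : 0 < l := by linarith
  have hX0 : (0 : ℝ) < X := by exact_mod_cast (by omega : 0 < X)
  have hX1 : (1 : ℝ) ≤ X := by exact_mod_cast (by omega : 1 ≤ X)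
  obtain ⟨A, hA1, hA2, ⟨y, hy1, hy2⟩, hA3⟩ := a1
  have hk1 : (k : ℝ) ≤ (1 + τ) * l ^ 2 := by
    rw [hk, kf, ← hl]
    exact Nat.floor_le (by positivity)
  have hk2 : (k : ℝ) ≤ 2 * l ^ 2 := by
    refine hk1.trans (mul_le_mul_of_nonneg_right ?_ (by positivity))
    rw [hτdef]
    linarith
  obtain ⟨T, hT⟩ : ∃ T, T = ∏ p ∈ A, p := ⟨_, rfl⟩
  rw [← hT] at hA2 hy2
  have hT0 : 0 < T := by
    rw [hT]
    exact prod_pos fun p hp => (hA1 p hp).1.pos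
  have hy3 : (y : ℝ) ^ 3 ≤ 2 * l ^ 2 := by
    refine le_trans ?_ hk2
    have h1 : y ^ 3 ≤ y ^ u := by
      rcases Nat.eq_zero_or_pos y with h0 | h0
      · subst h0
        rw [zero_pow (by norm_num), zero_pow (by omega)]
      · exact Nat.pow_le_pow_right h0 hu3
    exact_mod_cast h1.trans hy1
  have hTX : (T : ℝ) ≤ (X : ℝ) ^ τ := by
    refine le_trans ?_ (a5 y hy3)
    exact_mod_cast hy2
  -- the primes of the window are sieved out
  have hAz : ∀ p ∈ A, p ≤ z X := by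
    intro p hp
    have h1 : ((p : ℝ)) ^ u ≤ 2 * l ^ 2 := by
      refine le_trans ?_ hk2
      exact_mod_cast (hA1 p hp).2
    by_contra hcon
    have h2 : (z X : ℝ) ≤ p := by exact_mod_cast (by omega : z X ≤ p)
    have h3 : l ^ ε ≤ p := hzX.trans h2
    have h4 : (l ^ ε) ^ u ≤ (p : ℝ) ^ u := pow_le_pow_left₀ (by positivity) h3 u
    have h5 : l ^ ε = l ^ (ε - 2 / u) * l ^ (2 / (u : ℝ)) := by
      rw [← Real.rpow_add hl0]
      congr 1
      ring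
    have h6 : (l ^ (2 / (u : ℝ))) ^ u = l ^ 2 := by
      rw [← Real.rpow_natCast, ← Real.rpow_mul hl0.le, div_mul_cancel₀ _ hu0.ne']
      norm_num
    rw [h5, mul_pow, h6] at h4
    have h7 : (2 : ℝ) ^ 3 ≤ (l ^ (ε - 2 / (u : ℝ))) ^ u := by
      calc (2 : ℝ) ^ 3 ≤ (2 : ℝ) ^ u := pow_le_pow_right₀ (by norm_num) hu3
        _ ≤ _ := pow_le_pow_left₀ (by norm_num) a9 u
    have h8 : 0 < l ^ 2 := by positivity
    have h9 : (2 : ℝ) ^ 3 * l ^ 2 ≤ (l ^ (ε - 2 / (u : ℝ))) ^ u * l ^ 2 := mul_le_mul_of_nonneg_right h7 h8.le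
    linarith
  -- the places of the blocks
  obtain ⟨n, hn⟩ : ∃ n, n = X / (4 * T) := ⟨_, rfl⟩
  obtain ⟨x0, hx0⟩ : ∃ x0, x0 = T * (X / T + 1) := ⟨_, rfl⟩
  have hx1 : X ≤ x0 := by
    rw [hx0]
    have h1 := Nat.div_add_mod X T
    have h2 := Nat.mod_lt X hT0
    have h3 : T * (X / T + 1) = T * (X / T) + T := by ring
    omega
  have hx2 : x0 ≤ X + T := by
    rw [hx0]
    have h1 := Nat.div_add_mod X T
    have h3 : T * (X / T + 1) = T * (X / T) + T := by ring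
    omega
  have hnT : n * T * 4 ≤ X := by
    have := Nat.div_mul_le_self X (4 * T)
    rw [← hn] at this
    linarith
  have hTR : (0 : ℝ) < T := by exact_mod_cast hT0
  have hτ1 : τ ≤ 0.25 := by rw [hτdef]; linarith
  have hT4 : (T : ℝ) ≤ (X : ℝ) ^ (0.25 : ℝ) := hTX.trans (Real.rpow_le_rpow_of_exponent_le hX1 hτ1)
  have hX5 : (1 : ℝ) ≤ (X : ℝ) ^ (0.5 : ℝ) := Real.one_le_rpow hX1 (by norm_num)
  have h8T : 8 * (T : ℝ) * (X : ℝ) ^ (0.5 : ℝ) ≤ X := by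
    calc 8 * (T : ℝ) * (X : ℝ) ^ (0.5 : ℝ) ≤ (X : ℝ) ^ (0.25 : ℝ) * (X : ℝ) ^ (0.25 : ℝ) * (X : ℝ) ^ (0.5 : ℝ) := by
          gcongr
      _ = (X : ℝ) ^ (1 : ℝ) := by
          rw [← Real.rpow_add hX0, ← Real.rpow_add hX0]
          norm_num
      _ = X := Real.rpow_one _
  have hT8R : 8 * (T : ℝ) ≤ X := by
    refine le_trans ?_ h8T
    exact le_mul_of_one_le_right (by positivity) hX5
  have hT8 : 8 * T ≤ X := by exact_mod_cast hT8R
  have hKX : (X : ℝ) / (8 * T) ≤ n := by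
    have h2 : X < (n + 1) * (4 * T) := by
      rw [hn]
      have := Nat.lt_div_mul_add (a := X) (b := 4 * T) (by omega)
      linarith
    have h4 : (X : ℝ) < ((n : ℝ) + 1) * (4 * T) := by exact_mod_cast h2
    rw [div_le_iff₀ (by positivity)]
    linarith
  have hn5 : (X : ℝ) ^ (0.5 : ℝ) ≤ n := by
    refine le_trans ?_ hKX
    rw [le_div_iff₀ (by positivity)]
    linarith
  refine ⟨T, hT0, hA2, hTX, ?_⟩
  rw [← hn, ← hx0, ← hl]
  have hstep : ∀ i ∈ Ioc 0 n, ∑ j ∈ range k, wt Set.univ z (x0 + i * T + j + 1) ≤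
      (∏ p ∈ A, (1 - (p : ℝ)⁻¹)⁻¹) * ∑ t ∈ (Icc 1 k).filter (fun n => ∀ p ∈ A, ¬ p ∣ n),
        wt ((A : Set ℕ)ᶜ) z (x0 + i * T + t) := by
    intro i _
    apply wt_le4 A h.mono
    · rw [← hT]
      apply dvd_add
      · rw [hx0]; exact Dvd.intro _ rfl
      · exact Dvd.intro_left _ rfl
    · intro p hp
      exact ⟨(hA1 p hp).1, (hAz p hp).trans (h.mono (by omega))⟩
  refine (sum_le_sum hstep).trans ?_
  rw [← mul_sum, sum_comm]
  have hTd : ∀ p ∈ ((A : Set ℕ)ᶜ), p.Prime → ¬ p ∣ T := by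
    intro p hpA hp hd
    rw [hT] at hd
    obtain ⟨q, hq, hpq⟩ := (hp.prime.dvd_finsetProd_iff _).1 hd
    have := (Nat.prime_dvd_prime_iff_eq hp (hA1 q hq).1).1 hpq
    rw [this] at hpA
    exact hpA hq
  have hin : ∀ t ∈ (Icc 1 k).filter (fun n => ∀ p ∈ A, ¬ p ∣ n),
      ∑ i ∈ Ioc 0 n, wt ((A : Set ℕ)ᶜ) z (x0 + i * T + t) ≤ (1 + g / 2) * n := by
    intro t ht
    rw [mem_filter, mem_Icc] at ht
    have h1 := H ((A : Set ℕ)ᶜ) z h.mono b (z (2 * X)) (x0 + t) T n hKb hTd (h.mono (by omega))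
    have h2 : ∑ i ∈ Ioc 0 n, wt ((A : Set ℕ)ᶜ) z (x0 + i * T + t) =
        ∑ i ∈ Ioc 0 n, wt ((A : Set ℕ)ᶜ) z (x0 + t + i * T) := by
      apply sum_congr rfl
      intro i _
      congr 1
      ring
    rw [h2]
    refine h1.trans ?_
    have h6 : (0 : ℝ) ≤ n := Nat.cast_nonneg n
    have h7 : g / 64 * (X : ℝ) ^ (0.5 : ℝ) ≤ g / 64 * n := mul_le_mul_of_nonneg_left hn5 (by positivity)
    have h8 : (1 / 2 : ℝ) ^ b * n ≤ g / 4 * n := mul_le_mul_of_nonneg_right hbg h6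
    have h9 : 0 ≤ g * n := by positivity
    linarith
  obtain ⟨V, hV⟩ : ∃ V, V = ∏ p ∈ A, (1 - (p : ℝ)⁻¹)⁻¹ := ⟨_, rfl⟩
  obtain ⟨F, hF⟩ : ∃ F, F = (Icc 1 k).filter (fun n => ∀ p ∈ A, ¬ p ∣ n) := ⟨_, rfl⟩
  rw [← hV, ← hF] at hA3 ⊢
  rw [← hF] at hin
  have hV0 : 0 ≤ V := by
    rw [hV]
    apply prod_nonneg
    intro p hp
    have := one_le_factor (hA1 p hp).1
    linarith
  calc V * ∑ t ∈ F, ∑ i ∈ Ioc 0 n, wt ((A : Set ℕ)ᶜ) z (x0 + i * T + t)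
      ≤ V * ∑ t ∈ F, (1 + g / 2) * (n : ℝ) := by
        apply mul_le_mul_of_nonneg_left (sum_le_sum hin) hV0
    _ = (V * (F.card : ℝ)) * ((1 + g / 2) * n) := by
        rw [sum_const, nsmul_eq_mul]
        ring
    _ ≤ ((1 - g) * k) * ((1 + g / 2) * n) := by
        apply mul_le_mul_of_nonneg_right hA3
        positivity
    _ ≤ ((1 - g) * ((1 + τ) * l ^ 2)) * ((1 + g / 2) * n) := by
        apply mul_le_mul_of_nonneg_right _ (by positivity)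
        apply mul_le_mul_of_nonneg_left hk1 (by linarith)
    _ = ((1 - g) * (1 + τ) * (1 + g / 2)) * (l ^ 2 * n) := by ring
    _ ≤ (1 - 4 * τ) * (l ^ 2 * n) := by
        apply mul_le_mul_of_nonneg_right _ (by positivity)
        rw [hτg]
        exact poly_small τ hτ0
    _ = (1 - 4 * τ) * l ^ 2 * n := by ring

end Pool.Agent.J6H89.SM
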