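import Mathlib
import Pool.Agent.J6H89.SM.Thr3

/-!
# Shanks' law fails for a sieve that is at least a power of the logarithm
-/

set_option autoImplicit false

namespace Pool.Agent.J6H89.SM

open Finset MeasureTheory Filter Topology

variable {z : ℕ → ℕ} {δ : ℝ}

open Classical in
/-- many blocks have a small sum -/
theorem good_count4 (f : ℕ → ℝ) (hf : ∀ i, 0 ≤ f i) (n : ℕ) (τ L : ℝ) (hτ0 : 0 < τ) (hτ : τ ≤ 1 / 16) (hL : 0 < L)
    (h : ∑ i ∈ Ioc 0 n, f i ≤ (1 - 4 * τ) * L * (n : ℝ)) :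
    τ * (n : ℝ) ≤ (((range (n + 1)).filter (fun i => 1 ≤ i ∧ f i ≤ (1 - 3 * τ) * L)).card : ℝ) := by
  have h1 : ((Ioc 0 n).filter (fun i => f i ≤ (1 - 3 * τ) * L)).card +
      ((Ioc 0 n).filter (fun i => ¬ f i ≤ (1 - 3 * τ) * L)).card = n := by
    rw [card_filter_add_card_filter_not, Nat.card_Ioc]
    omega
  have h2 : ((Ioc 0 n).filter (fun i => f i ≤ (1 - 3 * τ) * L)).card ≤
      ((range (n + 1)).filter (fun i => 1 ≤ i ∧ f i ≤ (1 - 3 * τ) * L)).card := by
    apply card_le_card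
    intro i hi'
    rw [mem_filter, mem_Ioc] at hi'
    rw [mem_filter, mem_range]
    exact ⟨by omega, by omega, hi'.2⟩
  have h3 : (((Ioc 0 n).filter (fun i => ¬ f i ≤ (1 - 3 * τ) * L)).card : ℝ) * ((1 - 3 * τ) * L) ≤
      (1 - 4 * τ) * L * (n : ℝ) := by
    refine le_trans ?_ h
    rw [← nsmul_eq_mul, ← sum_const]
    calc ∑ _i ∈ (Ioc 0 n).filter (fun i => ¬ f i ≤ (1 - 3 * τ) * L), (1 - 3 * τ) * L
        ≤ ∑ i ∈ (Ioc 0 n).filter (fun i => ¬ f i ≤ (1 - 3 * τ) * L), f i := by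
          apply sum_le_sum
          intro i hi'
          have := (mem_filter.1 hi').2
          linarith
      _ ≤ ∑ i ∈ Ioc 0 n, f i := by
          apply sum_le_sum_of_subset_of_nonneg (filter_subset _ _)
          intro i _ _
          exact hf i
  obtain ⟨B, hB⟩ : ∃ B : ℝ, B = (((Ioc 0 n).filter (fun i => ¬ f i ≤ (1 - 3 * τ) * L)).card : ℝ) := ⟨_, rfl⟩
  rw [← hB] at h3
  have hB0 : 0 ≤ B := by rw [hB]; exact Nat.cast_nonneg _
  have h4 : B * (1 - 3 * τ) ≤ (1 - 4 * τ) * (n : ℝ) := by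
    by_contra hcon
    have := mul_lt_mul_of_pos_right (not_le.1 hcon) hL
    linarith
  have h5 : (((Ioc 0 n).filter (fun i => f i ≤ (1 - 3 * τ) * L)).card : ℝ) + B = n := by
    rw [hB]
    exact_mod_cast h1
  have h6 : (((Ioc 0 n).filter (fun i => f i ≤ (1 - 3 * τ) * L)).card : ℝ) ≤
      ((range (n + 1)).filter (fun i => 1 ≤ i ∧ f i ≤ (1 - 3 * τ) * L)).card := by exact_mod_cast h2
  have h7 : (0 : ℝ) ≤ n := Nat.cast_nonneg n
  have h8 : B ≤ (1 - τ) * n := by
    by_contra hcon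
    have h9 : (1 - τ) * n < B := not_le.1 hcon
    have h10 : (1 - τ) * n * (1 - 3 * τ) < B * (1 - 3 * τ) := mul_lt_mul_of_pos_right h9 (by linarith)
    have h11 : (1 - 4 * τ) * (n : ℝ) ≤ (1 - τ) * n * (1 - 3 * τ) := by
      have : 0 ≤ τ * τ * n := by positivity
      nlinarith
    linarith
  linarith

open Classical in
/-- the probability that nothing is chosen in a good block -/
theorem block_prod4 (h : PowU z δ) (τ : ℝ) (hτ0 : 0 < τ) (hτ : τ ≤ 1 / 16) (hδ : 64 * δ ≤ τ) :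
    ∀ᶠ X : ℕ in atTop, (∀ j, j ≤ X → hi Set.univ z (τ / 4) (X + j) ≤ 1) ∧
      ∀ x k, X ≤ x → x + k ≤ 2 * X → ∑ j ∈ range k, wt Set.univ z (x + j + 1) ≤ (1 - 3 * τ) * Real.log X ^ 2 →
        (X : ℝ) ^ (-(1 - 2 * τ)) ≤ ∏ j ∈ range k,
          (if Rough Set.univ z (x + j + 1) then 1 - hi Set.univ z (τ / 4) (x + j) else 1) := by
  filter_upwards [ratio_small4 h (τ / 16) (by linarith), log_tend.eventually_ge_atTop 10,
    eventually_ge_atTop 2] with X a1 a3 a4
  obtain ⟨l, hl⟩ : ∃ l, l = Real.log X := ⟨_, rfl⟩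
  rw [← hl] at a3
  rw [← hl]
  have hl0 : 0 < l := by linarith
  have hX0 : (0 : ℝ) < X := by exact_mod_cast (by omega : 0 < X)
  have hhi : ∀ j, j ≤ X → hi Set.univ z (τ / 4) (X + j) ≤ (τ / 4) / 2 := by
    intro j hj
    unfold hi
    have h2 := a1 j hj
    have h3 : 0 ≤ W Set.univ (z (X + j + 1)) / Real.log ((X + j : ℕ) : ℝ) :=
      div_nonneg (W_pos _ _).le (Real.log_natCast_nonneg _)
    nlinarith
  refine ⟨fun j hj => (hhi j hj).trans (by linarith), ?_⟩
  intro x k hx1 hx2 hsum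
  have hterm : ∀ j ∈ range k, Real.exp (-((1 + τ / 4) * ((1 + τ / 4) / l * wt Set.univ z (x + j + 1)))) ≤
      (if Rough Set.univ z (x + j + 1) then 1 - hi Set.univ z (τ / 4) (x + j) else 1) := by
    intro j hj
    rw [mem_range] at hj
    unfold wt
    by_cases hR : Rough Set.univ z (x + j + 1)
    · rw [if_pos hR, if_pos hR]
      obtain ⟨i, hi'⟩ : ∃ i, x + j = X + i := ⟨x + j - X, by omega⟩
      have h2 := hhi i (by omega)
      rw [← hi'] at h2
      have h3 := exp_le_one_sub (hi_nonneg Set.univ z (τ / 4) (by positivity) (x + j)) h2 (by linarith)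
      refine le_trans ?_ h3
      apply Real.exp_le_exp.2
      have h4 : hi Set.univ z (τ / 4) (x + j) ≤ (1 + τ / 4) / l * W Set.univ (z (x + j + 1)) := by
        unfold hi
        have hlog : l ≤ Real.log ((x + j : ℕ) : ℝ) := by
          rw [hl]
          apply Real.log_le_log hX0
          have : (X : ℝ) ≤ x := by exact_mod_cast hx1
          push_cast
          have : (0 : ℝ) ≤ j := Nat.cast_nonneg j
          linarith
        rw [div_mul_eq_mul_div, mul_div_assoc]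
        apply mul_le_mul_of_nonneg_left _ (by positivity)
        exact div_le_div₀ (W_pos _ _).le le_rfl hl0 hlog
      have h5 := mul_le_mul_of_nonneg_left h4 (show (0 : ℝ) ≤ 1 + τ / 4 by positivity)
      linarith
    · rw [if_neg hR, if_neg hR]
      simp
  have hprod := Finset.prod_le_prod (fun j _ => (Real.exp_pos _).le) hterm
  refine le_trans ?_ hprod
  rw [← Real.exp_sum, sum_neg_distrib, ← mul_sum, ← mul_sum]
  rw [Real.rpow_def_of_pos hX0, ← hl]
  apply Real.exp_le_exp.2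
  have hfin : (1 + τ / 4) * ((1 + τ / 4) / l * ∑ j ∈ range k, wt Set.univ z (x + j + 1)) ≤ (1 - 2 * τ) * l := by
    calc (1 + τ / 4) * ((1 + τ / 4) / l * ∑ j ∈ range k, wt Set.univ z (x + j + 1)) =
        (1 + τ / 4) ^ 2 / l * ∑ j ∈ range k, wt Set.univ z (x + j + 1) := by ring
      _ ≤ (1 + τ / 4) ^ 2 / l * ((1 - 3 * τ) * l ^ 2) := by
          apply mul_le_mul_of_nonneg_left hsum
          positivity
      _ = ((1 + τ / 4) ^ 2 * (1 - 3 * τ)) * l := by
          field_simp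
      _ ≤ (1 - 2 * τ) * l := by
          apply mul_le_mul_of_nonneg_right _ hl0.le
          nlinarith [mul_pos hτ0 hτ0, mul_pos (mul_pos hτ0 hτ0) hτ0]
  linarith [hfin]

/-- there are enough blocks -/
theorem many_blocks4 (τ : ℝ) (hτ0 : 0 < τ) (hτ : τ ≤ 1 / 16) :
    ∀ᶠ X : ℕ in atTop, ∀ T : ℕ, 0 < T → (T : ℝ) ≤ (X : ℝ) ^ τ → 16 * T ≤ X ∧
      ∀ N : ℕ, τ * ((X / (4 * T) : ℕ) : ℝ) ≤ N → (1 - (X : ℝ) ^ (-(1 - 2 * τ))) ^ N ≤ (X : ℝ) ^ (-2 : ℝ) := by
  have hl3 : Tendsto (fun X : ℕ => Real.log X ^ (1 : ℝ) / (X : ℝ) ^ τ) atTop (𝓝 0) := by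
    have h := (isLittleO_log_rpow_rpow_atTop (1 : ℝ) hτ0).tendsto_div_nhds_zero
    exact h.comp tendsto_natCast_atTop_atTop
  have hX5 : Tendsto (fun X : ℕ => (X : ℝ) ^ (0.5 : ℝ)) atTop atTop := rpow_tend _ (by norm_num)
  filter_upwards [log_tend.eventually_ge_atTop 10, eventually_ge_atTop 2,
    hl3.eventually_lt_const (show (0 : ℝ) < τ / 16 by positivity), hX5.eventually_ge_atTop 16] with X a2 a3 a4 a5
  intro T hT0 hTX
  obtain ⟨l, hl⟩ : ∃ l, l = Real.log X := ⟨_, rfl⟩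
  rw [← hl] at a2 a4
  have hX0 : (0 : ℝ) < X := by exact_mod_cast (by omega : 0 < X)
  have hX1 : (1 : ℝ) ≤ X := by exact_mod_cast (by omega : 1 ≤ X)
  have hl0 : 0 < l := by linarith
  rw [Real.rpow_one, div_lt_iff₀ (by positivity)] at a4
  have hT5 : (T : ℝ) ≤ (X : ℝ) ^ (0.5 : ℝ) := hTX.trans (Real.rpow_le_rpow_of_exponent_le hX1 (by linarith))
  have h55 : (X : ℝ) ^ (0.5 : ℝ) * (X : ℝ) ^ (0.5 : ℝ) = X := by
    rw [← Real.rpow_add hX0]
    norm_num
  have hT16R : 16 * (T : ℝ) ≤ X := by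
    calc 16 * (T : ℝ) ≤ (X : ℝ) ^ (0.5 : ℝ) * (X : ℝ) ^ (0.5 : ℝ) := by gcongr
      _ = X := h55
  have hT16 : 16 * T ≤ X := by exact_mod_cast hT16R
  refine ⟨hT16, ?_⟩
  intro N hN
  obtain ⟨n, hn⟩ : ∃ n, n = X / (4 * T) := ⟨_, rfl⟩
  rw [← hn] at hN
  have hTR : (0 : ℝ) < T := by exact_mod_cast hT0
  have hKX : (X : ℝ) / (8 * T) ≤ n := by
    have h2 : X < (n + 1) * (4 * T) := by
      rw [hn]
      have := Nat.lt_div_mul_add (a := X) (b := 4 * T) (by omega)
      nlinarith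
    have h4 : (X : ℝ) < ((n : ℝ) + 1) * (4 * T) := by exact_mod_cast h2
    rw [div_le_iff₀ (by positivity)]
    nlinarith
  obtain ⟨q, hq⟩ : ∃ q, q = (X : ℝ) ^ (-(1 - 2 * τ)) := ⟨_, rfl⟩
  rw [← hq]
  have hq0 : 0 < q := by
    rw [hq]
    positivity
  have hq1 : q ≤ 1 := by
    rw [hq]
    apply Real.rpow_le_one_of_one_le_of_nonpos hX1
    linarith
  have hqX : q * X = (X : ℝ) ^ (2 * τ) := by
    rw [hq]
    nth_rw 2 [← Real.rpow_one (X : ℝ)]
    rw [← Real.rpow_add hX0]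
    congr 1
    ring
  have hqK : (X : ℝ) ^ τ / 8 ≤ q * n := by
    calc (X : ℝ) ^ τ / 8 = (X : ℝ) ^ (2 * τ) / (8 * (X : ℝ) ^ τ) := by
          have h2 : (X : ℝ) ^ (2 * τ) = (X : ℝ) ^ τ * (X : ℝ) ^ τ := by
            rw [← Real.rpow_add hX0]
            congr 1
            ring
          rw [h2]
          have : (X : ℝ) ^ τ ≠ 0 := by positivity
          field_simp
      _ ≤ (X : ℝ) ^ (2 * τ) / (8 * T) := by
          apply div_le_div_of_nonneg_left (by positivity) (by positivity)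
          linarith
      _ = q * (X / (8 * T)) := by rw [← hqX]; ring
      _ ≤ q * n := by gcongr
  have hqN : 2 * l ≤ q * N := by
    calc 2 * l ≤ τ * ((X : ℝ) ^ τ / 8) := by linarith
      _ ≤ τ * (q * n) := by gcongr
      _ = q * (τ * n) := by ring
      _ ≤ q * N := by gcongr
  calc (1 - q) ^ N ≤ (Real.exp (-q)) ^ N := by
        apply pow_le_pow_left₀ (by linarith)
        have := Real.add_one_le_exp (-q)
        linarith
    _ = Real.exp (-(q * N)) := by
        rw [← Real.exp_nat_mul]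
        congr 1
        ring
    _ ≤ Real.exp (-(2 * l)) := by
        apply Real.exp_le_exp.2
        linarith
    _ = (X : ℝ) ^ (-2 : ℝ) := by
        rw [Real.rpow_def_of_pos hX0, ← hl]
        congr 1
        ring

open Classical in
/-- the probability that nothing is chosen in `(X, 2 X]` -/
theorem weak_prod4 : ∃ D : ℕ, ∀ (z : ℕ → ℕ) (δ θ : ℝ), 0 < θ → θ ≤ 1 / 2 → PowU z δ → 4 * δ ≤ 1 → δ * D ≤ 1 / 4 →
    ∀ᶠ X : ℕ in atTop, (∀ j, j < X → lo Set.univ z θ (X + j) ≤ 1) ∧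
      ∏ j ∈ range X, (if Rough Set.univ z (X + j + 1) then 1 - lo Set.univ z θ (X + j) else 1) ≤
        (X : ℝ) ^ (-2 : ℝ) := by
  obtain ⟨K, hK, H⟩ := mass
  refine ⟨K * K + 2, ?_⟩
  intro z δ θ hθ0 hθ h hδ hD
  have hl2 : Tendsto (fun X : ℕ => Real.log X ^ 2 / X) atTop (𝓝 0) := by
    have h := (Real.isLittleO_pow_log_id_atTop (n := 2)).tendsto_div_nhds_zero
    exact h.comp tendsto_natCast_atTop_atTop
  filter_upwards [ratio_small4 h 1 hδ, log_tend.eventually_ge_atTop 10,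
    eventually_ge_atTop 2, pow_small4 h (K * K + 2) (by exact_mod_cast hD) (1 / 4) (by norm_num),
    hl2.eventually_lt_const (show (0 : ℝ) < 1 / 40 by norm_num)] with X a1 a3 a4 a5 a6
  obtain ⟨l, hl⟩ : ∃ l, l = Real.log X := ⟨_, rfl⟩
  rw [← hl] at a3 a6
  have hl0 : 0 < l := by linarith
  have hX0 : (0 : ℝ) < X := by exact_mod_cast (by omega : 0 < X)
  have hX1 : (1 : ℝ) ≤ X := by exact_mod_cast (by omega : 1 ≤ X)
  rw [div_lt_iff₀ hX0] at a6
  have hlog2X : Real.log ((2 * X : ℕ) : ℝ) ≤ l + 1 := by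
    push_cast
    rw [Real.log_mul (by norm_num) hX0.ne', ← hl]
    have := Real.log_two_lt_d9
    linarith
  have hlo1 : ∀ j, j < X → lo Set.univ z θ (X + j) ≤ 1 := by
    intro j hj
    unfold lo
    have h2 := a1 j (by omega)
    have h3 : 0 ≤ W Set.univ (z (X + j + 1)) / Real.log ((X + j : ℕ) : ℝ) :=
      div_nonneg (W_pos _ _).le (Real.log_natCast_nonneg _)
    nlinarith
  refine ⟨hlo1, ?_⟩
  have hlog : ∀ j, j < X → Real.log ((X + j : ℕ) : ℝ) ≤ l + 1 := by
    intro j hj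
    refine le_trans ?_ hlog2X
    apply Real.log_le_log
    · push_cast
      positivity
    · exact_mod_cast (by omega : X + j ≤ 2 * X)
  have hterm : ∀ j ∈ range X, (if Rough Set.univ z (X + j + 1) then 1 - lo Set.univ z θ (X + j) else 1) ≤
      Real.exp (-((1 - θ) / (l + 1) *
        (if Rough Set.univ z (X + j + 1) then W Set.univ (z (X + j + 1)) else 0))) := by
    intro j hj
    rw [mem_range] at hj
    by_cases hR : Rough Set.univ z (X + j + 1)
    · rw [if_pos hR, if_pos hR]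
      have h2 : (1 - θ) / (l + 1) * W Set.univ (z (X + j + 1)) ≤ lo Set.univ z θ (X + j) := by
        unfold lo
        have hW := W_pos Set.univ (z (X + j + 1))
        have hlp : 0 < Real.log ((X + j : ℕ) : ℝ) := by
          apply Real.log_pos
          exact_mod_cast (by omega : 1 < X + j)
        rw [div_mul_eq_mul_div, mul_div_assoc]
        apply mul_le_mul_of_nonneg_left _ (by linarith)
        apply div_le_div_of_nonneg_left hW.le hlp (hlog j hj)
      have h3 := Real.add_one_le_exp (-((1 - θ) / (l + 1) * W Set.univ (z (X + j + 1))))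
      linarith
    · rw [if_neg hR, if_neg hR]
      simp
  have hprod : ∏ j ∈ range X, (if Rough Set.univ z (X + j + 1) then 1 - lo Set.univ z θ (X + j) else 1) ≤
      ∏ j ∈ range X, Real.exp (-((1 - θ) / (l + 1) *
        (if Rough Set.univ z (X + j + 1) then W Set.univ (z (X + j + 1)) else 0))) := by
    apply Finset.prod_le_prod
    · intro j hj
      rw [mem_range] at hj
      by_cases hR : Rough Set.univ z (X + j + 1)
      · rw [if_pos hR]
        linarith [hlo1 j hj]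
      · rw [if_neg hR]
        exact zero_le_one
    · exact hterm
  refine hprod.trans ?_
  rw [← Real.exp_sum, sum_neg_distrib, ← mul_sum, ← sum_shift]
  rw [Real.rpow_def_of_pos hX0, ← hl]
  apply Real.exp_le_exp.2
  have hm := (abs_le.1 (H Set.univ z h.mono K (z (2 * X)) X (X + X) le_rfl (by omega) (h.mono (by omega)))).1
  push_cast at hm a5
  have hZD : ((z (2 * X) : ℝ) + 2) ^ (K * K + 2) ≤ X / 4 := by
    refine a5.trans ?_
    have h1 : (X : ℝ) ^ (0.5 : ℝ) ≤ X := by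
      calc (X : ℝ) ^ (0.5 : ℝ) ≤ (X : ℝ) ^ (1 : ℝ) := Real.rpow_le_rpow_of_exponent_le hX1 (by norm_num)
        _ = X := Real.rpow_one _
    linarith
  have hhalf : (1 / 2 : ℝ) ^ K ≤ 1 / 2 := by
    calc (1 / 2 : ℝ) ^ K ≤ (1 / 2 : ℝ) ^ 1 := pow_le_pow_of_le_one (by norm_num) (by norm_num) hK
      _ = 1 / 2 := pow_one _
  have hS : (X : ℝ) / 4 ≤ ∑ m ∈ Ioc X (X + X), wt Set.univ z m := by
    have e1 : ((X : ℝ) + X - X) = X := by ring
    rw [e1] at hm
    have : (1 / 2 : ℝ) ^ K * X ≤ 1 / 2 * X := mul_le_mul_of_nonneg_right hhalf hX0.le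
    linarith
  have hfin : 2 * l ≤ (1 - θ) / (l + 1) * ∑ m ∈ Ioc X (X + X), wt Set.univ z m := by
    have h1 : (1 / 2) / (l + 1) * (X / 4) ≤ (1 - θ) / (l + 1) * ∑ m ∈ Ioc X (X + X), wt Set.univ z m := by
      apply mul_le_mul _ hS (by positivity) (div_nonneg (by linarith) (by linarith))
      apply div_le_div_of_nonneg_right _ (by linarith)
      linarith
    refine le_trans ?_ h1
    rw [div_mul_eq_mul_div, le_div_iff₀ (by linarith)]
    nlinarith
  linarith

/-- gaps of the expected size occur at the expected places, for a single `X` -/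
theorem first_le4 (S : Set ℕ) (hU : ∀ᶠ X : ℕ in atTop, ∃ m, X < m ∧ m ≤ X + X ∧ m ∈ S) :
    ∀ᶠ X : ℕ in atTop, ∀ L : ℕ, L ≤ X → (∃ x, X ≤ x ∧ x ≤ 2 * X ∧ ∀ m, x < m → m ≤ x + L → m ∉ S) →
      ∀ g : ℕ, g ≤ L → (After S g).Nonempty ∧ first S g ≤ 6 * X := by
  obtain ⟨N1, h1⟩ := eventually_atTop.1 hU
  refine eventually_atTop.2 ⟨2 * N1 + N1 + 1, fun X hX L hLX' hx g hg => ?_⟩
  obtain ⟨x, hx1, hx2, hx3⟩ := hx
  classical
  -- the next element
  obtain ⟨m, hm1, hm2, hm3⟩ := h1 (x + L) (by omega)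
  have hex : ∃ b, x < b ∧ b ∈ S := ⟨m, by omega, hm3⟩
  have hb := Nat.find_spec hex
  have hbmin : ∀ t, x < t → t ∈ S → Nat.find hex ≤ t := fun t h3 h4 => Nat.find_min' hex ⟨h3, h4⟩
  obtain ⟨b, hbdef⟩ : ∃ b, b = Nat.find hex := ⟨_, rfl⟩
  rw [← hbdef] at hb hbmin
  have hbm : b ≤ m := hbmin m (by omega) hm3
  have hbL : x + L < b := by
    by_contra hcon
    exact hx3 b hb.1 (by omega) hb.2
  -- the last element before
  obtain ⟨m', hm1', hm2', hm3'⟩ := h1 N1 le_rfl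
  have hm'x : m' ≤ x := by omega
  have hne : ((Finset.range (x + 1)).filter (fun t => t ∈ S)).Nonempty :=
    ⟨m', Finset.mem_filter.2 ⟨Finset.mem_range.2 (by omega), hm3'⟩⟩
  obtain ⟨a, hadef⟩ : ∃ a, a = ((Finset.range (x + 1)).filter (fun t => t ∈ S)).max' hne := ⟨_, rfl⟩
  have ha := Finset.max'_mem _ hne
  rw [← hadef, Finset.mem_filter, Finset.mem_range] at ha
  have hamax : ∀ t, t ≤ x → t ∈ S → t ≤ a := by
    intro t h3 h4
    rw [hadef]
    exact Finset.le_max' _ _ (Finset.mem_filter.2 ⟨Finset.mem_range.2 (by omega), h4⟩)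
  have hmem : b ∈ After S g := by
    refine ⟨hb.2, a, ha.2, by omega, ?_⟩
    intro t h3 h4 h5
    rcases Nat.lt_or_ge x t with h6 | h6
    · have := hbmin t h6 h5
      omega
    · have := hamax t h6 h5
      omega
  refine ⟨⟨b, hmem⟩, ?_⟩
  have h3 : first S g ≤ b := Nat.sInf_le hmem
  omega

end Pool.Agent.J6H89.SM
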