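import Mathlib
import Pool.Agent.J6H89.SM.Thr4

/-!
# The threshold
-/

set_option autoImplicit false

namespace Pool.Agent.J6H89.SM

open Finset MeasureTheory Filter Topology

/-- the places of the first gaps, one scale at a time -/
theorem scale (ε : ℝ) (hε : 0 < ε) : ∃ δ : ℝ, 0 < δ ∧ ∃ τ : ℝ, 0 < τ ∧ τ ≤ 1 / 16 ∧ ∀ (z : ℕ → ℕ), PowU z δ →
    ∀ (Ω : Type) (mΩ : MeasurableSpace Ω) (μ : Measure Ω) (_ : IsProbabilityMeasure μ) (ℱ : Filtration ℕ mΩ)
    (S : ℕ → Set Ω), Mod μ ℱ S Set.univ z → ∀ᵐ ω ∂μ, ∀ᶠ X : ℕ in atTop, Real.log X ^ ε ≤ z X →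
      ∀ g : ℕ, g ≤ kf τ X → (After {k | ω ∈ S k} g).Nonempty ∧ first {k | ω ∈ S k} g ≤ 6 * X := by
  classical
  obtain ⟨τ, hτ0, hτ, D1, H1⟩ := avg4 ε hε
  obtain ⟨D2, H2⟩ := weak_prod4
  obtain ⟨δ, hδdef⟩ : ∃ δ : ℝ, δ = τ / (64 * ((D1 : ℝ) + D2 + 1)) := ⟨_, rfl⟩
  have hD1 : (0 : ℝ) ≤ D1 := Nat.cast_nonneg _
  have hD2 : (0 : ℝ) ≤ D2 := Nat.cast_nonneg _
  have hδ0 : 0 < δ := by rw [hδdef]; positivity
  have hδm : 64 * δ * ((D1 : ℝ) + D2 + 1) = τ := by
    rw [hδdef]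
    field_simp
  have hδ1 : δ * D1 ≤ 1 / 4 := by nlinarith [mul_nonneg hδ0.le hD1, mul_nonneg hδ0.le hD2]
  have hδ2 : δ * D2 ≤ 1 / 4 := by nlinarith [mul_nonneg hδ0.le hD1, mul_nonneg hδ0.le hD2]
  have hδ3 : 64 * δ ≤ τ := by nlinarith [mul_nonneg hδ0.le hD1, mul_nonneg hδ0.le hD2]
  refine ⟨δ, hδ0, τ, hτ0, hτ, ?_⟩
  intro z h Ω mΩ μ _ ℱ S hM
  have hsum : Summable (fun X : ℕ => (X : ℝ) ^ (-2 : ℝ)) := Real.summable_nat_rpow.2 (by norm_num)
  have hθ : 0 < τ / 4 := by positivity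
  -- nothing chosen in `(X, 2 X]`
  have hweak : ∀ᵐ ω ∂μ, ∀ᶠ X : ℕ in atTop, ∃ m, X < m ∧ m ≤ X + X ∧ ω ∈ S m := by
    have hev : ∀ᶠ X : ℕ in atTop, μ.real (Nn S X (X + X) ∩
        Gd μ ℱ S (Rough Set.univ z) (lo Set.univ z (τ / 4)) (hi Set.univ z (τ / 4)) X (X + X)) ≤
          (X : ℝ) ^ (-2 : ℝ) := by
      filter_upwards [H2 z δ (τ / 4) hθ (by linarith) h (by linarith) hδ2] with X hX
      exact (run_le hM.adapted (Rough Set.univ z) (lo Set.univ z (τ / 4)) (hi Set.univ z (τ / 4)) X X hX.1).trans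
        hX.2
    filter_upwards [bc _ _ hsum hev, ev_ok hM (τ / 4) hθ] with ω hω1 hω2
    filter_upwards [hω1, hω2] with X h3 h4
    by_contra hcon
    push Not at hcon
    apply h3
    refine ⟨fun m hm1 hm2 => hcon m hm1 hm2, fun j hj _ => h4 j hj⟩
  -- the distances
  obtain ⟨T, hT⟩ : ∃ T : ℕ → ℕ, ∀ᶠ X : ℕ in atTop, Real.log X ^ ε ≤ z X → Dist z τ X (kf τ X) (T X) := by
    refine ⟨fun X => if hex : ∃ T, Dist z τ X (kf τ X) T then hex.choose else 0, ?_⟩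
    filter_upwards [H1 z δ h hδ1] with X hX hz
    have hex := hX hz
    rw [dif_pos hex]
    exact hex.choose_spec
  have hstart : ∀ X : ℕ, 0 < T X → X ≤ T X * (X / T X + 1) ∧ T X * (X / T X + 1) ≤ X + T X := by
    intro X hT0
    have h1 := Nat.div_add_mod X (T X)
    have h2 := Nat.mod_lt X hT0
    have h3 : T X * (X / T X + 1) = T X * (X / T X) + T X := by ring
    rw [h3]
    constructor <;> omega
  obtain ⟨f, hf⟩ : ∃ f : ℕ → ℕ → ℝ, f = fun X i => ∑ j ∈ range (kf τ X),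
      wt Set.univ z (T X * (X / T X + 1) + i * T X + j + 1) := ⟨_, rfl⟩
  have hwt : ∀ m, 0 ≤ wt Set.univ z m := by
    intro m
    unfold wt
    split
    · exact (W_pos _ _).le
    · exact le_rfl
  have hf0 : ∀ X i, 0 ≤ f X i := by
    intro X i
    rw [hf]
    exact sum_nonneg (fun j _ => hwt _)
  have hlong : ∀ᵐ ω ∂μ, ∀ᶠ X : ℕ in atTop, Real.log X ^ ε ≤ z X →
      kf τ X ≤ X ∧ ∃ x, X ≤ x ∧ x ≤ 2 * X ∧ ∀ m, x < m → m ≤ x + kf τ X → ω ∉ S m := by
    have hev : ∀ᶠ X : ℕ in atTop, μ.real {ω | Real.log X ^ ε ≤ z X ∧ ω ∈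
        BktG μ ℱ S (Rough Set.univ z) (lo Set.univ z (τ / 4))
        (hi Set.univ z (τ / 4)) (fun i => 1 ≤ i ∧ f X i ≤ (1 - 3 * τ) * Real.log X ^ 2)
        (T X * (X / T X + 1)) (T X) (kf τ X) (X / (4 * T X) + 1)} ≤ (X : ℝ) ^ (-2 : ℝ) := by
      filter_upwards [block_prod4 h τ hτ0 hτ hδ3, many_blocks4 τ hτ0 hτ, hT, eventually_ge_atTop 2,
        log_tend.eventually_ge_atTop 1] with X b1 b2 b4 b3 b5
      by_cases hz : Real.log X ^ ε ≤ z X
      · have hD := b4 hz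
        obtain ⟨hs1, hs2⟩ := hstart X hD.pos
        obtain ⟨b6, b7⟩ := b2 (T X) hD.pos hD.small
        have hKT : X / (4 * T X) * (4 * T X) ≤ X := Nat.div_mul_le_self X _
        have hkT : kf τ X ≤ T X := hD.len
        have hcount := good_count4 (f X) (hf0 X) (X / (4 * T X)) τ (Real.log X ^ 2) hτ0 hτ (by positivity) (by
          rw [hf]
          exact hD.avg)
        have hset : {ω | Real.log X ^ ε ≤ z X ∧ ω ∈ BktG μ ℱ S (Rough Set.univ z) (lo Set.univ z (τ / 4))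
            (hi Set.univ z (τ / 4)) (fun i => 1 ≤ i ∧ f X i ≤ (1 - 3 * τ) * Real.log X ^ 2)
            (T X * (X / T X + 1)) (T X) (kf τ X) (X / (4 * T X) + 1)} =
            BktG μ ℱ S (Rough Set.univ z) (lo Set.univ z (τ / 4))
            (hi Set.univ z (τ / 4)) (fun i => 1 ≤ i ∧ f X i ≤ (1 - 3 * τ) * Real.log X ^ 2)
            (T X * (X / T X + 1)) (T X) (kf τ X) (X / (4 * T X) + 1) := by
          ext ω
          exact ⟨fun h => h.2, fun h => ⟨hz, h⟩⟩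
        rw [hset]
        refine (blocksG hM.adapted (Rough Set.univ z) hM.sieved (lo Set.univ z (τ / 4)) (hi Set.univ z (τ / 4))
          (hi_nonneg Set.univ z (τ / 4) hθ.le) (fun i => 1 ≤ i ∧ f X i ≤ (1 - 3 * τ) * Real.log X ^ 2) _
          (T X) (kf τ X) (X / (4 * T X) + 1)
          ((X : ℝ) ^ (-(1 - 2 * τ))) hkT ?_ ?_ ?_).trans (b7 _ (by convert hcount))
        · intro j hj
          obtain ⟨i, hi'⟩ : ∃ i, T X * (X / T X + 1) + j = X + i :=
            ⟨T X * (X / T X + 1) + j - X, by omega⟩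
          rw [hi']
          apply b1.1
          have h1 : X / (4 * T X) * T X * 4 ≤ X := by nlinarith
          have h2 : (X / (4 * T X) + 1) * T X = X / (4 * T X) * T X + T X := by ring
          omega
        · apply Real.rpow_le_one_of_one_le_of_nonpos
          · exact_mod_cast (by omega : 1 ≤ X)
          · linarith
        · intro i hi' hG
          have h5 : i * T X ≤ X / (4 * T X) * T X := Nat.mul_le_mul_right _ (by omega)
          have h6 : X / (4 * T X) * T X * 4 ≤ X := by nlinarith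
          apply b1.2
          · omega
          · omega
          · have := hG.2
            rw [hf] at this
            exact this
      · have hset : {ω | Real.log X ^ ε ≤ z X ∧ ω ∈ BktG μ ℱ S (Rough Set.univ z) (lo Set.univ z (τ / 4))
            (hi Set.univ z (τ / 4)) (fun i => 1 ≤ i ∧ f X i ≤ (1 - 3 * τ) * Real.log X ^ 2)
            (T X * (X / T X + 1)) (T X) (kf τ X) (X / (4 * T X) + 1)} = ∅ := by
          ext ω
          simp [hz]
        rw [hset, measureReal_empty]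
        positivity
    filter_upwards [bc _ _ hsum hev, ev_ok hM (τ / 4) hθ] with ω hω1 hω2
    filter_upwards [hω1, hω2, many_blocks4 τ hτ0 hτ, hT] with X h3 h4 b2 b4 hz
    have hD := b4 hz
    obtain ⟨b6, _⟩ := b2 (T X) hD.pos hD.small
    have hkT : kf τ X ≤ T X := hD.len
    have h3' : ω ∉ BktG μ ℱ S (Rough Set.univ z) (lo Set.univ z (τ / 4))
        (hi Set.univ z (τ / 4)) (fun i => 1 ≤ i ∧ f X i ≤ (1 - 3 * τ) * Real.log X ^ 2)
        (T X * (X / T X + 1)) (T X) (kf τ X) (X / (4 * T X) + 1) := fun h5 => h3 ⟨hz, h5⟩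
    unfold BktG at h3'
    simp only [Set.mem_ofPred_eq, not_forall, not_not] at h3'
    obtain ⟨i, hi1, _, hi2⟩ := h3'
    obtain ⟨hs1, hs2⟩ := hstart X hD.pos
    have h5 : i * T X ≤ X / (4 * T X) * T X := Nat.mul_le_mul_right _ (by omega)
    have hKT : X / (4 * T X) * (4 * T X) ≤ X := Nat.div_mul_le_self X _
    have h6 : X / (4 * T X) * T X * 4 ≤ X := by nlinarith
    refine ⟨by omega, T X * (X / T X + 1) + i * T X, by omega, by omega, ?_⟩
    intro m hm1 hm2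
    exact hi2 m hm1 hm2 (fun j hj _ => h4 j (by omega))
  filter_upwards [hweak, hlong] with ω h1 h2
  filter_upwards [first_le4 {k | ω ∈ S k} h1, h2] with X h3 h4 hz
  obtain ⟨h5, h6⟩ := h4 hz
  exact h3 (kf τ X) h5 h6

lemma tend_of_freq {z : ℕ → ℕ} (hz : Monotone z) (ε : ℝ) (hε : 0 < ε)
    (h : ∃ᶠ n : ℕ in atTop, Real.log n ^ ε ≤ z n) : Tendsto z atTop atTop := by
  apply tendsto_atTop_atTop_of_monotone hz
  intro b
  have ht : Tendsto (fun n : ℕ => Real.log n ^ ε) atTop atTop := (tendsto_rpow_atTop hε).comp log_tend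
  obtain ⟨n, h1, h2⟩ := (h.and_eventually (ht.eventually_ge_atTop (b : ℝ))).exists
  exact ⟨n, by exact_mod_cast h2.trans h1⟩

/-- above the threshold: all large gaps -/
theorem above (ε : ℝ) (hε : 0 < ε) : ∃ δ : ℝ, 0 < δ ∧ ∃ η : ℝ, 0 < η ∧ ∀ (z : ℕ → ℕ), Monotone z →
    (∀ᶠ n : ℕ in atTop, (z n : ℝ) ≤ (n : ℝ) ^ δ) →
    ∀ (Ω : Type) (mΩ : MeasurableSpace Ω) (μ : Measure Ω) (_ : IsProbabilityMeasure μ) (ℱ : Filtration ℕ mΩ)
    (S : ℕ → Set Ω), Mod μ ℱ S Set.univ z →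
    ((∀ᶠ n : ℕ in atTop, Real.log n ^ ε ≤ z n) → ∀ᵐ ω ∂μ, ∀ᶠ g : ℕ in atTop,
      (After {k | ω ∈ S k} g).Nonempty ∧ Real.log (first {k | ω ∈ S k} g) ≤ (1 - η) * Real.sqrt g) ∧
    ((∃ᶠ n : ℕ in atTop, Real.log n ^ ε ≤ z n) → ∀ᵐ ω ∂μ, ∃ᶠ g : ℕ in atTop,
      (After {k | ω ∈ S k} g).Nonempty ∧ Real.log (first {k | ω ∈ S k} g) ≤ (1 - η) * Real.sqrt g) := by
  obtain ⟨δ, hδ, τ, hτ0, hτ, H⟩ := scale ε hε
  refine ⟨δ, hδ, τ / 8, by positivity, ?_⟩
  intro z hz hupp Ω mΩ μ hμ ℱ S hM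
  constructor
  · intro hlow
    have hP : PowU z δ := ⟨hz, tend_of_freq hz ε hε hlow.frequently, hδ, hupp⟩
    filter_upwards [H z hP Ω mΩ μ hμ ℱ S hM] with ω h1
    have h3 : ∀ᶠ X : ℕ in atTop, ∀ g : ℕ, g ≤ ⌊(1 + τ) * Real.log X ^ 2⌋₊ →
        (After {k | ω ∈ S k} g).Nonempty ∧ first {k | ω ∈ S k} g ≤ 6 * X := by
      filter_upwards [h1, hlow] with X h4 h5
      exact h4 h5
    have h4 := place {k | ω ∈ S k} (1 + τ) (by linarith) h3
    have hsq : Tendsto (fun g : ℕ => Real.sqrt g) atTop atTop :=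
      Real.tendsto_sqrt_atTop.comp tendsto_natCast_atTop_atTop
    filter_upwards [h4, hsq.eventually_ge_atTop (24 / τ), hsq.eventually_ge_atTop 1] with g h5 h6 h7
    refine ⟨h5.1, h5.2.trans ?_⟩
    obtain ⟨s, hs⟩ : ∃ s, s = Real.sqrt g := ⟨_, rfl⟩
    rw [← hs] at h6 h7 ⊢
    have hs2 : s ^ 2 = g := by
      rw [hs]
      exact Real.sq_sqrt (Nat.cast_nonneg g)
    rw [div_le_iff₀ hτ0] at h6
    have h8 : Real.sqrt (((g : ℝ) + 1) / (1 + τ)) ≤ (1 - τ / 4) * s := by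
      apply Real.sqrt_le_iff.2
      refine ⟨mul_nonneg (by linarith) (by linarith), ?_⟩
      rw [div_le_iff₀ (by linarith), ← hs2]
      have h9 : 1 + τ / 4 ≤ (1 - τ / 4) ^ 2 * (1 + τ) := by nlinarith [mul_pos hτ0 hτ0, mul_pos (mul_pos hτ0 hτ0) hτ0]
      have h10 : (1 + τ / 4) * s ^ 2 ≤ (1 - τ / 4) ^ 2 * (1 + τ) * s ^ 2 :=
        mul_le_mul_of_nonneg_right h9 (sq_nonneg s)
      have h11 : 1 ≤ τ / 4 * s ^ 2 := by nlinarith
      calc s ^ 2 + 1 ≤ (1 + τ / 4) * s ^ 2 := by linarith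
        _ ≤ (1 - τ / 4) ^ 2 * (1 + τ) * s ^ 2 := h10
        _ = ((1 - τ / 4) * s) ^ 2 * (1 + τ) := by ring
    have h9 : Real.log 12 ≤ 3 := by
      have h10 : Real.log 12 = 2 * Real.log 2 + Real.log 3 := by
        rw [show (12 : ℝ) = 2 ^ 2 * 3 by norm_num, Real.log_mul (by norm_num) (by norm_num), Real.log_pow]
        norm_num
      have h11 := Real.log_two_lt_d9
      have h12 : Real.log 3 ≤ Real.log 4 := Real.log_le_log (by norm_num) (by norm_num)
      have h13 : Real.log 4 = 2 * Real.log 2 := by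
        rw [show (4 : ℝ) = 2 ^ 2 by norm_num, Real.log_pow]
        norm_num
      linarith
    linarith
  · intro hlow
    have hP : PowU z δ := ⟨hz, tend_of_freq hz ε hε hlow, hδ, hupp⟩
    filter_upwards [H z hP Ω mΩ μ hμ ℱ S hM] with ω h1
    apply (kf_tend τ hτ0).frequently
    have h2 : ∀ᶠ X : ℕ in atTop, Real.log X ^ ε ≤ z X → (After {k | ω ∈ S k} (kf τ X)).Nonempty ∧
        Real.log (first {k | ω ∈ S k} (kf τ X)) ≤ (1 - τ / 8) * Real.sqrt (kf τ X) := by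
      filter_upwards [h1, log_tend.eventually_ge_atTop (64 / τ), eventually_ge_atTop 2] with X h3 h4 h5 hzX
      obtain ⟨h6, h7⟩ := h3 hzX (kf τ X) le_rfl
      refine ⟨h6, ?_⟩
      obtain ⟨l, hl⟩ : ∃ l, l = Real.log X := ⟨_, rfl⟩
      rw [← hl] at h4
      have hl0 : 0 < l := lt_of_lt_of_le (by positivity) h4
      rw [div_le_iff₀ hτ0] at h4
      have hX0 : (0 : ℝ) < X := by exact_mod_cast (by omega : 0 < X)
      have h8 : first {k | ω ∈ S k} (kf τ X) ∈ After {k | ω ∈ S k} (kf τ X) := Nat.sInf_mem h6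
      have h9 : 0 < first {k | ω ∈ S k} (kf τ X) := by
        obtain ⟨_, a, _, h10, _⟩ := h8
        omega
      have h10 : Real.log (first {k | ω ∈ S k} (kf τ X)) ≤ l + 3 := by
        have h11 : (first {k | ω ∈ S k} (kf τ X) : ℝ) ≤ 6 * X := by exact_mod_cast h7
        have h12 := Real.log_le_log (by exact_mod_cast h9) h11
        rw [Real.log_mul (by norm_num) hX0.ne', ← hl] at h12
        have h13 : Real.log 6 ≤ 3 := by
          have h14 : Real.log 6 ≤ Real.log 8 := Real.log_le_log (by norm_num) (by norm_num)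
          have h15 : Real.log 8 = 3 * Real.log 2 := by
            rw [show (8 : ℝ) = 2 ^ 3 by norm_num, Real.log_pow]
            norm_num
          have := Real.log_two_lt_d9
          linarith
        linarith
      have h11 : (1 + τ / 4) * l ≤ Real.sqrt (kf τ X) := by
        apply Real.le_sqrt_of_sq_le
        have h12 : (1 + τ) * l ^ 2 - 1 < kf τ X := by
          rw [kf, ← hl]
          exact Nat.sub_one_lt_floor _
        have h13 : 1 ≤ τ / 4 * l ^ 2 := by nlinarith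
        have h14 : (1 + τ / 4) ^ 2 * l ^ 2 ≤ (1 + 3 / 4 * τ) * l ^ 2 := by
          apply mul_le_mul_of_nonneg_right _ (sq_nonneg l)
          nlinarith
        calc ((1 + τ / 4) * l) ^ 2 = (1 + τ / 4) ^ 2 * l ^ 2 := by ring
          _ ≤ (1 + 3 / 4 * τ) * l ^ 2 := h14
          _ ≤ kf τ X := by nlinarith
      have h12 := mul_le_mul_of_nonneg_left h11 (show 0 ≤ 1 - τ / 8 by linarith)
      have h13 : l + 3 ≤ (1 - τ / 8) * ((1 + τ / 4) * l) := by
        have h14 : (1 + τ / 16) * l ≤ ((1 - τ / 8) * (1 + τ / 4)) * l := by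
          apply mul_le_mul_of_nonneg_right _ hl0.le
          nlinarith
        nlinarith
      linarith
    exact (hlow.and_eventually h2).mono fun X h3 => h3.2 h3.1

/-- the law holds if and only if the sieve grows slowly -/
theorem law_iff (z : ℕ → ℕ) (hz : Monotone z) (hupp : ∀ δ : ℝ, 0 < δ → ∀ᶠ n : ℕ in atTop, (z n : ℝ) ≤ (n : ℝ) ^ δ)
    (Ω : Type) (mΩ : MeasurableSpace Ω) (μ : Measure Ω) (hμ : IsProbabilityMeasure μ) (ℱ : Filtration ℕ mΩ)
    (S : ℕ → Set Ω) (hM : Mod μ ℱ S Set.univ z) :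
    (∀ᵐ ω ∂μ, Tendsto (fun g : ℕ => Real.log (first {k | ω ∈ S k} g) / Real.sqrt g) atTop (𝓝 1)) ↔
      ∀ ε : ℝ, 0 < ε → ∀ᶠ n : ℕ in atTop, (z n : ℝ) ≤ Real.log n ^ ε := by
  constructor
  · intro hlaw
    by_contra hcon
    push Not at hcon
    obtain ⟨ε, hε, hfr⟩ := hcon
    obtain ⟨δ, hδ, η, hη, H⟩ := above ε hε
    have hfr' : ∃ᶠ n : ℕ in atTop, Real.log n ^ ε ≤ z n := hfr.mono fun n h => h.le
    have h1 := (H z hz (hupp δ hδ) Ω mΩ μ hμ ℱ S hM).2 hfr'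
    obtain ⟨ω, h2, h3⟩ := (hlaw.and h1).exists
    have h4 := h2.eventually_const_lt (show 1 - η < 1 by linarith)
    obtain ⟨g, ⟨_, h5⟩, h6, h7⟩ := (h3.and_eventually (h4.and (eventually_ge_atTop 1))).exists
    have hg : 0 < Real.sqrt g := Real.sqrt_pos.2 (by exact_mod_cast h7)
    rw [lt_div_iff₀ hg] at h6
    linarith
  · intro hs
    exact main hM hz hs

end Pool.Agent.J6H89.SM
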