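import Mathlib
import Pool.Agent.J6H89.SM.Thr5

/-!
# The limit superior of the normalised gaps
-/

set_option autoImplicit false

namespace Pool.Agent.J6H89.SM

open Finset MeasureTheory Filter Topology

/-- the next element -/
noncomputable def next (S : Set ℕ) (a : ℕ) : ℕ := sInf {b | b ∈ S ∧ a < b}

/-- the limit superior of the normalised gaps -/
noncomputable def Lim (S : Set ℕ) : EReal :=
  limsup (fun a : ℕ => ((((next S a : ℝ) - a) / Real.log a ^ 2 : ℝ) : EReal)) (atTop ⊓ 𝓟 S)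

lemma Lim_le_one (S : Set ℕ) (h : ∀ n : ℕ, ∀ᶠ X : ℕ in atTop, ∃ m, X < m ∧
    m ≤ X + ⌊(1 + 1 / ((n : ℝ) + 1)) * Real.log X ^ 2⌋₊ ∧ m ∈ S) : Lim S ≤ 1 := by
  have key : ∀ n : ℕ, Lim S ≤ (((1 + 1 / ((n : ℝ) + 1)) : ℝ) : EReal) := by
    intro n
    refine limsup_le_of_le (by isBoundedDefault) ?_
    rw [eventually_inf_principal]
    filter_upwards [h n, log_tend.eventually_ge_atTop 1] with a ha hl _
    obtain ⟨m, h1, h2, h3⟩ := ha
    have h4 : next S a ≤ m := Nat.sInf_le ⟨h3, h1⟩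
    have h5 : ((next S a : ℝ) - a) ≤ (1 + 1 / ((n : ℝ) + 1)) * Real.log a ^ 2 := by
      have h6 : (next S a : ℝ) ≤ a + ⌊(1 + 1 / ((n : ℝ) + 1)) * Real.log a ^ 2⌋₊ := by exact_mod_cast h4.trans h2
      have h7 : ((⌊(1 + 1 / ((n : ℝ) + 1)) * Real.log a ^ 2⌋₊ : ℕ) : ℝ) ≤ (1 + 1 / ((n : ℝ) + 1)) * Real.log a ^ 2 :=
        Nat.floor_le (by positivity)
      linarith
    exact EReal.coe_le_coe_iff.2 ((div_le_iff₀ (by positivity)).2 h5)
  by_contra hcon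
  have hcon' : (1 : EReal) < Lim S := not_le.1 hcon
  obtain ⟨r, h1, h2⟩ := EReal.lt_iff_exists_real_btwn.1 hcon'
  have h3 : (1 : ℝ) < r := by exact_mod_cast h1
  obtain ⟨n, hn⟩ := exists_nat_one_div_lt (show (0 : ℝ) < r - 1 by linarith)
  have h4 := key n
  have h5 : (((1 + 1 / ((n : ℝ) + 1)) : ℝ) : EReal) < r := by
    apply EReal.coe_lt_coe_iff.2
    linarith
  exact absurd (h4.trans_lt h5) (not_lt.2 h2.le)

lemma Lim_ge (S : Set ℕ) (c : ℝ) (hc : 0 < c)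
    (h : ∃ᶠ g : ℕ in atTop, (After S g).Nonempty ∧ c * Real.log (first S g) ^ 2 ≤ g) : (c : EReal) ≤ Lim S := by
  refine le_limsup_of_frequently_le ?_ (by isBoundedDefault)
  rw [frequently_inf_principal, frequently_atTop]
  intro N
  obtain ⟨M, hM⟩ : ∃ M, M = (range (max N 2)).sup (next S) := ⟨_, rfl⟩
  obtain ⟨g, hg, h1, h2⟩ := (frequently_atTop.1 h) (M + 1)
  have h3 : first S g ∈ After S g := Nat.sInf_mem h1
  obtain ⟨b, hb⟩ : ∃ b, b = first S g := ⟨_, rfl⟩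
  rw [← hb] at h2 h3
  obtain ⟨h4, a, h5, h6, h7⟩ := h3
  have hnext : next S a = b := by
    apply le_antisymm
    · exact Nat.sInf_le ⟨h4, by omega⟩
    · have h8 : next S a ∈ {b | b ∈ S ∧ a < b} := Nat.sInf_mem ⟨b, h4, by omega⟩
      by_contra hcon
      exact h7 _ h8.2 (not_le.1 hcon) h8.1
  have haN : max N 2 ≤ a := by
    by_contra hcon
    have h8 : next S a ≤ M := by
      rw [hM]
      exact Finset.le_sup (mem_range.2 (not_le.1 hcon))
    omega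
  have ha2 : 2 ≤ a := le_trans (le_max_right _ _) haN
  refine ⟨a, le_trans (le_max_left _ _) haN, h5, ?_⟩
  rw [hnext]
  apply EReal.coe_le_coe_iff.2
  have hla : 0 < Real.log a := Real.log_pos (by exact_mod_cast (by omega : 1 < a))
  have hlab : Real.log a ≤ Real.log b := Real.log_le_log (by exact_mod_cast (by omega : 0 < a))
    (by exact_mod_cast (by omega : a ≤ b))
  rw [le_div_iff₀ (by positivity)]
  have h8 : (a : ℝ) + g < b := by exact_mod_cast h6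
  have h9 : Real.log a ^ 2 ≤ Real.log b ^ 2 := pow_le_pow_left₀ hla.le hlab 2
  have h10 : c * Real.log a ^ 2 ≤ c * Real.log b ^ 2 := mul_le_mul_of_nonneg_left h9 hc.le
  linarith

lemma one_le_Lim (S : Set ℕ)
    (h : Tendsto (fun g : ℕ => Real.log (first S g) / Real.sqrt g) atTop (𝓝 1)) : 1 ≤ Lim S := by
  by_contra hcon
  have hcon' : Lim S < (1 : EReal) := not_le.1 hcon
  obtain ⟨r, h1, h2⟩ := EReal.lt_iff_exists_real_btwn.1 hcon'
  have h3 : r < 1 := by exact_mod_cast h2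
  obtain ⟨c, hc⟩ : ∃ c, c = max r (1 / 4) := ⟨_, rfl⟩
  have hc0 : 0 < c := by
    rw [hc]
    exact lt_of_lt_of_le (by norm_num) (le_max_right _ _)
  have hc1 : c < 1 := by
    rw [hc]
    exact max_lt h3 (by norm_num)
  have hs1 : 1 < 1 / Real.sqrt c := by
    rw [lt_div_iff₀ (Real.sqrt_pos.2 hc0), one_mul]
    rw [Real.sqrt_lt' one_pos]
    simpa using hc1
  have h4 : (c : EReal) ≤ Lim S := by
    apply Lim_ge S c hc0
    apply Eventually.frequently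
    filter_upwards [h.eventually_lt_const hs1, h.eventually_const_lt (show (1 / 2 : ℝ) < 1 by norm_num),
      eventually_ge_atTop 1] with g h5 h6 h7
    have hg : (0 : ℝ) < Real.sqrt g := Real.sqrt_pos.2 (by exact_mod_cast h7)
    have hne : (After S g).Nonempty := by
      by_contra hemp
      rw [Set.not_nonempty_iff_eq_empty] at hemp
      have h8 : first S g = 0 := by
        unfold first
        rw [hemp, Nat.sInf_empty]
      rw [h8] at h6
      simp at h6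
      linarith
    refine ⟨hne, ?_⟩
    have hsc : 0 < Real.sqrt c := Real.sqrt_pos.2 hc0
    rw [div_lt_div_iff₀ hg hsc, one_mul] at h5
    have h9 : 0 ≤ Real.log (first S g) := Real.log_natCast_nonneg _
    have h10 : (Real.log (first S g) * Real.sqrt c) ^ 2 ≤ Real.sqrt g ^ 2 :=
      pow_le_pow_left₀ (by positivity) h5.le 2
    rw [mul_pow, Real.sq_sqrt hc0.le, Real.sq_sqrt (Nat.cast_nonneg g)] at h10
    linarith
  have h5 : (r : EReal) ≤ c := by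
    apply EReal.coe_le_coe_iff.2
    rw [hc]
    exact le_max_left _ _
  exact absurd (h5.trans h4) (not_le.2 h1)

section models

variable {Ω : Type} [mΩ : MeasurableSpace Ω] {μ : Measure Ω} [IsProbabilityMeasure μ] {ℱ : Filtration ℕ mΩ}
  {S : ℕ → Set Ω} {P : Set ℕ} {z : ℕ → ℕ}

/-- below the threshold -/
theorem Lim_below (hM : Mod μ ℱ S P z) (hz : Monotone z) (hs : Slow z) : ∀ᵐ ω ∂μ, Lim {k | ω ∈ S k} = 1 := by
  have h1 : ∀ᵐ ω ∂μ, ∀ n : ℕ, ∀ᶠ X : ℕ in atTop, ∃ m, X < m ∧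
      m ≤ X + ⌊(1 + 1 / ((n : ℝ) + 1)) * Real.log X ^ 2⌋₊ ∧ m ∈ {k | ω ∈ S k} := by
    rw [ae_all_iff]
    intro n
    have hn : (0 : ℝ) ≤ n := Nat.cast_nonneg n
    apply upper hM hz hs
    · positivity
    · rw [div_le_iff₀ (by positivity)]
      linarith
  filter_upwards [h1, main hM hz hs] with ω h2 h3
  exact le_antisymm (Lim_le_one _ h2) (one_le_Lim _ h3)

end models

/-- above the threshold -/
theorem Lim_above (ε : ℝ) (hε : 0 < ε) : ∃ δ : ℝ, 0 < δ ∧ ∃ c : ℝ, 1 < c ∧ ∀ (z : ℕ → ℕ), Monotone z →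
    (∀ᶠ n : ℕ in atTop, (z n : ℝ) ≤ (n : ℝ) ^ δ) → (∃ᶠ n : ℕ in atTop, Real.log n ^ ε ≤ z n) →
    ∀ (Ω : Type) (mΩ : MeasurableSpace Ω) (μ : Measure Ω) (_ : IsProbabilityMeasure μ) (ℱ : Filtration ℕ mΩ)
    (S : ℕ → Set Ω), Mod μ ℱ S Set.univ z → ∀ᵐ ω ∂μ, (c : EReal) ≤ Lim {k | ω ∈ S k} := by
  obtain ⟨δ, hδ, η, hη, H⟩ := above ε hε
  obtain ⟨θ, hθ⟩ : ∃ θ, θ = min η (1 / 2) := ⟨_, rfl⟩
  have hθ0 : 0 < θ := by rw [hθ]; exact lt_min hη (by norm_num)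
  have hθ1 : θ ≤ 1 / 2 := by rw [hθ]; exact min_le_right _ _
  have hθη : θ ≤ η := by rw [hθ]; exact min_le_left _ _
  have hpos : 0 < (1 - θ) ^ 2 := by
    have : 0 < 1 - θ := by linarith
    positivity
  refine ⟨δ, hδ, 1 / (1 - θ) ^ 2, ?_, ?_⟩
  · rw [lt_div_iff₀ hpos]
    nlinarith
  intro z hz hupp hfr Ω mΩ μ hμ ℱ S hM
  filter_upwards [(H z hz hupp Ω mΩ μ hμ ℱ S hM).2 hfr] with ω hω
  apply Lim_ge _ _ (by positivity)
  refine hω.mono ?_
  rintro g ⟨h1, h2⟩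
  refine ⟨h1, ?_⟩
  have h3 : Real.log (first {k | ω ∈ S k} g) ≤ (1 - θ) * Real.sqrt g := by
    refine h2.trans ?_
    apply mul_le_mul_of_nonneg_right _ (Real.sqrt_nonneg _)
    linarith
  have h4 : 0 ≤ Real.log (first {k | ω ∈ S k} g) := Real.log_natCast_nonneg _
  have h5 : Real.log (first {k | ω ∈ S k} g) ^ 2 ≤ ((1 - θ) * Real.sqrt g) ^ 2 := pow_le_pow_left₀ h4 h3 2
  rw [mul_pow, Real.sq_sqrt (Nat.cast_nonneg g)] at h5
  rw [one_div, inv_mul_le_iff₀ hpos]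
  exact h5

/-- the limit superior is one if and only if the sieve grows slowly -/
theorem Lim_iff (z : ℕ → ℕ) (hz : Monotone z) (hupp : ∀ δ : ℝ, 0 < δ → ∀ᶠ n : ℕ in atTop, (z n : ℝ) ≤ (n : ℝ) ^ δ)
    (Ω : Type) (mΩ : MeasurableSpace Ω) (μ : Measure Ω) (hμ : IsProbabilityMeasure μ) (ℱ : Filtration ℕ mΩ)
    (S : ℕ → Set Ω) (hM : Mod μ ℱ S Set.univ z) :
    (∀ᵐ ω ∂μ, Lim {k | ω ∈ S k} = 1) ↔
      ∀ ε : ℝ, 0 < ε → ∀ᶠ n : ℕ in atTop, (z n : ℝ) ≤ Real.log n ^ ε := by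
  constructor
  · intro hlaw
    by_contra hcon
    push Not at hcon
    obtain ⟨ε, hε, hfr⟩ := hcon
    obtain ⟨δ, hδ, c, hc, H⟩ := Lim_above ε hε
    have hfr' : ∃ᶠ n : ℕ in atTop, Real.log n ^ ε ≤ z n := hfr.mono fun n h => h.le
    have h1 := H z hz (hupp δ hδ) hfr' Ω mΩ μ hμ ℱ S hM
    obtain ⟨ω, h2, h3⟩ := (hlaw.and h1).exists
    rw [h2] at h3
    have h4 : c ≤ 1 := by exact_mod_cast h3
    linarith
  · intro hs
    exact Lim_below hM hz hs

end Pool.Agent.J6H89.SM
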