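import Mathlib
import Pool.Agent.J6H89.SM.Lim

/-!
# General sets of small primes
-/

set_option autoImplicit false

namespace Pool.Agent.J6H89.SM

open Finset MeasureTheory Filter Topology

/-- the distance of the blocks from a set of primes with a small interval -/
theorem dist_of (τ : ℝ) (hτ0 : 0 < τ) (hτ1 : τ ≤ 1 / 16) : ∃ D : ℕ, ∀ (z : ℕ → ℕ) (δ : ℝ), PowU z δ →
    δ * D ≤ 1 / 4 → ∀ᶠ X : ℕ in atTop, ∀ (k T : ℕ) (A : Finset ℕ), (k : ℝ) ≤ 2 * Real.log X ^ 2 →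
      (∀ p ∈ A, p.Prime ∧ p ≤ z X) → (∏ p ∈ A, p) ∣ T → (∀ p : ℕ, p.Prime → p ∣ T → p ∈ A) → 0 < T → k ≤ T →
      (T : ℝ) ≤ (X : ℝ) ^ τ →
      (∏ p ∈ A, (1 - (p : ℝ)⁻¹)⁻¹) * (((Icc 1 k).filter (fun n => ∀ p ∈ A, ¬ p ∣ n)).card : ℝ) ≤
        (1 - 5 * τ) * Real.log X ^ 2 → Dist z τ X k T := by
  classical
  obtain ⟨K, hK, H⟩ := massP
  obtain ⟨b0, hb0⟩ := exists_pow_lt_of_lt_one (show 0 < τ / 4 by positivity) (show (1 / 2 : ℝ) < 1 by norm_num)
  obtain ⟨b, hb⟩ : ∃ b, b = max K b0 := ⟨_, rfl⟩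
  have hKb : K ≤ b := by rw [hb]; exact le_max_left _ _
  have hbg : (1 / 2 : ℝ) ^ b ≤ τ / 4 := by
    refine le_trans ?_ hb0.le
    apply pow_le_pow_of_le_one (by norm_num) (by norm_num)
    rw [hb]; exact le_max_right _ _
  refine ⟨K * b + 2, ?_⟩
  intro z δ h hD
  have hX4 : Tendsto (fun X : ℕ => (X : ℝ) ^ (0.25 : ℝ)) atTop atTop := rpow_tend _ (by norm_num)
  filter_upwards [pow_small4 h (K * b + 2) (by exact_mod_cast hD) (τ / 64)
    (by positivity), log_tend.eventually_ge_atTop 10, eventually_ge_atTop 2,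
    hX4.eventually_ge_atTop 8] with X a2 a6 a7 a8
  intro k T A hk2 hA hAT hTA hT0 hkT hTX hA3
  obtain ⟨l, hl⟩ : ∃ l, l = Real.log X := ⟨_, rfl⟩
  rw [← hl] at a6 hk2 hA3
  have hl0 : 0 < l := by linarith
  have hX0 : (0 : ℝ) < X := by exact_mod_cast (by omega : 0 < X)
  have hX1 : (1 : ℝ) ≤ X := by exact_mod_cast (by omega : 1 ≤ X)
  -- the places of the blocks
  obtain ⟨n, hn⟩ : ∃ n, n = X / (4 * T) := ⟨_, rfl⟩
  obtain ⟨x0, hx0⟩ : ∃ x0, x0 = T * (X / T + 1) := ⟨_, rfl⟩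
  have hx1 : X ≤ x0 := by
    rw [hx0]
    have h1 := Nat.div_add_mod X T
    have h2 := Nat.mod_lt X hT0
    have h3 : T * (X / T + 1) = T * (X / T) + T := by ring
    omega
  have hx2 : x0 ≤ X + T := by
    rw [hx0]
    have h1 := Nat.div_add_mod X T
    have h3 : T * (X / T + 1) = T * (X / T) + T := by ring
    omega
  have hnT : n * T * 4 ≤ X := by
    have := Nat.div_mul_le_self X (4 * T)
    rw [← hn] at this
    linarith
  have hTR : (0 : ℝ) < T := by exact_mod_cast hT0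
  have hT4 : (T : ℝ) ≤ (X : ℝ) ^ (0.25 : ℝ) := hTX.trans (Real.rpow_le_rpow_of_exponent_le hX1 (by linarith))
  have hX5 : (1 : ℝ) ≤ (X : ℝ) ^ (0.5 : ℝ) := Real.one_le_rpow hX1 (by norm_num)
  have h8T : 8 * (T : ℝ) * (X : ℝ) ^ (0.5 : ℝ) ≤ X := by
    calc 8 * (T : ℝ) * (X : ℝ) ^ (0.5 : ℝ) ≤ (X : ℝ) ^ (0.25 : ℝ) * (X : ℝ) ^ (0.25 : ℝ) * (X : ℝ) ^ (0.5 : ℝ) := by
          gcongr
      _ = (X : ℝ) ^ (1 : ℝ) := by
          rw [← Real.rpow_add hX0, ← Real.rpow_add hX0]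
          norm_num
      _ = X := Real.rpow_one _
  have hT8R : 8 * (T : ℝ) ≤ X := by
    refine le_trans ?_ h8T
    exact le_mul_of_one_le_right (by positivity) hX5
  have hT8 : 8 * T ≤ X := by exact_mod_cast hT8R
  have hKX : (X : ℝ) / (8 * T) ≤ n := by
    have h2 : X < (n + 1) * (4 * T) := by
      rw [hn]
      have := Nat.lt_div_mul_add (a := X) (b := 4 * T) (by omega)
      linarith
    have h4 : (X : ℝ) < ((n : ℝ) + 1) * (4 * T) := by exact_mod_cast h2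
    rw [div_le_iff₀ (by positivity)]
    linarith
  have hn5 : (X : ℝ) ^ (0.5 : ℝ) ≤ n := by
    refine le_trans ?_ hKX
    rw [le_div_iff₀ (by positivity)]
    linarith
  refine ⟨hT0, hkT, hTX, ?_⟩
  rw [← hn, ← hx0, ← hl]
  have hstep : ∀ i ∈ Ioc 0 n, ∑ j ∈ range k, wt Set.univ z (x0 + i * T + j + 1) ≤
      (∏ p ∈ A, (1 - (p : ℝ)⁻¹)⁻¹) * ∑ t ∈ (Icc 1 k).filter (fun n => ∀ p ∈ A, ¬ p ∣ n),
        wt ((A : Set ℕ)ᶜ) z (x0 + i * T + t) := by
    intro i _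
    apply wt_le4 A h.mono
    · apply dvd_add
      · rw [hx0]; exact hAT.trans (Dvd.intro _ rfl)
      · exact hAT.trans (Dvd.intro_left _ rfl)
    · intro p hp
      exact ⟨(hA p hp).1, (hA p hp).2.trans (h.mono (by omega))⟩
  refine (sum_le_sum hstep).trans ?_
  rw [← mul_sum, sum_comm]
  have hTd : ∀ p ∈ ((A : Set ℕ)ᶜ), p.Prime → ¬ p ∣ T := by
    intro p hpA hp hd
    exact hpA (hTA p hp hd)
  have hin : ∀ t ∈ (Icc 1 k).filter (fun n => ∀ p ∈ A, ¬ p ∣ n),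
      ∑ i ∈ Ioc 0 n, wt ((A : Set ℕ)ᶜ) z (x0 + i * T + t) ≤ (1 + τ / 2) * n := by
    intro t ht
    rw [mem_filter, mem_Icc] at ht
    have h1 := H ((A : Set ℕ)ᶜ) z h.mono b (z (2 * X)) (x0 + t) T n hKb hTd (h.mono (by omega))
    have h2 : ∑ i ∈ Ioc 0 n, wt ((A : Set ℕ)ᶜ) z (x0 + i * T + t) =
        ∑ i ∈ Ioc 0 n, wt ((A : Set ℕ)ᶜ) z (x0 + t + i * T) := by
      apply sum_congr rfl
      intro i _
      congr 1
      ring
    rw [h2]
    refine h1.trans ?_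
    have h6 : (0 : ℝ) ≤ n := Nat.cast_nonneg n
    have h7 : τ / 64 * (X : ℝ) ^ (0.5 : ℝ) ≤ τ / 64 * n := mul_le_mul_of_nonneg_left hn5 (by positivity)
    have h8 : (1 / 2 : ℝ) ^ b * n ≤ τ / 4 * n := mul_le_mul_of_nonneg_right hbg h6
    have h9 : 0 ≤ τ * n := by positivity
    linarith
  obtain ⟨V, hV⟩ : ∃ V, V = ∏ p ∈ A, (1 - (p : ℝ)⁻¹)⁻¹ := ⟨_, rfl⟩
  obtain ⟨F, hF⟩ : ∃ F, F = (Icc 1 k).filter (fun n => ∀ p ∈ A, ¬ p ∣ n) := ⟨_, rfl⟩
  rw [← hV, ← hF] at hA3 ⊢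
  rw [← hF] at hin
  have hV0 : 0 ≤ V := by
    rw [hV]
    apply prod_nonneg
    intro p hp
    have := one_le_factor (hA p hp).1
    linarith
  calc V * ∑ t ∈ F, ∑ i ∈ Ioc 0 n, wt ((A : Set ℕ)ᶜ) z (x0 + i * T + t)
      ≤ V * ∑ t ∈ F, (1 + τ / 2) * (n : ℝ) := by
        apply mul_le_mul_of_nonneg_left (sum_le_sum hin) hV0
    _ = (V * (F.card : ℝ)) * ((1 + τ / 2) * n) := by
        rw [sum_const, nsmul_eq_mul]
        ring
    _ ≤ ((1 - 5 * τ) * l ^ 2) * ((1 + τ / 2) * n) := by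
        apply mul_le_mul_of_nonneg_right hA3
        positivity
    _ = ((1 - 5 * τ) * (1 + τ / 2)) * (l ^ 2 * n) := by ring
    _ ≤ (1 - 4 * τ) * (l ^ 2 * n) := by
        apply mul_le_mul_of_nonneg_right _ (by positivity)
        have : 0 < τ ^ 2 := by positivity
        linarith [show (1 - 5 * τ) * (1 + τ / 2) = 1 - 9 / 2 * τ - 5 / 2 * τ ^ 2 by ring]
    _ = (1 - 4 * τ) * l ^ 2 * n := by ring

/-- the places of the first gaps, one scale at a time -/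
theorem scale_gen (τ : ℝ) (hτ0 : 0 < τ) (hτ : τ ≤ 1 / 16) : ∃ δ0 : ℝ, 0 < δ0 ∧ ∀ (z : ℕ → ℕ) (δ : ℝ), δ ≤ δ0 →
    PowU z δ → ∀ (k : ℕ → ℕ) (C : ℕ → Prop), (∀ᶠ X : ℕ in atTop, C X → ∃ T : ℕ, Dist z τ X (k X) T) →
    ∀ (Ω : Type) (mΩ : MeasurableSpace Ω) (μ : Measure Ω) (_ : IsProbabilityMeasure μ) (ℱ : Filtration ℕ mΩ)
    (S : ℕ → Set Ω), Mod μ ℱ S Set.univ z → ∀ᵐ ω ∂μ, ∀ᶠ X : ℕ in atTop, C X →
      ∀ g : ℕ, g ≤ k X → (After {k | ω ∈ S k} g).Nonempty ∧ first {k | ω ∈ S k} g ≤ 6 * X := by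
  classical
  obtain ⟨D2, H2⟩ := weak_prod4
  obtain ⟨δ0, hδdef⟩ : ∃ δ0 : ℝ, δ0 = τ / (64 * ((D2 : ℝ) + 1)) := ⟨_, rfl⟩
  have hD2 : (0 : ℝ) ≤ D2 := Nat.cast_nonneg _
  have hδ0 : 0 < δ0 := by rw [hδdef]; positivity
  have hδm : 64 * δ0 * ((D2 : ℝ) + 1) = τ := by
    rw [hδdef]
    field_simp
  have hδ2' : δ0 * D2 ≤ 1 / 4 := by nlinarith [mul_nonneg hδ0.le hD2]
  have hδ3' : 64 * δ0 ≤ τ := by nlinarith [mul_nonneg hδ0.le hD2]
  refine ⟨δ0, hδ0, ?_⟩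
  intro z δ hδδ h k C hC Ω mΩ μ _ ℱ S hM
  have hδ2 : δ * D2 ≤ 1 / 4 := (mul_le_mul_of_nonneg_right hδδ hD2).trans hδ2'
  have hδ3 : 64 * δ ≤ τ := by linarith
  have hsum : Summable (fun X : ℕ => (X : ℝ) ^ (-2 : ℝ)) := Real.summable_nat_rpow.2 (by norm_num)
  have hθ : 0 < τ / 4 := by positivity
  -- nothing chosen in `(X, 2 X]`
  have hweak : ∀ᵐ ω ∂μ, ∀ᶠ X : ℕ in atTop, ∃ m, X < m ∧ m ≤ X + X ∧ ω ∈ S m := by
    have hev : ∀ᶠ X : ℕ in atTop, μ.real (Nn S X (X + X) ∩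
        Gd μ ℱ S (Rough Set.univ z) (lo Set.univ z (τ / 4)) (hi Set.univ z (τ / 4)) X (X + X)) ≤
          (X : ℝ) ^ (-2 : ℝ) := by
      filter_upwards [H2 z δ (τ / 4) hθ (by linarith) h (by linarith) hδ2] with X hX
      exact (run_le hM.adapted (Rough Set.univ z) (lo Set.univ z (τ / 4)) (hi Set.univ z (τ / 4)) X X hX.1).trans
        hX.2
    filter_upwards [bc _ _ hsum hev, ev_ok hM (τ / 4) hθ] with ω hω1 hω2
    filter_upwards [hω1, hω2] with X h3 h4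
    by_contra hcon
    push Not at hcon
    apply h3
    refine ⟨fun m hm1 hm2 => hcon m hm1 hm2, fun j hj _ => h4 j hj⟩
  -- the distances
  obtain ⟨T, hT⟩ : ∃ T : ℕ → ℕ, ∀ᶠ X : ℕ in atTop, C X → Dist z τ X (k X) (T X) := by
    refine ⟨fun X => if hex : ∃ T, Dist z τ X (k X) T then hex.choose else 0, ?_⟩
    filter_upwards [hC] with X hX hz
    have hex := hX hz
    rw [dif_pos hex]
    exact hex.choose_spec
  have hstart : ∀ X : ℕ, 0 < T X → X ≤ T X * (X / T X + 1) ∧ T X * (X / T X + 1) ≤ X + T X := by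
    intro X hT0
    have h1 := Nat.div_add_mod X (T X)
    have h2 := Nat.mod_lt X hT0
    have h3 : T X * (X / T X + 1) = T X * (X / T X) + T X := by ring
    rw [h3]
    constructor <;> omega
  obtain ⟨f, hf⟩ : ∃ f : ℕ → ℕ → ℝ, f = fun X i => ∑ j ∈ range (k X),
      wt Set.univ z (T X * (X / T X + 1) + i * T X + j + 1) := ⟨_, rfl⟩
  have hwt : ∀ m, 0 ≤ wt Set.univ z m := by
    intro m
    unfold wt
    split
    · exact (W_pos _ _).le
    · exact le_rfl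
  have hf0 : ∀ X i, 0 ≤ f X i := by
    intro X i
    rw [hf]
    exact sum_nonneg (fun j _ => hwt _)
  have hlong : ∀ᵐ ω ∂μ, ∀ᶠ X : ℕ in atTop, C X →
      k X ≤ X ∧ ∃ x, X ≤ x ∧ x ≤ 2 * X ∧ ∀ m, x < m → m ≤ x + k X → ω ∉ S m := by
    have hev : ∀ᶠ X : ℕ in atTop, μ.real {ω | C X ∧ ω ∈
        BktG μ ℱ S (Rough Set.univ z) (lo Set.univ z (τ / 4))
        (hi Set.univ z (τ / 4)) (fun i => 1 ≤ i ∧ f X i ≤ (1 - 3 * τ) * Real.log X ^ 2)
        (T X * (X / T X + 1)) (T X) (k X) (X / (4 * T X) + 1)} ≤ (X : ℝ) ^ (-2 : ℝ) := by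
      filter_upwards [block_prod4 h τ hτ0 hτ hδ3, many_blocks4 τ hτ0 hτ, hT, eventually_ge_atTop 2,
        log_tend.eventually_ge_atTop 1] with X b1 b2 b4 b3 b5
      by_cases hz : C X
      · have hD := b4 hz
        obtain ⟨hs1, hs2⟩ := hstart X hD.pos
        obtain ⟨b6, b7⟩ := b2 (T X) hD.pos hD.small
        have hKT : X / (4 * T X) * (4 * T X) ≤ X := Nat.div_mul_le_self X _
        have hkT : k X ≤ T X := hD.len
        have hcount := good_count4 (f X) (hf0 X) (X / (4 * T X)) τ (Real.log X ^ 2) hτ0 hτ (by positivity) (by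
          rw [hf]
          exact hD.avg)
        have hset : {ω | C X ∧ ω ∈ BktG μ ℱ S (Rough Set.univ z) (lo Set.univ z (τ / 4))
            (hi Set.univ z (τ / 4)) (fun i => 1 ≤ i ∧ f X i ≤ (1 - 3 * τ) * Real.log X ^ 2)
            (T X * (X / T X + 1)) (T X) (k X) (X / (4 * T X) + 1)} =
            BktG μ ℱ S (Rough Set.univ z) (lo Set.univ z (τ / 4))
            (hi Set.univ z (τ / 4)) (fun i => 1 ≤ i ∧ f X i ≤ (1 - 3 * τ) * Real.log X ^ 2)
            (T X * (X / T X + 1)) (T X) (k X) (X / (4 * T X) + 1) := by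
          ext ω
          exact ⟨fun h => h.2, fun h => ⟨hz, h⟩⟩
        rw [hset]
        refine (blocksG hM.adapted (Rough Set.univ z) hM.sieved (lo Set.univ z (τ / 4)) (hi Set.univ z (τ / 4))
          (hi_nonneg Set.univ z (τ / 4) hθ.le) (fun i => 1 ≤ i ∧ f X i ≤ (1 - 3 * τ) * Real.log X ^ 2) _
          (T X) (k X) (X / (4 * T X) + 1)
          ((X : ℝ) ^ (-(1 - 2 * τ))) hkT ?_ ?_ ?_).trans (b7 _ (by convert hcount))
        · intro j hj
          obtain ⟨i, hi'⟩ : ∃ i, T X * (X / T X + 1) + j = X + i :=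
            ⟨T X * (X / T X + 1) + j - X, by omega⟩
          rw [hi']
          apply b1.1
          have h1 : X / (4 * T X) * T X * 4 ≤ X := by nlinarith
          have h2 : (X / (4 * T X) + 1) * T X = X / (4 * T X) * T X + T X := by ring
          omega
        · apply Real.rpow_le_one_of_one_le_of_nonpos
          · exact_mod_cast (by omega : 1 ≤ X)
          · linarith
        · intro i hi' hG
          have h5 : i * T X ≤ X / (4 * T X) * T X := Nat.mul_le_mul_right _ (by omega)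
          have h6 : X / (4 * T X) * T X * 4 ≤ X := by nlinarith
          apply b1.2
          · omega
          · omega
          · have := hG.2
            rw [hf] at this
            exact this
      · have hset : {ω | C X ∧ ω ∈ BktG μ ℱ S (Rough Set.univ z) (lo Set.univ z (τ / 4))
            (hi Set.univ z (τ / 4)) (fun i => 1 ≤ i ∧ f X i ≤ (1 - 3 * τ) * Real.log X ^ 2)
            (T X * (X / T X + 1)) (T X) (k X) (X / (4 * T X) + 1)} = ∅ := by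
          ext ω
          simp [hz]
        rw [hset, measureReal_empty]
        positivity
    filter_upwards [bc _ _ hsum hev, ev_ok hM (τ / 4) hθ] with ω hω1 hω2
    filter_upwards [hω1, hω2, many_blocks4 τ hτ0 hτ, hT] with X h3 h4 b2 b4 hz
    have hD := b4 hz
    obtain ⟨b6, _⟩ := b2 (T X) hD.pos hD.small
    have hkT : k X ≤ T X := hD.len
    have h3' : ω ∉ BktG μ ℱ S (Rough Set.univ z) (lo Set.univ z (τ / 4))
        (hi Set.univ z (τ / 4)) (fun i => 1 ≤ i ∧ f X i ≤ (1 - 3 * τ) * Real.log X ^ 2)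
        (T X * (X / T X + 1)) (T X) (k X) (X / (4 * T X) + 1) := fun h5 => h3 ⟨hz, h5⟩
    unfold BktG at h3'
    simp only [Set.mem_ofPred_eq, not_forall, not_not] at h3'
    obtain ⟨i, hi1, _, hi2⟩ := h3'
    obtain ⟨hs1, hs2⟩ := hstart X hD.pos
    have h5 : i * T X ≤ X / (4 * T X) * T X := Nat.mul_le_mul_right _ (by omega)
    have hKT : X / (4 * T X) * (4 * T X) ≤ X := Nat.div_mul_le_self X _
    have h6 : X / (4 * T X) * T X * 4 ≤ X := by nlinarith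
    refine ⟨by omega, T X * (X / T X + 1) + i * T X, by omega, by omega, ?_⟩
    intro m hm1 hm2
    exact hi2 m hm1 hm2 (fun j hj _ => h4 j (by omega))
  filter_upwards [hweak, hlong] with ω h1 h2
  filter_upwards [first_le4 {k | ω ∈ S k} h1, h2] with X h3 h4 hz
  obtain ⟨h5, h6⟩ := h4 hz
  exact h3 (k X) h5 h6

end Pool.Agent.J6H89.SM
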