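import Mathlib
import Pool.Agent.J6H89.SM.Lim

/-!
# The limit superior of the normalised gaps and the first gaps
-/

set_option autoImplicit false

namespace Pool.Agent.J6H89.SM

open Finset MeasureTheory Filter Topology

lemma Lim_ge_inv (S : Set ℕ) (κ : ℝ) (hκ : 0 < κ) (h : ∀ n : ℕ, ∀ᶠ g : ℕ in atTop, (After S g).Nonempty ∧
    Real.log (first S g) ≤ (Real.sqrt κ + 1 / ((n : ℝ) + 1)) * Real.sqrt g) : ((1 / κ : ℝ) : EReal) ≤ Lim S := by
  by_contra hcon
  have hcon' : Lim S < ((1 / κ : ℝ) : EReal) := not_le.1 hcon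
  obtain ⟨r, h1, h2⟩ := EReal.lt_iff_exists_real_btwn.1 hcon'
  have h3 : r < 1 / κ := EReal.coe_lt_coe_iff.1 h2
  obtain ⟨c, hc⟩ : ∃ c, c = max r (1 / κ / 2) := ⟨_, rfl⟩
  have hκi : 0 < 1 / κ := by positivity
  have hc0 : 0 < c := by
    rw [hc]
    exact lt_of_lt_of_le (by positivity) (le_max_right _ _)
  have hc1 : c < 1 / κ := by
    rw [hc]
    exact max_lt h3 (by linarith)
  have hsc : 0 < Real.sqrt c := Real.sqrt_pos.2 hc0
  have hs1 : Real.sqrt κ < 1 / Real.sqrt c := by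
    rw [lt_div_iff₀ hsc, ← Real.sqrt_mul hκ.le, Real.sqrt_lt' one_pos]
    rw [lt_div_iff₀ hκ] at hc1
    linarith
  obtain ⟨n, hn⟩ := exists_nat_one_div_lt (show (0 : ℝ) < 1 / Real.sqrt c - Real.sqrt κ by linarith)
  have h4 : (c : EReal) ≤ Lim S := by
    apply Lim_ge S c hc0
    apply Eventually.frequently
    filter_upwards [h n] with g hg
    refine ⟨hg.1, ?_⟩
    have h5 : Real.log (first S g) ≤ 1 / Real.sqrt c * Real.sqrt g := by
      refine hg.2.trans ?_
      apply mul_le_mul_of_nonneg_right _ (Real.sqrt_nonneg _)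
      linarith
    have h9 : 0 ≤ Real.log (first S g) := Real.log_natCast_nonneg _
    have h10 : Real.log (first S g) ^ 2 ≤ (1 / Real.sqrt c * Real.sqrt g) ^ 2 := pow_le_pow_left₀ h9 h5 2
    rw [mul_pow, Real.sq_sqrt (Nat.cast_nonneg g), div_pow, Real.sq_sqrt hc0.le, one_pow] at h10
    calc c * Real.log (first S g) ^ 2 ≤ c * (1 / c * g) := mul_le_mul_of_nonneg_left h10 hc0.le
      _ = g := by
          field_simp
  have h5 : (r : EReal) ≤ c := by
    apply EReal.coe_le_coe_iff.2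
    rw [hc]
    exact le_max_left _ _
  exact absurd (h5.trans h4) (not_le.2 h1)

end Pool.Agent.J6H89.SM
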